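import Pool.Agent.Lib.MP_2a816b_nt.SG.Cut

/-!
# LEAF BIter (hard, about 350 lines): mean square of `∫ E(v) φ(v/L) e^(-s v) dv`

`L = log T`, `λ = lam ∈ [1/T, 2/T]`, `s = 1/2 + x + i t`, `|x| ≤ c/L`, `t ∈ [T/2, 3T]`, `φ` smooth and supported in `[p, q] ⊂ (b, b + l)`. Induction on `J`.
* IDENTITY. `Dt λ u = e^(-u/2) (E(u + λ/2) - E(u - λ/2))`, `E = Ev` (`e^(-u/2) (e^(u+λ/2) - e^(u-λ/2)) = 2 sinh(λ/2) e^(u/2)`). So with `A(s) = ∫ Dt λ u φ(u/L) e^(-(s-1/2)u) du` and `φ∓(y) = φ(y ∓ λ/(2L))`, substituting `v = u ± λ/2`: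
  `A(s) = ∫ E(v) [φ⁻(v/L) e^(-s(v-λ/2)) - φ⁺(v/L) e^(-s(v+λ/2))] dv = 2 sinh(sλ/2) Bs φ + e^(sλ/2) Bs (φ⁻ - φ) - e^(-sλ/2) Bs (φ⁺ - φ)`.
  (All supports are inside `(0, (b+l) L)`, so the integrals over `[0, (b+l)L]` are integrals over `ℝ`; `Ev` is measurable and `|Ev v| ≤ 7 e^v` by Chebyshev, see `LM.Ev_bdd`, `Chebyshev.psi` bounds.)
* `|2 sinh(sλ/2)| ≥ 2 |sin(tλ/2)| ≥ 1/4` since `tλ/2 ∈ [1/4, 3]`; `|e^(±sλ/2)| ≤ 2`.
* PLANCHEREL (or Schur with a Gaussian weight: `∫ |A(1/2+x+it)|² e^(-(t/T)²) dt = ∬ g(u) g(v) √π T e^(-(T(u-v)/2)²) ≤ 2π ∫ g²`, `g u = Dt λ u φ(u/L) e^(-xu)`): `∫_{T/2}^{3T} |A|² ≤ C S² ∫_{pL}^{qL} Dt²`, and `[pL, qL] ⊂ [bL, (b+l)L - 1]` for large `T`.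
* STEP `J → J+1`: `φ∓ - φ` is smooth, supported in `[p', q']` (`p' = (b+p)/2`, `q' = (q+b+l)/2`, `T` large) and its derivatives of order `≤ J` are at most `(λ/(2L)) S ≤ S/T` (mean value theorem). So `∫ |Bs (φ∓ - φ)|² ≤ C (S/T)² (∫ Dt² + T^(2(b+l)+2-2J))`, and `|Bs φ|² ≤ 16 * 3 (|A|² + 4 |Bs (φ⁻-φ)|² + 4 |Bs (φ⁺-φ)|²)`.
* BASE `J = 0`: `|Bs φ| ≤ S ∫_0^{(b+l)L} 7 e^v e^(-(1/2+x)v) dv ≤ C S T^((b+l)/2)`, squared and integrated over `t`: `≤ C S² T^(b+l+1)`.
-/

namespace Pool.Agent.Lib.MP_2a816b_nt.SG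

open Complex Set Filter Topology MeasureTheory
open scoped ContDiff

/-- bounded measurable functions with bounded support -/
def BIter_N (f : ℝ → ℝ) : Prop :=
  Measurable f ∧ ∃ K a b : ℝ, (∀ v, |f v| ≤ K) ∧ ∀ v, v ≤ a ∨ b ≤ v → f v = 0

theorem BIter_N_int {f : ℝ → ℝ} (hf : BIter_N f) {g : ℝ → ℂ} (hg : Continuous g) :
    Integrable (fun v => (f v : ℂ) * g v) := by
  obtain ⟨hm, K, a, b, hK, hz⟩ := hf
  have h1 : Function.support (fun v => (f v : ℂ) * g v) ⊆ Icc a b := by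
    intro v hv
    by_contra h
    apply hv
    have h2 : v ≤ a ∨ b ≤ v := by
      by_contra h3
      push Not at h3
      exact h ⟨h3.1.le, h3.2.le⟩
    show (f v : ℂ) * g v = 0
    rw [hz v h2, Complex.ofReal_zero, zero_mul]
  rw [← integrableOn_iff_integrable_of_support_subset h1]
  obtain ⟨C, hC⟩ := isCompact_Icc.exists_bound_of_continuousOn (s := Icc a b) hg.continuousOn
  refine Measure.integrableOn_of_bounded (M := K * C) isCompact_Icc.measure_lt_top.ne ?_ ?_
  · exact ((Complex.measurable_ofReal.comp hm).mul hg.measurable).aestronglyMeasurable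
  · refine (ae_restrict_iff' measurableSet_Icc).2 (ae_of_all _ fun v hv => ?_)
    rw [norm_mul, Complex.norm_real]
    exact mul_le_mul (hK v) (hC v hv) (norm_nonneg _) ((abs_nonneg _).trans (hK v))

theorem BIter_N_mul {f g : ℝ → ℝ} (hf : BIter_N f) (hg : Continuous g) :
    BIter_N fun v => f v * g v := by
  obtain ⟨hm, K, a, b, hK, hz⟩ := hf
  obtain ⟨C, hC⟩ := isCompact_Icc.exists_bound_of_continuousOn (s := Icc a b) hg.continuousOn
  refine ⟨hm.mul hg.measurable, K * |C|, a, b, fun v => ?_, fun v hv => ?_⟩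
  · have hK0 : 0 ≤ K := (abs_nonneg _).trans (hK v)
    by_cases h : v ∈ Icc a b
    · rw [abs_mul]
      exact mul_le_mul (hK v) ((hC v h).trans (le_abs_self C)) (abs_nonneg _) hK0
    · have h2 : v ≤ a ∨ b ≤ v := by
        by_contra h3
        push Not at h3
        exact h ⟨h3.1.le, h3.2.le⟩
      show |f v * g v| ≤ K * |C|
      rw [hz v h2, zero_mul, abs_zero]
      positivity
  · show f v * g v = 0
    rw [hz v hv, zero_mul]

theorem BIter_N_intR {f : ℝ → ℝ} (hf : BIter_N f) : Integrable f := by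
  have h := BIter_N_int hf (g := fun _ => 1) continuous_const
  have h2 := h.re
  refine h2.congr (ae_of_all _ fun v => ?_)
  simp

theorem BIter_N_sq {f : ℝ → ℝ} (hf : BIter_N f) : BIter_N fun v => f v ^ 2 := by
  obtain ⟨hm, K, a, b, hK, hz⟩ := hf
  refine ⟨hm.pow_const 2, K ^ 2, a, b, fun v => ?_, fun v hv => ?_⟩
  · rw [abs_pow]
    exact pow_le_pow_left₀ (abs_nonneg _) (hK v) 2
  · show f v ^ 2 = 0
    rw [hz v hv]
    norm_num

section schur

variable {T : ℝ}

/-- the Gaussian weight -/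
noncomputable def BIter_w (T t : ℝ) : ℝ := Real.exp (-(1 / T ^ 2) * t ^ 2)

/-- its Fourier transform -/
noncomputable def BIter_K (T x : ℝ) : ℝ :=
  Real.sqrt (Real.pi / (1 / T ^ 2)) * Real.exp (-(T ^ 2 / 4) * x ^ 2)

theorem BIter_w_int (hT : 0 < T) : Integrable (BIter_w T) :=
  integrable_exp_neg_mul_sq (by positivity)

theorem BIter_K_int (hT : 0 < T) : Integrable (BIter_K T) :=
  (integrable_exp_neg_mul_sq (by positivity)).const_mul _

theorem BIter_K_integral (hT : 0 < T) : ∫ x, BIter_K T x = 2 * Real.pi := by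
  unfold BIter_K
  rw [integral_const_mul, integral_gaussian, ← Real.sqrt_mul (by positivity)]
  have h1 : Real.pi / (1 / T ^ 2) * (Real.pi / (T ^ 2 / 4)) = (2 * Real.pi) ^ 2 := by
    field_simp
    ring
  rw [h1, Real.sqrt_sq (by positivity)]

theorem BIter_K_nonneg (T x : ℝ) : 0 ≤ BIter_K T x := by
  unfold BIter_K
  positivity

theorem BIter_K_neg (T x : ℝ) : BIter_K T (-x) = BIter_K T x := by
  unfold BIter_K
  rw [neg_sq]

theorem BIter_K_cont (T : ℝ) : Continuous (BIter_K T) := by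
  unfold BIter_K
  fun_prop

theorem BIter_fou (hT : 0 < T) (x : ℝ) :
    ∫ t : ℝ, (BIter_w T t : ℂ) * cexp (-(t * x) * I) = (BIter_K T x : ℂ) := by
  have hb : 0 < ((1 / T ^ 2 : ℝ) : ℂ).re := by
    rw [Complex.ofReal_re]
    positivity
  have h1 := fourierIntegral_gaussian hb ((-x : ℝ) : ℂ)
  have h2 : ∀ t : ℝ, (BIter_w T t : ℂ) * cexp (-(t * x) * I) =
      cexp (I * ((-x : ℝ) : ℂ) * t) * cexp (-((1 / T ^ 2 : ℝ) : ℂ) * t ^ 2) := by
    intro t
    unfold BIter_w
    rw [Complex.ofReal_exp, mul_comm]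
    congr 1
    · congr 1
      push_cast
      ring
    · congr 1
      push_cast
      ring
  simp only [h2]
  rw [h1]
  unfold BIter_K
  rw [Complex.ofReal_mul, Complex.ofReal_exp, Real.sqrt_eq_rpow, Complex.ofReal_cpow (by positivity)]
  congr 1
  · push_cast
    rfl
  · congr 1
    have hT' : (T : ℂ) ≠ 0 := Complex.ofReal_ne_zero.2 hT.ne'
    push_cast
    field_simp

theorem BIter_schur1 (hT : 0 < T) {g : ℝ → ℝ} (hg : BIter_N g) :
    Integrable (fun p : ℝ × ℝ => g p.1 ^ 2 * BIter_K T (p.1 - p.2)) ∧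
      ∫ p : ℝ × ℝ, g p.1 ^ 2 * BIter_K T (p.1 - p.2) = 2 * Real.pi * ∫ u, g u ^ 2 := by
  have hsq := BIter_N_intR (BIter_N_sq hg)
  have hin : ∀ u : ℝ, Integrable fun v => BIter_K T (u - v) := fun u =>
    (BIter_K_int hT).comp_sub_left u
  have hval : ∀ u : ℝ, ∫ v, BIter_K T (u - v) = 2 * Real.pi := fun u => by
    rw [integral_sub_left_eq_self (BIter_K T) volume u, BIter_K_integral hT]
  have hmeas : AEStronglyMeasurable (fun p : ℝ × ℝ => g p.1 ^ 2 * BIter_K T (p.1 - p.2))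
      (volume.prod volume) := by
    refine (Measurable.mul ?_ ?_).aestronglyMeasurable
    · exact (hg.1.comp measurable_fst).pow_const 2
    · exact (BIter_K_cont T).measurable.comp (measurable_fst.sub measurable_snd)
  have hI : Integrable (fun p : ℝ × ℝ => g p.1 ^ 2 * BIter_K T (p.1 - p.2))
      (volume.prod volume) := by
    rw [integrable_prod_iff hmeas]
    refine ⟨ae_of_all _ fun u => ?_, ?_⟩
    · exact (hin u).const_mul (g u ^ 2)
    have h3 : (fun u => ∫ v, ‖g u ^ 2 * BIter_K T (u - v)‖) = fun u => g u ^ 2 * (2 * Real.pi) := by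
      funext u
      rw [← hval u, ← integral_const_mul]
      refine integral_congr_ae (ae_of_all _ fun v => ?_)
      show ‖g u ^ 2 * BIter_K T (u - v)‖ = _
      rw [Real.norm_of_nonneg (mul_nonneg (sq_nonneg _) (BIter_K_nonneg _ _))]
    rw [h3]
    exact hsq.mul_const _
  refine ⟨hI, ?_⟩
  rw [Measure.volume_eq_prod, integral_prod _ hI]
  have h4 : (fun u => ∫ v, g u ^ 2 * BIter_K T (u - v)) = fun u => (2 * Real.pi) * g u ^ 2 := by
    funext u
    rw [integral_const_mul, hval, mul_comm]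
  rw [h4, integral_const_mul]

theorem BIter_schur2 (hT : 0 < T) {g : ℝ → ℝ} (hg : BIter_N g) :
    Integrable (fun p : ℝ × ℝ => g p.2 ^ 2 * BIter_K T (p.1 - p.2)) ∧
      ∫ p : ℝ × ℝ, g p.2 ^ 2 * BIter_K T (p.1 - p.2) = 2 * Real.pi * ∫ u, g u ^ 2 := by
  obtain ⟨h1, h2⟩ := BIter_schur1 hT hg
  have h3 : (fun p : ℝ × ℝ => g p.2 ^ 2 * BIter_K T (p.1 - p.2)) =
      fun p : ℝ × ℝ => (fun p : ℝ × ℝ => g p.1 ^ 2 * BIter_K T (p.1 - p.2)) p.swap := by
    funext p
    show _ = g p.2 ^ 2 * BIter_K T (p.2 - p.1)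
    rw [← BIter_K_neg T (p.2 - p.1), neg_sub]
  rw [h3]
  refine ⟨?_, ?_⟩
  · rw [Measure.volume_eq_prod] at h1 ⊢
    exact Integrable.swap (μ := (volume : Measure ℝ)) (ν := (volume : Measure ℝ)) h1
  · rw [← h2]
    rw [Measure.volume_eq_prod]
    exact integral_prod_swap (μ := (volume : Measure ℝ)) (ν := (volume : Measure ℝ))
      fun p : ℝ × ℝ => g p.1 ^ 2 * BIter_K T (p.1 - p.2)

/-- the Fourier integral -/
noncomputable def BIter_G (g : ℝ → ℝ) (t : ℝ) : ℂ := ∫ u, (g u : ℂ) * cexp (-(t * u) * I)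

theorem BIter_expn (x : ℝ) : ‖cexp (-(x : ℂ) * I)‖ = 1 := by
  have h : (-(x : ℂ) * I) = ((-x : ℝ) : ℂ) * I := by push_cast; ring
  rw [h, Complex.norm_exp_ofReal_mul_I]

theorem BIter_triple (hT : 0 < T) {g : ℝ → ℝ} (hg : BIter_N g) :
    Integrable (fun t => BIter_w T t * ‖BIter_G g t‖ ^ 2) ∧
      ∫ t, BIter_w T t * ‖BIter_G g t‖ ^ 2 ≤ 2 * Real.pi * ∫ u, g u ^ 2 := by
  have hgI := BIter_N_intR hg
  have hgC : Integrable fun u => (g u : ℂ) := hgI.ofReal
  have hwC : Integrable fun t => (BIter_w T t : ℂ) := (BIter_w_int hT).ofReal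
  set H : ℝ × (ℝ × ℝ) → ℂ := fun q => (BIter_w T q.1 : ℂ) * ((g q.2.1 : ℂ) * (g q.2.2 : ℂ)) *
    cexp (-((q.1 * (q.2.1 - q.2.2) : ℝ) : ℂ) * I) with hH
  have hmw : Measurable (BIter_w T) := by
    unfold BIter_w
    fun_prop
  have hHm : Measurable H := by
    refine Measurable.mul (Measurable.mul ?_ (Measurable.mul ?_ ?_)) ?_
    · exact Complex.measurable_ofReal.comp (hmw.comp measurable_fst)
    · exact Complex.measurable_ofReal.comp (hg.1.comp (measurable_fst.comp measurable_snd))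
    · exact Complex.measurable_ofReal.comp (hg.1.comp (measurable_snd.comp measurable_snd))
    · refine Continuous.measurable ?_
      fun_prop
  have hHI : Integrable H (volume.prod (volume.prod volume)) := by
    have h1 : Integrable (fun q : ℝ × (ℝ × ℝ) => (BIter_w T q.1 : ℂ) * ((g q.2.1 : ℂ) * (g q.2.2 : ℂ)))
        (volume.prod (volume.prod volume)) := hwC.mul_prod (hgC.mul_prod hgC)
    refine h1.mono hHm.aestronglyMeasurable (ae_of_all _ fun q => ?_)
    rw [hH]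
    show ‖(BIter_w T q.1 : ℂ) * ((g q.2.1 : ℂ) * (g q.2.2 : ℂ)) *
      cexp (-((q.1 * (q.2.1 - q.2.2) : ℝ) : ℂ) * I)‖ ≤ _
    rw [norm_mul, BIter_expn, mul_one]
  have h5 : ∀ t : ℝ, ∫ p : ℝ × ℝ, H (t, p) ∂(volume.prod volume) =
      ((BIter_w T t * ‖BIter_G g t‖ ^ 2 : ℝ) : ℂ) := by
    intro t
    have h6 : (fun p : ℝ × ℝ => H (t, p)) = fun p : ℝ × ℝ => (BIter_w T t : ℂ) *
        (((g p.1 : ℂ) * cexp (-(t * p.1) * I)) * ((g p.2 : ℂ) * cexp ((t * p.2) * I))) := by
      funext p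
      rw [hH]
      show (BIter_w T t : ℂ) * ((g p.1 : ℂ) * (g p.2 : ℂ)) *
        cexp (-((t * (p.1 - p.2) : ℝ) : ℂ) * I) = _
      have h7 : cexp (-((t * (p.1 - p.2) : ℝ) : ℂ) * I) =
          cexp (-(t * p.1) * I) * cexp ((t * p.2) * I) := by
        rw [← Complex.exp_add]
        congr 1
        push_cast
        ring
      rw [h7]
      ring
    rw [h6, integral_const_mul]
    rw [integral_prod_mul (fun u : ℝ => (g u : ℂ) * cexp (-(t * u) * I))
      (fun v : ℝ => (g v : ℂ) * cexp ((t * v) * I))]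
    have h8 : ∫ v : ℝ, (g v : ℂ) * cexp ((t * v) * I) = (starRingEnd ℂ) (BIter_G g t) := by
      unfold BIter_G
      rw [← integral_conj]
      refine integral_congr_ae (ae_of_all _ fun v => ?_)
      show (g v : ℂ) * cexp ((t * v) * I) = (starRingEnd ℂ) ((g v : ℂ) * cexp (-(t * v) * I))
      rw [map_mul, Complex.conj_ofReal, ← Complex.exp_conj, map_mul, map_neg, map_mul,
        Complex.conj_ofReal, Complex.conj_ofReal, Complex.conj_I]
      congr 2
      ring
    rw [h8]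
    show (BIter_w T t : ℂ) * (BIter_G g t * (starRingEnd ℂ) (BIter_G g t)) = _
    rw [Complex.mul_conj, Complex.normSq_eq_norm_sq]
    push_cast
    ring
  have h9 : Integrable (fun t => ((BIter_w T t * ‖BIter_G g t‖ ^ 2 : ℝ) : ℂ)) := by
    have h := hHI.integral_prod_left
    refine h.congr (ae_of_all _ fun t => ?_)
    exact h5 t
  have hre : Integrable (fun t => BIter_w T t * ‖BIter_G g t‖ ^ 2) := by
    refine h9.re.congr (ae_of_all _ fun t => ?_)
    exact Complex.ofReal_re _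
  refine ⟨hre, ?_⟩
  have h10 : ((∫ t, BIter_w T t * ‖BIter_G g t‖ ^ 2 : ℝ) : ℂ) =
      ∫ p : ℝ × ℝ, ((g p.1 * g p.2 * BIter_K T (p.1 - p.2) : ℝ) : ℂ) := by
    rw [← integral_complex_ofReal]
    have h11 : (fun t => ((BIter_w T t * ‖BIter_G g t‖ ^ 2 : ℝ) : ℂ)) =
        fun t => ∫ p : ℝ × ℝ, H (t, p) ∂(volume.prod volume) := by
      funext t
      exact (h5 t).symm
    have h12 := integral_integral_swap (μ := (volume : Measure ℝ))
      (ν := (volume : Measure ℝ).prod (volume : Measure ℝ)) (f := fun t p => H (t, p)) hHI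
    refine (congrArg (fun F : ℝ → ℂ => ∫ t, F t) h11).trans (h12.trans ?_)
    rw [Measure.volume_eq_prod]
    refine integral_congr_ae (ae_of_all _ fun p => ?_)
    show ∫ t, H (t, p) = _
    have h13 : (fun t => H (t, p)) = fun t : ℝ => ((g p.1 : ℂ) * (g p.2 : ℂ)) *
        ((BIter_w T t : ℂ) * cexp (-(t * (p.1 - p.2 : ℝ)) * I)) := by
      funext t
      rw [hH]
      show (BIter_w T t : ℂ) * ((g p.1 : ℂ) * (g p.2 : ℂ)) *
        cexp (-((t * (p.1 - p.2) : ℝ) : ℂ) * I) = _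
      push_cast
      ring
    rw [h13, integral_const_mul, BIter_fou hT]
    push_cast
    ring
  have hw0 : ∀ t, 0 ≤ BIter_w T t := fun t => (Real.exp_pos _).le
  have h14 : 0 ≤ ∫ t, BIter_w T t * ‖BIter_G g t‖ ^ 2 :=
    integral_nonneg fun t => mul_nonneg (hw0 t) (sq_nonneg _)
  obtain ⟨s1, s2⟩ := BIter_schur1 hT hg
  obtain ⟨s3, s4⟩ := BIter_schur2 hT hg
  have h15 : ∫ t, BIter_w T t * ‖BIter_G g t‖ ^ 2 =
      ‖((∫ t, BIter_w T t * ‖BIter_G g t‖ ^ 2 : ℝ) : ℂ)‖ := by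
    rw [Complex.norm_real, Real.norm_of_nonneg h14]
  rw [h15, h10]
  refine (norm_integral_le_integral_norm _).trans ?_
  have h16 : ∫ p : ℝ × ℝ, ((1 / 2 : ℝ) * (g p.1 ^ 2 * BIter_K T (p.1 - p.2)) +
      (1 / 2 : ℝ) * (g p.2 ^ 2 * BIter_K T (p.1 - p.2))) = 2 * Real.pi * ∫ u, g u ^ 2 := by
    rw [integral_add (s1.const_mul _) (s3.const_mul _), integral_const_mul, integral_const_mul,
      s2, s4]
    ring
  rw [← h16]
  refine integral_mono_of_nonneg (ae_of_all _ fun p => norm_nonneg _)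
    ((s1.const_mul _).add (s3.const_mul _)) (ae_of_all _ fun p => ?_)
  show ‖((g p.1 * g p.2 * BIter_K T (p.1 - p.2) : ℝ) : ℂ)‖ ≤ (1 / 2 : ℝ) *
    (g p.1 ^ 2 * BIter_K T (p.1 - p.2)) + (1 / 2 : ℝ) * (g p.2 ^ 2 * BIter_K T (p.1 - p.2))
  rw [Complex.norm_real, Real.norm_eq_abs, abs_mul, abs_mul, abs_of_nonneg (BIter_K_nonneg _ _)]
  have h17 := BIter_K_nonneg T (p.1 - p.2)
  have h18 : |g p.1| * |g p.2| ≤ 1 / 2 * (g p.1 ^ 2 + g p.2 ^ 2) := by
    rw [← sq_abs (g p.1), ← sq_abs (g p.2)]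
    nlinarith [sq_nonneg (|g p.1| - |g p.2|)]
  nlinarith [mul_le_mul_of_nonneg_right h18 h17]

/-- mean squares of Fourier integrals -/
theorem BIter_PL (hT : 0 < T) {g : ℝ → ℝ} (hg : BIter_N g) :
    ∫ t in (T / 2)..(3 * T), ‖BIter_G g t‖ ^ 2 ≤
      Real.exp 9 * (2 * Real.pi) * ∫ u, g u ^ 2 := by
  obtain ⟨h1, h2⟩ := BIter_triple hT hg
  have hle : T / 2 ≤ 3 * T := by linarith
  rw [intervalIntegral.integral_of_le hle]
  have h0 : ∀ t, 0 ≤ BIter_w T t * ‖BIter_G g t‖ ^ 2 := fun t =>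
    mul_nonneg (Real.exp_pos _).le (sq_nonneg _)
  have h3 : ∫ t in Ioc (T / 2) (3 * T), ‖BIter_G g t‖ ^ 2 ≤
      ∫ t in Ioc (T / 2) (3 * T), Real.exp 9 * (BIter_w T t * ‖BIter_G g t‖ ^ 2) := by
    refine integral_mono_of_nonneg (ae_of_all _ fun t => sq_nonneg _)
      (h1.const_mul _).integrableOn ?_
    refine (ae_restrict_iff' measurableSet_Ioc).2 (ae_of_all _ fun t ht => ?_)
    show ‖BIter_G g t‖ ^ 2 ≤ Real.exp 9 * (BIter_w T t * ‖BIter_G g t‖ ^ 2)
    have h4 : 1 ≤ Real.exp 9 * BIter_w T t := by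
      unfold BIter_w
      rw [← Real.exp_add]
      refine Real.one_le_exp ?_
      have h5 : 1 / T ^ 2 * t ^ 2 ≤ 9 := by
        rw [one_div, inv_mul_le_iff₀ (by positivity)]
        have h6 : t ^ 2 ≤ (3 * T) ^ 2 := pow_le_pow_left₀ (by linarith [ht.1]) ht.2 2
        linarith
      linarith
    nlinarith [mul_le_mul_of_nonneg_right h4 (sq_nonneg ‖BIter_G g t‖)]
  have h7 : ∫ t in Ioc (T / 2) (3 * T), Real.exp 9 * (BIter_w T t * ‖BIter_G g t‖ ^ 2) ≤
      ∫ t, Real.exp 9 * (BIter_w T t * ‖BIter_G g t‖ ^ 2) :=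
    setIntegral_le_integral (h1.const_mul _)
      (ae_of_all _ fun t => mul_nonneg (Real.exp_pos _).le (h0 t))
  refine h3.trans (h7.trans ?_)
  rw [integral_const_mul, mul_assoc]
  exact mul_le_mul_of_nonneg_left h2 (Real.exp_pos _).le

end schur


section line

/-- the integral over the line -/
noncomputable def BIter_B (f : ℝ → ℝ) (s : ℂ) : ℂ := ∫ v, (f v : ℂ) * cexp (-(s * v))

theorem BIter_B_eq (f : ℝ → ℝ) (x t : ℝ) :
    BIter_B f (ps x t) = BIter_G (fun v => f v * Real.exp (-((1 / 2 + x) * v))) t := by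
  unfold BIter_B BIter_G
  refine integral_congr_ae (ae_of_all _ fun v => ?_)
  show (f v : ℂ) * cexp (-(ps x t * v)) =
    ((f v * Real.exp (-((1 / 2 + x) * v)) : ℝ) : ℂ) * cexp (-(t * v) * I)
  rw [Complex.ofReal_mul, Complex.ofReal_exp, mul_assoc, ← Complex.exp_add]
  congr 2
  unfold ps
  push_cast
  ring

theorem BIter_N_exp {f : ℝ → ℝ} (hf : BIter_N f) (x : ℝ) :
    BIter_N (fun v => f v * Real.exp (-((1 / 2 + x) * v))) :=
  BIter_N_mul hf (by fun_prop)

theorem BIter_meansq {T : ℝ} (hT : 0 < T) {f : ℝ → ℝ} (hf : BIter_N f) (x : ℝ) :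
    ∫ t in (T / 2)..(3 * T), ‖BIter_B f (ps x t)‖ ^ 2 ≤
      Real.exp 9 * (2 * Real.pi) * ∫ u, (f u * Real.exp (-((1 / 2 + x) * u))) ^ 2 := by
  simp only [BIter_B_eq]
  exact BIter_PL hT (BIter_N_exp hf x)

theorem BIter_G_cont {g : ℝ → ℝ} (hg : BIter_N g) : Continuous (BIter_G g) := by
  unfold BIter_G
  refine continuous_of_dominated (bound := fun u => |g u|) (fun t => ?_) (fun t => ?_) ?_ ?_
  · exact (BIter_N_int hg (by fun_prop)).aestronglyMeasurable
  · refine ae_of_all _ fun u => ?_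
    have h : (-((t : ℂ) * u) * I) = -(((t * u : ℝ) : ℂ)) * I := by push_cast; ring
    rw [norm_mul, h, BIter_expn, mul_one, Complex.norm_real, Real.norm_eq_abs]
  · exact (BIter_N_intR hg).abs
  · refine ae_of_all _ fun u => ?_
    fun_prop

theorem BIter_B_cont {f : ℝ → ℝ} (hf : BIter_N f) (x : ℝ) :
    Continuous fun t : ℝ => BIter_B f (ps x t) := by
  simp only [BIter_B_eq]
  exact BIter_G_cont (BIter_N_exp hf x)

theorem BIter_B_add {f g : ℝ → ℝ} (hf : BIter_N f) (hg : BIter_N g) (s : ℂ) :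
    BIter_B (fun v => f v + g v) s = BIter_B f s + BIter_B g s := by
  unfold BIter_B
  rw [← integral_add (BIter_N_int hf (by fun_prop)) (BIter_N_int hg (by fun_prop))]
  refine integral_congr_ae (ae_of_all _ fun v => ?_)
  show ((f v + g v : ℝ) : ℂ) * _ = _
  rw [Complex.ofReal_add, add_mul]

theorem BIter_Ev_meas : Measurable Ev := by
  unfold Ev
  exact (Chebyshev.psi_mono.measurable.comp Real.measurable_exp).sub Real.measurable_exp

theorem BIter_Ev_le (v : ℝ) : |Ev v| ≤ 7 * Real.exp v := by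
  unfold Ev
  have h1 := Chebyshev.psi_le_const_mul_self (Real.exp_pos v).le
  have h2 := Chebyshev.psi_nonneg (Real.exp v)
  have h3 : Real.log 4 ≤ 2 := by
    have h4 : Real.log 4 = 2 * Real.log 2 := by
      rw [show (4 : ℝ) = 2 ^ 2 by norm_num, Real.log_pow]
      norm_num
    rw [h4]
    linarith [Real.log_two_lt_d9]
  have h5 := Real.exp_pos v
  have h6 : (Real.log 4 + 4) * Real.exp v ≤ 6 * Real.exp v :=
    mul_le_mul_of_nonneg_right (by linarith) h5.le
  rw [abs_le]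
  constructor <;> linarith

/-- products with a cutoff are nice -/
theorem BIter_N_of {h φ : ℝ → ℝ} {C L p q S : ℝ} (hm : Measurable h) (hC : 0 ≤ C)
    (hb : ∀ v, |h v| ≤ C * Real.exp v) (hL : 0 < L) (hφ : Continuous φ)
    (hz : ∀ y, y ≤ p ∨ q ≤ y → φ y = 0) (hS : ∀ y, |φ y| ≤ S) :
    BIter_N fun v => h v * φ (v / L) := by
  have hS0 : 0 ≤ S := (abs_nonneg _).trans (hS 0)
  refine ⟨hm.mul (hφ.measurable.comp (measurable_id.div_const L)), C * Real.exp (q * L) * S,
    p * L, q * L, fun v => ?_, fun v hv => ?_⟩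
  · show |h v * φ (v / L)| ≤ _
    by_cases hv : q * L ≤ v
    · rw [hz (v / L) (Or.inr ((le_div_iff₀ hL).2 hv)), mul_zero, abs_zero]
      positivity
    · push Not at hv
      rw [abs_mul]
      refine mul_le_mul ((hb v).trans ?_) (hS _) (abs_nonneg _) (by positivity)
      exact mul_le_mul_of_nonneg_left (Real.exp_le_exp.2 hv.le) hC
  · show h v * φ (v / L) = 0
    rcases hv with hv | hv
    · rw [hz (v / L) (Or.inl ((div_le_iff₀ hL).2 hv)), mul_zero]
    · rw [hz (v / L) (Or.inr ((le_div_iff₀ hL).2 hv)), mul_zero]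

theorem BIter_Bs_eq {T B p q : ℝ} {φ : ℝ → ℝ} (hL : 0 < Real.log T) (hp : 0 ≤ p) (hq : q ≤ B)
    (hB : 0 ≤ B) (hz : ∀ y, y ≤ p ∨ q ≤ y → φ y = 0) (s : ℂ) :
    Bs T B φ s = BIter_B (fun v => Ev v * φ (v / Real.log T)) s := by
  unfold Bs BIter_B
  rw [intervalIntegral.integral_of_le (by positivity)]
  refine setIntegral_eq_integral_of_forall_compl_eq_zero fun v hv => ?_
  have h1 : v / Real.log T ≤ p ∨ q ≤ v / Real.log T := by
    by_cases h2 : 0 < v
    · right
      have h3 : ¬ v ≤ B * Real.log T := fun h => hv ⟨h2, h⟩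
      push Not at h3
      exact hq.trans ((le_div_iff₀ hL).2 h3.le)
    · left
      push Not at h2
      exact (div_nonpos_of_nonpos_of_nonneg h2 hL.le).trans hp
  rw [hz _ h1, mul_zero, Complex.ofReal_zero, zero_mul]

theorem BIter_diff_meas (lam : ℝ) : Measurable fun u => Ev (u + lam / 2) - Ev (u - lam / 2) :=
  (BIter_Ev_meas.comp (measurable_id.add_const _)).sub
    (BIter_Ev_meas.comp (measurable_id.sub_const _))

theorem BIter_shift_le {lam : ℝ} (hl : 0 ≤ lam) (u : ℝ) :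
    |Ev (u + lam / 2)| ≤ 7 * Real.exp (lam / 2) * Real.exp u ∧
      |Ev (u - lam / 2)| ≤ 7 * Real.exp (lam / 2) * Real.exp u := by
  constructor
  · refine (BIter_Ev_le _).trans (le_of_eq ?_)
    rw [Real.exp_add]
    ring
  · refine (BIter_Ev_le _).trans ?_
    rw [mul_assoc, ← Real.exp_add]
    have h : u - lam / 2 ≤ lam / 2 + u := by linarith
    linarith [Real.exp_le_exp.2 h]

theorem BIter_Dt_eq (lam u : ℝ) :
    Dt lam u = Real.exp (-(u / 2)) * (Ev (u + lam / 2) - Ev (u - lam / 2)) := by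
  unfold Dt Ev
  have h1 : 2 * Real.sinh (lam / 2) * Real.exp (u / 2) =
      Real.exp (-(u / 2)) * (Real.exp (u + lam / 2) - Real.exp (u - lam / 2)) := by
    rw [Real.sinh_eq, mul_sub, ← Real.exp_add, ← Real.exp_add]
    have h2 : 2 * ((Real.exp (lam / 2) - Real.exp (-(lam / 2))) / 2) * Real.exp (u / 2) =
        Real.exp (lam / 2) * Real.exp (u / 2) - Real.exp (-(lam / 2)) * Real.exp (u / 2) := by
      ring
    rw [h2, ← Real.exp_add, ← Real.exp_add]
    congr 2 <;> ring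
  rw [h1]
  ring

/-- the shift identity -/
theorem BIter_ident {L lam p q S : ℝ} {φ : ℝ → ℝ} (hL : 0 < L) (hl : 0 ≤ lam) (hφ : Continuous φ)
    (hz : ∀ y, y ≤ p ∨ q ≤ y → φ y = 0) (hS : ∀ y, |φ y| ≤ S) (s : ℂ) :
    BIter_B (fun u => (Ev (u + lam / 2) - Ev (u - lam / 2)) * φ (u / L)) s =
      cexp (s * (lam / 2 : ℝ)) * BIter_B (fun v => Ev v * φ (v / L - lam / (2 * L))) s -
      cexp (-(s * (lam / 2 : ℝ))) * BIter_B (fun v => Ev v * φ (v / L + lam / (2 * L))) s := by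
  have hN1 : BIter_N fun u => Ev (u + lam / 2) * φ (u / L) :=
    BIter_N_of (BIter_Ev_meas.comp (measurable_id.add_const _)) (by positivity)
      (fun u => (BIter_shift_le hl u).1) hL hφ hz hS
  have hN2 : BIter_N fun u => Ev (u - lam / 2) * φ (u / L) :=
    BIter_N_of (BIter_Ev_meas.comp (measurable_id.sub_const _)) (by positivity)
      (fun u => (BIter_shift_le hl u).2) hL hφ hz hS
  have h1 : BIter_B (fun u => (Ev (u + lam / 2) - Ev (u - lam / 2)) * φ (u / L)) s =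
      (∫ u : ℝ, ((Ev (u + lam / 2) * φ (u / L) : ℝ) : ℂ) * cexp (-(s * u))) -
      ∫ u : ℝ, ((Ev (u - lam / 2) * φ (u / L) : ℝ) : ℂ) * cexp (-(s * u)) := by
    unfold BIter_B
    rw [← integral_sub (BIter_N_int hN1 (by fun_prop)) (BIter_N_int hN2 (by fun_prop))]
    refine integral_congr_ae (ae_of_all _ fun u => ?_)
    show (((Ev (u + lam / 2) - Ev (u - lam / 2)) * φ (u / L) : ℝ) : ℂ) * cexp (-(s * u)) = _
    push_cast
    ring
  have h2 : ∫ u : ℝ, ((Ev (u + lam / 2) * φ (u / L) : ℝ) : ℂ) * cexp (-(s * u)) =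
      cexp (s * (lam / 2 : ℝ)) * BIter_B (fun v => Ev v * φ (v / L - lam / (2 * L))) s := by
    unfold BIter_B
    rw [← integral_const_mul, ← integral_add_right_eq_self (fun v : ℝ => cexp (s * (lam / 2 : ℝ)) *
      (((Ev v * φ (v / L - lam / (2 * L)) : ℝ) : ℂ) * cexp (-(s * v)))) (lam / 2)]
    refine integral_congr_ae (ae_of_all _ fun u => ?_)
    show ((Ev (u + lam / 2) * φ (u / L) : ℝ) : ℂ) * cexp (-(s * u)) = cexp (s * (lam / 2 : ℝ)) *
      (((Ev (u + lam / 2) * φ ((u + lam / 2) / L - lam / (2 * L)) : ℝ) : ℂ) *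
        cexp (-(s * ((u + lam / 2 : ℝ) : ℂ))))
    have h3 : (u + lam / 2) / L - lam / (2 * L) = u / L := by
      field_simp
      ring
    have h4 : cexp (-(s * u)) = cexp (s * (lam / 2 : ℝ)) * cexp (-(s * ((u + lam / 2 : ℝ) : ℂ))) := by
      rw [← Complex.exp_add]
      congr 1
      push_cast
      ring
    rw [h3, h4]
    ring
  have h5 : ∫ u : ℝ, ((Ev (u - lam / 2) * φ (u / L) : ℝ) : ℂ) * cexp (-(s * u)) =
      cexp (-(s * (lam / 2 : ℝ))) * BIter_B (fun v => Ev v * φ (v / L + lam / (2 * L))) s := by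
    unfold BIter_B
    rw [← integral_const_mul, ← integral_sub_right_eq_self (fun v : ℝ => cexp (-(s * (lam / 2 : ℝ))) *
      (((Ev v * φ (v / L + lam / (2 * L)) : ℝ) : ℂ) * cexp (-(s * v)))) (lam / 2)]
    refine integral_congr_ae (ae_of_all _ fun u => ?_)
    show ((Ev (u - lam / 2) * φ (u / L) : ℝ) : ℂ) * cexp (-(s * u)) = cexp (-(s * (lam / 2 : ℝ))) *
      (((Ev (u - lam / 2) * φ ((u - lam / 2) / L + lam / (2 * L)) : ℝ) : ℂ) *
        cexp (-(s * ((u - lam / 2 : ℝ) : ℂ))))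
    have h3 : (u - lam / 2) / L + lam / (2 * L) = u / L := by
      field_simp
      ring
    have h4 : cexp (-(s * u)) = cexp (-(s * (lam / 2 : ℝ))) *
        cexp (-(s * ((u - lam / 2 : ℝ) : ℂ))) := by
      rw [← Complex.exp_add]
      congr 1
      push_cast
      ring
    rw [h3, h4]
    ring
  rw [h1, h2, h5]

theorem BIter_sin {b : ℝ} (h1 : 1 / 4 ≤ b) (h2 : b ≤ 3) : 1 / 16 ≤ Real.sin b := by
  have hpi := Real.pi_gt_d2
  have hpi2 := Real.pi_lt_four
  have hp := Real.pi_pos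
  by_cases h : b ≤ Real.pi / 2
  · have h3 := Real.mul_le_sin (by linarith) h
    have h4 : 1 / 16 ≤ 2 / Real.pi * b := by
      rw [div_mul_eq_mul_div, le_div_iff₀ hp]
      linarith
    linarith
  · push Not at h
    have h3 := Real.mul_le_sin (x := Real.pi - b) (by linarith) (by linarith)
    rw [Real.sin_pi_sub] at h3
    have h4 : 1 / 16 ≤ 2 / Real.pi * (Real.pi - b) := by
      rw [div_mul_eq_mul_div, le_div_iff₀ hp]
      linarith
    linarith

theorem BIter_sinh {z : ℂ} (h1 : 1 / 4 ≤ z.im) (h2 : z.im ≤ 3) :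
    1 / 8 ≤ ‖cexp z - cexp (-z)‖ := by
  refine le_trans ?_ (Complex.abs_im_le_norm _)
  rw [Complex.sub_im, Complex.exp_im, Complex.exp_im, Complex.neg_im, Complex.neg_re, Real.sin_neg]
  have h3 := BIter_sin h1 h2
  have h4 : Real.exp z.re * Real.sin z.im - Real.exp (-z.re) * -Real.sin z.im =
      (Real.exp z.re + Real.exp (-z.re)) * Real.sin z.im := by ring
  have h5 : 2 ≤ Real.exp z.re + Real.exp (-z.re) := by
    have h6 := Real.one_le_cosh z.re
    rw [Real.cosh_eq] at h6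
    linarith
  rw [h4]
  refine le_trans ?_ (le_abs_self _)
  nlinarith


theorem BIter_Dt_int {lam a b : ℝ} (hl : 0 ≤ lam) : IntegrableOn (fun u => Dt lam u ^ 2) (Ioc a b) := by
  have hm : Measurable (Dt lam) := by
    have h : Dt lam = fun u => Real.exp (-(u / 2)) * (Ev (u + lam / 2) - Ev (u - lam / 2)) := by
      funext u
      exact BIter_Dt_eq lam u
    rw [h]
    exact Measurable.mul (by fun_prop) (BIter_diff_meas lam)
  refine Measure.integrableOn_of_bounded (M := (14 * Real.exp (lam / 2) * Real.exp (b / 2)) ^ 2)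
    measure_Ioc_lt_top.ne (hm.pow_const 2).aestronglyMeasurable ?_
  refine (ae_restrict_iff' measurableSet_Ioc).2 (ae_of_all _ fun u hu => ?_)
  rw [Real.norm_eq_abs, abs_pow]
  refine pow_le_pow_left₀ (abs_nonneg _) ?_ 2
  rw [BIter_Dt_eq, abs_mul, abs_of_pos (Real.exp_pos _)]
  have h1 : |Ev (u + lam / 2) - Ev (u - lam / 2)| ≤ 14 * Real.exp (lam / 2) * Real.exp u := by
    refine (abs_sub _ _).trans ?_
    obtain ⟨h2, h3⟩ := BIter_shift_le hl u
    linarith
  calc Real.exp (-(u / 2)) * |Ev (u + lam / 2) - Ev (u - lam / 2)|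
      ≤ Real.exp (-(u / 2)) * (14 * Real.exp (lam / 2) * Real.exp u) :=
        mul_le_mul_of_nonneg_left h1 (Real.exp_pos _).le
    _ = 14 * Real.exp (lam / 2) * Real.exp (u / 2) := by
        have h4 : Real.exp u = Real.exp (u / 2) * Real.exp (u / 2) := by
          rw [← Real.exp_add]
          congr 1
          ring
        have h5 : Real.exp (-(u / 2)) * Real.exp (u / 2) = 1 := by
          rw [← Real.exp_add, neg_add_cancel, Real.exp_zero]
        rw [h4]
        linear_combination (14 * Real.exp (lam / 2) * Real.exp (u / 2)) * h5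
    _ ≤ 14 * Real.exp (lam / 2) * Real.exp (b / 2) := by
        refine mul_le_mul_of_nonneg_left (Real.exp_le_exp.2 ?_) (by positivity)
        linarith [hu.2]

theorem BIter_xu {L B c x u : ℝ} (hL : 0 < L) (hx : |x| ≤ c / L) (hu : 0 ≤ u) (hu2 : u ≤ B * L) :
    Real.exp (-(x * u)) ^ 2 ≤ Real.exp (2 * (c * B)) := by
  rw [← Real.exp_nat_mul]
  refine Real.exp_le_exp.2 ?_
  have h1 : |x| * u ≤ c / L * (B * L) :=
    mul_le_mul hx hu2 hu ((abs_nonneg x).trans hx)
  have h2 : c / L * (B * L) = c * B := by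
    field_simp
  have h3 : -(x * u) ≤ |x| * u := by
    rw [← neg_mul]
    exact mul_le_mul_of_nonneg_right (neg_le_abs x) hu
  push_cast
  linarith

theorem BIter_A_bound {L B b c p q S x lam : ℝ} {φ : ℝ → ℝ} (hL : 0 < L) (hb : 0 ≤ b)
    (hp : b ≤ p) (hq : q * L ≤ B * L - 1)
    (hz : ∀ y, y ≤ p ∨ q ≤ y → φ y = 0) (hS : ∀ y, |φ y| ≤ S) (hl : 0 ≤ lam)
    (hbB : b * L ≤ B * L - 1) (hx : |x| ≤ c / L) :
    ∫ u, ((Ev (u + lam / 2) - Ev (u - lam / 2)) * φ (u / L) * Real.exp (-((1 / 2 + x) * u))) ^ 2 ≤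
      S ^ 2 * Real.exp (2 * (c * B)) * ∫ u in (b * L)..(B * L - 1), Dt lam u ^ 2 := by
  rw [intervalIntegral.integral_of_le hbB, ← integral_const_mul]
  rw [← setIntegral_eq_integral_of_forall_compl_eq_zero (s := Ioc (b * L) (B * L - 1)) ?_]
  · refine integral_mono_of_nonneg (ae_of_all _ fun u => sq_nonneg _)
      ((BIter_Dt_int hl).const_mul _) ?_
    refine (ae_restrict_iff' measurableSet_Ioc).2 (ae_of_all _ fun u hu => ?_)
    show ((Ev (u + lam / 2) - Ev (u - lam / 2)) * φ (u / L) * Real.exp (-((1 / 2 + x) * u))) ^ 2 ≤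
      S ^ 2 * Real.exp (2 * (c * B)) * Dt lam u ^ 2
    have h1 : (Ev (u + lam / 2) - Ev (u - lam / 2)) * φ (u / L) * Real.exp (-((1 / 2 + x) * u)) =
        Dt lam u * φ (u / L) * Real.exp (-(x * u)) := by
      rw [BIter_Dt_eq]
      have h2 : Real.exp (-((1 / 2 + x) * u)) = Real.exp (-(u / 2)) * Real.exp (-(x * u)) := by
        rw [← Real.exp_add]
        congr 1
        ring
      rw [h2]
      ring
    have hu0 : 0 ≤ u := (mul_nonneg hb hL.le).trans hu.1.le
    have h3 := BIter_xu hL hx hu0 (by linarith [hu.2] : u ≤ B * L)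
    have h4 : φ (u / L) ^ 2 ≤ S ^ 2 := by
      rw [← sq_abs]
      exact pow_le_pow_left₀ (abs_nonneg _) (hS _) 2
    rw [h1, mul_pow, mul_pow]
    have h5 : φ (u / L) ^ 2 * Real.exp (-(x * u)) ^ 2 ≤ S ^ 2 * Real.exp (2 * (c * B)) :=
      mul_le_mul h4 h3 (sq_nonneg _) (sq_nonneg _)
    nlinarith [mul_le_mul_of_nonneg_right h5 (sq_nonneg (Dt lam u))]
  · intro u hu
    have h1 : u / L ≤ p ∨ q ≤ u / L := by
      by_cases h2 : b * L < u
      · right
        have h3 : ¬ u ≤ B * L - 1 := fun h => hu ⟨h2, h⟩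
        push Not at h3
        exact (le_div_iff₀ hL).2 (by linarith)
      · left
        push Not at h2
        exact ((div_le_iff₀ hL).2 h2).trans hp
    rw [hz _ h1]
    ring

theorem BIter_base {L B c p q S x : ℝ} {φ : ℝ → ℝ} (hL : 0 < L) (hp : 0 ≤ p) (hq : q ≤ B)
    (hB : 0 ≤ B) (hz : ∀ y, y ≤ p ∨ q ≤ y → φ y = 0) (hS : ∀ y, |φ y| ≤ S) (hx : |x| ≤ c / L) :
    ∫ u, (Ev u * φ (u / L) * Real.exp (-((1 / 2 + x) * u))) ^ 2 ≤
      49 * S ^ 2 * Real.exp (2 * (c * B)) * Real.exp (B * L) := by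
  rw [← setIntegral_eq_integral_of_forall_compl_eq_zero (s := Ioc 0 (B * L)) ?_]
  · have hBL : 0 ≤ B * L := by positivity
    have h0 : ∫ u in Ioc 0 (B * L), 49 * S ^ 2 * Real.exp (2 * (c * B)) * Real.exp u ≤
        49 * S ^ 2 * Real.exp (2 * (c * B)) * Real.exp (B * L) := by
      rw [integral_const_mul, ← intervalIntegral.integral_of_le hBL, integral_exp]
      refine mul_le_mul_of_nonneg_left ?_ (by positivity)
      linarith [Real.exp_pos 0]
    refine le_trans ?_ h0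
    refine integral_mono_of_nonneg (ae_of_all _ fun u => sq_nonneg _) ?_ ?_
    · exact (Continuous.integrableOn_Ioc (by fun_prop))
    refine (ae_restrict_iff' measurableSet_Ioc).2 (ae_of_all _ fun u hu => ?_)
    show (Ev u * φ (u / L) * Real.exp (-((1 / 2 + x) * u))) ^ 2 ≤
      49 * S ^ 2 * Real.exp (2 * (c * B)) * Real.exp u
    have h3 := BIter_xu hL hx hu.1.le hu.2
    have h4 : φ (u / L) ^ 2 ≤ S ^ 2 := by
      rw [← sq_abs]
      exact pow_le_pow_left₀ (abs_nonneg _) (hS _) 2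
    have h5 : Ev u ^ 2 ≤ 49 * Real.exp u ^ 2 := by
      rw [← sq_abs]
      have := pow_le_pow_left₀ (abs_nonneg _) (BIter_Ev_le u) 2
      nlinarith
    have h6 : Real.exp (-((1 / 2 + x) * u)) ^ 2 = Real.exp (-u) * Real.exp (-(x * u)) ^ 2 := by
      rw [← Real.exp_nat_mul, ← Real.exp_nat_mul, ← Real.exp_add]
      congr 1
      push_cast
      ring
    have h7 : Real.exp u ^ 2 * Real.exp (-u) = Real.exp u := by
      rw [← Real.exp_nat_mul, ← Real.exp_add]
      congr 1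
      push_cast
      ring
    rw [mul_pow, mul_pow, h6]
    have h8 : Ev u ^ 2 * Real.exp (-u) ≤ 49 * Real.exp u := by
      have h9 := mul_le_mul_of_nonneg_right h5 (Real.exp_pos (-u)).le
      rw [mul_assoc, h7] at h9
      exact h9
    have h10 : φ (u / L) ^ 2 * Real.exp (-(x * u)) ^ 2 ≤ S ^ 2 * Real.exp (2 * (c * B)) :=
      mul_le_mul h4 h3 (sq_nonneg _) (sq_nonneg _)
    have h11 := mul_le_mul h8 h10 (by positivity) (by positivity)
    calc Ev u ^ 2 * φ (u / L) ^ 2 * (Real.exp (-u) * Real.exp (-(x * u)) ^ 2)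
        = Ev u ^ 2 * Real.exp (-u) * (φ (u / L) ^ 2 * Real.exp (-(x * u)) ^ 2) := by ring
      _ ≤ 49 * Real.exp u * (S ^ 2 * Real.exp (2 * (c * B))) := h11
      _ = 49 * S ^ 2 * Real.exp (2 * (c * B)) * Real.exp u := by ring
  · intro u hu
    have h1 : u / L ≤ p ∨ q ≤ u / L := by
      by_cases h2 : 0 < u
      · right
        have h3 : ¬ u ≤ B * L := fun h => hu ⟨h2, h⟩
        push Not at h3
        exact hq.trans ((le_div_iff₀ hL).2 h3.le)
      · left
        push Not at h2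
        exact (div_nonpos_of_nonpos_of_nonneg h2 hL.le).trans hp
    rw [hz _ h1]
    ring

/-- derivatives of a translate -/
theorem BIter_deriv {φ : ℝ → ℝ} (hφ : ContDiff ℝ ∞ φ) {S κ : ℝ} {i : ℕ} (a : ℝ) (ha : |a| ≤ κ)
    (hS : ∀ y, |iteratedDeriv (i + 1) φ y| ≤ S) (y : ℝ) :
    |iteratedDeriv i (fun y => φ (y + a) - φ y) y| ≤ S * κ := by
  have h1 : ContDiff ℝ i φ := hφ.of_le (by exact_mod_cast le_top)
  have h2 : ContDiff ℝ i fun y => φ (y + a) := h1.comp (by fun_prop)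
  have h3 : iteratedDeriv i (fun y => φ (y + a) - φ y) y =
      iteratedDeriv i φ (y + a) - iteratedDeriv i φ y := by
    rw [iteratedDeriv_fun_sub h2.contDiffAt h1.contDiffAt]
    rw [iteratedDeriv_comp_add_const]
  rw [h3]
  have hS0 : 0 ≤ S := (abs_nonneg _).trans (hS 0)
  have h4 : ∀ z ∈ (Set.univ : Set ℝ), DifferentiableAt ℝ (iteratedDeriv i φ) z := by
    intro z _
    have h5 : ContDiff ℝ ((i + 1 : ℕ) : ℕ∞) φ := hφ.of_le (by exact_mod_cast le_top)
    exact (h5.differentiable_iteratedDeriv i (by exact_mod_cast Nat.lt_succ_self i)) z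
  have h6 : ∀ z ∈ (Set.univ : Set ℝ), ‖deriv (iteratedDeriv i φ) z‖ ≤ S := by
    intro z _
    rw [← iteratedDeriv_succ]
    exact hS z
  have h7 := Convex.norm_image_sub_le_of_norm_deriv_le h4 h6 convex_univ (Set.mem_univ y)
    (Set.mem_univ (y + a))
  rw [Real.norm_eq_abs, Real.norm_eq_abs, add_sub_cancel_left] at h7
  exact h7.trans (mul_le_mul_of_nonneg_left ha hS0)


theorem BIter_norm_exp {x t lam T : ℝ} (hT : 1 ≤ T) (hl0 : 0 ≤ lam) (hl : lam ≤ 2 / T) {c : ℝ}
    (hx : |x| ≤ c) (hc : 1 + 2 * c ≤ T) :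
    ‖cexp (ps x t * (lam / 2 : ℝ))‖ ≤ 2 ∧ ‖cexp (-(ps x t * (lam / 2 : ℝ)))‖ ≤ 2 := by
  have hT0 : 0 < T := by linarith
  have h1 : (ps x t * (lam / 2 : ℝ)).re = (1 / 2 + x) * (lam / 2) := by
    unfold ps
    simp
  have h2 : |(1 / 2 + x) * (lam / 2)| ≤ 1 / 2 := by
    rw [abs_mul, abs_of_nonneg (by linarith : 0 ≤ lam / 2)]
    have h3 : |1 / 2 + x| ≤ 1 / 2 + c := by
      refine (abs_add_le _ _).trans ?_
      rw [abs_of_pos (by norm_num : (0 : ℝ) < 1 / 2)]
      linarith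
    have h4 : lam / 2 ≤ 1 / T := by
      have : 2 / T = 2 * (1 / T) := by ring
      linarith
    have h5 : |1 / 2 + x| * (lam / 2) ≤ (1 / 2 + c) * (1 / T) :=
      mul_le_mul h3 h4 (by linarith) ((abs_nonneg _).trans h3)
    refine h5.trans ?_
    rw [mul_one_div, div_le_iff₀ hT0]
    linarith
  have h6 : Real.exp (1 / 2) ≤ 2 := by
    have h7 : Real.exp (1 / 2) ^ 2 ≤ 2 ^ 2 := by
      rw [← Real.exp_nat_mul]
      have h8 : ((2 : ℕ) : ℝ) * (1 / 2) = 1 := by norm_num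
      rw [h8]
      linarith [Real.exp_one_lt_d9]
    exact le_of_sq_le_sq h7 (by norm_num)
  rw [abs_le] at h2
  constructor
  · rw [Complex.norm_exp, h1]
    exact (Real.exp_le_exp.2 h2.2).trans h6
  · rw [Complex.norm_exp, Complex.neg_re, h1]
    exact (Real.exp_le_exp.2 (by linarith [h2.1])).trans h6

theorem BIter_comb {a b : ℝ} (hab : a ≤ b) {f g h k : ℝ → ℝ} (hf : Continuous f)
    (hg : Continuous g) (hh : Continuous h) (hk : Continuous k)
    (hp : ∀ t ∈ Icc a b, f t ≤ 192 * (g t + 4 * h t + 4 * k t)) :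
    ∫ t in a..b, f t ≤ 192 * ((∫ t in a..b, g t) + 4 * (∫ t in a..b, h t) +
      4 * ∫ t in a..b, k t) := by
  have hg' : IntervalIntegrable g volume a b := hg.intervalIntegrable _ _
  have hh' : IntervalIntegrable h volume a b := hh.intervalIntegrable _ _
  have hk' : IntervalIntegrable k volume a b := hk.intervalIntegrable _ _
  have h1 : ∫ t in a..b, 192 * (g t + 4 * h t + 4 * k t) =
      192 * ((∫ t in a..b, g t) + 4 * (∫ t in a..b, h t) + 4 * ∫ t in a..b, k t) := by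
    rw [intervalIntegral.integral_const_mul, intervalIntegral.integral_add
      (hg'.add (hh'.const_mul 4)) (hk'.const_mul 4), intervalIntegral.integral_add hg'
      (hh'.const_mul 4), intervalIntegral.integral_const_mul, intervalIntegral.integral_const_mul]
  rw [← h1]
  exact intervalIntegral.integral_mono_on hab (hf.intervalIntegrable _ _)
    (((hg'.add (hh'.const_mul 4)).add (hk'.const_mul 4)).const_mul 192) hp

end line

theorem b_iter (b l c : ℝ) (hb : 1 ≤ b) (hc : 0 ≤ c) (J : ℕ) : ∀ p q : ℝ, b < p → p < q → q < b + l →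
    ∃ C T₀ : ℝ, 0 ≤ C ∧ 2 ≤ T₀ ∧ ∀ T : ℝ, T₀ ≤ T → ∀ lam ∈ Icc (1 / T) (2 / T), ∀ (φ : ℝ → ℝ) (S : ℝ),
      ContDiff ℝ ∞ φ → (∀ y, y ≤ p ∨ q ≤ y → φ y = 0) → (∀ i : ℕ, i ≤ J → ∀ y, |iteratedDeriv i φ y| ≤ S) →
        ∀ x : ℝ, |x| ≤ c / Real.log T →
          ∫ t in (T / 2)..(3 * T), ‖Bs T (b + l) φ (ps x t)‖ ^ 2 ≤
            C * S ^ 2 * ((∫ u in (b * Real.log T)..((b + l) * Real.log T - 1), Dt lam u ^ 2) +
              T ^ (2 * (b + l) + 2 - 2 * (J : ℝ))) := by
  obtain ⟨B, hB⟩ : ∃ B, B = b + l := ⟨_, rfl⟩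
  rw [← hB]
  obtain ⟨K0, hK0⟩ : ∃ K0, K0 = Real.exp 9 * (2 * Real.pi) := ⟨_, rfl⟩
  have hK0p : 0 ≤ K0 := by rw [hK0]; positivity
  induction J with
  | zero =>
    intro p q hbp hpq hql
    refine ⟨K0 * (49 * Real.exp (2 * (c * B))), max 3 (Real.exp (1 / (B - q))), by positivity,
      le_trans (by norm_num) (le_max_left _ _), ?_⟩
    intro T hT lam hlam φ S hφ hz hS x hx
    have hT3 : 3 ≤ T := (le_max_left _ _).trans hT
    have hT0 : 0 < T := by linarith
    have hTe : Real.exp (1 / (B - q)) ≤ T := (le_max_right _ _).trans hT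
    have hL1 : 1 ≤ Real.log T :=
      (Real.le_log_iff_exp_le hT0).2 (by linarith [Real.exp_one_lt_d9])
    have hL : 0 < Real.log T := by linarith
    have hLq : 1 / (B - q) ≤ Real.log T := (Real.le_log_iff_exp_le hT0).2 hTe
    rw [div_le_iff₀ (by linarith)] at hLq
    have hbB : b * Real.log T ≤ B * Real.log T - 1 := by nlinarith
    have hl0 : 0 ≤ lam := le_trans (by positivity) hlam.1
    have hS' : ∀ y, |φ y| ≤ S := fun y => by
      have := hS 0 le_rfl y
      rwa [iteratedDeriv_zero] at this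
    simp only [BIter_Bs_eq (B := B) hL (by linarith : (0 : ℝ) ≤ p) hql.le (by linarith) hz]
    have hN : BIter_N fun v => Ev v * φ (v / Real.log T) :=
      BIter_N_of BIter_Ev_meas (by norm_num) BIter_Ev_le hL hφ.continuous hz hS'
    have h1 := BIter_meansq hT0 hN x
    rw [← hK0] at h1
    have h2 := BIter_base hL (by linarith : (0 : ℝ) ≤ p) hql.le (by linarith : (0 : ℝ) ≤ B) hz hS' hx
    have h3 : Real.exp (B * Real.log T) ≤ T ^ (2 * B + 2 - 2 * ((0 : ℕ) : ℝ)) := by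
      rw [mul_comm, ← Real.rpow_def_of_pos hT0]
      refine Real.rpow_le_rpow_of_exponent_le (by linarith) ?_
      push_cast
      linarith
    have h4 : 0 ≤ ∫ u in (b * Real.log T)..(B * Real.log T - 1), Dt lam u ^ 2 :=
      intervalIntegral.integral_nonneg hbB fun u _ => sq_nonneg _
    refine h1.trans ((mul_le_mul_of_nonneg_left h2 hK0p).trans ?_)
    have h5 : Real.exp (B * Real.log T) ≤
        (∫ u in (b * Real.log T)..(B * Real.log T - 1), Dt lam u ^ 2) +
          T ^ (2 * B + 2 - 2 * ((0 : ℕ) : ℝ)) := by linarith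
    have h6 : 0 ≤ K0 * (49 * Real.exp (2 * (c * B))) * S ^ 2 := by positivity
    have h7 := mul_le_mul_of_nonneg_left h5 h6
    refine le_trans (le_of_eq ?_) h7
    ring
  | succ J ih =>
    intro p q hbp hpq hql
    obtain ⟨C', T₀', hC', hT₀', hI⟩ := ih ((b + p) / 2) ((q + B) / 2) (by linarith) (by linarith)
      (by linarith)
    refine ⟨192 * (K0 * Real.exp (2 * (c * B)) + 8 * C'), max (max 3 (Real.exp (1 / (B - q))))
      (max (max (2 / (p - b)) (2 / (B - q))) (max (1 + 2 * c) T₀')), by positivity,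
      le_trans (by norm_num) ((le_max_left _ _).trans (le_max_left _ _)), ?_⟩
    intro T hT lam hlam φ S hφ hz hS x hx
    have hT3 : 3 ≤ T := ((le_max_left _ _).trans (le_max_left _ _)).trans hT
    have hT0 : 0 < T := by linarith
    have hTe : Real.exp (1 / (B - q)) ≤ T := ((le_max_right _ _).trans (le_max_left _ _)).trans hT
    have hTp : 2 / (p - b) ≤ T :=
      ((le_max_left _ _).trans ((le_max_left _ _).trans (le_max_right _ _))).trans hT
    have hTq : 2 / (B - q) ≤ T :=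
      ((le_max_right _ _).trans ((le_max_left _ _).trans (le_max_right _ _))).trans hT
    have hTc : 1 + 2 * c ≤ T :=
      ((le_max_left _ _).trans ((le_max_right _ _).trans (le_max_right _ _))).trans hT
    have hT' : T₀' ≤ T :=
      ((le_max_right _ _).trans ((le_max_right _ _).trans (le_max_right _ _))).trans hT
    have hL1 : 1 ≤ Real.log T :=
      (Real.le_log_iff_exp_le hT0).2 (by linarith [Real.exp_one_lt_d9])
    have hL : 0 < Real.log T := by linarith
    have hLq : 1 / (B - q) ≤ Real.log T := (Real.le_log_iff_exp_le hT0).2 hTe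
    rw [div_le_iff₀ (by linarith)] at hLq
    rw [div_le_iff₀ (by linarith)] at hTp hTq
    have hbB : b * Real.log T ≤ B * Real.log T - 1 := by nlinarith
    have hqB : q * Real.log T ≤ B * Real.log T - 1 := by nlinarith
    have hl0 : 0 ≤ lam := le_trans (by positivity) hlam.1
    have hxc : |x| ≤ c := hx.trans (div_le_self hc hL1)
    have hS' : ∀ y, |φ y| ≤ S := fun y => by
      have := hS 0 (Nat.zero_le _) y
      rwa [iteratedDeriv_zero] at this
    have hS0 : 0 ≤ S := (abs_nonneg _).trans (hS' 0)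
    obtain ⟨κ, hκ⟩ : ∃ κ, κ = lam / (2 * Real.log T) := ⟨_, rfl⟩
    have hκ0 : 0 ≤ κ := by rw [hκ]; positivity
    have hκ1 : κ ≤ 1 / T := by
      rw [hκ, div_le_iff₀ (by positivity)]
      have h1 := hlam.2
      have h2 : 1 / T * (2 * 1) ≤ 1 / T * (2 * Real.log T) :=
        mul_le_mul_of_nonneg_left (by linarith) (by positivity)
      have h3 : 2 / T = 1 / T * (2 * 1) := by ring
      linarith
    have hT1 : 1 / T ≤ 1 := by
      rw [div_le_one hT0]
      linarith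
    have hκp : κ ≤ (p - b) / 2 := hκ1.trans (by
      rw [div_le_iff₀ hT0]
      nlinarith)
    have hκq : κ ≤ (B - q) / 2 := hκ1.trans (by
      rw [div_le_iff₀ hT0]
      nlinarith)
    -- the two differences
    obtain ⟨δm, hδm⟩ : ∃ δm : ℝ → ℝ, δm = fun y => φ (y + -κ) - φ y := ⟨_, rfl⟩
    obtain ⟨δp, hδp⟩ : ∃ δp : ℝ → ℝ, δp = fun y => φ (y + κ) - φ y := ⟨_, rfl⟩
    have hmS : ContDiff ℝ ∞ δm := by
      rw [hδm]
      exact (hφ.comp (by fun_prop)).sub hφ
    have hpS : ContDiff ℝ ∞ δp := by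
      rw [hδp]
      exact (hφ.comp (by fun_prop)).sub hφ
    have hmz : ∀ y, y ≤ (b + p) / 2 ∨ (q + B) / 2 ≤ y → δm y = 0 := by
      intro y hy
      rw [hδm]
      show φ (y + -κ) - φ y = 0
      rcases hy with hy | hy
      · rw [hz y (Or.inl (by linarith)), hz _ (Or.inl (by linarith)), sub_zero]
      · rw [hz y (Or.inr (by linarith)), hz _ (Or.inr (by linarith)), sub_zero]
    have hpz : ∀ y, y ≤ (b + p) / 2 ∨ (q + B) / 2 ≤ y → δp y = 0 := by
      intro y hy
      rw [hδp]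
      show φ (y + κ) - φ y = 0
      rcases hy with hy | hy
      · rw [hz y (Or.inl (by linarith)), hz _ (Or.inl (by linarith)), sub_zero]
      · rw [hz y (Or.inr (by linarith)), hz _ (Or.inr (by linarith)), sub_zero]
    have hmd : ∀ i : ℕ, i ≤ J → ∀ y, |iteratedDeriv i δm y| ≤ S * (1 / T) := by
      intro i hi y
      rw [hδm]
      exact BIter_deriv hφ (-κ) (by rw [abs_neg, abs_of_nonneg hκ0]; exact hκ1)
        (hS (i + 1) (by omega)) y
    have hpd : ∀ i : ℕ, i ≤ J → ∀ y, |iteratedDeriv i δp y| ≤ S * (1 / T) := by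
      intro i hi y
      rw [hδp]
      exact BIter_deriv hφ κ (by rw [abs_of_nonneg hκ0]; exact hκ1)
        (hS (i + 1) (by omega)) y
    have hmS' : ∀ y, |δm y| ≤ S * (1 / T) := fun y => by
      have := hmd 0 (Nat.zero_le _) y
      rwa [iteratedDeriv_zero] at this
    have hpS' : ∀ y, |δp y| ≤ S * (1 / T) := fun y => by
      have := hpd 0 (Nat.zero_le _) y
      rwa [iteratedDeriv_zero] at this
    -- nice functions
    have hN : BIter_N fun v => Ev v * φ (v / Real.log T) :=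
      BIter_N_of BIter_Ev_meas (by norm_num) BIter_Ev_le hL hφ.continuous hz hS'
    have hNm : BIter_N fun v => Ev v * δm (v / Real.log T) :=
      BIter_N_of BIter_Ev_meas (by norm_num) BIter_Ev_le hL hmS.continuous hmz hmS'
    have hNp : BIter_N fun v => Ev v * δp (v / Real.log T) :=
      BIter_N_of BIter_Ev_meas (by norm_num) BIter_Ev_le hL hpS.continuous hpz hpS'
    have hNA : BIter_N fun u => (Ev (u + lam / 2) - Ev (u - lam / 2)) * φ (u / Real.log T) := by
      refine BIter_N_of (C := 14 * Real.exp (lam / 2)) (BIter_diff_meas lam) (by positivity)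
        (fun u => ?_) hL hφ.continuous hz hS'
      refine (abs_sub _ _).trans ?_
      obtain ⟨h2, h3⟩ := BIter_shift_le hl0 u
      linarith
    -- the pointwise inequality
    have hpt : ∀ t ∈ Icc (T / 2) (3 * T), ‖BIter_B (fun v => Ev v * φ (v / Real.log T)) (ps x t)‖ ^ 2 ≤
        192 * (‖BIter_B (fun u => (Ev (u + lam / 2) - Ev (u - lam / 2)) * φ (u / Real.log T)) (ps x t)‖ ^ 2 +
          4 * ‖BIter_B (fun v => Ev v * δm (v / Real.log T)) (ps x t)‖ ^ 2 +
          4 * ‖BIter_B (fun v => Ev v * δp (v / Real.log T)) (ps x t)‖ ^ 2) := by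
      intro t ht
      have h1 := BIter_ident hL hl0 hφ.continuous hz hS' (ps x t)
      rw [← hκ] at h1
      have h2 : BIter_B (fun v => Ev v * φ (v / Real.log T - κ)) (ps x t) =
          BIter_B (fun v => Ev v * φ (v / Real.log T)) (ps x t) +
            BIter_B (fun v => Ev v * δm (v / Real.log T)) (ps x t) := by
        rw [← BIter_B_add hN hNm]
        congr 1
        funext v
        rw [hδm]
        show Ev v * φ (v / Real.log T - κ) = Ev v * φ (v / Real.log T) +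
          Ev v * (φ (v / Real.log T + -κ) - φ (v / Real.log T))
        rw [← sub_eq_add_neg]
        ring
      have h3 : BIter_B (fun v => Ev v * φ (v / Real.log T + κ)) (ps x t) =
          BIter_B (fun v => Ev v * φ (v / Real.log T)) (ps x t) +
            BIter_B (fun v => Ev v * δp (v / Real.log T)) (ps x t) := by
        rw [← BIter_B_add hN hNp]
        congr 1
        funext v
        rw [hδp]
        show Ev v * φ (v / Real.log T + κ) = Ev v * φ (v / Real.log T) +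
          Ev v * (φ (v / Real.log T + κ) - φ (v / Real.log T))
        ring
      rw [h2, h3] at h1
      have hLc : ∀ t : ℝ, (ps x t * (lam / 2 : ℝ)).im = t * (lam / 2) := fun t => by
        unfold ps
        simp
      have h4 : 1 / 8 ≤ ‖cexp (ps x t * (lam / 2 : ℝ)) - cexp (-(ps x t * (lam / 2 : ℝ)))‖ := by
        have hl1 := hlam.1
        have hl2 := hlam.2
        refine BIter_sinh ?_ ?_
        · rw [hLc]
          have h5 : T / 2 * (1 / T / 2) ≤ t * (lam / 2) :=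
            mul_le_mul ht.1 (by linarith) (by positivity) (by linarith [ht.1])
          have h6 : T / 2 * (1 / T / 2) = 1 / 4 := by
            field_simp
            norm_num
          linarith
        · rw [hLc]
          have h5 : t * (lam / 2) ≤ 3 * T * (2 / T / 2) :=
            mul_le_mul ht.2 (by linarith) (by positivity) (by linarith)
          have h6 : 3 * T * (2 / T / 2) = 3 := by
            field_simp
          linarith
      obtain ⟨h7, h8⟩ := BIter_norm_exp (t := t) (by linarith : (1 : ℝ) ≤ T) hl0 hlam.2 hxc hTc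
      set A := BIter_B (fun u => (Ev (u + lam / 2) - Ev (u - lam / 2)) * φ (u / Real.log T)) (ps x t)
      set F := BIter_B (fun v => Ev v * φ (v / Real.log T)) (ps x t)
      set M := BIter_B (fun v => Ev v * δm (v / Real.log T)) (ps x t)
      set P := BIter_B (fun v => Ev v * δp (v / Real.log T)) (ps x t)
      set E1 := cexp (ps x t * (lam / 2 : ℝ))
      set E2 := cexp (-(ps x t * (lam / 2 : ℝ)))
      have h9 : (E1 - E2) * F = A - E1 * M + E2 * P := by
        rw [h1]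
        ring
      have h10 : 1 / 8 * ‖F‖ ≤ ‖A‖ + 2 * ‖M‖ + 2 * ‖P‖ := by
        calc 1 / 8 * ‖F‖ ≤ ‖E1 - E2‖ * ‖F‖ := mul_le_mul_of_nonneg_right h4 (norm_nonneg _)
          _ = ‖A - E1 * M + E2 * P‖ := by rw [← norm_mul, h9]
          _ ≤ ‖A‖ + ‖E1 * M‖ + ‖E2 * P‖ :=
              (norm_add_le _ _).trans (add_le_add_left (norm_sub_le _ _) _)
          _ ≤ ‖A‖ + 2 * ‖M‖ + 2 * ‖P‖ := by
              rw [norm_mul, norm_mul]
              have h11 := mul_le_mul_of_nonneg_right h7 (norm_nonneg M)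
              have h12 := mul_le_mul_of_nonneg_right h8 (norm_nonneg P)
              linarith
      have h13 : ‖F‖ ≤ 8 * (‖A‖ + 2 * ‖M‖ + 2 * ‖P‖) := by linarith
      have h14 : ‖F‖ ^ 2 ≤ (8 * (‖A‖ + 2 * ‖M‖ + 2 * ‖P‖)) ^ 2 :=
        pow_le_pow_left₀ (norm_nonneg _) h13 2
      nlinarith [sq_nonneg (‖A‖ - 2 * ‖M‖), sq_nonneg (‖A‖ - 2 * ‖P‖), sq_nonneg (2 * ‖M‖ - 2 * ‖P‖)]
    -- integration
    have hle : T / 2 ≤ 3 * T := by linarith
    have hcF : Continuous fun t : ℝ => ‖BIter_B (fun v => Ev v * φ (v / Real.log T)) (ps x t)‖ ^ 2 :=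
      (BIter_B_cont hN x).norm.pow 2
    have hcA : Continuous fun t : ℝ => ‖BIter_B (fun u => (Ev (u + lam / 2) - Ev (u - lam / 2)) *
        φ (u / Real.log T)) (ps x t)‖ ^ 2 := (BIter_B_cont hNA x).norm.pow 2
    have hcM : Continuous fun t : ℝ => ‖BIter_B (fun v => Ev v * δm (v / Real.log T)) (ps x t)‖ ^ 2 :=
      (BIter_B_cont hNm x).norm.pow 2
    have hcP : Continuous fun t : ℝ => ‖BIter_B (fun v => Ev v * δp (v / Real.log T)) (ps x t)‖ ^ 2 :=
      (BIter_B_cont hNp x).norm.pow 2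
    have hint := BIter_comb hle hcF hcA hcM hcP hpt
    -- the three terms
    obtain ⟨D, hD⟩ : ∃ D, D = ∫ u in (b * Real.log T)..(B * Real.log T - 1), Dt lam u ^ 2 := ⟨_, rfl⟩
    have hD0 : 0 ≤ D := by
      rw [hD]
      exact intervalIntegral.integral_nonneg hbB fun u _ => sq_nonneg _
    have hA1 := BIter_meansq hT0 hNA x
    rw [← hK0] at hA1
    have hA2 := BIter_A_bound (b := b) (B := B) hL (by linarith) hbp.le hqB hz hS' hl0 hbB hx
    rw [← hD] at hA2
    have hA3 := hA1.trans (mul_le_mul_of_nonneg_left hA2 hK0p)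
    have hp0 : 0 ≤ (b + p) / 2 := by linarith
    have hM1 := hI T hT' lam hlam δm (S * (1 / T)) hmS hmz hmd x hx
    have hP1 := hI T hT' lam hlam δp (S * (1 / T)) hpS hpz hpd x hx
    simp only [BIter_Bs_eq (B := B) hL hp0 (by linarith : (q + B) / 2 ≤ B) (by linarith) hmz] at hM1
    simp only [BIter_Bs_eq (B := B) hL hp0 (by linarith : (q + B) / 2 ≤ B) (by linarith) hpz] at hP1
    rw [← hD] at hM1 hP1 ⊢
    obtain ⟨R, hR⟩ : ∃ R, R = T ^ (2 * B + 2 - 2 * (J : ℝ)) := ⟨_, rfl⟩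
    have hR0 : 0 ≤ R := by rw [hR]; positivity
    have hR1 : T ^ (2 * B + 2 - 2 * ((J + 1 : ℕ) : ℝ)) = R * (1 / T) ^ 2 := by
      have h1 : 2 * B + 2 - 2 * ((J + 1 : ℕ) : ℝ) = (2 * B + 2 - 2 * (J : ℝ)) - 2 := by
        push_cast
        ring
      rw [h1, Real.rpow_sub hT0, hR, Real.rpow_two]
      ring
    rw [← hR] at hM1 hP1
    rw [hR1]
    have hTT : (1 / T) ^ 2 ≤ 1 := pow_le_one₀ (by positivity) hT1
    have hX : C' * (S * (1 / T)) ^ 2 * (D + R) ≤ C' * S ^ 2 * (D + R * (1 / T) ^ 2) := by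
      have h1 : C' * (S * (1 / T)) ^ 2 * (D + R) =
          C' * S ^ 2 * ((1 / T) ^ 2 * D + R * (1 / T) ^ 2) := by ring
      rw [h1]
      refine mul_le_mul_of_nonneg_left ?_ (by positivity)
      have h2 := mul_le_mul_of_nonneg_right hTT hD0
      linarith
    simp only [BIter_Bs_eq (B := B) hL (by linarith : (0 : ℝ) ≤ p) hql.le (by linarith) hz]
    refine hint.trans ?_
    have hY : K0 * (S ^ 2 * Real.exp (2 * (c * B)) * D) ≤
        K0 * Real.exp (2 * (c * B)) * S ^ 2 * (D + R * (1 / T) ^ 2) := by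
      have h1 : D ≤ D + R * (1 / T) ^ 2 := by
        have : 0 ≤ R * (1 / T) ^ 2 := by positivity
        linarith
      have h2 := mul_le_mul_of_nonneg_left h1 (by positivity : 0 ≤ K0 * Real.exp (2 * (c * B)) * S ^ 2)
      linarith
    linarith [hA3, hM1.trans hX, hP1.trans hX, hY]

end Pool.Agent.Lib.MP_2a816b_nt.SG
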