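import Mathlib

/-!
# No spectral gap: definitions

`L = log T` throughout.  Exponents are measured in units of `L`: the integer `n` has exponent `log n / L`.
-/

namespace Pool.Agent.Lib.MP_2a816b_nt.SG

open Complex Set Filter Topology MeasureTheory


noncomputable section

/-- smooth cutoff: `1` on `(-∞, a]`, `0` on `[a + θ, ∞)` -/
def cut (a θ x : ℝ) : ℝ := Real.smoothTransition ((a + θ - x) / θ)

/-- the window function, supported in `[b + θ, b + 1 + 6 θ]`, equal to `1` on `[b + 2 θ, b + 1 + 5 θ]` -/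
def Wf (b θ x : ℝ) : ℝ := cut (b + 1 + 5 * θ) θ x - cut (b + θ) θ x

/-- the Dirichlet polynomial `∑ Λ(n) φ(log n / log T) n^(-s)`, `n ≤ T^B` -/
def Dp (T B : ℝ) (φ : ℝ → ℝ) (s : ℂ) : ℂ :=
  ∑ n ∈ Finset.Icc 1 ⌊T ^ B⌋₊,
    ((ArithmeticFunction.vonMangoldt n * φ (Real.log n / Real.log T) : ℝ) : ℂ) * (n : ℂ) ^ (-s)

/-- the Dirichlet polynomial `∑ φ(log n / log T) n^(-s)`, `n ≤ T^B` -/
def Zp (T B : ℝ) (φ : ℝ → ℝ) (s : ℂ) : ℂ :=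
  ∑ n ∈ Finset.Icc 1 ⌊T ^ B⌋₊, ((φ (Real.log n / Real.log T) : ℝ) : ℂ) * (n : ℂ) ^ (-s)

/-- a general Dirichlet polynomial -/
def Mp (R : Finset ℕ) (m : ℕ → ℂ) (s : ℂ) : ℂ := ∑ r ∈ R, m r * (r : ℂ) ^ (-s)

/-- the point `1/2 + x + i t` -/
def ps (x t : ℝ) : ℂ := ((1 / 2 + x : ℝ) : ℂ) + t * I

/-- mean square over `[T/2, 3T]` -/
def ms (T : ℝ) (F : ℂ → ℂ) (x : ℝ) : ℝ :=
  (1 / T) * ∫ t in (T / 2)..(3 * T), ‖F (((1 / 2 + x : ℝ) : ℂ) + t * I)‖ ^ 2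

/-- the function which is small if there is a spectral gap -/
def GG (D M : ℂ → ℂ) (s : ℂ) : ℂ := deriv riemannZeta s * M s + D s * riemannZeta s * M s

/-- conditions on the mollifier -/
def MOk (T θ : ℝ) (R : Finset ℕ) (m : ℕ → ℂ) : Prop :=
  ∀ r ∈ R, 1 ≤ r ∧ (r : ℝ) ≤ T ^ θ ∧ ‖m r‖ ≤ 1

/-- the finite sum which approximates `GG (Dp T (b + 2) (cut (b + θ) θ)) (Mp R m)` -/
def G1 (T b θ : ℝ) (R : Finset ℕ) (m : ℕ → ℂ) (s : ℂ) : ℂ :=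
  ∑ r ∈ R, m r * ((∑ k ∈ Finset.Icc 1 ⌊T ^ (b + 2)⌋₊, ∑ n ∈ Finset.Icc 1 ⌊T ^ (b + 2)⌋₊,
      ((ArithmeticFunction.vonMangoldt k * cut (b + θ) θ (Real.log k / Real.log T) *
        cut (b + 1 + 4 * θ) θ (Real.log (r * k * n) / Real.log T) : ℝ) : ℂ) * ((r * k * n : ℕ) : ℂ) ^ (-s)) -
    ∑ n ∈ Finset.Icc 1 ⌊T ^ (b + 2)⌋₊,
      ((Real.log n * cut (b + 1 + 4 * θ) θ (Real.log (r * n) / Real.log T) : ℝ) : ℂ) * ((r * n : ℕ) : ℂ) ^ (-s))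

/-- the finite sum over the window -/
def W1 (T b θ : ℝ) (R : Finset ℕ) (m : ℕ → ℂ) (s : ℂ) : ℂ :=
  ∑ r ∈ R, m r * ∑ k ∈ Finset.Icc 1 ⌊T ^ (b + 2)⌋₊, ∑ n ∈ Finset.Icc 1 ⌊T ^ (b + 2)⌋₊,
      ((ArithmeticFunction.vonMangoldt k * Wf b θ (Real.log k / Real.log T) *
        cut (b + 1 + 4 * θ) θ (Real.log (r * k * n) / Real.log T) : ℝ) : ℂ) * ((r * k * n : ℕ) : ℂ) ^ (-s)

/-- `ψ(e^v) - e^v` -/
def Ev (v : ℝ) : ℝ := Chebyshev.psi (Real.exp v) - Real.exp v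

/-- normalised error of the window `[e^(u - l/2), e^(u + l/2)]` (the same as `PV.Dt`) -/
def Dt (l u : ℝ) : ℝ :=
  Real.exp (-(u / 2)) * (Chebyshev.psi (Real.exp (u + l / 2)) - Chebyshev.psi (Real.exp (u - l / 2))) -
    2 * Real.sinh (l / 2) * Real.exp (u / 2)

/-- `∫ E(v) φ(v / log T) e^(-s v) dv` over `[0, B log T]` -/
def Bs (T B : ℝ) (φ : ℝ → ℝ) (s : ℂ) : ℂ :=
  ∫ v in (0 : ℝ)..(B * Real.log T), ((Ev v * φ (v / Real.log T) : ℝ) : ℂ) * cexp (-(s * v))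

end

end Pool.Agent.Lib.MP_2a816b_nt.SG
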