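import Pool.Agent.Lib.MP_ec260d_ntA.MinMod
import Pool.Agent.Lib.MP_2a816b_nt.SG.Defs

/-!
# LEAF Contour (medium, about 150 lines): `f' m + d f m` cannot be small near a zero of `f`

(1) `F(w) = (f m)(r e^(-i w))` is analytic on `closedBall 0 (7/2)` (`|r e^(-iw)| = r e^(Im w) ≤ r e^(3.5) < 40 r`), `‖F‖ ≤ K ≤ e^B`, `‖F 0‖ = ‖f r m r‖ ≥ 1/2 ≥ e^(-B)`, `B = log K + 1`. `min_mod (33/10) (7/2)`: some `τ ∈ [0,1]` with `‖F w‖ ≥ c₀ = exp(-(C B (1 + log B)))` for all `w = u + iτ`, `|u| ≤ π` (`√(π²+1) < 3.3`). So `‖f z m z‖ ≥ c₀` on the circle `|z| = ρ`, `ρ = r e^τ ∈ [r, 3r]`.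
(2) Suppose `‖g‖ ≤ η` on `closedBall 0 (3r)`, `g = f' m + d f m`, `η = c₀/(100 r)`. `h = f P`: `h' = (f' + d f) P`, so on the circle `h' m = g P`, `‖h'‖ = ‖g‖‖P‖/‖m‖ = ‖g‖ ‖h‖/‖f m‖ ≤ (η/c₀) ‖h‖`, `h ≠ 0` there. With `H(θ) = h(ρ e^(iθ))`, `M` the maximum of `‖h‖` on the circle, `‖H'‖ ≤ (3/100) M`: `‖H(θ) - H(0)‖ ≤ M / 10`, so `M ≤ (10/9) ‖H(0)‖`.
(3) Maximum modulus (`Complex.norm_le_of_forall_mem_frontier_norm_le` on `ball 0 ρ`) for `h - H(0)`: at `z₀`, `‖z₀‖ < r ≤ ρ`: `‖H(0)‖ = ‖h z₀ - H(0)‖ ≤ M / 10 ≤ ‖H(0)‖ / 9`, contradiction.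
-/

namespace Pool.Agent.Lib.MP_2a816b_nt.SG

open Complex Set Filter Topology MeasureTheory Metric
open scoped ContDiff

private theorem exp_seven_half : Real.exp (7 / 2) ≤ 40 := by
  have h1 : Real.exp 1 < 2.7182818286 := Real.exp_one_lt_d9
  have h2 : Real.exp (7 / 2) ^ 2 = Real.exp 1 ^ 7 := by
    rw [← Real.exp_nat_mul, ← Real.exp_nat_mul]
    norm_num
  have h3 : Real.exp 1 ^ 7 ≤ 2.7182818286 ^ 7 := pow_le_pow_left₀ (Real.exp_pos 1).le h1.le 7
  have h4 : Real.exp (7 / 2) ^ 2 ≤ 40 ^ 2 := by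
    rw [h2]
    refine h3.trans ?_
    norm_num
  exact (pow_le_pow_iff_left₀ (Real.exp_pos _).le (by norm_num) two_ne_zero).1 h4

/-- The circle on which `F` is not small. -/
private theorem circle_bound {r τ : ℝ} {F : ℂ → ℂ} {c : ℝ}
    (hτ : τ ∈ Icc (0 : ℝ) 1)
    (hmin : ∀ w ∈ closedBall (0 : ℂ) (33 / 10), w.im = (0 : ℂ).im + τ →
      c ≤ ‖F ((r : ℂ) * cexp (-(I * w)))‖)
    {z : ℂ} (hz : ‖z‖ = r * Real.exp τ) : c ≤ ‖F z‖ := by
  have harg := Complex.abs_arg_le_pi z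
  have hpi := Real.pi_lt_d4
  have h1 := hmin ⟨-arg z, τ⟩ (by
    rw [mem_closedBall, dist_zero_right]
    have h2 : ‖(⟨-arg z, τ⟩ : ℂ)‖ ^ 2 ≤ (33 / 10) ^ 2 := by
      rw [← Complex.normSq_eq_norm_sq, Complex.normSq_mk]
      have h3 : -arg z * -arg z ≤ 3.1416 ^ 2 := by
        have h4 : |arg z| ≤ 3.1416 := harg.trans hpi.le
        have h5 : |arg z| ^ 2 ≤ 3.1416 ^ 2 := pow_le_pow_left₀ (abs_nonneg _) h4 2
        rw [sq_abs] at h5
        nlinarith
      have h6 : τ * τ ≤ 1 := by nlinarith [hτ.1, hτ.2]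
      norm_num at h3 ⊢
      linarith
    exact (pow_le_pow_iff_left₀ (norm_nonneg _) (by norm_num) two_ne_zero).1 h2) (by simp)
  have h7 : (r : ℂ) * cexp (-(I * ⟨-arg z, τ⟩)) = z := by
    have h8 : (-(I * (⟨-arg z, τ⟩ : ℂ))) = (τ : ℂ) + arg z * I := by
      apply Complex.ext <;> simp
    rw [h8, Complex.exp_add, ← Complex.ofReal_exp, ← mul_assoc, ← Complex.ofReal_mul, ← hz]
    exact Complex.norm_mul_exp_arg_mul_I z
  rwa [h7] at h1

theorem contour (r K : ℝ) (hr : 0 < r) (hK : 1 ≤ K) : ∃ η : ℝ, 0 < η ∧ ∀ (f m d P : ℂ → ℂ) (z₀ : ℂ),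
    (∀ z ∈ closedBall (0 : ℂ) (40 * r), AnalyticAt ℂ f z ∧ AnalyticAt ℂ m z) →
    (∀ z ∈ closedBall (0 : ℂ) (40 * r), HasDerivAt P (d z * P z) z ∧ P z ≠ 0) →
    (∀ z ∈ closedBall (0 : ℂ) (40 * r), ‖f z * m z‖ ≤ K) → 1 / 2 ≤ ‖f r * m r‖ → f z₀ = 0 → ‖z₀‖ < r →
      ∃ z ∈ closedBall (0 : ℂ) (3 * r), η < ‖deriv f z * m z + d z * f z * m z‖ := by
  obtain ⟨C, hC0, hmm⟩ := MP_ec260d_ntA.min_mod (33 / 10) (7 / 2) (by norm_num) (by norm_num)
  set B : ℝ := Real.log K + 1 with hBdef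
  have hB : 1 ≤ B := by
    have := Real.log_nonneg hK
    linarith
  set c : ℝ := Real.exp (-(C * B * (1 + Real.log B))) with hcdef
  have hc : 0 < c := Real.exp_pos _
  refine ⟨c / (100 * r), by positivity, fun f m d P z₀ hfm hP hKb h1 hz hzr => ?_⟩
  by_contra hcon
  push Not at hcon
  -- the circle
  have hZn : ∀ w : ℂ, ‖(r : ℂ) * cexp (-(I * w))‖ = r * Real.exp w.im := by
    intro w
    rw [norm_mul, Complex.norm_exp, Complex.norm_real, Real.norm_of_nonneg hr.le]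
    congr 2
    simp
  have hZ40 : ∀ w ∈ closedBall (0 : ℂ) (7 / 2),
      (r : ℂ) * cexp (-(I * w)) ∈ closedBall (0 : ℂ) (40 * r) := by
    intro w hw
    rw [mem_closedBall, dist_zero_right] at hw ⊢
    rw [hZn]
    have h2 : w.im ≤ 7 / 2 := (le_abs_self _).trans ((Complex.abs_im_le_norm w).trans hw)
    have h3 : Real.exp w.im ≤ 40 := (Real.exp_le_exp.2 h2).trans exp_seven_half
    calc r * Real.exp w.im ≤ r * 40 := mul_le_mul_of_nonneg_left h3 hr.le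
      _ = 40 * r := mul_comm _ _
  have hZa : ∀ w : ℂ, AnalyticAt ℂ (fun w : ℂ => (r : ℂ) * cexp (-(I * w))) w := by
    intro w
    fun_prop
  obtain ⟨τ, hτ, hmin⟩ := hmm (fun w => f ((r : ℂ) * cexp (-(I * w))) *
      m ((r : ℂ) * cexp (-(I * w)))) 0 B hB
    (fun w hw => ((hfm _ (hZ40 w hw)).1.comp_of_eq (hZa w) rfl).mul
      ((hfm _ (hZ40 w hw)).2.comp_of_eq (hZa w) rfl))
    (fun w hw => (hKb _ (hZ40 w hw)).trans (by
      rw [hBdef, Real.exp_add, Real.exp_log (by linarith)]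
      have h2 : 1 ≤ Real.exp 1 := Real.one_le_exp zero_le_one
      nlinarith))
    (by
      have h2 : (r : ℂ) * cexp (-(I * 0)) = r := by simp
      show Real.exp (-B) ≤ ‖f ((r : ℂ) * cexp (-(I * 0))) * m ((r : ℂ) * cexp (-(I * 0)))‖
      rw [h2]
      refine le_trans ?_ h1
      have h3 : Real.exp (-B) ≤ Real.exp (-1) := Real.exp_le_exp.2 (by linarith)
      refine h3.trans ?_
      rw [Real.exp_neg, inv_le_comm₀ (Real.exp_pos _) (by norm_num)]
      have := Real.add_one_le_exp (1 : ℝ)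
      norm_num at this ⊢
      linarith)
  set ρ : ℝ := r * Real.exp τ with hρ
  have hρr : r ≤ ρ := by
    have h2 : 1 ≤ Real.exp τ := Real.one_le_exp hτ.1
    rw [hρ]
    nlinarith
  have hρ0 : 0 < ρ := hr.trans_le hρr
  have hρ3 : ρ ≤ 3 * r := by
    have h2 : Real.exp τ ≤ Real.exp 1 := Real.exp_le_exp.2 hτ.2
    have h3 := Real.exp_one_lt_d9
    rw [hρ]
    nlinarith
  have hcirc : ∀ z : ℂ, ‖z‖ = ρ → c ≤ ‖f z * m z‖ := by
    intro z hz2
    exact circle_bound (F := fun z => f z * m z) hτ hmin hz2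
  have h40 : ∀ z : ℂ, ‖z‖ ≤ ρ → z ∈ closedBall (0 : ℂ) (40 * r) := by
    intro z hz2
    rw [mem_closedBall, dist_zero_right]
    linarith
  have h3 : ∀ z : ℂ, ‖z‖ ≤ ρ → z ∈ closedBall (0 : ℂ) (3 * r) := by
    intro z hz2
    rw [mem_closedBall, dist_zero_right]
    linarith
  -- the function `h = f P`
  have hder : ∀ z : ℂ, ‖z‖ ≤ ρ →
      HasDerivAt (fun z => f z * P z) ((deriv f z + d z * f z) * P z) z := by
    intro z hz2
    have h4 := (hfm z (h40 z hz2)).1.differentiableAt.hasDerivAt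
    have h5 := h4.mul (hP z (h40 z hz2)).1
    refine h5.congr_deriv ?_
    ring
  have hderb : ∀ z : ℂ, ‖z‖ = ρ →
      ‖(deriv f z + d z * f z) * P z‖ ≤ 1 / (100 * r) * ‖f z * P z‖ := by
    intro z hz2
    have h4 := hcirc z hz2
    have h5 := hcon z (h3 z hz2.le)
    have h6 : ‖(deriv f z + d z * f z) * P z‖ * ‖f z * m z‖ =
        ‖deriv f z * m z + d z * f z * m z‖ * ‖f z * P z‖ := by
      rw [← norm_mul, ← norm_mul]
      congr 1
      ring
    have h7 : ‖(deriv f z + d z * f z) * P z‖ * c ≤ c / (100 * r) * ‖f z * P z‖ := by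
      calc ‖(deriv f z + d z * f z) * P z‖ * c ≤
          ‖(deriv f z + d z * f z) * P z‖ * ‖f z * m z‖ :=
            mul_le_mul_of_nonneg_left h4 (norm_nonneg _)
        _ = ‖deriv f z * m z + d z * f z * m z‖ * ‖f z * P z‖ := h6
        _ ≤ c / (100 * r) * ‖f z * P z‖ := mul_le_mul_of_nonneg_right h5 (norm_nonneg _)
    have h8 : c / (100 * r) * ‖f z * P z‖ = 1 / (100 * r) * ‖f z * P z‖ * c := by ring
    rw [h8] at h7
    exact le_of_mul_le_mul_right h7 hc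
  -- the maximum on the circle
  have hcont : ContinuousOn (fun z => ‖f z * P z‖) (sphere (0 : ℂ) ρ) := fun z hz2 =>
    ((hder z (by rw [mem_sphere, dist_zero_right] at hz2; exact hz2.le)).continuousAt.norm).continuousWithinAt
  obtain ⟨zM, hzM, hmax⟩ := (isCompact_sphere (0 : ℂ) ρ).exists_isMaxOn
    (NormedSpace.sphere_nonempty.2 hρ0.le) hcont
  set M : ℝ := ‖f zM * P zM‖ with hM
  have hM0 : 0 ≤ M := norm_nonneg _
  have hMle : ∀ z : ℂ, ‖z‖ = ρ → ‖f z * P z‖ ≤ M := by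
    intro z hz2
    exact hmax (show z ∈ sphere (0 : ℂ) ρ by rw [mem_sphere, dist_zero_right]; exact hz2)
  have hnr : ∀ θ : ℝ, ‖(ρ : ℂ) * cexp (θ * I)‖ = ρ := by
    intro θ
    rw [norm_mul, Complex.norm_exp_ofReal_mul_I, mul_one, Complex.norm_real,
      Real.norm_of_nonneg hρ0.le]
  have hmv : ∀ θ : ℝ, |θ| ≤ Real.pi →
      ‖f ((ρ : ℂ) * cexp (θ * I)) * P ((ρ : ℂ) * cexp (θ * I)) - f ρ * P ρ‖ ≤ M / 10 := by
    intro θ hθ
    have h4 : ∀ x : ℝ, HasDerivAt (fun x : ℝ => (ρ : ℂ) * cexp (x * I))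
        ((ρ : ℂ) * (cexp (x * I) * I)) x := by
      intro x
      have h5 : HasDerivAt (fun x : ℝ => ((x : ℂ) * I)) I x := by
        have := (Complex.ofRealCLM.hasDerivAt (x := x)).mul_const I
        simpa using this
      exact (h5.cexp).const_mul (ρ : ℂ)
    have h6 : ∀ x : ℝ, HasDerivAt (fun x : ℝ => f ((ρ : ℂ) * cexp (x * I)) *
        P ((ρ : ℂ) * cexp (x * I)))
        (((deriv f ((ρ : ℂ) * cexp (x * I)) + d ((ρ : ℂ) * cexp (x * I)) *
          f ((ρ : ℂ) * cexp (x * I))) * P ((ρ : ℂ) * cexp (x * I))) *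
          ((ρ : ℂ) * (cexp (x * I) * I))) x := by
      intro x
      have := HasDerivAt.comp x (hder ((ρ : ℂ) * cexp (x * I)) (hnr x).le) (h4 x)
      exact this
    have h7 := Convex.norm_image_sub_le_of_norm_hasDerivWithin_le
      (f := fun x : ℝ => f ((ρ : ℂ) * cexp (x * I)) * P ((ρ : ℂ) * cexp (x * I)))
      (s := Set.univ) (x := 0) (y := θ) (C := 3 / 100 * M)
      (fun x _ => (h6 x).hasDerivWithinAt) (fun x _ => ?_) convex_univ (mem_univ _) (mem_univ _)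
    · have h8 : f ((ρ : ℂ) * cexp (((0 : ℝ) : ℂ) * I)) * P ((ρ : ℂ) * cexp (((0 : ℝ) : ℂ) * I)) =
          f ρ * P ρ := by
        simp
      rw [h8] at h7
      refine h7.trans ?_
      rw [sub_zero, Real.norm_eq_abs]
      have h9 := Real.pi_lt_d4
      have h10 : |θ| ≤ 10 / 3 := hθ.trans (by linarith)
      calc 3 / 100 * M * |θ| ≤ 3 / 100 * M * (10 / 3) :=
            mul_le_mul_of_nonneg_left h10 (by positivity)
        _ = M / 10 := by ring
    · rw [norm_mul, norm_mul (ρ : ℂ), norm_mul (cexp _), Complex.norm_I, mul_one,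
        Complex.norm_exp_ofReal_mul_I, mul_one, Complex.norm_real, Real.norm_of_nonneg hρ0.le]
      calc ‖(deriv f ((ρ : ℂ) * cexp (x * I)) + d ((ρ : ℂ) * cexp (x * I)) *
            f ((ρ : ℂ) * cexp (x * I))) * P ((ρ : ℂ) * cexp (x * I))‖ * ρ ≤
          (1 / (100 * r) * M) * (3 * r) := by
            refine mul_le_mul ((hderb _ (hnr x)).trans ?_) hρ3 hρ0.le (by positivity)
            exact mul_le_mul_of_nonneg_left (hMle _ (hnr x)) (by positivity)
        _ = 3 / 100 * M := by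
            field_simp
  have hmv2 : ∀ z : ℂ, ‖z‖ = ρ → ‖f z * P z - f ρ * P ρ‖ ≤ M / 10 := by
    intro z hz2
    have h4 := hmv (arg z) (Complex.abs_arg_le_pi z)
    have h5 : (ρ : ℂ) * cexp (arg z * I) = z := by
      rw [← hz2]
      exact Complex.norm_mul_exp_arg_mul_I z
    rwa [h5] at h4
  have hM2 : M ≤ ‖f ρ * P ρ‖ + M / 10 := by
    have hzM2 : ‖zM‖ = ρ := by rwa [mem_sphere, dist_zero_right] at hzM
    have h4 := hmv2 zM hzM2
    have h5 : ‖f zM * P zM‖ ≤ ‖f ρ * P ρ‖ + ‖f zM * P zM - f ρ * P ρ‖ := by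
      have := norm_add_le (f (ρ : ℂ) * P ρ) (f zM * P zM - f ρ * P ρ)
      rwa [add_sub_cancel] at this
    linarith
  -- the maximum principle
  have hdc : DiffContOnCl ℂ (fun z => f z * P z - f ρ * P ρ) (ball (0 : ℂ) ρ) := by
    refine DifferentiableOn.diffContOnCl fun z hz2 => ?_
    have hz3 : ‖z‖ ≤ ρ := by
      have := closure_ball_subset_closedBall hz2
      rwa [mem_closedBall, dist_zero_right] at this
    exact ((hder z hz3).differentiableAt.sub_const _).differentiableWithinAt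
  have hfin := Complex.norm_le_of_forall_mem_frontier_norm_le (isBounded_ball) hdc
    (C := M / 10) (fun z hz2 => by
      rw [frontier_ball (0 : ℂ) hρ0.ne', mem_sphere, dist_zero_right] at hz2
      exact hmv2 z hz2) (z := z₀) (subset_closure (by
      rw [mem_ball, dist_zero_right]
      linarith))
  have hnρ : ‖(ρ : ℂ)‖ = ρ := by rw [Complex.norm_real, Real.norm_of_nonneg hρ0.le]
  have hpos : 0 < ‖f ρ * P ρ‖ := by
    have h4 := hcirc ρ hnρ
    have h5 : f (ρ : ℂ) ≠ 0 := by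
      intro h6
      rw [h6, zero_mul, norm_zero] at h4
      linarith
    exact norm_pos_iff.2 (mul_ne_zero h5 (hP _ (h40 _ hnρ.le)).2)
  simp only [hz, zero_mul, zero_sub, norm_neg] at hfin
  linarith

end Pool.Agent.Lib.MP_2a816b_nt.SG
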