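import Pool.Agent.Lib.MP_2a816b_nt.SG.Defs

/-!
# Cutoffs
-/

namespace Pool.Agent.Lib.MP_2a816b_nt.SG

open Complex Set Filter Topology MeasureTheory
open scoped ContDiff

theorem cut_one {a θ x : ℝ} (hθ : 0 < θ) (hx : x ≤ a) : cut a θ x = 1 := by
  unfold cut
  exact Real.smoothTransition.one_of_one_le ((one_le_div hθ).2 (by linarith))

theorem cut_zero {a θ x : ℝ} (hθ : 0 < θ) (hx : a + θ ≤ x) : cut a θ x = 0 := by
  unfold cut
  exact Real.smoothTransition.zero_of_nonpos (div_nonpos_of_nonpos_of_nonneg (by linarith) hθ.le)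

theorem cut_nonneg (a θ x : ℝ) : 0 ≤ cut a θ x := Real.smoothTransition.nonneg _

theorem cut_le_one (a θ x : ℝ) : cut a θ x ≤ 1 := Real.smoothTransition.le_one _

theorem cut_smooth (a θ : ℝ) : ContDiff ℝ ∞ (cut a θ) := by
  unfold cut
  exact Real.smoothTransition.contDiff.comp (by fun_prop)

theorem Wf_zero_left {b θ x : ℝ} (hθ : 0 < θ) (hx : x ≤ b + θ) : Wf b θ x = 0 := by
  unfold Wf
  rw [cut_one hθ hx, cut_one hθ (by linarith), sub_self]

theorem Wf_zero_right {b θ x : ℝ} (hθ : 0 < θ) (hx : b + 1 + 6 * θ ≤ x) : Wf b θ x = 0 := by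
  unfold Wf
  rw [cut_zero hθ (by linarith), cut_zero hθ (by linarith), sub_self]

theorem Wf_smooth (b θ : ℝ) : ContDiff ℝ ∞ (Wf b θ) := by
  unfold Wf
  exact (cut_smooth _ _).sub (cut_smooth _ _)

theorem Wf_abs_le (b θ x : ℝ) : |Wf b θ x| ≤ 1 := by
  unfold Wf
  have h1 := cut_nonneg (b + 1 + 5 * θ) θ x
  have h2 := cut_le_one (b + 1 + 5 * θ) θ x
  have h3 := cut_nonneg (b + θ) θ x
  have h4 := cut_le_one (b + θ) θ x
  rw [abs_le]
  constructor <;> linarith

end Pool.Agent.Lib.MP_2a816b_nt.SG
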