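import Pool.Agent.Lib.MP_2a816b_nt.PV.Star
import Pool.Agent.Lib.MP_2a816b_nt.SG.Defs

/-!
# LEAF DtSmall (easy, about 100 lines): a relative window with small variance

`SG.Dt = PV.Dt` (same text, `rfl`). `PV.star_avg`: `∫_b^(b+l) RR = (1/(T L²)) ∫_{lT T}^{log 3} w3 λ ∫_{(b-1)L + su λ}^{(b+l-1)L + su λ} Dt λ u² du dλ`, `L = log T`, all integrands `≥ 0`.
`lT T ∈ [1/T, 1.1/T]` (`lT_ge`, `log (1+x) ≤ x`). For `λ ∈ [lT T, 2/T]`: `su λ = - log (2 sinh (λ/2))`, `λ ≤ 2 sinh (λ/2) ≤ 1.01 λ` for small `λ`, so `L - 1 ≤ su λ ≤ L`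
(`su λ ≤ - log λ ≤ log T`, `su λ ≥ - log (2.02/T) ≥ L - 0.71`); so the inner integral is at least `I λ = ∫_{bL}^{(b+l)L - 1} Dt λ u²`, and `w3 λ = (2 sinh (λ/2))⁻³ ≥ (2.02/T)⁻³ ≥ T³/9`.
So `∫_{lT}^{2/T} I ≤ 9 L² T⁻² ∫ RR`, the interval has length `≥ 0.9/T`: some `λ` has `I λ ≤ 10 (L²/T) ∫ RR`.
-/

namespace Pool.Agent.Lib.MP_2a816b_nt.SG

open Complex Set Filter Topology MeasureTheory
open scoped ContDiff

private theorem DtSmall_int {T : ℝ} (hT : 2 ≤ T) {a b : ℝ} (hab : a ≤ b) :
    IntegrableOn (fun l => PV.w3 l * ∫ u in ((a - 1) * Real.log T + PV.su l)..((b - 1) * Real.log T + PV.su l),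
      PV.Dt l u ^ 2) (Ioc (PV.lT T) (Real.log 3)) := by
  have hT0 : 0 < T := by linarith
  have hlog : 0 < Real.log T := Real.log_pos (by linarith)
  have hlT1 : 1 / T ≤ PV.lT T := PV.lT_ge (by linarith : (1 : ℝ) ≤ T)
  have hlT0 : 0 < PV.lT T := lt_of_lt_of_le (by positivity) hlT1
  have hw3m : Measurable PV.w3 := by
    unfold PV.w3
    exact (((Real.continuous_sinh.comp (continuous_id.div_const 2)).const_mul 2).pow 3).measurable.inv
  have hsum : Measurable PV.su := by
    unfold PV.su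
    exact (Real.measurable_log.comp ((Real.continuous_sinh.comp (continuous_id.div_const 2)).const_mul 2).measurable).neg
  have hFm : Measurable fun p : ℝ × ℝ => PV.w3 p.2 * PV.Dt p.2 ((p.1 - 1) * Real.log T + PV.su p.2) ^ 2 := by
    have e1 : Measurable fun p : ℝ × ℝ => (p.2, (p.1 - 1) * Real.log T + PV.su p.2) :=
      measurable_snd.prodMk (((measurable_fst.sub_const 1).mul_const _).add (hsum.comp measurable_snd))
    exact (hw3m.comp measurable_snd).mul ((PV.Dt_meas.comp e1).pow_const 2)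
  obtain ⟨C, hC0, hC⟩ := PV.Dt_bdd ((|a| + |b| + 1) * Real.log T + (1 + Real.log T))
  have hint : Integrable (Function.uncurry fun (α l : ℝ) => PV.w3 l * PV.Dt l ((α - 1) * Real.log T + PV.su l) ^ 2)
      ((volume.restrict (Ioc a b)).prod (volume.restrict (Ioc (PV.lT T) (Real.log 3)))) := by
    rw [Measure.prod_restrict]
    refine Measure.integrableOn_of_bounded (M := 1 / (PV.lT T) ^ 3 * C ^ 2) ?_ ?_ ?_
    · rw [Measure.prod_prod, Real.volume_Ioc, Real.volume_Ioc]
      exact ENNReal.mul_ne_top ENNReal.ofReal_ne_top ENNReal.ofReal_ne_top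
    · exact hFm.aestronglyMeasurable
    · filter_upwards [ae_restrict_mem (measurableSet_Ioc.prod measurableSet_Ioc)] with p hp
      obtain ⟨hp1, hp2⟩ := hp
      have hl0 : 0 < p.2 := hlT0.trans hp2.1
      have hw := PV.w3_le hl0
      have hw0 := PV.w3_pos hl0
      have hs1 := PV.su_ge_neg_one hl0 hp2.2
      have hs2 := PV.su_le hl0
      have hs3 : -Real.log p.2 ≤ Real.log T := by
        have := Real.log_le_log (by positivity) (hlT1.trans hp2.1.le)
        rw [one_div, Real.log_inv] at this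
        linarith
      have hsabs : |PV.su p.2| ≤ 1 + Real.log T := abs_le.2 ⟨by linarith, by linarith⟩
      have hα : |p.1 - 1| ≤ |a| + |b| + 1 := by
        have := neg_abs_le a
        have := le_abs_self b
        have := abs_nonneg a
        have := abs_nonneg b
        rw [abs_le]
        constructor <;> linarith [hp1.1, hp1.2]
      have harg : |(p.1 - 1) * Real.log T + PV.su p.2| ≤ (|a| + |b| + 1) * Real.log T + (1 + Real.log T) := by
        refine (abs_add_le _ _).trans (add_le_add ?_ hsabs)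
        rw [abs_mul, abs_of_pos hlog]
        exact mul_le_mul_of_nonneg_right hα hlog.le
      have hD := hC p.2 _ hl0.le (hp2.2.trans PV.log_three_le) harg
      show ‖PV.w3 p.2 * PV.Dt p.2 ((p.1 - 1) * Real.log T + PV.su p.2) ^ 2‖ ≤ _
      rw [Real.norm_of_nonneg (by positivity), ← sq_abs (PV.Dt _ _)]
      refine mul_le_mul (hw.trans ?_) (pow_le_pow_left₀ (abs_nonneg _) hD 2) (by positivity) (by positivity)
      exact one_div_le_one_div_of_le (by positivity) (pow_le_pow_left₀ hlT0.le hp2.1.le 3)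
  have e1 : ∀ l, ∫ α in Ioc a b, PV.w3 l * PV.Dt l ((α - 1) * Real.log T + PV.su l) ^ 2 =
      (Real.log T)⁻¹ * (PV.w3 l * ∫ u in ((a - 1) * Real.log T + PV.su l)..((b - 1) * Real.log T + PV.su l),
        PV.Dt l u ^ 2) := by
    intro l
    rw [integral_const_mul, ← intervalIntegral.integral_of_le hab]
    have e2 : ∀ α : ℝ, (α - 1) * Real.log T + PV.su l = Real.log T * α + (PV.su l - Real.log T) := fun α => by ring
    simp only [e2]
    rw [intervalIntegral.integral_comp_mul_add (fun u => PV.Dt l u ^ 2) hlog.ne', smul_eq_mul]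
    ring
  have h3 := hint.integral_prod_right
  have h4 : Integrable (fun l => (Real.log T)⁻¹ * (PV.w3 l * ∫ u in ((a - 1) * Real.log T + PV.su l)..((b - 1) * Real.log T + PV.su l),
        PV.Dt l u ^ 2)) (volume.restrict (Ioc (PV.lT T) (Real.log 3))) := by
    refine h3.congr (Eventually.of_forall fun l => ?_)
    exact e1 l
  have h5 := h4.const_mul (Real.log T)
  refine h5.congr (Eventually.of_forall fun l => ?_)
  show Real.log T * ((Real.log T)⁻¹ * _) = _
  rw [← mul_assoc, mul_inv_cancel₀ hlog.ne', one_mul]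

private theorem DtSmall_sinh {x : ℝ} (h0 : 0 < x) (h1 : x ≤ 1 / 50) : 2 * Real.sinh (x / 2) ≤ 1.01 * x := by
  have hE := PV.Star_sinh (l := x)
  have h2 : 1 ≤ Real.exp (x / 2) := Real.one_le_exp (by linarith)
  have h3 : Real.exp x - 1 ≤ x + x ^ 2 := by
    have := Real.abs_exp_sub_one_sub_id_le (x := x) (by rw [abs_of_pos h0]; linarith)
    have := (abs_le.1 this).2
    linarith
  have h4 : 0 < 2 * Real.sinh (x / 2) := PV.Elem_sinh_pos h0
  have h5 : 1 + x / 2 ≤ Real.exp (x / 2) := by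
    have := Real.add_one_le_exp (x / 2)
    linarith
  have h6 : 2 * Real.sinh (x / 2) * (1 + x / 2) ≤ x + x ^ 2 := by
    have := mul_le_mul_of_nonneg_left h5 h4.le
    linarith
  have h7 : x + x ^ 2 ≤ 1.01 * x * (1 + x / 2) := by nlinarith
  exact le_of_mul_le_mul_right (h6.trans h7) (by linarith)

theorem dt_small (b l : ℝ) (hb : 1 ≤ b) (hl : 0 < l) : ∃ C T₀ : ℝ, 0 ≤ C ∧ 2 ≤ T₀ ∧ ∀ T : ℝ, T₀ ≤ T →
    ∃ lam ∈ Icc (1 / T) (2 / T), ∫ u in (b * Real.log T)..((b + l) * Real.log T - 1), Dt lam u ^ 2 ≤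
      C * (Real.log T ^ 2 / T) * ∫ α in b..(b + l), PV.RR α T := by
  refine ⟨10, max 200 (Real.exp (1 / l)), by norm_num, le_max_of_le_left (by norm_num), fun T hT => ?_⟩
  have hT1 : (200 : ℝ) ≤ T := (le_max_left _ _).trans hT
  have hT2 : Real.exp (1 / l) ≤ T := (le_max_right _ _).trans hT
  have hT0 : 0 < T := by linarith
  have hlog : 0 < Real.log T := Real.log_pos (by linarith)
  have hlog1 : 1 ≤ l * Real.log T := by
    have := Real.log_le_log (Real.exp_pos _) hT2
    rw [Real.log_exp, div_le_iff₀ hl] at this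
    linarith
  have hlT1 : 1 / T ≤ PV.lT T := PV.lT_ge (by linarith : (1 : ℝ) ≤ T)
  have hlT0 : 0 < PV.lT T := lt_of_lt_of_le (by positivity) hlT1
  have hlT2 : PV.lT T ≤ 1.1 / T := by
    have h1 : 0 < 2 * T - 1 := by linarith
    have h2 : 0 < (2 * T + 1) / (2 * T - 1) := by positivity
    unfold PV.lT
    refine (Real.log_le_sub_one_of_pos h2).trans ?_
    rw [div_sub_one h1.ne', div_le_div_iff₀ h1 hT0]
    linarith
  have hlog3 : (1 : ℝ) ≤ Real.log 3 := by
    rw [Real.le_log_iff_exp_le (by norm_num)]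
    exact (Real.exp_one_lt_d9.le).trans (by norm_num)
  have h2T : 2 / T ≤ Real.log 3 := by
    refine le_trans ?_ hlog3
    rw [div_le_one hT0]
    linarith
  have hlen : 0.9 / T ≤ 2 / T - PV.lT T := by
    have : 2 / T = 0.9 / T + 1.1 / T := by ring
    linarith
  have hlen0 : 0 < 2 / T - PV.lT T := lt_of_lt_of_le (by positivity) hlen
  obtain ⟨-, hstar⟩ := PV.star_avg (by linarith : (2 : ℝ) ≤ T) (by linarith : b ≤ b + l)
  have hint := DtSmall_int (by linarith : (2 : ℝ) ≤ T) (by linarith : b ≤ b + l)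
  set F : ℝ → ℝ := fun x => PV.w3 x * ∫ u in ((b - 1) * Real.log T + PV.su x)..((b + l - 1) * Real.log T + PV.su x),
      PV.Dt x u ^ 2 with hF
  set R := ∫ α in b..(b + l), PV.RR α T with hR
  have hF0 : ∀ x, 0 < x → 0 ≤ F x := by
    intro x hx
    refine mul_nonneg (PV.w3_pos hx).le (intervalIntegral.integral_nonneg ?_ fun u _ => sq_nonneg _)
    nlinarith
  -- the average
  have hsub : Ioc (PV.lT T) (2 / T) ⊆ Ioc (PV.lT T) (Real.log 3) := Ioc_subset_Ioc_right h2T
  have hvol : volume (Ioc (PV.lT T) (2 / T)) = ENNReal.ofReal (2 / T - PV.lT T) := Real.volume_Ioc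
  have hne : volume (Ioc (PV.lT T) (2 / T)) ≠ 0 := by
    rw [hvol]
    exact (ENNReal.ofReal_pos.2 hlen0).ne'
  have hne' : volume (Ioc (PV.lT T) (2 / T)) ≠ ⊤ := by
    rw [hvol]
    exact ENNReal.ofReal_ne_top
  obtain ⟨lam, hlam, hle⟩ := exists_le_setAverage hne hne' (hint.mono_set hsub)
  have hlam0 : 0 < lam := hlT0.trans hlam.1
  have hlam1 : 1 / T ≤ lam := hlT1.trans hlam.1.le
  refine ⟨lam, ⟨hlam1, hlam.2⟩, ?_⟩
  have hint2 : ∫ x in Ioc (PV.lT T) (2 / T), F x ≤ ∫ x in Ioc (PV.lT T) (Real.log 3), F x := by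
    refine setIntegral_mono_set hint ?_ hsub.eventuallyLE
    filter_upwards [ae_restrict_mem measurableSet_Ioc] with x hx
    exact hF0 x (hlT0.trans hx.1)
  have hstar2 : ∫ x in Ioc (PV.lT T) (Real.log 3), F x = T * Real.log T ^ 2 * R := by
    rw [← intervalIntegral.integral_of_le (h2T.trans' (by linarith)), hstar]
    field_simp
  rw [setAverage_eq, measureReal_def, hvol, ENNReal.toReal_ofReal hlen0.le, smul_eq_mul] at hle
  have hnn : 0 ≤ ∫ x in Ioc (PV.lT T) (2 / T), F x :=
    setIntegral_nonneg measurableSet_Ioc fun x hx => hF0 x (hlT0.trans hx.1)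
  have hR0 : 0 ≤ T * Real.log T ^ 2 * R := by
    rw [← hstar2]
    exact hnn.trans hint2
  have hle2 : F lam ≤ T / 0.9 * (T * Real.log T ^ 2 * R) := by
    refine hle.trans ?_
    refine mul_le_mul ?_ (hint2.trans hstar2.le) hnn (by positivity)
    rw [inv_le_comm₀ hlen0 (by positivity), inv_div]
    exact hlen
  -- the bounds for w3 and su
  have hlamle : lam ≤ 1 / 50 := by
    refine hlam.2.trans ?_
    rw [div_le_div_iff₀ hT0 (by norm_num)]
    linarith
  have hsh := DtSmall_sinh hlam0 hlamle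
  have hsh0 : 0 < 2 * Real.sinh (lam / 2) := PV.Elem_sinh_pos hlam0
  have hsh2 : 2 * Real.sinh (lam / 2) ≤ 2.02 / T := by
    refine hsh.trans ?_
    have : 1.01 * lam ≤ 1.01 * (2 / T) := mul_le_mul_of_nonneg_left hlam.2 (by norm_num)
    refine this.trans (le_of_eq ?_)
    ring
  have hw3 : T ^ 3 / 9 ≤ PV.w3 lam := by
    unfold PV.w3
    rw [le_inv_comm₀ (by positivity) (by positivity)]
    refine (pow_le_pow_left₀ hsh0.le hsh2 3).trans ?_
    rw [div_pow, inv_div]
    exact div_le_div_of_nonneg_right (by norm_num) (by positivity)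
  have hsu1 : PV.su lam ≤ Real.log T := by
    refine (PV.su_le hlam0).trans ?_
    have := Real.log_le_log (by positivity) hlam1
    rw [one_div, Real.log_inv] at this
    linarith
  have hsu2 : Real.log T - 1 ≤ PV.su lam := by
    unfold PV.su
    have h1 := Real.log_le_log hsh0 hsh2
    rw [Real.log_div (by norm_num) hT0.ne'] at h1
    have h2 : Real.log 2.02 ≤ 1 := by
      rw [Real.log_le_iff_le_exp (by norm_num)]
      exact (by norm_num : (2.02 : ℝ) ≤ 2.7182818283).trans Real.exp_one_gt_d9.le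
    linarith
  -- the inner integral
  have hDint : ∀ x y : ℝ, IntervalIntegrable (fun u => PV.Dt lam u ^ 2) volume x y := by
    intro x y
    obtain ⟨C, hC0, hC⟩ := PV.Dt_bdd (|x| + |y|)
    rw [intervalIntegrable_iff]
    refine Measure.integrableOn_of_bounded (M := C ^ 2) ?_ ?_ ?_
    · rw [uIoc, Real.volume_Ioc]
      exact ENNReal.ofReal_ne_top
    · exact ((PV.Dt_meas.comp (measurable_const.prodMk measurable_id)).pow_const 2).aestronglyMeasurable
    · filter_upwards [ae_restrict_mem measurableSet_uIoc] with u hu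
      have hu' : |u| ≤ |x| + |y| := by
        rcases mem_uIoc.1 hu with h | h
        · rw [abs_le]
          constructor
          · linarith [h.1, neg_abs_le x, abs_nonneg y]
          · linarith [h.2, le_abs_self y, abs_nonneg x]
        · rw [abs_le]
          constructor
          · linarith [h.1, neg_abs_le y, abs_nonneg x]
          · linarith [h.2, le_abs_self x, abs_nonneg y]
      have hD := hC lam u hlam0.le (by linarith) hu'
      rw [Real.norm_of_nonneg (sq_nonneg _), ← sq_abs]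
      exact pow_le_pow_left₀ (abs_nonneg _) hD 2
  have hI : ∫ u in (b * Real.log T)..((b + l) * Real.log T - 1), Dt lam u ^ 2 ≤
      ∫ u in ((b - 1) * Real.log T + PV.su lam)..((b + l - 1) * Real.log T + PV.su lam), PV.Dt lam u ^ 2 := by
    refine intervalIntegral.integral_mono_interval (by linarith) (by linarith) (by linarith) ?_ (hDint _ _)
    exact Eventually.of_forall fun u => sq_nonneg _
  have hI0 : 0 ≤ ∫ u in (b * Real.log T)..((b + l) * Real.log T - 1), Dt lam u ^ 2 :=
    intervalIntegral.integral_nonneg (by linarith) fun u _ => sq_nonneg _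
  have hfin : T ^ 3 / 9 * ∫ u in (b * Real.log T)..((b + l) * Real.log T - 1), Dt lam u ^ 2 ≤
      T / 0.9 * (T * Real.log T ^ 2 * R) :=
    (mul_le_mul hw3 hI hI0 (PV.w3_pos hlam0).le).trans hle2
  have h9 : T ^ 3 / 9 * ∫ u in (b * Real.log T)..((b + l) * Real.log T - 1), Dt lam u ^ 2 ≤
      T ^ 3 / 9 * (10 * (Real.log T ^ 2 / T) * R) := by
    refine hfin.trans (le_of_eq ?_)
    field_simp
    ring
  exact le_of_mul_le_mul_left h9 (by positivity)

end Pool.Agent.Lib.MP_2a816b_nt.SG
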