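import Pool.Agent.Lib.MP_2a816b_nt.SG.Cut

/-!
# LEAF GId (medium, about 150 lines): the convolution identity

For each `r ∈ R` (`r ≥ 1`): `∑_N log N κ(log(rN)/L) (rN)^(-s)` with `log N = ∑_{k | N} Λ(k)` (`ArithmeticFunction.vonMangoldt_sum`) equals `∑_{k,n} Λ(k) κ(log(rkn)/L) (rkn)^(-s)` over `k, n ≤ T^(b+2)`: the pairs with `kn > T^(b+2)` have `log(rkn)/L ≥ b + 2 ≥ b + 1 + 5θ`, so `κ = 0`.
If `κ(log(rkn)/L) ≠ 0` then `log k / L ≤ log(rkn)/L < b + 1 + 5θ`, so `cut (b+1+5θ) θ (log k/L) = 1` and `cut (b+θ) θ - 1 = - Wf b θ` at `log k / L`. Hence `G1 = - W1`.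
-/

namespace Pool.Agent.Lib.MP_2a816b_nt.SG

open Complex Set Filter Topology MeasureTheory
open scoped ContDiff

/-- Dirichlet convolution `Λ * 1 = log`, for a weight supported in `m ≤ N` -/
private theorem GId_conv (N : ℕ) (F : ℕ → ℂ) (hF : ∀ m, N < m → F m = 0) :
    ∑ k ∈ Finset.Icc 1 N, ∑ n ∈ Finset.Icc 1 N, ((ArithmeticFunction.vonMangoldt k : ℝ) : ℂ) * F (k * n) =
      ∑ m ∈ Finset.Icc 1 N, ((Real.log m : ℝ) : ℂ) * F m := by
  have h1 : ∀ k ∈ Finset.Icc 1 N, ∑ n ∈ Finset.Icc 1 N, ((ArithmeticFunction.vonMangoldt k : ℝ) : ℂ) * F (k * n) =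
      ∑ m ∈ Finset.Icc 1 N, if k ∣ m then ((ArithmeticFunction.vonMangoldt k : ℝ) : ℂ) * F m else 0 := by
    intro k hk
    rw [Finset.mem_Icc] at hk
    rw [← Finset.sum_filter]
    have h2 : ∑ n ∈ (Finset.Icc 1 N).filter (fun n => k * n ≤ N), ((ArithmeticFunction.vonMangoldt k : ℝ) : ℂ) * F (k * n) =
        ∑ n ∈ Finset.Icc 1 N, ((ArithmeticFunction.vonMangoldt k : ℝ) : ℂ) * F (k * n) := by
      refine Finset.sum_subset (Finset.filter_subset _ _) fun n hn hn' => ?_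
      rw [Finset.mem_filter, not_and] at hn'
      rw [hF _ (not_le.1 (hn' hn)), mul_zero]
    rw [← h2]
    refine Finset.sum_bij' (fun n _ => k * n) (fun m _ => m / k) ?_ ?_ ?_ ?_ ?_
    · intro n hn
      rw [Finset.mem_filter, Finset.mem_Icc] at hn
      rw [Finset.mem_filter, Finset.mem_Icc]
      exact ⟨⟨Nat.mul_pos hk.1 hn.1.1, hn.2⟩, Dvd.intro _ rfl⟩
    · intro m hm
      rw [Finset.mem_filter, Finset.mem_Icc] at hm
      rw [Finset.mem_filter, Finset.mem_Icc]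
      have h3 : k * (m / k) = m := Nat.mul_div_cancel' hm.2
      refine ⟨⟨Nat.div_pos (Nat.le_of_dvd hm.1.1 hm.2) hk.1, (Nat.div_le_self _ _).trans hm.1.2⟩, ?_⟩
      rw [h3]
      exact hm.1.2
    · intro n _
      exact Nat.mul_div_cancel_left n hk.1
    · intro m hm
      rw [Finset.mem_filter] at hm
      exact Nat.mul_div_cancel' hm.2
    · intro n _
      rfl
  rw [Finset.sum_congr rfl h1, Finset.sum_comm]
  refine Finset.sum_congr rfl fun m hm => ?_
  rw [Finset.mem_Icc] at hm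
  rw [← Finset.sum_filter, ← Finset.sum_mul]
  congr 1
  have h2 : (Finset.Icc 1 N).filter (fun k => k ∣ m) = m.divisors := by
    ext k
    rw [Finset.mem_filter, Finset.mem_Icc, Nat.mem_divisors]
    constructor
    · rintro ⟨_, h⟩
      exact ⟨h, by omega⟩
    · rintro ⟨h, _⟩
      exact ⟨⟨Nat.pos_of_dvd_of_pos h (by omega), (Nat.le_of_dvd (by omega) h).trans hm.2⟩, h⟩
  rw [h2, ← Complex.ofReal_sum, ArithmeticFunction.vonMangoldt_sum]

theorem g_id {T b θ : ℝ} (hT : 2 ≤ T) (hb : 1 ≤ b) (hθ : 0 < θ) (hθ8 : θ ≤ 1 / 8) {R : Finset ℕ} {m : ℕ → ℂ}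
    (hR : MOk T θ R m) (s : ℂ) : G1 T b θ R m s = -W1 T b θ R m s := by
  have hL : 0 < Real.log T := Real.log_pos (by linarith)
  unfold G1 W1
  rw [← Finset.sum_neg_distrib]
  refine Finset.sum_congr rfl fun r hr => ?_
  have hr1 : 1 ≤ r := (hR r hr).1
  have hr0 : (1 : ℝ) ≤ r := by exact_mod_cast hr1
  rw [← mul_neg]
  congr 1
  set N : ℕ := ⌊T ^ (b + 2)⌋₊ with hN
  -- the weight
  set F : ℕ → ℂ := fun q => ((cut (b + 1 + 4 * θ) θ (Real.log (r * q) / Real.log T) : ℝ) : ℂ) * ((r * q : ℕ) : ℂ) ^ (-s) with hF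
  have hF0 : ∀ q, N < q → F q = 0 := by
    intro q hq
    have hq1 : T ^ (b + 2) < (q : ℝ) := (Nat.floor_lt (by positivity)).1 hq
    have hTp : 0 < T ^ (b + 2) := by positivity
    have hq2 : T ^ (b + 2) ≤ (r : ℝ) * q := by nlinarith
    have h1 : (b + 2) * Real.log T ≤ Real.log (r * q) := by
      rw [← Real.log_rpow (by linarith)]
      exact Real.log_le_log hTp hq2
    have h2 : b + 1 + 4 * θ + θ ≤ Real.log (r * q) / Real.log T := by
      rw [le_div_iff₀ hL]
      refine le_trans ?_ h1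
      exact mul_le_mul_of_nonneg_right (by linarith) hL.le
    simp only [hF]
    rw [cut_zero hθ h2]
    simp
  have hconv := GId_conv N F hF0
  have hlog : ∑ n ∈ Finset.Icc 1 N, ((Real.log n * cut (b + 1 + 4 * θ) θ (Real.log (r * n) / Real.log T) : ℝ) : ℂ) *
      ((r * n : ℕ) : ℂ) ^ (-s) = ∑ n ∈ Finset.Icc 1 N, ((Real.log n : ℝ) : ℂ) * F n := by
    refine Finset.sum_congr rfl fun n _ => ?_
    simp only [hF]
    push_cast
    ring
  rw [hlog, ← hconv, ← Finset.sum_sub_distrib, ← Finset.sum_neg_distrib]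
  refine Finset.sum_congr rfl fun k hk => ?_
  rw [← Finset.sum_sub_distrib, ← Finset.sum_neg_distrib]
  refine Finset.sum_congr rfl fun n hn => ?_
  rw [Finset.mem_Icc] at hk hn
  have hk0 : (1 : ℝ) ≤ k := by exact_mod_cast hk.1
  have hn0 : (1 : ℝ) ≤ n := by exact_mod_cast hn.1
  simp only [hF]
  have e1 : (r : ℝ) * ((k * n : ℕ) : ℝ) = r * k * n := by push_cast; ring
  have e2 : r * (k * n) = r * k * n := (mul_assoc _ _ _).symm
  rw [e1, e2]
  by_cases hz : cut (b + 1 + 4 * θ) θ (Real.log (r * k * n) / Real.log T) = 0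
  · rw [hz]
    simp
  · have h3 : Real.log (r * k * n) / Real.log T < b + 1 + 4 * θ + θ := by
      by_contra hno
      exact hz (cut_zero hθ (not_lt.1 hno))
    have h4 : Real.log k ≤ Real.log (r * k * n) := by
      refine Real.log_le_log (by linarith) ?_
      have h5 : (k : ℝ) ≤ r * k := by nlinarith
      nlinarith
    have h5 : Real.log k / Real.log T ≤ b + 1 + 5 * θ := by
      have := div_le_div_of_nonneg_right h4 hL.le
      linarith
    unfold Wf
    rw [cut_one hθ h5]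
    push_cast
    ring

end Pool.Agent.Lib.MP_2a816b_nt.SG
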