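import Pool.Agent.Lib.MP_2a816b_nt.SG.Cut

/-!
# LEAF Kap (easy / medium, about 80 lines): the cutoff as a Fourier integral

`g y = cut a θ y * Real.smoothTransition (y + 1)` is smooth with compact support (`[-1, a + θ]`), a Schwartz function; `q` = its inverse Fourier transform (Schwartz: continuous, rapidly decreasing; `SchwartzMap` / `Real.fourierIntegral_inv`), and `g = cut a θ` on `[0, ∞)`.
-/

namespace Pool.Agent.Lib.MP_2a816b_nt.SG

open Complex Set Filter Topology MeasureTheory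
open scoped ContDiff FourierTransform SchwartzMap

theorem kap (a θ : ℝ) (hθ : 0 < θ) : ∃ q : ℝ → ℂ, Continuous q ∧
    (∀ k : ℕ, ∃ C : ℝ, 0 ≤ C ∧ ∀ ξ : ℝ, ‖q ξ‖ ≤ C / (1 + |ξ|) ^ k) ∧
    ∀ y : ℝ, 0 ≤ y → ((cut a θ y : ℝ) : ℂ) = ∫ ξ : ℝ, q ξ * cexp (-((2 * Real.pi * ξ * y : ℝ) * I)) := by
  obtain ⟨g, hg⟩ : ∃ g : ℝ → ℂ, g = fun y => ((cut a θ y * Real.smoothTransition (y + 1) : ℝ) : ℂ) :=
    ⟨_, rfl⟩
  have hsm : ContDiff ℝ ∞ g := by
    rw [hg]
    refine ofRealCLM.contDiff.comp ((cut_smooth a θ).mul ?_)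
    exact Real.smoothTransition.contDiff.comp (by fun_prop)
  have hcs : HasCompactSupport g := by
    refine HasCompactSupport.intro (K := Icc (-1) (a + θ)) isCompact_Icc fun y hy => ?_
    rw [hg]
    dsimp only
    rw [mem_Icc, not_and_or, not_le, not_le] at hy
    rcases hy with hy | hy
    · rw [Real.smoothTransition.zero_of_nonpos (by linarith)]
      simp
    · rw [cut_zero hθ hy.le]
      simp
  obtain ⟨G, hG⟩ : ∃ G : 𝓢(ℝ, ℂ), G = hcs.toSchwartzMap hsm := ⟨_, rfl⟩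
  have hGg : ∀ y, G y = g y := fun y => by rw [hG]; rfl
  refine ⟨fun ξ => (𝓕⁻ G) ξ, (𝓕⁻ G).continuous, fun k => ?_, fun y hy => ?_⟩
  · obtain ⟨C, hC⟩ : ∃ C, C = 2 ^ k * (Finset.Iic (k, 0)).sup
        (fun m => SchwartzMap.seminorm ℝ m.1 m.2) (𝓕⁻ G) := ⟨_, rfl⟩
    have h1 : ∀ ξ : ℝ, (1 + |ξ|) ^ k * ‖(𝓕⁻ G) ξ‖ ≤ C := fun ξ => by
      have h2 := SchwartzMap.one_add_le_sup_seminorm_apply (𝕜 := ℝ) (m := (k, 0)) (k := k) (n := 0)
        le_rfl le_rfl (𝓕⁻ G) ξ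
      rw [norm_iteratedFDeriv_zero, Real.norm_eq_abs] at h2
      rw [hC]
      exact h2
    refine ⟨C, (by positivity : (0:ℝ) ≤ (1 + |(0:ℝ)|) ^ k * ‖(𝓕⁻ G) 0‖).trans (h1 0), fun ξ => ?_⟩
    rw [le_div_iff₀ (by positivity), mul_comm]
    exact h1 ξ
  · have h1 : (𝓕 (𝓕⁻ G)) y = G y := by rw [FourierTransform.fourier_fourierInv_eq]
    rw [hGg, hg] at h1
    dsimp only at h1
    rw [Real.smoothTransition.one_of_one_le (by linarith), mul_one] at h1
    rw [← h1, SchwartzMap.fourier_coe, Real.fourier_real_eq_integral_exp_smul]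
    refine integral_congr_ae (Eventually.of_forall fun ξ => ?_)
    dsimp only
    rw [smul_eq_mul, mul_comm]
    congr 2
    push_cast
    ring

end Pool.Agent.Lib.MP_2a816b_nt.SG
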