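import Pool.Agent.Lib.MP_2a816b_nt.SG.Zsm
import Pool.Agent.Lib.MP_2a816b_nt.SG.Kap

/-!
# LEAF WBd (medium / hard, about 250 lines): the finite window sum in mean

`L = log T`, `κ = cut (b+1+4θ) θ`, `χ = cut (b+1+5θ) θ`, `W = Dp T (b+2) (Wf b θ)`, `M = Mp R m`, `Z = Zp T (b+2) χ`. If `κ(log(rkn)/L) ≠ 0` then `log n / L < b+1+5θ` and `χ(log n/L) = 1`: insert `χ`. With `q` of `kap (b+1+4θ) θ` and `y = log(rkn)/L ≥ 0`, `e^(-2πiξy) = (rkn)^(-2πiξ/L)`:
 `W1(s) = ∫ q ξ · (M W Z)(s + 2πiξ/L) dξ`   (finite sums; `∫` commutes with finite sums).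
`∫_T^{5T/2} ‖W1 (ps x t)‖ dt ≤ ∫ |q ξ| ∫_T^{5T/2} ‖M W Z‖(x, t + 2πξ/L) dt dξ` (Fubini or `norm_integral_le` + Tonelli).
* `|ξ| ≤ TL/(4π)`: `t + 2πξ/L ∈ [T/2, 3T]`, the inner integral is at most `∫_{T/2}^{3T} ‖W‖ ‖M‖ ‖Z‖ ≤ ∫ ‖W‖ ‖ζ M‖ + T^(-A) ∫ ‖W‖ ‖M‖` by `zsm (b+4θ) θ A (b+2)` with `y₀ = 0` (`Y + 1 + θ = b + 1 + 5θ`), and `∫_{T/2}^{3T} ‖W‖ ‖ζ M‖ ≤ T sqrt(ms W) sqrt(ms (ζ M))` (Cauchy - Schwarz). Trivially `‖W‖ ≤ T^(b+2) (b+2) L`, `‖M‖ ≤ T^θ` (`Re s ≥ 0`): choose `A = b + 6`.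
* `|ξ| > TL/(4π)`: `‖M W Z‖ ≤ T^θ T^(b+2) (b+2) L T^(b+2)` and `‖q ξ‖ ≤ C_k (1+|ξ|)^(-k)`: for `k > 2b + 12` this part is at most `1/8`.
-/

namespace Pool.Agent.Lib.MP_2a816b_nt.SG

open Complex Set Filter Topology MeasureTheory
open scoped ContDiff

/-- Cauchy - Schwarz. -/
private theorem WBd_cs (f g : ℝ → ℝ) (a c : ℝ) (hac : a ≤ c) (hf : ContinuousOn f (Set.Icc a c))
    (hg : ContinuousOn g (Set.Icc a c)) :
    ∫ t in a..c, f t * g t ≤
      Real.sqrt (∫ t in a..c, f t ^ 2) * Real.sqrt (∫ t in a..c, g t ^ 2) := by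
  have h1 : IntervalIntegrable (fun t => f t ^ 2) volume a c :=
    (hf.pow 2).intervalIntegrable_of_Icc hac
  have h2 : IntervalIntegrable (fun t => f t * g t) volume a c :=
    (hf.mul hg).intervalIntegrable_of_Icc hac
  have h3 : IntervalIntegrable (fun t => g t ^ 2) volume a c :=
    (hg.pow 2).intervalIntegrable_of_Icc hac
  have hA : 0 ≤ ∫ t in a..c, f t ^ 2 :=
    intervalIntegral.integral_nonneg hac fun t _ => sq_nonneg _
  have hq : ∀ x : ℝ, 0 ≤ (∫ t in a..c, f t ^ 2) * (x * x) +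
      (-2 * ∫ t in a..c, f t * g t) * x + ∫ t in a..c, g t ^ 2 := by
    intro x
    have h4 : ∫ t in a..c, (x * f t - g t) ^ 2 =
        (∫ t in a..c, f t ^ 2) * (x * x) + (-2 * ∫ t in a..c, f t * g t) * x +
          ∫ t in a..c, g t ^ 2 := by
      have h5 : ∀ t, (x * f t - g t) ^ 2 = (x * x) * f t ^ 2 + (-2 * x) * (f t * g t) + g t ^ 2 :=
        fun t => by ring
      simp_rw [h5]
      rw [intervalIntegral.integral_add ((h1.const_mul _).add (h2.const_mul _)) h3,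
        intervalIntegral.integral_add (h1.const_mul _) (h2.const_mul _),
        intervalIntegral.integral_const_mul, intervalIntegral.integral_const_mul]
      ring
    rw [← h4]
    exact intervalIntegral.integral_nonneg hac fun t _ => sq_nonneg _
  have h6 := discrim_le_zero hq
  unfold discrim at h6
  rw [← Real.sqrt_mul hA]
  exact Real.le_sqrt_of_sq_le (by nlinarith)

private theorem WBd_kpow (L : ℝ) (N : ℕ) (hN : 1 ≤ N) (s : ℂ) (ξ : ℝ) :
    (N : ℂ) ^ (-(s + ((2 * Real.pi * ξ / L : ℝ) : ℂ) * I)) =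
      (N : ℂ) ^ (-s) * cexp (-((2 * Real.pi * ξ * (Real.log N / L) : ℝ) * I)) := by
  have hN0 : (N : ℂ) ≠ 0 := by
    have : N ≠ 0 := by omega
    exact_mod_cast this
  rw [neg_add, cpow_add _ _ hN0]
  congr 1
  rw [cpow_def_of_ne_zero hN0, ← natCast_log]
  congr 1
  push_cast
  ring

/-- The representation as an integral. -/
private theorem WBd_rep (T b θ : ℝ) (hθ : 0 < θ) (hT : 3 ≤ T) (q : ℝ → ℂ)
    (hq : Integrable q)
    (hrep : ∀ y : ℝ, 0 ≤ y → ((cut (b + 1 + 4 * θ) θ y : ℝ) : ℂ) =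
      ∫ ξ : ℝ, q ξ * cexp (-((2 * Real.pi * ξ * y : ℝ) * I)))
    (R : Finset ℕ) (m : ℕ → ℂ) (hm : MOk T θ R m) (s : ℂ) :
    W1 T b θ R m s = ∫ ξ : ℝ, q ξ *
      (Mp R m (s + ((2 * Real.pi * ξ / Real.log T : ℝ) : ℂ) * I) *
        Dp T (b + 2) (Wf b θ) (s + ((2 * Real.pi * ξ / Real.log T : ℝ) : ℂ) * I) *
        Zp T (b + 2) (cut (b + 1 + 5 * θ) θ)
          (s + ((2 * Real.pi * ξ / Real.log T : ℝ) : ℂ) * I)) := by
  have hL : 0 < Real.log T := Real.log_pos (by linarith)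
  set L := Real.log T with hLdef
  set N := ⌊T ^ (b + 2)⌋₊ with hN
  have hE : ∀ y : ℝ, Integrable (fun ξ : ℝ => q ξ * cexp (-((2 * Real.pi * ξ * y : ℝ) * I))) := by
    intro y
    refine Integrable.mono' hq.norm
      (hq.aestronglyMeasurable.mul (Continuous.aestronglyMeasurable (by fun_prop)))
      (Eventually.of_forall fun ξ => ?_)
    rw [norm_mul, ← neg_mul, ← ofReal_neg, Complex.norm_exp_ofReal_mul_I, mul_one]
  have hterm : ∀ ξ : ℝ, q ξ *
      (Mp R m (s + ((2 * Real.pi * ξ / L : ℝ) : ℂ) * I) *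
        Dp T (b + 2) (Wf b θ) (s + ((2 * Real.pi * ξ / L : ℝ) : ℂ) * I) *
        Zp T (b + 2) (cut (b + 1 + 5 * θ) θ) (s + ((2 * Real.pi * ξ / L : ℝ) : ℂ) * I)) =
      ∑ r ∈ R, ∑ k ∈ Finset.Icc 1 N, ∑ n ∈ Finset.Icc 1 N,
        (m r * ((ArithmeticFunction.vonMangoldt k * Wf b θ (Real.log k / L) *
          cut (b + 1 + 5 * θ) θ (Real.log n / L) : ℝ) : ℂ) * ((r * k * n : ℕ) : ℂ) ^ (-s)) *
        (q ξ * cexp (-((2 * Real.pi * ξ * (Real.log ((r * k * n : ℕ) : ℝ) / L) : ℝ) * I))) := by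
    intro ξ
    unfold Mp Dp Zp
    rw [← hN, ← hLdef, Finset.sum_mul_sum, Finset.sum_mul, Finset.mul_sum]
    refine Finset.sum_congr rfl fun r hr => ?_
    rw [Finset.sum_mul_sum, Finset.mul_sum]
    refine Finset.sum_congr rfl fun k hk => ?_
    rw [Finset.mul_sum]
    refine Finset.sum_congr rfl fun n hn => ?_
    have h1 : 1 ≤ r * k * n := by
      have h2 := (hm r hr).1
      have h3 := (Finset.mem_Icc.1 hk).1
      have h4 := (Finset.mem_Icc.1 hn).1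
      exact Nat.mul_pos (Nat.mul_pos h2 h3) h4
    have h5 := WBd_kpow L (r * k * n) h1 s ξ
    have h6 : ((r * k * n : ℕ) : ℂ) ^ (-(s + ((2 * Real.pi * ξ / L : ℝ) : ℂ) * I)) =
        (r : ℂ) ^ (-(s + ((2 * Real.pi * ξ / L : ℝ) : ℂ) * I)) *
        (k : ℂ) ^ (-(s + ((2 * Real.pi * ξ / L : ℝ) : ℂ) * I)) *
        (n : ℂ) ^ (-(s + ((2 * Real.pi * ξ / L : ℝ) : ℂ) * I)) := by
      rw [Nat.cast_mul, natCast_mul_natCast_cpow, Nat.cast_mul, natCast_mul_natCast_cpow]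
    rw [h6] at h5
    calc q ξ * (m r * (r : ℂ) ^ (-(s + ((2 * Real.pi * ξ / L : ℝ) : ℂ) * I)) *
          (((ArithmeticFunction.vonMangoldt k * Wf b θ (Real.log k / L) : ℝ) : ℂ) *
            (k : ℂ) ^ (-(s + ((2 * Real.pi * ξ / L : ℝ) : ℂ) * I))) *
          (((cut (b + 1 + 5 * θ) θ (Real.log n / L) : ℝ) : ℂ) *
            (n : ℂ) ^ (-(s + ((2 * Real.pi * ξ / L : ℝ) : ℂ) * I)))) =
        q ξ * m r * ((ArithmeticFunction.vonMangoldt k * Wf b θ (Real.log k / L) : ℝ) : ℂ) *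
          ((cut (b + 1 + 5 * θ) θ (Real.log n / L) : ℝ) : ℂ) *
          ((r : ℂ) ^ (-(s + ((2 * Real.pi * ξ / L : ℝ) : ℂ) * I)) *
        (k : ℂ) ^ (-(s + ((2 * Real.pi * ξ / L : ℝ) : ℂ) * I)) *
        (n : ℂ) ^ (-(s + ((2 * Real.pi * ξ / L : ℝ) : ℂ) * I))) := by ring
      _ = _ := by
          rw [h5]
          push_cast
          ring
  simp_rw [hterm]
  rw [integral_finsetSum _ fun r _ => integrable_finsetSum _ fun k _ =>
    integrable_finsetSum _ fun n _ => (hE _).const_mul _]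
  unfold W1
  refine Finset.sum_congr rfl fun r hr => ?_
  rw [integral_finsetSum _ fun k _ => integrable_finsetSum _ fun n _ => (hE _).const_mul _,
    Finset.mul_sum]
  refine Finset.sum_congr rfl fun k hk => ?_
  rw [integral_finsetSum _ fun n _ => (hE _).const_mul _, Finset.mul_sum]
  refine Finset.sum_congr rfl fun n hn => ?_
  have hr1 := (hm r hr).1
  have hk1 := (Finset.mem_Icc.1 hk).1
  have hn1 := (Finset.mem_Icc.1 hn).1
  have h1 : 1 ≤ r * k * n := Nat.mul_pos (Nat.mul_pos hr1 hk1) hn1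
  have hy : 0 ≤ Real.log ((r * k * n : ℕ) : ℝ) / L :=
    div_nonneg (Real.log_nonneg (by exact_mod_cast h1)) hL.le
  rw [integral_const_mul, ← hrep _ hy]
  have hcast : (r : ℝ) * k * n = ((r * k * n : ℕ) : ℝ) := by push_cast; ring
  rw [hcast]
  by_cases hz : cut (b + 1 + 4 * θ) θ (Real.log ((r * k * n : ℕ) : ℝ) / L) = 0
  · rw [hz]
    simp
  · have h2 : Real.log ((r * k * n : ℕ) : ℝ) / L < b + 1 + 5 * θ := by
      by_contra hcon
      exact hz (cut_zero hθ (by linarith))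
    have h3 : Real.log n / L ≤ Real.log ((r * k * n : ℕ) : ℝ) / L := by
      refine div_le_div_of_nonneg_right ?_ hL.le
      refine Real.log_le_log (by exact_mod_cast hn1) ?_
      have : n ≤ r * k * n := Nat.le_mul_of_pos_left n (Nat.mul_pos hr1 hk1)
      exact_mod_cast this
    have h4 : cut (b + 1 + 5 * θ) θ (Real.log n / L) = 1 := cut_one hθ (by linarith)
    rw [h4]
    push_cast
    ring

/-- Trivial bounds. -/
private theorem WBd_pow (n : ℕ) (hn : 1 ≤ n) (s : ℂ) (hs : 0 ≤ s.re) : ‖(n : ℂ) ^ (-s)‖ ≤ 1 := by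
  rw [norm_natCast_cpow_of_pos (by omega), neg_re]
  have h : (1 : ℝ) ≤ n := by exact_mod_cast hn
  exact Real.rpow_le_one_of_one_le_of_nonpos h (by linarith)

private theorem WBd_M (T θ : ℝ) (hT : 3 ≤ T) (R : Finset ℕ) (m : ℕ → ℂ) (hm : MOk T θ R m) (s : ℂ)
    (hs : 0 ≤ s.re) : ‖Mp R m s‖ ≤ T ^ θ := by
  have h1 : ‖Mp R m s‖ ≤ ∑ r ∈ R, (1 : ℝ) := by
    unfold Mp
    refine (norm_sum_le _ _).trans (Finset.sum_le_sum fun r hr => ?_)
    rw [norm_mul]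
    have h2 := (hm r hr).2.2
    have h3 := WBd_pow r (hm r hr).1 s hs
    calc ‖m r‖ * ‖(r : ℂ) ^ (-s)‖ ≤ 1 * 1 :=
          mul_le_mul h2 h3 (norm_nonneg _) zero_le_one
      _ = 1 := one_mul 1
  have h4 : R ⊆ Finset.Icc 1 ⌊T ^ θ⌋₊ := fun r hr =>
    Finset.mem_Icc.2 ⟨(hm r hr).1, Nat.le_floor (hm r hr).2.1⟩
  have h5 : (R.card : ℝ) ≤ T ^ θ := by
    have h6 := Finset.card_le_card h4
    rw [Nat.card_Icc, Nat.add_sub_cancel] at h6
    have h7 : 0 ≤ T ^ θ := Real.rpow_nonneg (by linarith) _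
    calc (R.card : ℝ) ≤ (⌊T ^ θ⌋₊ : ℝ) := by exact_mod_cast h6
      _ ≤ T ^ θ := Nat.floor_le h7
  rw [Finset.sum_const, nsmul_eq_mul, mul_one] at h1
  exact h1.trans h5

private theorem WBd_Z (T B : ℝ) (hT : 3 ≤ T) (φ : ℝ → ℝ) (hφ : ∀ x, |φ x| ≤ 1) (s : ℂ)
    (hs : 0 ≤ s.re) : ‖Zp T B φ s‖ ≤ T ^ B := by
  have h1 : ‖Zp T B φ s‖ ≤ ∑ n ∈ Finset.Icc 1 ⌊T ^ B⌋₊, (1 : ℝ) := by
    unfold Zp
    refine (norm_sum_le _ _).trans (Finset.sum_le_sum fun n hn => ?_)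
    rw [norm_mul, norm_real, Real.norm_eq_abs]
    have h3 := WBd_pow n (Finset.mem_Icc.1 hn).1 s hs
    calc |φ (Real.log n / Real.log T)| * ‖(n : ℂ) ^ (-s)‖ ≤ 1 * 1 :=
          mul_le_mul (hφ _) h3 (norm_nonneg _) zero_le_one
      _ = 1 := one_mul 1
  rw [Finset.sum_const, nsmul_eq_mul, mul_one, Nat.card_Icc, Nat.add_sub_cancel] at h1
  exact h1.trans (Nat.floor_le (Real.rpow_nonneg (by linarith) _))

private theorem WBd_W (T B : ℝ) (hB : 0 ≤ B) (hT : 3 ≤ T) (φ : ℝ → ℝ) (hφ : ∀ x, |φ x| ≤ 1)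
    (s : ℂ) (hs : 0 ≤ s.re) : ‖Dp T B φ s‖ ≤ B * T ^ (B + 1) := by
  have hT0 : 0 < T := by linarith
  have h0 : 0 ≤ T ^ B := Real.rpow_nonneg hT0.le _
  have h1 : ‖Dp T B φ s‖ ≤ ∑ n ∈ Finset.Icc 1 ⌊T ^ B⌋₊, (B * T : ℝ) := by
    unfold Dp
    refine (norm_sum_le _ _).trans (Finset.sum_le_sum fun n hn => ?_)
    rw [norm_mul, norm_real, Real.norm_eq_abs, abs_mul]
    have hn1 := (Finset.mem_Icc.1 hn).1
    have hn2 : (n : ℝ) ≤ T ^ B := (Nat.le_floor_iff h0).1 (Finset.mem_Icc.1 hn).2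
    have hn0 : (0 : ℝ) < n := by exact_mod_cast hn1
    have h3 := WBd_pow n hn1 s hs
    have h4 : |ArithmeticFunction.vonMangoldt n| ≤ B * T := by
      rw [abs_of_nonneg ArithmeticFunction.vonMangoldt_nonneg]
      calc ArithmeticFunction.vonMangoldt n ≤ Real.log n := ArithmeticFunction.vonMangoldt_le_log
        _ ≤ Real.log (T ^ B) := Real.log_le_log hn0 hn2
        _ = B * Real.log T := Real.log_rpow hT0 B
        _ ≤ B * T := mul_le_mul_of_nonneg_left (Real.log_le_self hT0.le) hB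
    calc |ArithmeticFunction.vonMangoldt n| * |φ (Real.log n / Real.log T)| * ‖(n : ℂ) ^ (-s)‖
        ≤ (B * T * 1) * 1 := by
          refine mul_le_mul (mul_le_mul h4 (hφ _) (abs_nonneg _) (by positivity)) h3
            (norm_nonneg _) (by positivity)
      _ = B * T := by ring
  rw [Finset.sum_const, nsmul_eq_mul, Nat.card_Icc, Nat.add_sub_cancel] at h1
  calc ‖Dp T B φ s‖ ≤ (⌊T ^ B⌋₊ : ℝ) * (B * T) := h1
    _ ≤ T ^ B * (B * T) := mul_le_mul_of_nonneg_right (Nat.floor_le h0) (by positivity)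
    _ = B * T ^ (B + 1) := by
        rw [Real.rpow_add hT0, Real.rpow_one]
        ring

private theorem WBd_contM (R : Finset ℕ) (m : ℕ → ℂ) (hR : ∀ r ∈ R, 1 ≤ r) (x : ℝ) :
    Continuous fun t : ℝ => Mp R m (ps x t) := by
  unfold Mp ps
  refine continuous_finsetSum _ fun r hr => continuous_const.mul ?_
  have h : (r : ℂ) ≠ 0 := by
    have h1 := hR r hr
    have : r ≠ 0 := by omega
    exact_mod_cast this
  exact Continuous.const_cpow (by fun_prop) (Or.inl h)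

private theorem WBd_contD (T B : ℝ) (φ : ℝ → ℝ) (x : ℝ) :
    Continuous fun t : ℝ => Dp T B φ (ps x t) := by
  unfold Dp ps
  refine continuous_finsetSum _ fun r hr => continuous_const.mul ?_
  have h : (r : ℂ) ≠ 0 := by
    have h1 := (Finset.mem_Icc.1 hr).1
    have : r ≠ 0 := by omega
    exact_mod_cast this
  exact Continuous.const_cpow (by fun_prop) (Or.inl h)

private theorem WBd_contZ (T B : ℝ) (φ : ℝ → ℝ) (x : ℝ) :
    Continuous fun t : ℝ => Zp T B φ (ps x t) := by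
  unfold Zp ps
  refine continuous_finsetSum _ fun r hr => continuous_const.mul ?_
  have h : (r : ℂ) ≠ 0 := by
    have h1 := (Finset.mem_Icc.1 hr).1
    have : r ≠ 0 := by omega
    exact_mod_cast this
  exact Continuous.const_cpow (by fun_prop) (Or.inl h)

/-- The mean of shifts. -/
private theorem WBd_shift (q : ℝ → ℝ) (hqc : Continuous q) (hq0 : ∀ ξ, 0 ≤ q ξ)
    (hq : Integrable q) (j : ℕ) (hqj : Integrable fun ξ => q ξ * |ξ| ^ j)
    (F : ℝ → ℝ) (hF : Continuous F) (hF0 : ∀ t, 0 ≤ F t) (K : ℝ) (hK : ∀ t, F t ≤ K)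
    (T : ℝ) (hT : 0 < T) (c : ℝ) (hc : 0 ≤ c) (G : ℝ → ℝ) (hG0 : ∀ t, 0 ≤ G t)
    (hG : ∀ t, G t ≤ ∫ ξ : ℝ, q ξ * F (t + c * ξ)) :
    ∫ t in T..(5 / 2 * T), G t ≤
      (∫ t in (T / 2)..(3 * T), F t) * (∫ ξ : ℝ, q ξ) +
        (3 / 2 * T) * K * (2 * c / T) ^ j * ∫ ξ : ℝ, q ξ * |ξ| ^ j := by
  have hTT : T ≤ 5 / 2 * T := by linarith
  have hK0 : 0 ≤ K := (hF0 0).trans (hK 0)
  have hint : Integrable (Function.uncurry fun (t ξ : ℝ) => q ξ * F (t + c * ξ))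
      ((volume.restrict (Set.Ioc T (5 / 2 * T))).prod volume) := by
    have h1 : Integrable (fun z : ℝ × ℝ => (fun _ : ℝ => K) z.1 * q z.2)
        ((volume.restrict (Set.Ioc T (5 / 2 * T))).prod volume) :=
      Integrable.mul_prod (integrable_const K) hq
    refine Integrable.mono' h1 (Continuous.aestronglyMeasurable ?_)
      (Eventually.of_forall fun z => ?_)
    · unfold Function.uncurry
      fun_prop
    · unfold Function.uncurry
      simp only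
      rw [norm_mul, Real.norm_of_nonneg (hq0 _), Real.norm_of_nonneg (hF0 _), mul_comm K]
      exact mul_le_mul_of_nonneg_left (hK _) (hq0 _)
  have hinner : ∀ ξ : ℝ, ∫ t in T..(5 / 2 * T), F (t + c * ξ) ≤
      (∫ t in (T / 2)..(3 * T), F t) + (3 / 2 * T) * K * (2 * c / T) ^ j * |ξ| ^ j := by
    intro ξ
    have hI0 : 0 ≤ ∫ t in (T / 2)..(3 * T), F t :=
      intervalIntegral.integral_nonneg (by linarith) fun t _ => hF0 t
    have hR0 : 0 ≤ (3 / 2 * T) * K * (2 * c / T) ^ j * |ξ| ^ j := by positivity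
    by_cases hξ : c * |ξ| ≤ T / 2
    · have h1 : |c * ξ| ≤ T / 2 := by rw [abs_mul, abs_of_nonneg hc]; exact hξ
      obtain ⟨h2, h3⟩ := abs_le.1 h1
      rw [intervalIntegral.integral_comp_add_right (fun t => F t)]
      have h4 : ∫ t in (T + c * ξ)..(5 / 2 * T + c * ξ), F t ≤ ∫ t in (T / 2)..(3 * T), F t :=
        intervalIntegral.integral_mono_interval (by linarith) (by linarith) (by linarith)
          (Eventually.of_forall fun t => hF0 t) (hF.intervalIntegrable _ _)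
      linarith
    · have hξ' : T / 2 < c * |ξ| := not_le.1 hξ
      have h1 : ∫ t in T..(5 / 2 * T), F (t + c * ξ) ≤ ∫ t in T..(5 / 2 * T), K := by
        refine intervalIntegral.integral_mono_on hTT
          (Continuous.intervalIntegrable (by fun_prop) _ _)
          (Continuous.intervalIntegrable (by fun_prop) _ _) fun t _ => hK _
      rw [intervalIntegral.integral_const, smul_eq_mul] at h1
      have h2 : 1 ≤ (2 * c / T) ^ j * |ξ| ^ j := by
        rw [← mul_pow]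
        refine one_le_pow₀ ?_
        rw [div_mul_eq_mul_div, one_le_div hT]
        linarith
      have h3 : (5 / 2 * T - T) * K ≤ (3 / 2 * T) * K * (2 * c / T) ^ j * |ξ| ^ j := by
        have h4 : 0 ≤ 3 / 2 * T * K := by positivity
        calc (5 / 2 * T - T) * K = (3 / 2 * T * K) * 1 := by ring
          _ ≤ (3 / 2 * T * K) * ((2 * c / T) ^ j * |ξ| ^ j) := mul_le_mul_of_nonneg_left h2 h4
          _ = _ := by ring
      linarith
  have hswap : ∫ t in T..(5 / 2 * T), (∫ ξ : ℝ, q ξ * F (t + c * ξ)) =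
      ∫ ξ : ℝ, q ξ * ∫ t in T..(5 / 2 * T), F (t + c * ξ) := by
    rw [intervalIntegral.integral_of_le hTT, integral_integral_swap hint]
    refine integral_congr_ae (Eventually.of_forall fun ξ => ?_)
    simp only
    rw [integral_const_mul, intervalIntegral.integral_of_le hTT]
  have hGi : ∫ t in T..(5 / 2 * T), G t ≤
      ∫ t in T..(5 / 2 * T), (∫ ξ : ℝ, q ξ * F (t + c * ξ)) := by
    rw [intervalIntegral.integral_of_le hTT, intervalIntegral.integral_of_le hTT]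
    refine integral_mono_of_nonneg (Eventually.of_forall fun t => hG0 t) ?_
      (Eventually.of_forall fun t => hG t)
    exact hint.integral_prod_left
  refine hGi.trans ?_
  rw [hswap]
  have h5 : Integrable fun ξ : ℝ => q ξ * ((∫ t in (T / 2)..(3 * T), F t) +
      (3 / 2 * T) * K * (2 * c / T) ^ j * |ξ| ^ j) := by
    have h6 : (fun ξ : ℝ => q ξ * ((∫ t in (T / 2)..(3 * T), F t) +
      (3 / 2 * T) * K * (2 * c / T) ^ j * |ξ| ^ j)) = fun ξ : ℝ =>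
        (∫ t in (T / 2)..(3 * T), F t) * q ξ +
          ((3 / 2 * T) * K * (2 * c / T) ^ j) * (q ξ * |ξ| ^ j) := by
      funext ξ
      ring
    rw [h6]
    exact (hq.const_mul _).add (hqj.const_mul _)
  have h7 : ∫ ξ : ℝ, q ξ * ∫ t in T..(5 / 2 * T), F (t + c * ξ) ≤
      ∫ ξ : ℝ, q ξ * ((∫ t in (T / 2)..(3 * T), F t) +
        (3 / 2 * T) * K * (2 * c / T) ^ j * |ξ| ^ j) := by
    refine integral_mono_of_nonneg (Eventually.of_forall fun ξ => ?_) h5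
      (Eventually.of_forall fun ξ => ?_)
    · exact mul_nonneg (hq0 ξ) (intervalIntegral.integral_nonneg hTT fun t _ => hF0 _)
    · exact mul_le_mul_of_nonneg_left (hinner ξ) (hq0 ξ)
  refine h7.trans (le_of_eq ?_)
  have h8 : ∀ ξ : ℝ, q ξ * ((∫ t in (T / 2)..(3 * T), F t) +
      (3 / 2 * T) * K * (2 * c / T) ^ j * |ξ| ^ j) =
        (∫ t in (T / 2)..(3 * T), F t) * q ξ +
          ((3 / 2 * T) * K * (2 * c / T) ^ j) * (q ξ * |ξ| ^ j) := fun ξ => by ring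
  simp_rw [h8]
  rw [integral_add (hq.const_mul _) (hqj.const_mul _), integral_const_mul, integral_const_mul]

private theorem WBd_int2 : Integrable fun ξ : ℝ => 1 / (1 + |ξ|) ^ 2 := by
  have h := integrable_one_add_norm (E := ℝ) (μ := volume) (r := 2) (by simp)
  refine h.congr (Eventually.of_forall fun ξ => ?_)
  simp only [Real.norm_eq_abs]
  rw [Real.rpow_neg (by positivity), Real.rpow_two, one_div]

private theorem WBd_intj (q : ℝ → ℂ) (hqc : Continuous q) (j : ℕ) (C : ℝ)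
    (hC : ∀ ξ : ℝ, ‖q ξ‖ ≤ C / (1 + |ξ|) ^ (j + 2)) :
    Integrable fun ξ : ℝ => ‖q ξ‖ * |ξ| ^ j := by
  refine Integrable.mono' (WBd_int2.const_mul C)
    (Continuous.aestronglyMeasurable (by fun_prop)) (Eventually.of_forall fun ξ => ?_)
  have h1 : 0 < 1 + |ξ| := by positivity
  have h2 : |ξ| ^ j ≤ (1 + |ξ|) ^ j := pow_le_pow_left₀ (abs_nonneg _) (by linarith) j
  rw [Real.norm_of_nonneg (by positivity)]
  calc ‖q ξ‖ * |ξ| ^ j ≤ C / (1 + |ξ|) ^ (j + 2) * (1 + |ξ|) ^ j :=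
        mul_le_mul (hC ξ) h2 (by positivity) ((norm_nonneg _).trans (hC ξ))
    _ = C * (1 / (1 + |ξ|) ^ 2) := by
        rw [pow_add]
        field_simp

private theorem WBd_main (T b θ : ℝ) (hb : 1 ≤ b) (hT : 3 ≤ T)
    (R : Finset ℕ) (m : ℕ → ℂ) (hm : MOk T θ R m) (x : ℝ) (hx : |x| ≤ 1 / 8) (χ : ℝ → ℝ)
    (hz : ∀ s : ℂ, 1 / 4 ≤ s.re → s.re ≤ 3 / 4 → T / 4 ≤ s.im → s.im ≤ 4 * T →
      ‖riemannZeta s - Zp T (b + 2) χ s‖ ≤ T ^ (-(b + 6))) :
    ∫ t in (T / 2)..(3 * T), ‖Mp R m (ps x t) * Dp T (b + 2) (Wf b θ) (ps x t) *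
        Zp T (b + 2) χ (ps x t)‖ ≤
      T * Real.sqrt (ms T (Dp T (b + 2) (Wf b θ)) x) *
        Real.sqrt (ms T (fun s => riemannZeta s * Mp R m s) x) +
        (5 / 2 * T) * (T ^ (-(b + 6)) * ((b + 2) * T ^ (b + 2 + 1)) * T ^ θ) := by
  have hT0 : 0 < T := by linarith
  obtain ⟨hx1, hx2⟩ := abs_le.1 hx
  have hle : T / 2 ≤ 3 * T := by linarith
  have hre : ∀ t : ℝ, (ps x t).re = 1 / 2 + x := by
    intro t
    unfold ps
    simp
  have him : ∀ t : ℝ, (ps x t).im = t := by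
    intro t
    unfold ps
    simp
  have hre0 : ∀ t : ℝ, 0 ≤ (ps x t).re := by
    intro t
    rw [hre]
    linarith
  have hWc : Continuous fun t : ℝ => Dp T (b + 2) (Wf b θ) (ps x t) := WBd_contD _ _ _ _
  have hMc : Continuous fun t : ℝ => Mp R m (ps x t) := WBd_contM R m (fun r hr => (hm r hr).1) x
  have hZc : Continuous fun t : ℝ => Zp T (b + 2) χ (ps x t) := WBd_contZ _ _ _ _
  have hζc : ContinuousOn (fun t : ℝ => riemannZeta (ps x t) * Mp R m (ps x t))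
      (Set.Icc (T / 2) (3 * T)) := by
    refine ContinuousOn.mul ?_ hMc.continuousOn
    intro t ht
    have h1 : ps x t ≠ 1 := by
      intro h
      have h2 := congrArg Complex.im h
      rw [him, one_im] at h2
      have := ht.1
      linarith
    have h3 : ContinuousAt riemannZeta (ps x t) := (differentiableAt_riemannZeta h1).continuousAt
    have h4 : Continuous fun t : ℝ => ps x t := by
      unfold ps
      fun_prop
    exact (ContinuousAt.comp (f := fun t : ℝ => ps x t) h3 h4.continuousAt).continuousWithinAt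
  have hcs := WBd_cs (fun t => ‖Dp T (b + 2) (Wf b θ) (ps x t)‖)
    (fun t => ‖riemannZeta (ps x t) * Mp R m (ps x t)‖) (T / 2) (3 * T) hle
    hWc.norm.continuousOn hζc.norm
  have hmsW : ∫ t in (T / 2)..(3 * T), ‖Dp T (b + 2) (Wf b θ) (ps x t)‖ ^ 2 =
      T * ms T (Dp T (b + 2) (Wf b θ)) x := by
    unfold ms
    rw [← mul_assoc, mul_one_div_cancel hT0.ne', one_mul]
    rfl
  have hmsZ : ∫ t in (T / 2)..(3 * T), ‖riemannZeta (ps x t) * Mp R m (ps x t)‖ ^ 2 =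
      T * ms T (fun s => riemannZeta s * Mp R m s) x := by
    unfold ms
    rw [← mul_assoc, mul_one_div_cancel hT0.ne', one_mul]
    rfl
  rw [hmsW, hmsZ, Real.sqrt_mul hT0.le, Real.sqrt_mul hT0.le] at hcs
  have hpt : ∀ t ∈ Set.Icc (T / 2) (3 * T),
      ‖Mp R m (ps x t) * Dp T (b + 2) (Wf b θ) (ps x t) * Zp T (b + 2) χ (ps x t)‖ ≤
      ‖Dp T (b + 2) (Wf b θ) (ps x t)‖ * ‖riemannZeta (ps x t) * Mp R m (ps x t)‖ +
        T ^ (-(b + 6)) * ((b + 2) * T ^ (b + 2 + 1)) * T ^ θ := by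
    intro t ht
    have h1 := hz (ps x t) (by rw [hre]; linarith) (by rw [hre]; linarith)
      (by rw [him]; linarith [ht.1]) (by rw [him]; linarith [ht.2])
    have h2 : ‖Zp T (b + 2) χ (ps x t)‖ ≤ ‖riemannZeta (ps x t)‖ + T ^ (-(b + 6)) := by
      have h3 : Zp T (b + 2) χ (ps x t) =
          riemannZeta (ps x t) - (riemannZeta (ps x t) - Zp T (b + 2) χ (ps x t)) := by ring
      rw [h3]
      exact (norm_sub_le _ _).trans (by linarith)
    have h4 : ‖Dp T (b + 2) (Wf b θ) (ps x t)‖ ≤ (b + 2) * T ^ (b + 2 + 1) :=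
      WBd_W T (b + 2) (by linarith) hT _ (Wf_abs_le b θ) _ (hre0 t)
    have h5 : ‖Mp R m (ps x t)‖ ≤ T ^ θ := WBd_M T θ hT R m hm _ (hre0 t)
    have h6 : 0 ≤ T ^ (-(b + 6)) := Real.rpow_nonneg hT0.le _
    have h7 : 0 ≤ (b + 2) * T ^ (b + 2 + 1) := (norm_nonneg _).trans h4
    rw [norm_mul, norm_mul, norm_mul]
    set A := ‖Mp R m (ps x t)‖ with hA
    set B := ‖Dp T (b + 2) (Wf b θ) (ps x t)‖ with hB
    calc A * B * ‖Zp T (b + 2) χ (ps x t)‖ ≤
          A * B * (‖riemannZeta (ps x t)‖ + T ^ (-(b + 6))) :=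
          mul_le_mul_of_nonneg_left h2 (mul_nonneg (norm_nonneg _) (norm_nonneg _))
      _ = B * (‖riemannZeta (ps x t)‖ * A) + T ^ (-(b + 6)) * B * A := by ring
      _ ≤ B * (‖riemannZeta (ps x t)‖ * A) +
          T ^ (-(b + 6)) * ((b + 2) * T ^ (b + 2 + 1)) * T ^ θ := by
          have h8 : T ^ (-(b + 6)) * B * A ≤
              T ^ (-(b + 6)) * ((b + 2) * T ^ (b + 2 + 1)) * T ^ θ :=
            mul_le_mul (mul_le_mul_of_nonneg_left h4 h6) h5 (norm_nonneg _)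
              (mul_nonneg h6 h7)
          linarith
  have hi1 : IntervalIntegrable (fun t => ‖Mp R m (ps x t) * Dp T (b + 2) (Wf b θ) (ps x t) *
      Zp T (b + 2) χ (ps x t)‖) volume (T / 2) (3 * T) :=
    ((hMc.mul hWc).mul hZc).norm.intervalIntegrable _ _
  have hi2 : IntervalIntegrable (fun t => ‖Dp T (b + 2) (Wf b θ) (ps x t)‖ *
      ‖riemannZeta (ps x t) * Mp R m (ps x t)‖) volume (T / 2) (3 * T) :=
    (hWc.norm.continuousOn.mul hζc.norm).intervalIntegrable_of_Icc hle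
  have h9 := intervalIntegral.integral_mono_on hle hi1
    (hi2.add (intervalIntegrable_const (c := T ^ (-(b + 6)) * ((b + 2) * T ^ (b + 2 + 1)) * T ^ θ)))
    hpt
  rw [intervalIntegral.integral_add hi2 intervalIntegrable_const,
    intervalIntegral.integral_const, smul_eq_mul] at h9
  refine h9.trans ?_
  have h10 : Real.sqrt T * Real.sqrt (ms T (Dp T (b + 2) (Wf b θ)) x) *
      (Real.sqrt T * Real.sqrt (ms T (fun s => riemannZeta s * Mp R m s) x)) =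
      T * Real.sqrt (ms T (Dp T (b + 2) (Wf b θ)) x) *
        Real.sqrt (ms T (fun s => riemannZeta s * Mp R m s) x) := by
    have h11 := Real.mul_self_sqrt hT0.le
    calc _ = (Real.sqrt T * Real.sqrt T) * Real.sqrt (ms T (Dp T (b + 2) (Wf b θ)) x) *
        Real.sqrt (ms T (fun s => riemannZeta s * Mp R m s) x) := by ring
      _ = _ := by rw [h11]
  rw [h10] at hcs
  have h12 : (3 * T - T / 2) = 5 / 2 * T := by ring
  rw [h12]
  linarith

private theorem WBd_num1 (T b θ C : ℝ) (hT : 3 ≤ T) (hb : 1 ≤ b) (hθ8 : θ ≤ 1 / 8) (hC : 0 ≤ C)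
    (h : 5 * C * (b + 2) ≤ T) :
    (5 / 2 * T) * (T ^ (-(b + 6)) * ((b + 2) * T ^ (b + 2 + 1)) * T ^ θ) * C ≤ 1 / 2 := by
  have hT0 : 0 < T := by linarith
  have hT1 : (1 : ℝ) ≤ T := by linarith
  have h2 : T ^ (1 + -(b + 6) + (b + 2 + 1) + θ) ≤ 1 / T := by
    rw [one_div, ← Real.rpow_neg_one]
    exact Real.rpow_le_rpow_of_exponent_le hT1 (by linarith)
  have h1 : T * T ^ (-(b + 6)) * T ^ (b + 2 + 1) * T ^ θ =
      T ^ (1 + -(b + 6) + (b + 2 + 1) + θ) := by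
    rw [Real.rpow_add hT0 (1 + -(b + 6) + (b + 2 + 1)) θ,
      Real.rpow_add hT0 (1 + -(b + 6)) (b + 2 + 1), Real.rpow_add hT0 1 (-(b + 6)), Real.rpow_one]
  have h3 : 0 ≤ 5 / 2 * (b + 2) * C := mul_nonneg (by linarith) hC
  calc (5 / 2 * T) * (T ^ (-(b + 6)) * ((b + 2) * T ^ (b + 2 + 1)) * T ^ θ) * C =
        (5 / 2 * (b + 2) * C) * (T * T ^ (-(b + 6)) * T ^ (b + 2 + 1) * T ^ θ) := by
        generalize T ^ (-(b + 6)) = X
        generalize T ^ (b + 2 + 1) = Y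
        ring
    _ ≤ (5 / 2 * (b + 2) * C) * (1 / T) := by
        rw [h1]
        exact mul_le_mul_of_nonneg_left h2 h3
    _ ≤ 1 / 2 := by
        rw [mul_one_div, div_le_iff₀ hT0]
        linarith

private theorem WBd_num2 (T b θ C L : ℝ) (j : ℕ) (hT : 3 ≤ T) (hb : 1 ≤ b) (hθ8 : θ ≤ 1 / 8)
    (hC : 0 ≤ C) (hL : 1 ≤ L) (hj : 2 * b + 9 ≤ (j : ℝ))
    (h : 3 * (b + 2) * (4 * Real.pi) ^ j * C ≤ T) :
    (3 / 2 * T) * (T ^ θ * ((b + 2) * T ^ (b + 2 + 1)) * T ^ (b + 2)) *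
      (2 * (2 * Real.pi / L) / T) ^ j * C ≤ 1 / 2 := by
  have hT0 : 0 < T := by linarith
  have hT1 : (1 : ℝ) ≤ T := by linarith
  have hL0 : 0 < L := by linarith
  have h1 : (2 * (2 * Real.pi / L) / T) ^ j ≤ (4 * Real.pi) ^ j * T ^ (-(j : ℝ)) := by
    rw [Real.rpow_neg hT0.le, Real.rpow_natCast, ← div_eq_mul_inv, ← div_pow]
    refine pow_le_pow_left₀ (by positivity) ?_ j
    refine div_le_div_of_nonneg_right ?_ hT0.le
    have h2 : 2 * Real.pi / L ≤ 2 * Real.pi := div_le_self (by positivity) hL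
    linarith
  have h3 : T * T ^ θ * T ^ (b + 2 + 1) * T ^ (b + 2) * T ^ (-(j : ℝ)) =
      T ^ (1 + θ + (b + 2 + 1) + (b + 2) + -(j : ℝ)) := by
    rw [Real.rpow_add hT0 (1 + θ + (b + 2 + 1) + (b + 2)) (-(j : ℝ)),
      Real.rpow_add hT0 (1 + θ + (b + 2 + 1)) (b + 2), Real.rpow_add hT0 (1 + θ) (b + 2 + 1),
      Real.rpow_add hT0 1 θ, Real.rpow_one]
  have h4 : T ^ (1 + θ + (b + 2 + 1) + (b + 2) + -(j : ℝ)) ≤ 1 / T := by
    rw [one_div, ← Real.rpow_neg_one]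
    exact Real.rpow_le_rpow_of_exponent_le hT1 (by linarith)
  have h6 : 0 ≤ T ^ θ * ((b + 2) * T ^ (b + 2 + 1)) * T ^ (b + 2) :=
    mul_nonneg (mul_nonneg (Real.rpow_nonneg hT0.le _)
      (mul_nonneg (by linarith) (Real.rpow_nonneg hT0.le _))) (Real.rpow_nonneg hT0.le _)
  have h5 : 0 ≤ (3 / 2 * T) * (T ^ θ * ((b + 2) * T ^ (b + 2 + 1)) * T ^ (b + 2)) :=
    mul_nonneg (by linarith) h6
  have h7 : 0 ≤ (4 * Real.pi) ^ j := pow_nonneg (by positivity) j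
  have h8 : 0 ≤ 3 / 2 * (b + 2) * (4 * Real.pi) ^ j * C :=
    mul_nonneg (mul_nonneg (by linarith) h7) hC
  calc (3 / 2 * T) * (T ^ θ * ((b + 2) * T ^ (b + 2 + 1)) * T ^ (b + 2)) *
        (2 * (2 * Real.pi / L) / T) ^ j * C ≤
        (3 / 2 * T) * (T ^ θ * ((b + 2) * T ^ (b + 2 + 1)) * T ^ (b + 2)) *
        ((4 * Real.pi) ^ j * T ^ (-(j : ℝ))) * C :=
        mul_le_mul_of_nonneg_right (mul_le_mul_of_nonneg_left h1 h5) hC
    _ = (3 / 2 * (b + 2) * (4 * Real.pi) ^ j * C) *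
        (T * T ^ θ * T ^ (b + 2 + 1) * T ^ (b + 2) * T ^ (-(j : ℝ))) := by
        generalize T ^ (-(j : ℝ)) = X
        generalize T ^ (b + 2 + 1) = Y
        generalize T ^ (b + 2) = Z
        generalize (4 * Real.pi) ^ j = W
        ring
    _ ≤ (3 / 2 * (b + 2) * (4 * Real.pi) ^ j * C) * (1 / T) := by
        rw [h3]
        exact mul_le_mul_of_nonneg_left h4 h8
    _ ≤ 1 / 2 := by
        rw [mul_one_div, div_le_iff₀ hT0]
        linarith

theorem w_bd (b θ : ℝ) (hb : 1 ≤ b) (hθ : 0 < θ) (hθ8 : θ ≤ 1 / 8) : ∃ C T₀ : ℝ, 0 ≤ C ∧ 3 ≤ T₀ ∧ ∀ T : ℝ, T₀ ≤ T →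
    ∀ (R : Finset ℕ) (m : ℕ → ℂ), MOk T θ R m → ∀ x : ℝ, |x| ≤ 1 / 8 →
      ∫ t in T..(5 / 2 * T), ‖W1 T b θ R m (ps x t)‖ ≤
        C * T * Real.sqrt (ms T (Dp T (b + 2) (Wf b θ)) x) *
          Real.sqrt (ms T (fun s => riemannZeta s * Mp R m s) x) + 1 := by
  obtain ⟨q, hqc, hqb, hqr⟩ := kap (b + 1 + 4 * θ) θ hθ
  obtain ⟨T₁, hT₁, hz⟩ := zsm (b + 4 * θ) θ (b + 6) (b + 2) (by linarith) hθ (by linarith)
  set j : ℕ := ⌈2 * b⌉₊ + 9 with hj
  have hjb : 2 * b + 9 ≤ (j : ℝ) := by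
    have h1 := Nat.le_ceil (2 * b)
    rw [hj]
    push_cast
    linarith
  obtain ⟨D₀, _, hD₀⟩ := hqb (0 + 2)
  obtain ⟨D₁, _, hD₁⟩ := hqb (j + 2)
  have hqn : Integrable fun ξ : ℝ => ‖q ξ‖ := by
    have h1 := WBd_intj q hqc 0 D₀ hD₀
    simpa using h1
  have hqi : Integrable q := (integrable_norm_iff hqc.aestronglyMeasurable).1 hqn
  have hqj : Integrable fun ξ : ℝ => ‖q ξ‖ * |ξ| ^ j := WBd_intj q hqc j D₁ hD₁
  set C₁ : ℝ := ∫ ξ : ℝ, ‖q ξ‖ with hC₁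
  set C₂ : ℝ := ∫ ξ : ℝ, ‖q ξ‖ * |ξ| ^ j with hC₂
  have hC₁0 : 0 ≤ C₁ := integral_nonneg fun ξ => norm_nonneg _
  have hC₂0 : 0 ≤ C₂ := integral_nonneg fun ξ => by positivity
  refine ⟨C₁, max T₁ (max (5 * C₁ * (b + 2)) (3 * (b + 2) * (4 * Real.pi) ^ j * C₂)), hC₁0,
    hT₁.trans (le_max_left _ _), ?_⟩
  intro T hT R m hm x hx
  have hT1 : T₁ ≤ T := (le_max_left _ _).trans hT
  have hT2 : 5 * C₁ * (b + 2) ≤ T :=
    ((le_max_left _ _).trans (le_max_right _ _)).trans hT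
  have hT3 : 3 * (b + 2) * (4 * Real.pi) ^ j * C₂ ≤ T :=
    ((le_max_right _ _).trans (le_max_right _ _)).trans hT
  have hT4 : 3 ≤ T := hT₁.trans hT1
  have hT0 : 0 < T := by linarith
  have hL1 : 1 ≤ Real.log T := by
    rw [Real.le_log_iff_exp_le hT0]
    exact Real.exp_one_lt_three.le.trans hT4
  set L := Real.log T with hL
  obtain ⟨hx1, hx2⟩ := abs_le.1 hx
  have hre0 : ∀ t : ℝ, 0 ≤ (ps x t).re := by
    intro t
    unfold ps
    simp
    linarith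
  set χ : ℝ → ℝ := cut (b + 1 + 5 * θ) θ with hχ
  have hχ1 : ∀ y, |χ y| ≤ 1 := by
    intro y
    rw [abs_of_nonneg (cut_nonneg _ _ _)]
    exact cut_le_one _ _ _
  set F : ℝ → ℝ := fun t => ‖Mp R m (ps x t) * Dp T (b + 2) (Wf b θ) (ps x t) *
    Zp T (b + 2) χ (ps x t)‖ with hF
  have hFc : Continuous F := (((WBd_contM R m (fun r hr => (hm r hr).1) x).mul
    (WBd_contD _ _ _ _)).mul (WBd_contZ _ _ _ _)).norm
  have hF0 : ∀ t, 0 ≤ F t := fun t => norm_nonneg _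
  have hKF : ∀ t, F t ≤ T ^ θ * ((b + 2) * T ^ (b + 2 + 1)) * T ^ (b + 2) := by
    intro t
    rw [hF]
    simp only
    rw [norm_mul, norm_mul]
    have h4 : ‖Dp T (b + 2) (Wf b θ) (ps x t)‖ ≤ (b + 2) * T ^ (b + 2 + 1) :=
      WBd_W T (b + 2) (by linarith) hT4 _ (Wf_abs_le b θ) _ (hre0 t)
    have h5 : ‖Mp R m (ps x t)‖ ≤ T ^ θ := WBd_M T θ hT4 R m hm _ (hre0 t)
    have h6 : ‖Zp T (b + 2) χ (ps x t)‖ ≤ T ^ (b + 2) := WBd_Z T (b + 2) hT4 χ hχ1 _ (hre0 t)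
    exact mul_le_mul (mul_le_mul h5 h4 (norm_nonneg _) ((norm_nonneg _).trans h5)) h6
      (norm_nonneg _) (mul_nonneg ((norm_nonneg _).trans h5) ((norm_nonneg _).trans h4))
  have hG : ∀ t, ‖W1 T b θ R m (ps x t)‖ ≤ ∫ ξ : ℝ, ‖q ξ‖ * F (t + (2 * Real.pi / L) * ξ) := by
    intro t
    rw [WBd_rep T b θ hθ hT4 q hqi hqr R m hm (ps x t)]
    refine (norm_integral_le_integral_norm _).trans (le_of_eq ?_)
    refine integral_congr_ae (Eventually.of_forall fun ξ => ?_)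
    have h1 : ps x t + ((2 * Real.pi * ξ / L : ℝ) : ℂ) * I = ps x (t + 2 * Real.pi / L * ξ) := by
      unfold ps
      push_cast
      ring
    simp only
    rw [← hL, h1, norm_mul]
  have hmain := WBd_shift (fun ξ => ‖q ξ‖) hqc.norm (fun ξ => norm_nonneg _) hqn j hqj F hFc hF0
    (T ^ θ * ((b + 2) * T ^ (b + 2 + 1)) * T ^ (b + 2)) hKF T hT0 (2 * Real.pi / L)
    (by positivity) (fun t => ‖W1 T b θ R m (ps x t)‖) (fun t => norm_nonneg _) hG
  have hzz : ∀ s : ℂ, 1 / 4 ≤ s.re → s.re ≤ 3 / 4 → T / 4 ≤ s.im → s.im ≤ 4 * T →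
      ‖riemannZeta s - Zp T (b + 2) χ s‖ ≤ T ^ (-(b + 6)) := by
    intro s h1 h2 h3 h4
    have h5 := hz T hT1 0 le_rfl (by linarith) s h1 h2 h3 h4
    have h6 : (fun y => cut (b + 4 * θ + 1 + θ) θ (0 + y)) = χ := by
      funext y
      rw [hχ, zero_add]
      congr 1
      ring
    rw [h6] at h5
    exact h5
  have hI := WBd_main T b θ hb hT4 R m hm x hx χ hzz
  set P := T * Real.sqrt (ms T (Dp T (b + 2) (Wf b θ)) x) *
        Real.sqrt (ms T (fun s => riemannZeta s * Mp R m s) x) with hP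
  have hE1 := WBd_num1 T b θ C₁ hT4 hb hθ8 hC₁0 hT2
  have hE2 := WBd_num2 T b θ C₂ L j hT4 hb hθ8 hC₂0 hL1 hjb hT3
  have hfin : (∫ t in (T / 2)..(3 * T), F t) * C₁ ≤
      (P + (5 / 2 * T) * (T ^ (-(b + 6)) * ((b + 2) * T ^ (b + 2 + 1)) * T ^ θ)) * C₁ :=
    mul_le_mul_of_nonneg_right hI hC₁0
  have hgoal : C₁ * T * Real.sqrt (ms T (Dp T (b + 2) (Wf b θ)) x) *
          Real.sqrt (ms T (fun s => riemannZeta s * Mp R m s) x) = P * C₁ := by
    rw [hP]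
    ring
  rw [hgoal]
  have hexp : (P + (5 / 2 * T) * (T ^ (-(b + 6)) * ((b + 2) * T ^ (b + 2 + 1)) * T ^ θ)) * C₁ =
      P * C₁ + (5 / 2 * T) * (T ^ (-(b + 6)) * ((b + 2) * T ^ (b + 2 + 1)) * T ^ θ) * C₁ := by ring
  linarith

end Pool.Agent.Lib.MP_2a816b_nt.SG
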