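import Pool.Agent.Lib.MP_2a816b_nt.SG.GAp
import Pool.Agent.Lib.MP_2a816b_nt.SG.GId
import Pool.Agent.Lib.MP_2a816b_nt.SG.WBd

/-!
# LEAF GBd: `GG` in mean

`‖GG‖ ≤ ‖G1‖ + 1/T = ‖W1‖ + 1/T` on `[T, 5T/2]`; integrate.
-/

namespace Pool.Agent.Lib.MP_2a816b_nt.SG

open Complex Set Filter Topology MeasureTheory
open scoped ContDiff

private theorem GBd_ps {x : ℝ} (hx : |x| ≤ 1 / 8) (t : ℝ) : -ps x t ≠ 0 := by
  intro h
  have h1 := congrArg Complex.re (neg_eq_zero.1 h)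
  unfold ps at h1
  simp only [Complex.add_re, Complex.ofReal_re, Complex.mul_re, Complex.I_re, mul_zero,
    Complex.ofReal_im, Complex.I_im, mul_one, sub_self, add_zero, Complex.zero_re] at h1
  have h2 := (abs_le.1 hx).1
  linarith

private theorem GBd_cont (T b θ : ℝ) (R : Finset ℕ) (m : ℕ → ℂ) {x : ℝ} (hx : |x| ≤ 1 / 8) :
    Continuous (fun t => W1 T b θ R m (ps x t)) := by
  have hps : Continuous (fun t => -ps x t) := by
    unfold ps
    fun_prop
  have h : ∀ z : ℂ, Continuous (fun t => z ^ (-ps x t)) := fun z =>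
    hps.const_cpow (Or.inr (GBd_ps hx))
  unfold W1
  refine continuous_finsetSum _ fun r _ => continuous_const.mul ?_
  refine continuous_finsetSum _ fun k _ => continuous_finsetSum _ fun n _ => ?_
  exact continuous_const.mul (h _)

theorem g_bd (b θ : ℝ) (hb : 1 ≤ b) (hθ : 0 < θ) (hθ8 : θ ≤ 1 / 8) : ∃ C T₀ : ℝ, 0 ≤ C ∧ 3 ≤ T₀ ∧ ∀ T : ℝ, T₀ ≤ T →
    ∀ (R : Finset ℕ) (m : ℕ → ℂ), MOk T θ R m → ∀ x : ℝ, |x| ≤ 1 / 8 →
      ∫ t in T..(5 / 2 * T), ‖GG (Dp T (b + 2) (cut (b + θ) θ)) (Mp R m) (ps x t)‖ ≤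
        C * T * Real.sqrt (ms T (Dp T (b + 2) (Wf b θ)) x) *
          Real.sqrt (ms T (fun s => riemannZeta s * Mp R m s) x) + 3 := by
  obtain ⟨T₁, hT₁, h1⟩ := g_approx b θ hb hθ hθ8
  obtain ⟨C, T₂, hC, hT₂, h2⟩ := w_bd b θ hb hθ hθ8
  refine ⟨C, max T₁ T₂, hC, hT₁.trans (le_max_left _ _), fun T hT R m hR x hx => ?_⟩
  have hTa : T₁ ≤ T := (le_max_left _ _).trans hT
  have hTb : T₂ ≤ T := (le_max_right _ _).trans hT
  have hT3 : 3 ≤ T := hT₁.trans hTa
  have hT0 : 0 < T := by linarith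
  have h3 := h2 T hTb R m hR x hx
  by_cases hI : IntervalIntegrable
      (fun t => ‖GG (Dp T (b + 2) (cut (b + θ) θ)) (Mp R m) (ps x t)‖) volume T (5 / 2 * T)
  · have hc : Continuous (fun t => ‖W1 T b θ R m (ps x t)‖ + 1 / T) :=
      (GBd_cont T b θ R m hx).norm.add continuous_const
    have h4 : ∫ t in T..(5 / 2 * T), ‖GG (Dp T (b + 2) (cut (b + θ) θ)) (Mp R m) (ps x t)‖ ≤
        ∫ t in T..(5 / 2 * T), (‖W1 T b θ R m (ps x t)‖ + 1 / T) := by
      refine intervalIntegral.integral_mono_on (by linarith) hI (hc.intervalIntegrable _ _) ?_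
      intro t ht
      have h5 := h1 T hTa R m hR x t hx ht.1 ht.2
      rw [g_id (by linarith) hb hθ hθ8 hR, sub_neg_eq_add] at h5
      have h6 := norm_sub_le (GG (Dp T (b + 2) (cut (b + θ) θ)) (Mp R m) (ps x t) + W1 T b θ R m (ps x t))
        (W1 T b θ R m (ps x t))
      rw [add_sub_cancel_right] at h6
      linarith
    have h5 : ∫ t in T..(5 / 2 * T), (‖W1 T b θ R m (ps x t)‖ + 1 / T) =
        (∫ t in T..(5 / 2 * T), ‖W1 T b θ R m (ps x t)‖) + 3 / 2 := by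
      rw [intervalIntegral.integral_add ((GBd_cont T b θ R m hx).norm.intervalIntegrable _ _)
        (continuous_const.intervalIntegrable _ _), intervalIntegral.integral_const, smul_eq_mul]
      congr 1
      field_simp
      ring
    linarith
  · rw [intervalIntegral.integral_undef hI]
    positivity

end Pool.Agent.Lib.MP_2a816b_nt.SG
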