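import Pool.Agent.Lib.MP_ec260d_ntB.ADefs
import Pool.Agent.Lib.MP_ec260d_ntB.AExp
import Pool.Agent.Lib.MP_ec260d_ntB.ASize
import Pool.Agent.Lib.MP_2a816b_nt.SG.Defs

/-!
# LEAF MMFin: the mollifier is a short Dirichlet polynomial

`MM_eq` (AExp): `MM δ T s = ∑_{H ∈ HH δ T} (-1)^|H| (hp H)^(-s)`; `hp` is injective on `HH δ T` (`hp_inj`, `HH_prime`): `R = (HH δ T).image hp`, `m n = (-1)^(number of prime factors of n)`. Size: `log (hp H) ≤ ∑_{P0} log p + 7 δ^(1/4) log T` (the private `ASize_log` in ASize.lean), so `hp H ≤ T^θ` if `7 δ^(1/4) ≤ θ/2` and `T` is large.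
-/

namespace Pool.Agent.Lib.MP_2a816b_nt.SG

open Complex Set Filter Topology MeasureTheory
open scoped ContDiff
open Pool.Agent.Lib.MP_ec260d_ntB (MM)
open Pool.Agent.Lib.MP_ec260d_ntB Pool.Agent.Lib.MP_ec260d_ntB.IA

private theorem MMFin_log {δ T : ℝ} (hδ : 0 < δ) (hδ1 : δ ≤ 1) (hT : 1 < T) {H : Finset ℕ}
    (h : H ∈ HH δ T) :
    Real.log (hp H) ≤ ∑ p ∈ P0, Real.log p + 7 * δ ^ (1 / 4 : ℝ) * Real.log T := by
  have hpr := HH_prime h
  have hlT : 0 < Real.log T := Real.log_pos hT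
  have hnn : ∀ p : ℕ, 0 ≤ Real.log (p : ℝ) := fun p => Real.log_natCast_nonneg p
  have e1 : Real.log (hp H) = ∑ p ∈ H, Real.log p := by
    unfold hp
    rw [Nat.cast_prod, Real.log_prod]
    intro p hp
    exact_mod_cast (hpr p hp).ne_zero
  have hsub : H ⊆ P0 ∪ (Finset.range (JJ T)).biUnion (fun j => H ∩ Pr δ T j) := by
    intro p hp
    have h1 := h
    unfold HH at h1
    rw [Finset.mem_filter, Finset.mem_powerset] at h1
    have h2 := h1.1 hp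
    unfold QQ at h2
    rw [Finset.mem_union, Finset.mem_biUnion] at h2 ⊢
    rcases h2 with h2 | ⟨j, hj, h2⟩
    · exact Or.inl h2
    · exact Or.inr ⟨j, hj, Finset.mem_inter.2 ⟨hp, h2⟩⟩
  have e2 : ∑ p ∈ H, Real.log (p : ℝ) ≤
      ∑ p ∈ P0 ∪ (Finset.range (JJ T)).biUnion (fun j => H ∩ Pr δ T j), Real.log (p : ℝ) :=
    Finset.sum_le_sum_of_subset_of_nonneg hsub fun p _ _ => hnn p
  have e3 : ∑ p ∈ P0 ∪ (Finset.range (JJ T)).biUnion (fun j => H ∩ Pr δ T j), Real.log (p : ℝ) ≤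
      ∑ p ∈ P0, Real.log (p : ℝ) +
        ∑ p ∈ (Finset.range (JJ T)).biUnion (fun j => H ∩ Pr δ T j), Real.log (p : ℝ) := by
    rw [← Finset.sum_union_inter]
    have : 0 ≤ ∑ p ∈ P0 ∩ (Finset.range (JJ T)).biUnion (fun j => H ∩ Pr δ T j),
        Real.log (p : ℝ) := Finset.sum_nonneg fun p _ => hnn p
    linarith
  have e4 : ∑ p ∈ (Finset.range (JJ T)).biUnion (fun j => H ∩ Pr δ T j), Real.log (p : ℝ) =
      ∑ j ∈ Finset.range (JJ T), ∑ p ∈ H ∩ Pr δ T j, Real.log (p : ℝ) := by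
    refine Finset.sum_biUnion fun i _ j _ hij => ?_
    exact (Pr_disj hδ hT hij).mono Finset.inter_subset_right Finset.inter_subset_right
  have e5 : ∀ j ∈ Finset.range (JJ T), ∑ p ∈ H ∩ Pr δ T j, Real.log (p : ℝ) ≤
      (dd δ j : ℝ) * (δ * Real.exp (-(j : ℝ))) * Real.log T := by
    intro j hj
    have h1 := h
    unfold HH at h1
    rw [Finset.mem_filter] at h1
    have h3 : ((H ∩ Pr δ T j).card : ℝ) ≤ dd δ j := by exact_mod_cast h1.2 j hj
    have h4 : ∑ p ∈ H ∩ Pr δ T j, Real.log (p : ℝ) ≤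
        (H ∩ Pr δ T j).card • (δ * Real.exp (-(j : ℝ)) * Real.log T) :=
      Finset.sum_le_card_nsmul _ _ _ fun p hp =>
        (Pr_log hδ hT (Finset.mem_inter.1 hp).2).2
    rw [nsmul_eq_mul] at h4
    have h5 : 0 ≤ δ * Real.exp (-(j : ℝ)) * Real.log T := by positivity
    calc ∑ p ∈ H ∩ Pr δ T j, Real.log (p : ℝ)
        ≤ ((H ∩ Pr δ T j).card : ℝ) * (δ * Real.exp (-(j : ℝ)) * Real.log T) := h4
      _ ≤ (dd δ j : ℝ) * (δ * Real.exp (-(j : ℝ)) * Real.log T) :=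
          mul_le_mul_of_nonneg_right h3 h5
      _ = _ := by ring
  have e6 : ∑ j ∈ Finset.range (JJ T), ∑ p ∈ H ∩ Pr δ T j, Real.log (p : ℝ) ≤
      7 * δ ^ (1 / 4 : ℝ) * Real.log T := by
    refine (Finset.sum_le_sum e5).trans ?_
    rw [← Finset.sum_mul]
    exact mul_le_mul_of_nonneg_right (dd_beta hδ hδ1 _) hlT.le
  linarith

theorem mm_fin (θ : ℝ) (hθ : 0 < θ) : ∃ δ₀ : ℝ, 0 < δ₀ ∧ ∀ δ : ℝ, 0 < δ → δ ≤ δ₀ → ∃ T₀ : ℝ, 2 ≤ T₀ ∧ ∀ T : ℝ, T₀ ≤ T →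
    ∃ (R : Finset ℕ) (m : ℕ → ℂ), MOk T θ R m ∧ ∀ s : ℂ, MM δ T s = Mp R m s := by
  refine ⟨min 1 ((θ / 14) ^ (4 : ℕ)), by positivity, fun δ hδ hδ0 => ?_⟩
  have hδ1 : δ ≤ 1 := hδ0.trans (min_le_left _ _)
  have hδ4 : 7 * δ ^ (1 / 4 : ℝ) ≤ θ / 2 := by
    have h1 : δ ^ (1 / 4 : ℝ) ≤ θ / 14 := by
      calc δ ^ (1 / 4 : ℝ) ≤ ((θ / 14) ^ (4 : ℕ)) ^ (1 / 4 : ℝ) :=
            Real.rpow_le_rpow hδ.le (hδ0.trans (min_le_right _ _)) (by norm_num)
        _ = θ / 14 := by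
            rw [← Real.rpow_natCast, ← Real.rpow_mul (by positivity)]
            norm_num
    linarith
  obtain ⟨L0, hL0⟩ : ∃ L0 : ℝ, L0 = ∑ p ∈ P0, Real.log (p : ℝ) := ⟨_, rfl⟩
  refine ⟨max 2 (Real.exp (2 / θ * L0)), le_max_left _ _, fun T hT => ?_⟩
  have hT2 : 2 ≤ T := (le_max_left _ _).trans hT
  have hT1 : 1 < T := by linarith
  have hlT : 0 < Real.log T := Real.log_pos hT1
  have hL : 2 / θ * L0 ≤ Real.log T := by
    rw [Real.le_log_iff_exp_le (by linarith)]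
    exact (le_max_right _ _).trans hT
  have hL2 : L0 ≤ θ / 2 * Real.log T := by
    have h1 := mul_le_mul_of_nonneg_left hL (by positivity : (0 : ℝ) ≤ θ / 2)
    have h2 : θ / 2 * (2 / θ * L0) = L0 := by
      field_simp
    linarith
  refine ⟨(HH δ T).image hp, fun n => (-1) ^ n.primeFactors.card, ?_, fun s => ?_⟩
  · intro r hr
    obtain ⟨H, hH, rfl⟩ := Finset.mem_image.1 hr
    refine ⟨hp_pos hH, ?_, ?_⟩
    · have h1 := MMFin_log hδ hδ1 hT1 hH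
      rw [← hL0] at h1
      have h2 : 7 * δ ^ (1 / 4 : ℝ) * Real.log T ≤ θ / 2 * Real.log T :=
        mul_le_mul_of_nonneg_right hδ4 hlT.le
      have h3 : (0 : ℝ) < hp H := by exact_mod_cast hp_pos hH
      rw [← Real.exp_log h3, Real.rpow_def_of_pos (by linarith)]
      refine Real.exp_le_exp.2 ?_
      linarith
    · rw [norm_pow, norm_neg, norm_one, one_pow]
  · unfold Mp
    rw [Finset.sum_image, MM_eq hδ hT1]
    · refine Finset.sum_congr rfl fun H hH => ?_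
      have h1 : (hp H).primeFactors = H := by
        unfold hp
        exact Nat.primeFactors_prod (HH_prime hH)
      show _ = (-1) ^ (hp H).primeFactors.card * (hp H : ℂ) ^ (-s)
      rw [h1]
    · intro H hH H' hH' he
      exact hp_inj (HH_prime hH) (HH_prime hH') he

end Pool.Agent.Lib.MP_2a816b_nt.SG
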