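import Pool.Agent.Lib.MP_ec260d_ntB.BMean
import Pool.Agent.Lib.MP_ec260d_ntB.BWin
import Pool.Agent.Lib.MP_2a816b_nt.SG.Defs

/-!
# LEAF SupMeas (medium, about 150 lines): from means on vertical lines to the supremum on discs, for most heights

`L = log T`, `ρ = (Rr + 1)/L ≤ 1/2`. For `|s - ps 0 t| ≤ Rr/L` and the radius `r₁ = 1/(2L)`: `area_mean` (BMean): `π r₁² ‖F s‖ ≤ ∫ over the square around s ≤ BI (1/2 - ρ) (1/2 + ρ) (t - ρ) (t + ρ) ‖F‖ =: I t`.
`I t ≤ lam` outside of a set of measure at most `(2ρ/lam) ∫∫_{|Re - 1/2| ≤ ρ, T ≤ Im ≤ 5T/2} ‖F‖ ≤ (2ρ/lam) (2ρ) A T`: this is `win_meas` (BWin) applied to `f s = χ(Im s) ‖F s‖` with a continuous `χ`, `0 ≤ χ ≤ 1`, `χ = 1` on `[T + 1/2, 9T/4 + 1/2]`, `χ = 0` outside of `[T, 5T/2]` (`t ∈ [T+1, 9T/4]`, `T ≥ 10`), and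
`BI (..) (T/2) (3T) f ≤ ∫ x in -ρ..ρ, ∫ t in T..5T/2, ‖F(ps x t)‖ ≤ 2ρ A T` (`bi_iter`). With `lam = 40 ρ² A` the measure is `≤ T/10` and `‖F s‖ ≤ lam/(π r₁²) = 160 (Rr+1)² A/π`.
-/

namespace Pool.Agent.Lib.MP_2a816b_nt.SG

open Complex Set Filter Topology MeasureTheory
open Pool.Agent.Lib.MP_ec260d_ntB
open scoped ContDiff

private noncomputable def SupMeas_chi (T t : ℝ) : ℝ := max 0 (min 1 (min (2 * (t - T)) (2 * (5 / 2 * T - t))))

private theorem SupMeas_cont (T : ℝ) : Continuous (SupMeas_chi T) := by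
  unfold SupMeas_chi
  fun_prop

private theorem SupMeas_nonneg (T t : ℝ) : 0 ≤ SupMeas_chi T t := le_max_left _ _

private theorem SupMeas_le_one (T t : ℝ) : SupMeas_chi T t ≤ 1 :=
  max_le zero_le_one (min_le_left _ _)

private theorem SupMeas_one {T t : ℝ} (hT : 10 ≤ T) (h1 : T + 1 / 2 ≤ t) (h2 : t ≤ 9 / 4 * T + 1 / 2) :
    SupMeas_chi T t = 1 := by
  unfold SupMeas_chi
  rw [min_eq_left, max_eq_right zero_le_one]
  exact le_min (by linarith) (by linarith)

private theorem SupMeas_zero_left {T t : ℝ} (h1 : t ≤ T) : SupMeas_chi T t = 0 := by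
  unfold SupMeas_chi
  rw [max_eq_left]
  exact (min_le_right _ _).trans ((min_le_left _ _).trans (by linarith))

private theorem SupMeas_zero_right {T t : ℝ} (h1 : 5 / 2 * T ≤ t) : SupMeas_chi T t = 0 := by
  unfold SupMeas_chi
  rw [max_eq_left]
  exact (min_le_right _ _).trans ((min_le_right _ _).trans (by linarith))

theorem sup_meas (Rr : ℝ) (hR : 0 < Rr) : ∃ C T₀ : ℝ, 0 ≤ C ∧ 3 ≤ T₀ ∧ ∀ T : ℝ, T₀ ≤ T → ∀ F : ℂ → ℂ,
    (∀ s : ℂ, T / 2 ≤ s.im → s.im ≤ 3 * T → DifferentiableAt ℂ F s) → ∀ A : ℝ, 0 < A →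
      (∀ x : ℝ, |x| ≤ (Rr + 1) / Real.log T → ∫ t in T..(5 / 2 * T), ‖F (ps x t)‖ ≤ A * T) →
        ∃ Bad : Set ℝ, MeasurableSet Bad ∧ volume Bad ≤ ENNReal.ofReal (T / 10) ∧
          ∀ t ∈ Icc (T + 1) (9 / 4 * T), t ∉ Bad → ∀ s : ℂ, ‖s - ps 0 t‖ ≤ Rr / Real.log T → ‖F s‖ ≤ C * A := by
  refine ⟨160 * (Rr + 1) ^ 2 / Real.pi, max 10 (Real.exp (2 * (Rr + 1))), by positivity,
    le_trans (by norm_num) (le_max_left _ _), fun T hT F hF A hA hI => ?_⟩
  have hT10 : 10 ≤ T := (le_max_left _ _).trans hT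
  have hT0 : 0 < T := by linarith
  have hL : 2 * (Rr + 1) ≤ Real.log T := by
    rw [Real.le_log_iff_exp_le hT0]
    exact (le_max_right _ _).trans hT
  obtain ⟨L, hLd⟩ : ∃ L, L = Real.log T := ⟨_, rfl⟩
  rw [← hLd] at hL hI
  rw [← hLd]
  have hL0 : 0 < L := by linarith
  obtain ⟨ρ, hρ⟩ : ∃ ρ, ρ = (Rr + 1) / L := ⟨_, rfl⟩
  rw [← hρ] at hI
  have hρ0 : 0 < ρ := by rw [hρ]; positivity
  have hρ1 : ρ ≤ 1 / 2 := by
    rw [hρ, div_le_iff₀ hL0]
    linarith
  have hab : 1 / 2 - ρ ≤ 1 / 2 + ρ := by linarith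
  obtain ⟨f, hfd⟩ : ∃ f : ℂ → ℝ, f = fun s => SupMeas_chi T s.im * ‖F s‖ := ⟨_, rfl⟩
  have hFc : ∀ s ∈ CB (1 / 2 - ρ) (1 / 2 + ρ) (T / 2) (3 * T), ContinuousAt F s := fun s hs =>
    (hF s hs.2.2.1 hs.2.2.2).continuousAt
  have hf : ContinuousOn f (CB (1 / 2 - ρ) (1 / 2 + ρ) (T / 2) (3 * T)) := by
    intro s hs
    rw [hfd]
    refine ContinuousAt.continuousWithinAt ?_
    exact ((SupMeas_cont T).continuousAt.comp Complex.continuous_im.continuousAt).mul
      (hFc s hs).norm
  have hf0 : ∀ s ∈ CB (1 / 2 - ρ) (1 / 2 + ρ) (T / 2) (3 * T), 0 ≤ f s := fun s _ => by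
    rw [hfd]
    exact mul_nonneg (SupMeas_nonneg T _) (norm_nonneg _)
  obtain ⟨lam, hlam⟩ : ∃ lam, lam = 40 * ρ ^ 2 * A := ⟨_, rfl⟩
  have hlam0 : 0 < lam := by rw [hlam]; positivity
  obtain ⟨Bad, hB1, hB2, hB3⟩ := win_meas T (by linarith) _ _ hab f hf hf0 ρ lam hρ0 hρ1 hlam0
  have hTT : T / 2 ≤ 3 * T := by linarith
  -- the total integral
  have hBI : BI (1 / 2 - ρ) (1 / 2 + ρ) (T / 2) (3 * T) f ≤ A * T * (2 * ρ) := by
    rw [bi_iter hab hTT (bint_cont hf)]
    refine (le_abs_self _).trans ?_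
    rw [← Real.norm_eq_abs]
    have hb : ∀ x ∈ Set.uIoc (1 / 2 - ρ) (1 / 2 + ρ),
        ‖∫ t in (T / 2)..(3 * T), f ((x : ℂ) + t * I)‖ ≤ A * T := by
      intro x hx
      rw [uIoc_of_le hab] at hx
      have him : ∀ t : ℝ, ((x : ℂ) + t * I).im = t := fun t => by simp
      have hre : ∀ t : ℝ, ((x : ℂ) + t * I).re = x := fun t => by simp
      have hg : ContinuousOn (fun t : ℝ => f ((x : ℂ) + t * I)) (Icc (T / 2) (3 * T)) := by
        refine hf.comp (by fun_prop) fun t ht => ?_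
        refine ⟨?_, ?_, ?_, ?_⟩
        · rw [hre]; exact hx.1.le
        · rw [hre]; exact hx.2
        · rw [him]; exact ht.1
        · rw [him]; exact ht.2
      have hFn : ContinuousOn (fun t : ℝ => ‖F ((x : ℂ) + t * I)‖) (Icc (T / 2) (3 * T)) := by
        intro t ht
        have h1 : ContinuousAt F ((x : ℂ) + t * I) :=
          (hF _ (by rw [him]; exact ht.1) (by rw [him]; exact ht.2)).continuousAt
        have h2 : ContinuousAt (fun t : ℝ => (x : ℂ) + t * I) t := by fun_prop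
        exact (ContinuousAt.comp (f := fun t : ℝ => (x : ℂ) + t * I) h1 h2).norm.continuousWithinAt
      have hi : ∀ c d : ℝ, T / 2 ≤ c → c ≤ d → d ≤ 3 * T →
          IntervalIntegrable (fun t : ℝ => f ((x : ℂ) + t * I)) volume c d := by
        intro c d h1 h2 h3
        refine ContinuousOn.intervalIntegrable ?_
        rw [uIcc_of_le h2]
        exact hg.mono (Icc_subset_Icc h1 h3)
      have h5 : ∫ t in (T / 2)..(3 * T), f ((x : ℂ) + t * I) =
          (∫ t in (T / 2)..T, f ((x : ℂ) + t * I)) + (∫ t in T..(5 / 2 * T), f ((x : ℂ) + t * I)) +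
            ∫ t in (5 / 2 * T)..(3 * T), f ((x : ℂ) + t * I) := by
        rw [intervalIntegral.integral_add_adjacent_intervals
          (hi _ _ le_rfl (by linarith) (by linarith)) (hi _ _ (by linarith) (by linarith) (by linarith)),
          intervalIntegral.integral_add_adjacent_intervals
          (hi _ _ le_rfl (by linarith) (by linarith)) (hi _ _ (by linarith) (by linarith) (by linarith))]
      have h6 : ∫ t in (T / 2)..T, f ((x : ℂ) + t * I) = 0 := by
        rw [intervalIntegral.integral_congr (g := fun _ => (0 : ℝ)) ?_]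
        · exact intervalIntegral.integral_zero
        · intro t ht
          rw [uIcc_of_le (by linarith)] at ht
          show f _ = 0
          rw [hfd]
          show SupMeas_chi T _ * _ = 0
          rw [him, SupMeas_zero_left ht.2, zero_mul]
      have h7 : ∫ t in (5 / 2 * T)..(3 * T), f ((x : ℂ) + t * I) = 0 := by
        rw [intervalIntegral.integral_congr (g := fun _ => (0 : ℝ)) ?_]
        · exact intervalIntegral.integral_zero
        · intro t ht
          rw [uIcc_of_le (by linarith)] at ht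
          show f _ = 0
          rw [hfd]
          show SupMeas_chi T _ * _ = 0
          rw [him, SupMeas_zero_right ht.1, zero_mul]
      have h8 : ∫ t in T..(5 / 2 * T), f ((x : ℂ) + t * I) ≤
          ∫ t in T..(5 / 2 * T), ‖F (ps (x - 1 / 2) t)‖ := by
        have e : ∀ t : ℝ, ps (x - 1 / 2) t = (x : ℂ) + t * I := by
          intro t
          unfold ps
          push_cast
          ring
        simp only [e]
        refine intervalIntegral.integral_mono_on (by linarith)
          (hi _ _ (by linarith) (by linarith) (by linarith)) ?_ fun t ht => ?_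
        · refine ContinuousOn.intervalIntegrable ?_
          rw [uIcc_of_le (by linarith)]
          exact hFn.mono (Icc_subset_Icc (by linarith) (by linarith))
        · rw [hfd]
          exact mul_le_of_le_one_left (norm_nonneg _) (SupMeas_le_one T _)
      have h9 := hI (x - 1 / 2) (abs_le.2 ⟨by linarith [hx.1], by linarith [hx.2]⟩)
      have h10 : 0 ≤ ∫ t in (T / 2)..(3 * T), f ((x : ℂ) + t * I) := by
        refine intervalIntegral.integral_nonneg hTT fun t _ => ?_
        rw [hfd]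
        exact mul_nonneg (SupMeas_nonneg T _) (norm_nonneg _)
      rw [Real.norm_eq_abs, abs_of_nonneg h10, h5, h6, h7]
      linarith
    have h := intervalIntegral.norm_integral_le_of_norm_le_const hb
    have e : |1 / 2 + ρ - (1 / 2 - ρ)| = 2 * ρ := by
      rw [abs_of_nonneg (by linarith)]
      ring
    rw [e] at h
    exact h
  refine ⟨Bad, hB1, hB2.trans (ENNReal.ofReal_le_ofReal ?_), fun t ht hb s hs => ?_⟩
  · calc 2 * ρ / lam * BI (1 / 2 - ρ) (1 / 2 + ρ) (T / 2) (3 * T) f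
        ≤ 2 * ρ / lam * (A * T * (2 * ρ)) := mul_le_mul_of_nonneg_left hBI (by positivity)
      _ = T / 10 := by
        rw [hlam]
        field_simp
        ring
  · have h1 := hB3 t ⟨by linarith [ht.1], by linarith [ht.2]⟩ hb
    have hps : ps 0 t = ((1 / 2 : ℝ) : ℂ) + t * I := by
      unfold ps
      rw [add_zero]
    have hre : |s.re - 1 / 2| ≤ Rr / L := by
      have := (Complex.abs_re_le_norm (s - ps 0 t)).trans hs
      rw [hps] at this
      simpa using this
    have him : |s.im - t| ≤ Rr / L := by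
      have := (Complex.abs_im_le_norm (s - ps 0 t)).trans hs
      rw [hps] at this
      simpa using this
    rw [abs_le] at hre him
    obtain ⟨r, hr⟩ : ∃ r, r = 1 / (2 * L) := ⟨_, rfl⟩
    have hr0 : 0 < r := by rw [hr]; positivity
    have hrr : Rr / L + r ≤ ρ := by
      have e : Rr / L + r = (Rr + 1 / 2) / L := by
        rw [hr]
        field_simp
      rw [e, hρ]
      exact div_le_div_of_nonneg_right (by linarith) hL0.le
    have hcb : CB (s.re - r) (s.re + r) (s.im - r) (s.im + r) ⊆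
        CB (1 / 2 - ρ) (1 / 2 + ρ) (t - ρ) (t + ρ) :=
      CB_mono (by linarith [hre.1]) (by linarith [hre.2]) (by linarith [him.1]) (by linarith [him.2])
    have h2 := area_mean F s r hr0 (fun z hz => by
      have h3 := hcb hz
      exact hF z (by linarith [h3.2.2.1, ht.1]) (by linarith [h3.2.2.2, ht.2]))
    have h3 : BI (s.re - r) (s.re + r) (s.im - r) (s.im + r) (fun s => ‖F s‖) =
        BI (s.re - r) (s.re + r) (s.im - r) (s.im + r) f := by
      refine bi_congr fun z hz => ?_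
      have h4 := hcb hz
      rw [hfd]
      show ‖F z‖ = SupMeas_chi T z.im * ‖F z‖
      rw [SupMeas_one hT10 (by linarith [h4.2.2.1, ht.1]) (by linarith [h4.2.2.2, ht.2]), one_mul]
    have h4 : BI (s.re - r) (s.re + r) (s.im - r) (s.im + r) f ≤
        BI (1 / 2 - ρ) (1 / 2 + ρ) (t - ρ) (t + ρ) f := by
      refine bi_subset (bint_mono (bint_cont hf) le_rfl le_rfl (by linarith [ht.1])
        (by linarith [ht.2])) (fun z _ => ?_) (by linarith [hre.1]) (by linarith [hre.2])
        (by linarith [him.1]) (by linarith [him.2])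
      rw [hfd]
      exact mul_nonneg (SupMeas_nonneg T _) (norm_nonneg _)
    rw [h3] at h2
    have h5 : Real.pi * r ^ 2 * ‖F s‖ ≤ lam := h2.trans (h4.trans h1)
    have hpi := Real.pi_pos
    have h6 : ‖F s‖ ≤ lam / (Real.pi * r ^ 2) := by
      rw [le_div_iff₀ (by positivity)]
      linarith
    refine h6.trans (le_of_eq ?_)
    rw [hlam, hρ, hr]
    field_simp
    ring

end Pool.Agent.Lib.MP_2a816b_nt.SG
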