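import Pool.Agent.Lib.MP_2a816b_nt.SG.Cut

/-!
# LEAF WRep (medium, about 150 lines): prime sums through `E`

`L = log T > 0`, `φ` smooth, `φ y = 0` for `y ≤ p` or `y ≥ q`, `0 < p`, `q ≤ B`.
* `w_rep`: `F(v) = φ(v/L) e^(-s v)` is `C¹` with compact support in `(0, BL]`. Abel summation: `∑_{n ≤ T^B} Λ(n) F(log n) = - ∫_0^{BL} ψ(e^v) F'(v) dv` (`F (BL) = 0`), `ψ(e^v) = e^v + Ev v`, `- ∫ e^v F' = ∫ e^v F`, `F' = φ'(v/L)/L e^(-sv) - s F`.
* `main_tiny`: `∫_0^{BL} φ(v/L) e^((1-s)v) dv`: integrate by parts `k` times.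
-/

namespace Pool.Agent.Lib.MP_2a816b_nt.SG

open Complex Set Filter Topology MeasureTheory
open scoped ContDiff

theorem WRep_van {p q : ℝ} {φ : ℝ → ℝ} (hφ : ContDiff ℝ ∞ φ)
    (h0 : ∀ y, y ≤ p ∨ q ≤ y → φ y = 0) : ∀ y, y ≤ p ∨ q ≤ y → deriv φ y = 0 := by
  intro y hy
  have hd : HasDerivAt φ (deriv φ y) y :=
    ((hφ.differentiable (by simp)) y).hasDerivAt
  rcases hy with hy | hy
  · have h1 : HasDerivWithinAt φ (deriv φ y) (Iic y) y := hd.hasDerivWithinAt
    have h2 : HasDerivWithinAt φ 0 (Iic y) y :=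
      (hasDerivWithinAt_const y (Iic y) (0 : ℝ)).congr
        (fun z hz => h0 z (Or.inl (le_trans hz hy))) (h0 y (Or.inl hy))
    exact ((uniqueDiffOn_Iic y) y self_mem_Iic).eq_deriv _ h1 h2
  · have h1 : HasDerivWithinAt φ (deriv φ y) (Ici y) y := hd.hasDerivWithinAt
    have h2 : HasDerivWithinAt φ 0 (Ici y) y :=
      (hasDerivWithinAt_const y (Ici y) (0 : ℝ)).congr
        (fun z hz => h0 z (Or.inr (le_trans hy hz))) (h0 y (Or.inr hy))
    exact ((uniqueDiffOn_Ici y) y self_mem_Ici).eq_deriv _ h1 h2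

theorem WRep_smooth {φ : ℝ → ℝ} (hφ : ContDiff ℝ ∞ φ) : ContDiff ℝ ∞ (deriv φ) :=
  ((contDiff_infty_iff_deriv).1 hφ).2

theorem WRep_deriv {L : ℝ} {φ : ℝ → ℝ} (hφ : ContDiff ℝ ∞ φ) (a : ℂ) (v : ℝ) :
    HasDerivAt (fun v : ℝ => ((φ (v / L) : ℝ) : ℂ) * cexp (a * v))
      (((deriv φ (v / L) / L : ℝ) : ℂ) * cexp (a * v) + ((φ (v / L) : ℝ) : ℂ) * (a * cexp (a * v))) v := by
  have h1 : HasDerivAt (fun v : ℝ => φ (v / L)) (deriv φ (v / L) / L) v := by
    have h := (((hφ.differentiable (by simp)) (v / L)).hasDerivAt).comp v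
      ((hasDerivAt_id v).div_const L)
    have e : deriv φ (v / L) * (1 / L) = deriv φ (v / L) / L := by ring
    rw [e] at h
    exact h
  have h2 : HasDerivAt (fun v : ℝ => ((φ (v / L) : ℝ) : ℂ)) (((deriv φ (v / L) / L : ℝ) : ℂ)) v :=
    h1.ofReal_comp
  have h3 : HasDerivAt (fun v : ℝ => cexp (a * v)) (a * cexp (a * v)) v := by
    have h4 : HasDerivAt (fun v : ℝ => a * (v : ℂ)) (a * 1) v :=
      (HasDerivAt.ofReal_comp (hasDerivAt_id v)).const_mul a
    have h5 := h4.cexp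
    have e : cexp (a * v) * (a * 1) = a * cexp (a * v) := by ring
    rw [e] at h5
    exact h5
  exact h2.mul h3

theorem WRep_cont {L : ℝ} {φ : ℝ → ℝ} (hφ : Continuous φ) (a : ℂ) :
    Continuous (fun v : ℝ => ((φ (v / L) : ℝ) : ℂ) * cexp (a * v)) := by
  have h1 : Continuous (fun v : ℝ => φ (v / L)) := hφ.comp (continuous_id.div_const L)
  have h2 : Continuous (fun v : ℝ => ((φ (v / L) : ℝ) : ℂ)) := continuous_ofReal.comp h1
  have h3 : Continuous (fun v : ℝ => cexp (a * v)) :=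
    Complex.continuous_exp.comp (continuous_const.mul continuous_ofReal)
  exact h2.mul h3

/-- one integration by parts -/
theorem WRep_ibp {L B p q : ℝ} (hL : 0 < L) (hp : 0 < p) (hq : q ≤ B) {φ : ℝ → ℝ} (hφ : ContDiff ℝ ∞ φ)
    (h0 : ∀ y, y ≤ p ∨ q ≤ y → φ y = 0) {c : ℂ} (hc : c ≠ 0) :
    ∫ v in (0 : ℝ)..(B * L), ((φ (v / L) : ℝ) : ℂ) * cexp (c * v) =
      -(1 / (L * c)) * ∫ v in (0 : ℝ)..(B * L), ((deriv φ (v / L) : ℝ) : ℂ) * cexp (c * v) := by
  have hL0 : (L : ℂ) ≠ 0 := by exact_mod_cast hL.ne'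
  have hφ' : Continuous (deriv φ) := (WRep_smooth hφ).continuous
  have hi1 : IntervalIntegrable (fun v : ℝ => ((deriv φ (v / L) : ℝ) : ℂ) * cexp (c * v)) volume 0 (B * L) :=
    (WRep_cont hφ' c).intervalIntegrable _ _
  have hi2 : IntervalIntegrable (fun v : ℝ => ((φ (v / L) : ℝ) : ℂ) * cexp (c * v)) volume 0 (B * L) :=
    (WRep_cont hφ.continuous c).intervalIntegrable _ _
  have hder : ∀ v : ℝ, HasDerivAt (fun v : ℝ => ((φ (v / L) : ℝ) : ℂ) * cexp (c * v))
      ((1 / L : ℂ) * (((deriv φ (v / L) : ℝ) : ℂ) * cexp (c * v)) +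
        c * (((φ (v / L) : ℝ) : ℂ) * cexp (c * v))) v := by
    intro v
    have h := WRep_deriv (L := L) hφ c v
    have e : ((deriv φ (v / L) / L : ℝ) : ℂ) * cexp (c * v) + ((φ (v / L) : ℝ) : ℂ) * (c * cexp (c * v)) =
        (1 / L : ℂ) * (((deriv φ (v / L) : ℝ) : ℂ) * cexp (c * v)) +
        c * (((φ (v / L) : ℝ) : ℂ) * cexp (c * v)) := by
      push_cast
      ring
    rw [e] at h
    exact h
  have hint : IntervalIntegrable (fun v : ℝ => (1 / L : ℂ) * (((deriv φ (v / L) : ℝ) : ℂ) * cexp (c * v)) +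
        c * (((φ (v / L) : ℝ) : ℂ) * cexp (c * v))) volume 0 (B * L) :=
    (hi1.const_mul _).add (hi2.const_mul _)
  have key := intervalIntegral.integral_eq_sub_of_hasDerivAt (fun v _ => hder v) hint
  rw [intervalIntegral.integral_add (hi1.const_mul _) (hi2.const_mul _),
    intervalIntegral.integral_const_mul, intervalIntegral.integral_const_mul] at key
  have e1 : φ (B * L / L) = 0 := by
    rw [mul_div_cancel_right₀ _ hL.ne']
    exact h0 B (Or.inr hq)
  have e2 : φ (0 / L) = 0 := by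
    rw [zero_div]
    exact h0 0 (Or.inl hp.le)
  simp only [e1, e2, ofReal_zero, zero_mul, sub_zero] at key
  have key2 : c * ∫ v in (0 : ℝ)..(B * L), ((φ (v / L) : ℝ) : ℂ) * cexp (c * v) =
      -((1 / L : ℂ) * ∫ v in (0 : ℝ)..(B * L), ((deriv φ (v / L) : ℝ) : ℂ) * cexp (c * v)) := by
    rw [eq_neg_iff_add_eq_zero, add_comm]
    exact key
  apply mul_left_cancel₀ hc
  rw [key2]
  field_simp

/-- `k` integrations by parts -/
theorem WRep_ibpk {L B p q : ℝ} (hL : 0 < L) (hp : 0 < p) (hq : q ≤ B) {c : ℂ} (hc : c ≠ 0) (k : ℕ) :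
    ∀ {φ : ℝ → ℝ}, ContDiff ℝ ∞ φ → (∀ y, y ≤ p ∨ q ≤ y → φ y = 0) →
    ∫ v in (0 : ℝ)..(B * L), ((φ (v / L) : ℝ) : ℂ) * cexp (c * v) =
      (-(1 / (L * c))) ^ k * ∫ v in (0 : ℝ)..(B * L), ((iteratedDeriv k φ (v / L) : ℝ) : ℂ) * cexp (c * v) := by
  induction k with
  | zero =>
    intro φ hφ h0
    simp
  | succ k ih =>
    intro φ hφ h0
    rw [WRep_ibp hL hp hq hφ h0 hc, ih (WRep_smooth hφ) (WRep_van hφ h0), pow_succ', mul_assoc]
    congr 2
    simp only [iteratedDeriv_succ']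

theorem WRep_psi {T B v : ℝ} (hT : 1 < T) (hv : v ≤ B * Real.log T) :
    Chebyshev.psi (Real.exp v) = ∑ n ∈ Finset.Icc 1 ⌊T ^ B⌋₊,
      (if Real.log n ≤ v then ArithmeticFunction.vonMangoldt n else 0) := by
  have hT0 : 0 < T := by linarith
  have hle : Real.exp v ≤ T ^ B := by
    rw [Real.rpow_def_of_pos hT0, mul_comm (Real.log T) B]
    exact Real.exp_le_exp.2 hv
  unfold Chebyshev.psi
  rw [← Finset.sum_filter]
  apply Finset.sum_congr _ (fun _ _ => rfl)
  ext n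
  simp only [Finset.mem_Ioc, Finset.mem_filter, Finset.mem_Icc]
  constructor
  · rintro ⟨h1, h2⟩
    have hn : (0 : ℝ) < n := by exact_mod_cast h1
    have h3 : (n : ℝ) ≤ Real.exp v := (Nat.le_floor_iff (Real.exp_pos v).le).1 h2
    refine ⟨⟨h1, ?_⟩, ?_⟩
    · exact Nat.le_floor (h3.trans hle)
    · rw [← Real.log_exp v]
      exact Real.log_le_log hn h3
  · rintro ⟨⟨h1, h2⟩, h3⟩
    have hn : (0 : ℝ) < n := by exact_mod_cast h1
    refine ⟨h1, Nat.le_floor ?_⟩
    exact (Real.log_le_iff_le_exp hn).1 h3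

theorem WRep_abel {T B p q : ℝ} (hT : 2 ≤ T) (hp : 0 < p) (hq : q ≤ B) {φ : ℝ → ℝ} (hφ : ContDiff ℝ ∞ φ)
    (h0 : ∀ y, y ≤ p ∨ q ≤ y → φ y = 0) (hB : 0 ≤ B) (s : ℂ) (F' : ℝ → ℂ) (hF' : Continuous F')
    (hd : ∀ v : ℝ, HasDerivAt (fun v : ℝ => ((φ (v / Real.log T) : ℝ) : ℂ) * cexp (-s * v)) (F' v) v) :
    Dp T B φ s = -∫ v in (0 : ℝ)..(B * Real.log T), ((Chebyshev.psi (Real.exp v) : ℝ) : ℂ) * F' v := by
  have hT0 : 0 < T := by linarith
  have hL : 0 < Real.log T := Real.log_pos (by linarith)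
  have hBL : 0 ≤ B * Real.log T := mul_nonneg hB hL.le
  have hFB : φ (B * Real.log T / Real.log T) = 0 := by
    rw [mul_div_cancel_right₀ _ hL.ne']
    exact h0 B (Or.inr hq)
  have hterm : ∀ n ∈ Finset.Icc 1 ⌊T ^ B⌋₊,
      ((ArithmeticFunction.vonMangoldt n * φ (Real.log n / Real.log T) : ℝ) : ℂ) * (n : ℂ) ^ (-s) =
      -∫ v in Ioc 0 (B * Real.log T), ((ArithmeticFunction.vonMangoldt n : ℝ) : ℂ) *
        (Ici (Real.log n)).indicator F' v := by
    intro n hn
    rw [Finset.mem_Icc] at hn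
    have hn0 : (0 : ℝ) < n := by exact_mod_cast hn.1
    have hn1 : (1 : ℝ) ≤ n := by exact_mod_cast hn.1
    have hnT : (n : ℝ) ≤ T ^ B := (Nat.le_floor_iff (Real.rpow_nonneg hT0.le B)).1 hn.2
    have hlog0 : 0 ≤ Real.log n := Real.log_nonneg hn1
    have hlogB : Real.log n ≤ B * Real.log T := by
      rw [← Real.log_rpow hT0]
      exact Real.log_le_log hn0 hnT
    have hpow : (n : ℂ) ^ (-s) = cexp (-s * (Real.log n : ℂ)) := by
      rw [Complex.cpow_def_of_ne_zero (by exact_mod_cast hn0.ne'), ← Complex.natCast_log, mul_comm]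
    have hFTC : ∫ v in (Real.log n)..(B * Real.log T), F' v =
        -(((φ (Real.log n / Real.log T) : ℝ) : ℂ) * cexp (-s * (Real.log n : ℂ))) := by
      rw [intervalIntegral.integral_eq_sub_of_hasDerivAt (fun v _ => hd v) (hF'.intervalIntegrable _ _)]
      rw [hFB]
      simp
    rw [integral_const_mul, setIntegral_indicator measurableSet_Ici]
    have hset : ∫ v in Ioc 0 (B * Real.log T) ∩ Ici (Real.log n), F' v =
        ∫ v in (Real.log n)..(B * Real.log T), F' v := by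
      rw [intervalIntegral.integral_of_le hlogB]
      have e1 : Ioc 0 (B * Real.log T) ∩ Ioi (Real.log n) = Ioc (Real.log n) (B * Real.log T) := by
        ext v
        simp only [mem_inter_iff, mem_Ioc, mem_Ioi]
        constructor
        · rintro ⟨⟨h1, h2⟩, h3⟩
          exact ⟨h3, h2⟩
        · rintro ⟨h1, h2⟩
          exact ⟨⟨lt_of_le_of_lt hlog0 h1, h2⟩, h1⟩
      rw [← e1]
      exact setIntegral_congr_set ((ae_eq_refl _).inter Ioi_ae_eq_Ici.symm)
    rw [hset, hFTC, hpow]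
    push_cast
    ring
  unfold Dp
  rw [Finset.sum_congr rfl hterm, Finset.sum_neg_distrib]
  congr 1
  have hint : ∀ n ∈ Finset.Icc 1 ⌊T ^ B⌋₊, Integrable (fun v => ((ArithmeticFunction.vonMangoldt n : ℝ) : ℂ) *
        (Ici (Real.log n)).indicator F' v) (volume.restrict (Ioc 0 (B * Real.log T))) := by
    intro n _
    apply Integrable.const_mul
    apply Integrable.indicator _ measurableSet_Ici
    exact (hF'.intervalIntegrable 0 (B * Real.log T)).1
  rw [← integral_finsetSum _ hint, intervalIntegral.integral_of_le hBL]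
  apply setIntegral_congr_fun measurableSet_Ioc
  intro v hv
  simp only
  rw [WRep_psi (by linarith) hv.2]
  push_cast
  rw [Finset.sum_mul]
  apply Finset.sum_congr rfl
  intro n _
  by_cases h : Real.log n ≤ v
  · rw [if_pos h, indicator_of_mem (by exact h)]
  · rw [if_neg h, indicator_of_notMem (by exact h)]
    simp

theorem WRep_psi_int (a b : ℝ) : IntervalIntegrable (fun v : ℝ => Chebyshev.psi (Real.exp v)) volume a b := by
  apply Monotone.intervalIntegrable
  intro x y hxy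
  exact Chebyshev.psi_mono (Real.exp_le_exp.2 hxy)

theorem w_rep {T B p q : ℝ} (hT : 2 ≤ T) (hp : 0 < p) (hq : q ≤ B) {φ : ℝ → ℝ} (hφ : ContDiff ℝ ∞ φ)
    (h0 : ∀ y, y ≤ p ∨ q ≤ y → φ y = 0) (s : ℂ) :
    Dp T B φ s = (∫ v in (0 : ℝ)..(B * Real.log T), ((φ (v / Real.log T) : ℝ) : ℂ) * cexp ((1 - s) * v)) +
      s * Bs T B φ s - (1 / Real.log T : ℂ) * Bs T B (deriv φ) s := by
  have hT0 : 0 < T := by linarith
  have hL : 0 < Real.log T := Real.log_pos (by linarith)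
  by_cases hB : 0 ≤ B
  swap
  · have hz : ∀ y, φ y = 0 := by
      intro y
      rcases le_total y p with h | h
      · exact h0 y (Or.inl h)
      · exact h0 y (Or.inr (by linarith))
    have hz' : ∀ y, deriv φ y = 0 := by
      intro y
      rcases le_total y p with h | h
      · exact WRep_van hφ h0 y (Or.inl h)
      · exact WRep_van hφ h0 y (Or.inr (by linarith))
    simp [Dp, Bs, hz, hz']
  set L := Real.log T with hLdef
  have hφ' : Continuous (deriv φ) := (WRep_smooth hφ).continuous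
  have c1 : Continuous (fun v : ℝ => ((φ (v / L) : ℝ) : ℂ) * cexp (-s * v)) := WRep_cont hφ.continuous _
  have c2 : Continuous (fun v : ℝ => ((deriv φ (v / L) : ℝ) : ℂ) * cexp (-s * v)) := WRep_cont hφ' _
  have c3 : Continuous (fun v : ℝ => ((Real.exp v : ℝ) : ℂ)) := continuous_ofReal.comp Real.continuous_exp
  have hd : ∀ v : ℝ, HasDerivAt (fun v : ℝ => ((φ (v / L) : ℝ) : ℂ) * cexp (-s * v))
      ((1 / L : ℂ) * (((deriv φ (v / L) : ℝ) : ℂ) * cexp (-s * v)) -
        s * (((φ (v / L) : ℝ) : ℂ) * cexp (-s * v))) v := by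
    intro v
    have h := WRep_deriv (L := L) hφ (-s) v
    have e : ((deriv φ (v / L) / L : ℝ) : ℂ) * cexp (-s * v) + ((φ (v / L) : ℝ) : ℂ) * (-s * cexp (-s * v)) =
        (1 / L : ℂ) * (((deriv φ (v / L) : ℝ) : ℂ) * cexp (-s * v)) -
        s * (((φ (v / L) : ℝ) : ℂ) * cexp (-s * v)) := by
      push_cast
      ring
    rw [e] at h
    exact h
  have hc : Continuous (fun v : ℝ => (1 / L : ℂ) * (((deriv φ (v / L) : ℝ) : ℂ) * cexp (-s * v)) -
        s * (((φ (v / L) : ℝ) : ℂ) * cexp (-s * v))) :=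
    (continuous_const.mul c2).sub (continuous_const.mul c1)
  rw [WRep_abel hT hp hq hφ h0 hB s _ hc hd]
  have hEv : IntervalIntegrable Ev volume 0 (B * L) :=
    (WRep_psi_int _ _).sub (Real.continuous_exp.intervalIntegrable _ _)
  have hEvC : IntervalIntegrable (fun v => ((Ev v : ℝ) : ℂ)) volume 0 (B * L) :=
    ⟨hEv.1.ofReal, hEv.2.ofReal⟩
  have i1 : IntervalIntegrable (fun v : ℝ => ((Ev v : ℝ) : ℂ) * (((φ (v / L) : ℝ) : ℂ) * cexp (-s * v)))
      volume 0 (B * L) := hEvC.mul_continuousOn c1.continuousOn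
  have i2 : IntervalIntegrable (fun v : ℝ => ((Ev v : ℝ) : ℂ) * (((deriv φ (v / L) : ℝ) : ℂ) * cexp (-s * v)))
      volume 0 (B * L) := hEvC.mul_continuousOn c2.continuousOn
  have i3 : IntervalIntegrable (fun v : ℝ => ((Real.exp v : ℝ) : ℂ) *
      ((1 / L : ℂ) * (((deriv φ (v / L) : ℝ) : ℂ) * cexp (-s * v)) -
        s * (((φ (v / L) : ℝ) : ℂ) * cexp (-s * v)))) volume 0 (B * L) :=
    (c3.mul hc).intervalIntegrable _ _
  have i4 : IntervalIntegrable (fun v : ℝ => ((φ (v / L) : ℝ) : ℂ) * cexp ((1 - s) * v)) volume 0 (B * L) :=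
    (WRep_cont hφ.continuous _).intervalIntegrable _ _
  have hB1 : Bs T B φ s = ∫ v in (0 : ℝ)..(B * L), ((Ev v : ℝ) : ℂ) * (((φ (v / L) : ℝ) : ℂ) * cexp (-s * v)) := by
    unfold Bs
    apply intervalIntegral.integral_congr
    intro v _
    simp only [← hLdef]
    push_cast
    rw [neg_mul, mul_assoc]
  have hB2 : Bs T B (deriv φ) s =
      ∫ v in (0 : ℝ)..(B * L), ((Ev v : ℝ) : ℂ) * (((deriv φ (v / L) : ℝ) : ℂ) * cexp (-s * v)) := by
    unfold Bs
    apply intervalIntegral.integral_congr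
    intro v _
    simp only [← hLdef]
    push_cast
    rw [neg_mul, mul_assoc]
  -- the main part
  have hmain : ∫ v in (0 : ℝ)..(B * L), ((Real.exp v : ℝ) : ℂ) *
      ((1 / L : ℂ) * (((deriv φ (v / L) : ℝ) : ℂ) * cexp (-s * v)) -
        s * (((φ (v / L) : ℝ) : ℂ) * cexp (-s * v))) =
      -∫ v in (0 : ℝ)..(B * L), ((φ (v / L) : ℝ) : ℂ) * cexp ((1 - s) * v) := by
    have hd2 : ∀ v : ℝ, HasDerivAt (fun v : ℝ => ((φ (v / L) : ℝ) : ℂ) * cexp ((1 - s) * v))
        (((Real.exp v : ℝ) : ℂ) * ((1 / L : ℂ) * (((deriv φ (v / L) : ℝ) : ℂ) * cexp (-s * v)) -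
        s * (((φ (v / L) : ℝ) : ℂ) * cexp (-s * v))) + ((φ (v / L) : ℝ) : ℂ) * cexp ((1 - s) * v)) v := by
      intro v
      have h := WRep_deriv (L := L) hφ (1 - s) v
      have ex : cexp ((1 - s) * v) = ((Real.exp v : ℝ) : ℂ) * cexp (-s * v) := by
        rw [Complex.ofReal_exp, ← Complex.exp_add]
        congr 1
        ring
      have e : ((deriv φ (v / L) / L : ℝ) : ℂ) * cexp ((1 - s) * v) +
          ((φ (v / L) : ℝ) : ℂ) * ((1 - s) * cexp ((1 - s) * v)) =
          ((Real.exp v : ℝ) : ℂ) * ((1 / L : ℂ) * (((deriv φ (v / L) : ℝ) : ℂ) * cexp (-s * v)) -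
        s * (((φ (v / L) : ℝ) : ℂ) * cexp (-s * v))) + ((φ (v / L) : ℝ) : ℂ) * cexp ((1 - s) * v) := by
        rw [ex]
        push_cast
        ring
      rw [e] at h
      exact h
    have hk := intervalIntegral.integral_eq_sub_of_hasDerivAt (a := 0) (b := B * L) (fun v _ => hd2 v)
      (i3.add i4)
    rw [intervalIntegral.integral_add i3 i4] at hk
    have e1 : φ (B * L / L) = 0 := by
      rw [mul_div_cancel_right₀ _ hL.ne']
      exact h0 B (Or.inr hq)
    have e2 : φ (0 / L) = 0 := by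
      rw [zero_div]
      exact h0 0 (Or.inl hp.le)
    simp only [e1, e2, ofReal_zero, zero_mul, sub_zero] at hk
    exact eq_neg_of_add_eq_zero_left hk
  have hsplit : ∫ v in (0 : ℝ)..(B * L), ((Chebyshev.psi (Real.exp v) : ℝ) : ℂ) *
      ((1 / L : ℂ) * (((deriv φ (v / L) : ℝ) : ℂ) * cexp (-s * v)) -
        s * (((φ (v / L) : ℝ) : ℂ) * cexp (-s * v))) =
      (∫ v in (0 : ℝ)..(B * L), ((Real.exp v : ℝ) : ℂ) *
      ((1 / L : ℂ) * (((deriv φ (v / L) : ℝ) : ℂ) * cexp (-s * v)) -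
        s * (((φ (v / L) : ℝ) : ℂ) * cexp (-s * v)))) +
      ((1 / L : ℂ) * (∫ v in (0 : ℝ)..(B * L), ((Ev v : ℝ) : ℂ) * (((deriv φ (v / L) : ℝ) : ℂ) * cexp (-s * v))) -
        s * ∫ v in (0 : ℝ)..(B * L), ((Ev v : ℝ) : ℂ) * (((φ (v / L) : ℝ) : ℂ) * cexp (-s * v))) := by
    rw [← intervalIntegral.integral_const_mul, ← intervalIntegral.integral_const_mul,
      ← intervalIntegral.integral_sub (i2.const_mul _) (i1.const_mul _),
      ← intervalIntegral.integral_add i3 ((i2.const_mul _).sub (i1.const_mul _))]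
    apply intervalIntegral.integral_congr
    intro v _
    simp only [Ev]
    push_cast
    ring
  rw [hsplit, hmain, hB1, hB2]
  ring

theorem main_tiny {B p q : ℝ} (hp : 0 < p) (hq : q ≤ B) {φ : ℝ → ℝ} (hφ : ContDiff ℝ ∞ φ)
    (h0 : ∀ y, y ≤ p ∨ q ≤ y → φ y = 0) : ∃ T₀ : ℝ, 2 ≤ T₀ ∧ ∀ T : ℝ, T₀ ≤ T → ∀ s : ℂ, 0 ≤ s.re → T / 2 ≤ |s.im| →
      ‖∫ v in (0 : ℝ)..(B * Real.log T), ((φ (v / Real.log T) : ℝ) : ℂ) * cexp ((1 - s) * v)‖ ≤ 1 / T := by
  by_cases hB : 0 ≤ B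
  swap
  · refine ⟨2, le_refl _, ?_⟩
    intro T hT s _ _
    have hz : ∀ y, φ y = 0 := by
      intro y
      rcases le_total y p with h | h
      · exact h0 y (Or.inl h)
      · exact h0 y (Or.inr (by linarith))
    simp only [hz, ofReal_zero, zero_mul, intervalIntegral.integral_zero, norm_zero]
    positivity
  set k : ℕ := ⌈B⌉₊ + 2 with hk
  have hkB : B + 2 ≤ k := by
    rw [hk]
    push_cast
    linarith [Nat.le_ceil B]
  have hcont : Continuous (iteratedDeriv k φ) :=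
    hφ.continuous_iteratedDeriv k (by exact_mod_cast le_top)
  obtain ⟨S, hS⟩ := (isCompact_Icc (a := (0 : ℝ)) (b := B)).exists_bound_of_continuousOn hcont.continuousOn
  set S' : ℝ := max S 0 with hS'
  have hS0 : 0 ≤ S' := le_max_right _ _
  refine ⟨max 3 (2 ^ k * S' * B), le_trans (by norm_num) (le_max_left _ _), ?_⟩
  intro T hT s hs1 hs2
  have hT3 : 3 ≤ T := (le_max_left _ _).trans hT
  have hTS : 2 ^ k * S' * B ≤ T := (le_max_right _ _).trans hT
  have hT0 : 0 < T := by linarith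
  have hL1 : 1 ≤ Real.log T := by
    rw [Real.le_log_iff_exp_le hT0]
    linarith [Real.exp_one_lt_d9]
  have hL : 0 < Real.log T := by linarith
  have him : T / 2 ≤ ‖(1 : ℂ) - s‖ := by
    have h := Complex.abs_im_le_norm ((1 : ℂ) - s)
    rw [Complex.sub_im, Complex.one_im, zero_sub, abs_neg] at h
    exact hs2.trans h
  have hc0 : (1 : ℂ) - s ≠ 0 := by
    intro h
    rw [h, norm_zero] at him
    linarith
  rw [WRep_ibpk hL hp hq hc0 k hφ h0, norm_mul, norm_pow, norm_neg, norm_div, norm_one, norm_mul,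
    Complex.norm_real, Real.norm_eq_abs, abs_of_pos hL]
  have hBL : 0 ≤ B * Real.log T := mul_nonneg hB hL.le
  have hint : ‖∫ v in (0 : ℝ)..(B * Real.log T), ((iteratedDeriv k φ (v / Real.log T) : ℝ) : ℂ) *
      cexp ((1 - s) * v)‖ ≤ (S' * T ^ B) * |B * Real.log T - 0| := by
    apply intervalIntegral.norm_integral_le_of_norm_le_const
    intro v hv
    rw [uIoc_of_le hBL] at hv
    rw [norm_mul, Complex.norm_real, Complex.norm_exp]
    have h1 : ‖iteratedDeriv k φ (v / Real.log T)‖ ≤ S' := by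
      refine (hS _ ⟨div_nonneg hv.1.le hL.le, ?_⟩).trans (le_max_left _ _)
      rw [div_le_iff₀ hL]
      exact hv.2
    have h2 : Real.exp ((((1 : ℂ) - s) * (v : ℂ)).re) ≤ T ^ B := by
      rw [Real.rpow_def_of_pos hT0, Real.exp_le_exp]
      have : (((1 : ℂ) - s) * (v : ℂ)).re = (1 - s.re) * v := by
        simp [Complex.mul_re]
      rw [this]
      have h3 : (1 - s.re) * v ≤ v := by nlinarith [hv.1]
      calc (1 - s.re) * v ≤ v := h3
        _ ≤ B * Real.log T := hv.2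
        _ = Real.log T * B := mul_comm _ _
    exact mul_le_mul h1 h2 (Real.exp_pos _).le hS0
  have hpow : (1 / (Real.log T * ‖(1 : ℂ) - s‖)) ^ k ≤ (2 / (Real.log T * T)) ^ k := by
    apply pow_le_pow_left₀ (by positivity)
    rw [div_le_div_iff₀ (by positivity) (by positivity)]
    nlinarith [mul_le_mul_of_nonneg_left him hL.le]
  rw [sub_zero, abs_of_nonneg hBL] at hint
  calc (1 / (Real.log T * ‖(1 : ℂ) - s‖)) ^ k * ‖∫ v in (0 : ℝ)..(B * Real.log T),
        ((iteratedDeriv k φ (v / Real.log T) : ℝ) : ℂ) * cexp ((1 - s) * v)‖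
      ≤ (2 / (Real.log T * T)) ^ k * (S' * T ^ B * (B * Real.log T)) :=
        mul_le_mul hpow hint (norm_nonneg _) (by positivity)
    _ = (2 ^ k * S' * B) * (T ^ B / T ^ k) * (Real.log T / Real.log T ^ k) := by
        rw [div_pow, mul_pow]
        field_simp
    _ ≤ T * (1 / T ^ 2) * 1 := by
        have e1 : T ^ B / T ^ k ≤ 1 / T ^ 2 := by
          rw [div_le_div_iff₀ (by positivity) (by positivity), one_mul, ← Real.rpow_natCast T 2,
            ← Real.rpow_natCast T k, ← Real.rpow_add hT0]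
          apply Real.rpow_le_rpow_of_exponent_le (by linarith)
          push_cast
          exact hkB
        have e2 : Real.log T / Real.log T ^ k ≤ 1 := by
          rw [div_le_one (by positivity)]
          calc Real.log T = Real.log T ^ 1 := (pow_one _).symm
            _ ≤ Real.log T ^ k := pow_le_pow_right₀ hL1 (by omega)
        apply mul_le_mul _ e2 (by positivity) (by positivity)
        exact mul_le_mul hTS e1 (by positivity) hT0.le
    _ = 1 / T := by
        field_simp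

end Pool.Agent.Lib.MP_2a816b_nt.SG
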