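import Pool.Agent.Lib.MP_2a816b_nt.SG.DtSmall
import Pool.Agent.Lib.MP_2a816b_nt.SG.BIter
import Pool.Agent.Lib.MP_2a816b_nt.SG.WRep

/-!
# LEAF WMs (medium, about 150 lines): the mean square of the window sum

`φ = Wf b θ`, `p = b + θ`, `q = b + 1 + 6θ < b + l`; `φ' = deriv φ` has the same properties. `Dp T (b + 2) φ = Dp T (b + l') φ` for any `l'` with `q ≤ b + l'` (terms with `log n / L ≥ q` vanish): use `B = b + l` in `w_rep`.
`|Dp|² ≤ 3 (|main|² + |s|² |Bs φ|² + |Bs φ'|²)`, `|s| ≤ 4T`, `main_tiny`, `b_iter` with `J = ⌈b + l⌉ + 3` (so `T² T^(2(b+l)+2-2J) ≤ T⁻²`) and the `lam` of `dt_small`: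
`ms ≤ (1/T) (3 · 3T/T² + 3 · 17 T² C S² (C' (L²/T) ∫ RR + T^(-4)))  ≤ C L² ∫ RR + 1`. Derivatives of `Wf` are bounded (smooth with compact support: `iteratedDeriv i φ` is continuous with compact support).
Integrability in `t`: all functions are continuous in `t`.
-/

namespace Pool.Agent.Lib.MP_2a816b_nt.SG

open Complex Set Filter Topology MeasureTheory
open scoped ContDiff

/-- terms beyond the support vanish -/
theorem WMs_dp {T B q : ℝ} (hT : 2 ≤ T) (hq : q ≤ B) {φ : ℝ → ℝ} (h0 : ∀ y, q ≤ y → φ y = 0)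
    (s : ℂ) : Dp T B φ s = Dp T q φ s := by
  have hT0 : (0 : ℝ) < T := by linarith
  have hT1 : (1 : ℝ) ≤ T := by linarith
  have hL : 0 < Real.log T := Real.log_pos (by linarith)
  unfold Dp
  refine (Finset.sum_subset (Finset.Icc_subset_Icc_right
    (Nat.floor_le_floor (Real.rpow_le_rpow_of_exponent_le hT1 hq))) fun n hn hn' => ?_).symm
  rw [Finset.mem_Icc] at hn hn'
  have h1 : ⌊T ^ q⌋₊ < n := by
    by_contra h
    exact hn' ⟨hn.1, not_lt.1 h⟩
  have h2 : T ^ q < n := (Nat.floor_lt (Real.rpow_nonneg hT0.le _)).1 h1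
  have h3 : q * Real.log T < Real.log n := by
    rw [← Real.log_rpow hT0]
    exact Real.log_lt_log (Real.rpow_pos_of_pos hT0 _) h2
  have h4 : q ≤ Real.log n / Real.log T := by
    rw [le_div_iff₀ hL]
    exact h3.le
  rw [h0 _ h4, mul_zero, Complex.ofReal_zero, zero_mul]

/-- the support of the derivative -/
theorem WMs_deriv {p q : ℝ} {φ : ℝ → ℝ} (hφ : ContDiff ℝ ∞ φ)
    (h0 : ∀ y, y ≤ p ∨ q ≤ y → φ y = 0) : ∀ y, y ≤ p ∨ q ≤ y → deriv φ y = 0 := by
  have hd : Differentiable ℝ φ := (contDiff_infty_iff_deriv.1 hφ).1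
  intro y hy
  rcases hy with hy | hy
  · have h1 : HasDerivWithinAt φ (deriv φ y) (Iic y) y := (hd y).hasDerivAt.hasDerivWithinAt
    have h2 : HasDerivWithinAt φ 0 (Iic y) y := by
      refine (hasDerivWithinAt_const y (Iic y) (0 : ℝ)).congr_of_eventuallyEq ?_ (h0 y (Or.inl hy))
      filter_upwards [self_mem_nhdsWithin] with z hz
      exact h0 z (Or.inl (le_trans hz hy))
    exact (uniqueDiffWithinAt_Iic y).eq_deriv (Iic y) h1 h2
  · have h1 : HasDerivWithinAt φ (deriv φ y) (Ici y) y := (hd y).hasDerivAt.hasDerivWithinAt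
    have h2 : HasDerivWithinAt φ 0 (Ici y) y := by
      refine (hasDerivWithinAt_const y (Ici y) (0 : ℝ)).congr_of_eventuallyEq ?_ (h0 y (Or.inr hy))
      filter_upwards [self_mem_nhdsWithin] with z hz
      exact h0 z (Or.inr (le_trans hy hz))
    exact (uniqueDiffWithinAt_Ici y).eq_deriv (Ici y) h1 h2

/-- bounds for the derivatives -/
theorem WMs_bound {p q : ℝ} : ∀ (n : ℕ) {φ : ℝ → ℝ}, ContDiff ℝ ∞ φ →
    (∀ y, y ≤ p ∨ q ≤ y → φ y = 0) →
    ∃ S : ℝ, 0 ≤ S ∧ ∀ i : ℕ, i ≤ n → ∀ y, |iteratedDeriv i φ y| ≤ S := by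
  intro n
  induction n with
  | zero =>
    intro φ hφ h0
    obtain ⟨C, hC⟩ := isCompact_Icc.exists_bound_of_continuousOn
      (hφ.continuous.continuousOn (s := Icc p q))
    refine ⟨max C 0, le_max_right _ _, fun i hi y => ?_⟩
    rw [Nat.le_zero.1 hi, iteratedDeriv_zero]
    by_cases hy : y ∈ Icc p q
    · exact (hC y hy).trans (le_max_left _ _)
    · rw [h0 y (by
        by_contra h
        push Not at h
        exact hy ⟨h.1.le, h.2.le⟩), abs_zero]
      exact le_max_right _ _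
  | succ n ih =>
    intro φ hφ h0
    obtain ⟨S, hS0, hS⟩ := ih hφ h0
    obtain ⟨S', hS0', hS'⟩ := ih (contDiff_infty_iff_deriv.1 hφ).2 (WMs_deriv hφ h0)
    refine ⟨max S S', hS0.trans (le_max_left _ _), fun i hi y => ?_⟩
    rcases Nat.eq_zero_or_pos i with h | h
    · exact (hS i (by omega) y).trans (le_max_left _ _)
    · obtain ⟨j, rfl⟩ : ∃ j, i = j + 1 := ⟨i - 1, by omega⟩
      rw [iteratedDeriv_succ']
      exact (hS' j (by omega) y).trans (le_max_right _ _)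

/-- `Ev` is measurable -/
theorem WMs_meas : Measurable Ev := by
  unfold Ev
  exact (Chebyshev.psi_mono.measurable.comp Real.measurable_exp).sub Real.measurable_exp

/-- continuity in the height -/
theorem WMs_cont {T B x : ℝ} {φ : ℝ → ℝ} (hB : 0 ≤ B) (hT : 2 ≤ T) (hφ : Continuous φ) :
    Continuous fun t : ℝ => Bs T B φ (ps x t) := by
  have hL : 0 < Real.log T := Real.log_pos (by linarith)
  have hBL : 0 ≤ B * Real.log T := mul_nonneg hB hL.le
  unfold Bs
  refine intervalIntegral.continuous_of_dominated_interval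
    (bound := fun v => (Chebyshev.psi (Real.exp (B * Real.log T)) +
      Real.exp (B * Real.log T)) * |φ (v / Real.log T)| * Real.exp (-((1 / 2 + x) * v)))
    ?_ ?_ ?_ ?_
  · intro t
    refine AEStronglyMeasurable.mul ?_ ?_
    · exact (Complex.measurable_ofReal.comp (WMs_meas.mul
        (hφ.measurable.comp (measurable_id.div_const _)))).aestronglyMeasurable
    · exact (by fun_prop : Continuous fun v : ℝ => cexp (-(ps x t * v))).aestronglyMeasurable
  · intro t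
    filter_upwards with v hv
    rw [uIoc_of_le hBL] at hv
    rw [norm_mul, Complex.norm_real, Complex.norm_exp, Real.norm_eq_abs, abs_mul]
    have h1 : |Ev v| ≤ Chebyshev.psi (Real.exp (B * Real.log T)) + Real.exp (B * Real.log T) := by
      have h2 : Chebyshev.psi (Real.exp v) ≤ Chebyshev.psi (Real.exp (B * Real.log T)) :=
        Chebyshev.psi_mono (Real.exp_le_exp.2 hv.2)
      have h3 : Real.exp v ≤ Real.exp (B * Real.log T) := Real.exp_le_exp.2 hv.2
      have h4 : 0 ≤ Chebyshev.psi (Real.exp v) := Chebyshev.psi_nonneg _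
      have h5 : 0 < Real.exp v := Real.exp_pos v
      unfold Ev
      rw [abs_le]
      constructor <;> linarith
    have h6 : (-(ps x t * (v : ℂ))).re = -((1 / 2 + x) * v) := by
      unfold ps
      simp
    rw [h6]
    gcongr
  · exact Continuous.intervalIntegrable (by fun_prop) _ _
  · filter_upwards with v hv
    unfold ps
    fun_prop

/-- continuity of the polynomial in the height -/
theorem WMs_contD {T B x : ℝ} {φ : ℝ → ℝ} : Continuous fun t : ℝ => Dp T B φ (ps x t) := by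
  unfold Dp
  refine continuous_finsetSum _ fun n hn => ?_
  rw [Finset.mem_Icc] at hn
  have hn0 : (n : ℂ) ≠ 0 := by
    exact_mod_cast (by omega : n ≠ 0)
  refine continuous_const.mul ?_
  refine Continuous.const_cpow ?_ (Or.inl hn0)
  unfold ps
  fun_prop

/-- the point is not far away -/
theorem WMs_ps {T x t : ℝ} (hT : 1 ≤ T) (hx : |x| ≤ 1 / 2) (ht : t ∈ Icc (T / 2) (3 * T)) :
    ‖ps x t‖ ≤ 4 * T := by
  have h1 : ‖ps x t‖ ≤ |1 / 2 + x| + |t| := by
    unfold ps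
    refine (norm_add_le _ _).trans ?_
    rw [Complex.norm_real, norm_mul, Complex.norm_I, mul_one, Complex.norm_real]
    exact le_rfl
  have h2 : |1 / 2 + x| ≤ 1 := by
    rw [abs_le] at hx ⊢
    constructor <;> linarith [hx.1, hx.2]
  have h3 : |t| ≤ 3 * T := by
    rw [abs_le]
    constructor <;> linarith [ht.1, ht.2]
  linarith

/-- square of a sum of three terms -/
theorem WMs_sq {M a d : ℂ} {u v w : ℝ} (hM : ‖M‖ ≤ u) (ha : ‖a‖ ≤ v) (hd : ‖d‖ ≤ w) :
    ‖M + a - d‖ ^ 2 ≤ 3 * u ^ 2 + 3 * v ^ 2 + 3 * w ^ 2 := by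
  have h1 : ‖M + a - d‖ ≤ u + v + w := by
    refine (norm_sub_le _ _).trans ?_
    exact add_le_add ((norm_add_le _ _).trans (add_le_add hM ha)) hd
  have h2 : ‖M + a - d‖ ^ 2 ≤ (u + v + w) ^ 2 := pow_le_pow_left₀ (norm_nonneg _) h1 2
  nlinarith [sq_nonneg (u - v), sq_nonneg (u - w), sq_nonneg (v - w)]

/-- integral of the majorant -/
theorem WMs_int {f g : ℝ → ℝ} (hf : Continuous f) (hg : Continuous g) (a e k u v : ℝ) :
    ∫ t in a..e, (k + u * f t + v * g t) =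
      (e - a) * k + u * (∫ t in a..e, f t) + v * (∫ t in a..e, g t) := by
  rw [intervalIntegral.integral_add
      (f := fun t => k + u * f t) (g := fun t => v * g t)
      (Continuous.intervalIntegrable (by fun_prop) _ _)
      (Continuous.intervalIntegrable (by fun_prop) _ _),
    intervalIntegral.integral_add (f := fun _ => k) (g := fun t => u * f t)
      (Continuous.intervalIntegrable (by fun_prop) _ _)
      (Continuous.intervalIntegrable (by fun_prop) _ _),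
    intervalIntegral.integral_const_mul, intervalIntegral.integral_const_mul,
    intervalIntegral.integral_const, smul_eq_mul]

/-- the final arithmetic -/
theorem WMs_fin {T A C2 L R X : ℝ} (hT4 : 4 ≤ T) (hA : 102 * A + 4 ≤ T)
    (hX : X = A * (C2 * (L ^ 2 / T) * R + 1 / T ^ 4)) :
    (1 / T) * (15 / 2 / T + 51 * T ^ 2 * X) ≤ 51 * A * C2 * L ^ 2 * R + 1 := by
  have hT0 : 0 < T := by linarith
  have e5 : (1 / T) * (15 / 2 / T + 51 * T ^ 2 * X) =
      51 * A * C2 * L ^ 2 * R + (15 / 2 / T ^ 2 + 51 * A / T ^ 3) := by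
    rw [hX]
    field_simp
    ring
  rw [e5]
  have e6 : 15 / 2 / T ^ 2 ≤ 1 / 2 := by
    rw [div_le_iff₀ (by positivity)]
    nlinarith
  have e7 : 51 * A / T ^ 3 ≤ 1 / 2 := by
    rw [div_le_iff₀ (by positivity)]
    have e9 : 1 ≤ T ^ 2 := by nlinarith
    have e8 : T ≤ T ^ 3 := by
      have : T ^ 3 = T * T ^ 2 := by ring
      rw [this]
      exact le_mul_of_one_le_right hT0.le e9
    linarith
  linarith

theorem w_ms (b l θ c : ℝ) (hb : 1 ≤ b) (hθ : 0 < θ) (hθ8 : θ ≤ 1 / 8) (hl : 1 + 7 * θ ≤ l) (hc : 0 ≤ c) :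
    ∃ C T₀ : ℝ, 0 ≤ C ∧ 2 ≤ T₀ ∧ ∀ T : ℝ, T₀ ≤ T → ∀ x : ℝ, |x| ≤ c / Real.log T →
      ms T (Dp T (b + 2) (Wf b θ)) x ≤ C * Real.log T ^ 2 * (∫ α in b..(b + l), PV.RR α T) + 1 := by
  have hφ : ContDiff ℝ ∞ (Wf b θ) := Wf_smooth b θ
  have h0 : ∀ y, y ≤ b + θ ∨ b + 1 + 6 * θ ≤ y → Wf b θ y = 0 :=
    fun y hy => hy.elim (Wf_zero_left hθ) (Wf_zero_right hθ)
  have hφ' : ContDiff ℝ ∞ (deriv (Wf b θ)) := (contDiff_infty_iff_deriv.1 hφ).2
  have h0' : ∀ y, y ≤ b + θ ∨ b + 1 + 6 * θ ≤ y → deriv (Wf b θ) y = 0 := WMs_deriv hφ h0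
  obtain ⟨J, hJdef⟩ : ∃ J : ℕ, J = ⌈b + l⌉₊ + 3 := ⟨_, rfl⟩
  have hJ : b + l + 3 ≤ (J : ℝ) := by
    rw [hJdef]
    push_cast
    have := Nat.le_ceil (b + l)
    linarith
  obtain ⟨S, hS0, hS⟩ := WMs_bound (J + 1) hφ h0
  have hS' : ∀ i : ℕ, i ≤ J → ∀ y, |iteratedDeriv i (deriv (Wf b θ)) y| ≤ S := by
    intro i hi y
    have := hS (i + 1) (by omega) y
    rwa [iteratedDeriv_succ'] at this
  obtain ⟨C1, T1, hC1, hT1, h1⟩ := b_iter b l c hb hc J (b + θ) (b + 1 + 6 * θ) (by linarith)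
    (by linarith) (by linarith)
  obtain ⟨C2, T2, hC2, hT2, h2⟩ := dt_small b l hb (by linarith)
  obtain ⟨T3, hT3, h3⟩ := main_tiny (B := b + l) (p := b + θ) (q := b + 1 + 6 * θ) (by linarith)
    (by linarith) hφ h0
  refine ⟨51 * C1 * S ^ 2 * C2, max (max T1 T2) (max T3 (max (102 * C1 * S ^ 2 + 4)
    (Real.exp (2 * c + 1)))), by positivity, le_max_of_le_left (le_max_of_le_left hT1),
    fun T hT x hx => ?_⟩
  have hTT1 : T1 ≤ T := (le_max_left _ _).trans ((le_max_left _ _).trans hT)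
  have hTT2 : T2 ≤ T := (le_max_right _ _).trans ((le_max_left _ _).trans hT)
  have hTT3 : T3 ≤ T := (le_max_left _ _).trans ((le_max_right _ _).trans hT)
  have hTT4 : 102 * C1 * S ^ 2 + 4 ≤ T :=
    (le_max_left _ _).trans ((le_max_right _ _).trans ((le_max_right _ _).trans hT))
  have hTT5 : Real.exp (2 * c + 1) ≤ T :=
    (le_max_right _ _).trans ((le_max_right _ _).trans ((le_max_right _ _).trans hT))
  have hCS : 0 ≤ C1 * S ^ 2 := by positivity
  have hT4 : 4 ≤ T := by linarith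
  have hT0 : 0 < T := by linarith
  have hL : 2 * c + 1 ≤ Real.log T := (Real.le_log_iff_exp_le hT0).2 hTT5
  have hL1 : 1 ≤ Real.log T := by linarith
  have hL0 : 0 < Real.log T := by linarith
  have hx2 : |x| ≤ 1 / 2 := by
    refine hx.trans ?_
    rw [div_le_iff₀ hL0]
    linarith
  obtain ⟨lam, hlam, hD⟩ := h2 T hTT2
  have hB1 := h1 T hTT1 lam hlam (Wf b θ) S hφ h0 (fun i hi y => hS i (by omega) y) x hx
  have hB2 := h1 T hTT1 lam hlam (deriv (Wf b θ)) S hφ' h0' hS' x hx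
  obtain ⟨D, hDdef⟩ : ∃ D, D = ∫ u in (b * Real.log T)..((b + l) * Real.log T - 1), Dt lam u ^ 2 :=
    ⟨_, rfl⟩
  obtain ⟨R, hRdef⟩ : ∃ R, R = ∫ α in b..(b + l), PV.RR α T := ⟨_, rfl⟩
  rw [← hDdef] at hB1 hB2 hD
  rw [← hRdef] at hD ⊢
  have hP : T ^ (2 * (b + l) + 2 - 2 * (J : ℝ)) ≤ 1 / T ^ 4 := by
    have h4 : T ^ (2 * (b + l) + 2 - 2 * (J : ℝ)) ≤ T ^ (-(4 : ℝ)) :=
      Real.rpow_le_rpow_of_exponent_le (by linarith) (by linarith)
    refine h4.trans (le_of_eq ?_)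
    rw [Real.rpow_neg hT0.le, one_div]
    norm_cast
  have hE : D + T ^ (2 * (b + l) + 2 - 2 * (J : ℝ)) ≤ C2 * (Real.log T ^ 2 / T) * R + 1 / T ^ 4 := by
    linarith
  have hE1 := hB1.trans (mul_le_mul_of_nonneg_left hE hCS)
  have hE2 := hB2.trans (mul_le_mul_of_nonneg_left hE hCS)
  have hc1 : Continuous fun t : ℝ => ‖Bs T (b + l) (Wf b θ) (ps x t)‖ ^ 2 :=
    (WMs_cont (by linarith) (by linarith) hφ.continuous).norm.pow 2
  have hc2 : Continuous fun t : ℝ => ‖Bs T (b + l) (deriv (Wf b θ)) (ps x t)‖ ^ 2 :=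
    (WMs_cont (by linarith) (by linarith) hφ'.continuous).norm.pow 2
  have hc3 : Continuous fun t : ℝ => ‖Dp T (b + 2) (Wf b θ) (ps x t)‖ ^ 2 :=
    WMs_contD.norm.pow 2
  have hpt : ∀ t ∈ Icc (T / 2) (3 * T), ‖Dp T (b + 2) (Wf b θ) (ps x t)‖ ^ 2 ≤
      3 / T ^ 2 + 48 * T ^ 2 * ‖Bs T (b + l) (Wf b θ) (ps x t)‖ ^ 2 +
        3 * ‖Bs T (b + l) (deriv (Wf b θ)) (ps x t)‖ ^ 2 := by
    intro t ht
    have ht0 : 0 ≤ t := by linarith [ht.1]
    have e1 : Dp T (b + 2) (Wf b θ) (ps x t) = Dp T (b + l) (Wf b θ) (ps x t) := by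
      rw [WMs_dp (by linarith) (by linarith : b + 1 + 6 * θ ≤ b + 2) (fun y hy => h0 y (Or.inr hy)),
        WMs_dp (by linarith) (by linarith : b + 1 + 6 * θ ≤ b + l) (fun y hy => h0 y (Or.inr hy))]
    rw [e1, w_rep (by linarith) (by linarith : 0 < b + θ) (by linarith : b + 1 + 6 * θ ≤ b + l) hφ h0]
    have hre : 0 ≤ (ps x t).re := by
      have : (ps x t).re = 1 / 2 + x := by
        unfold ps
        simp
      rw [this]
      linarith [(abs_le.1 hx2).1]
    have him : T / 2 ≤ |(ps x t).im| := by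
      have : (ps x t).im = t := by
        unfold ps
        simp
      rw [this, abs_of_nonneg ht0]
      exact ht.1
    have g1 := h3 T hTT3 (ps x t) hre him
    have g2 : ‖ps x t * Bs T (b + l) (Wf b θ) (ps x t)‖ ≤
        4 * T * ‖Bs T (b + l) (Wf b θ) (ps x t)‖ := by
      rw [norm_mul]
      exact mul_le_mul_of_nonneg_right (WMs_ps (by linarith) hx2 ht) (norm_nonneg _)
    have g3 : ‖(1 / Real.log T : ℂ) * Bs T (b + l) (deriv (Wf b θ)) (ps x t)‖ ≤
        ‖Bs T (b + l) (deriv (Wf b θ)) (ps x t)‖ := by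
      rw [norm_mul, norm_div, norm_one, Complex.norm_real, Real.norm_eq_abs, abs_of_pos hL0]
      refine mul_le_of_le_one_left (norm_nonneg _) ?_
      rw [div_le_one hL0]
      exact hL1
    refine (WMs_sq g1 g2 g3).trans (le_of_eq ?_)
    ring
  have hint : ∫ t in (T / 2)..(3 * T), ‖Dp T (b + 2) (Wf b θ) (ps x t)‖ ^ 2 ≤
      5 / 2 * T * (3 / T ^ 2) + 48 * T ^ 2 * (∫ t in (T / 2)..(3 * T),
        ‖Bs T (b + l) (Wf b θ) (ps x t)‖ ^ 2) + 3 * (∫ t in (T / 2)..(3 * T),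
          ‖Bs T (b + l) (deriv (Wf b θ)) (ps x t)‖ ^ 2) := by
    have hm : Continuous fun t : ℝ => 3 / T ^ 2 + 48 * T ^ 2 *
        ‖Bs T (b + l) (Wf b θ) (ps x t)‖ ^ 2 +
          3 * ‖Bs T (b + l) (deriv (Wf b θ)) (ps x t)‖ ^ 2 :=
      (continuous_const.add (continuous_const.mul hc1)).add (continuous_const.mul hc2)
    refine (intervalIntegral.integral_mono_on (by linarith) (hc3.intervalIntegrable _ _)
      (hm.intervalIntegrable _ _) hpt).trans (le_of_eq ?_)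
    rw [WMs_int hc1 hc2]
    ring
  have hms : ms T (Dp T (b + 2) (Wf b θ)) x =
      (1 / T) * ∫ t in (T / 2)..(3 * T), ‖Dp T (b + 2) (Wf b θ) (ps x t)‖ ^ 2 := rfl
  rw [hms]
  obtain ⟨X, hXdef⟩ : ∃ X, X = C1 * S ^ 2 * (C2 * (Real.log T ^ 2 / T) * R + 1 / T ^ 4) := ⟨_, rfl⟩
  rw [← hXdef] at hE1 hE2
  have hX0 : 0 ≤ X := by
    refine le_trans ?_ hE1
    exact intervalIntegral.integral_nonneg (by linarith) fun t _ => by positivity
  have hint2 : ∫ t in (T / 2)..(3 * T), ‖Dp T (b + 2) (Wf b θ) (ps x t)‖ ^ 2 ≤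
      15 / 2 / T + 51 * T ^ 2 * X := by
    have e2 : 5 / 2 * T * (3 / T ^ 2) = 15 / 2 / T := by
      field_simp
      norm_num
    have e3 : 48 * T ^ 2 * (∫ t in (T / 2)..(3 * T), ‖Bs T (b + l) (Wf b θ) (ps x t)‖ ^ 2) ≤
        48 * T ^ 2 * X := mul_le_mul_of_nonneg_left hE1 (by positivity)
    have e4 : X ≤ T ^ 2 * X := le_mul_of_one_le_left hX0 (by nlinarith)
    rw [e2] at hint
    linarith
  have hfin := WMs_fin hT4 (by linarith : 102 * (C1 * S ^ 2) + 4 ≤ T) hXdef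
  have e10 : 51 * (C1 * S ^ 2) = 51 * C1 * S ^ 2 := by ring
  rw [e10] at hfin
  exact (mul_le_mul_of_nonneg_left hint2 (by positivity)).trans hfin

end Pool.Agent.Lib.MP_2a816b_nt.SG
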