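import Pool.Agent.Lib.MP_ec260d_ntB.BNu
import Pool.Agent.Lib.MP_ec260d_ntB.BSup
import Pool.Agent.Lib.MP_ec260d_ntB.GN
import Pool.Agent.Lib.MP_2a816b_nt.SG.Defs

/-!
# LEAF ZeroNear (medium, about 200 lines): most heights have a zero within `r / log T`

`h = hT T = 2π/L`. `zm_good ε₀` (`ε₀ = 1/1000`; gives `δ₁`, then `W₀ = W`), `nu_bound (1/100)` (gives `b₀`; take `β = b₀`), `r = W + 2π β + 7`.
(1) `ν t = NN (t + βh) - NN t ≥ 0`. `∫_T^{9T/4} ν ≥ (5/4 - 1/100) β T` for large `T`: Fubini/monotonicity `∫_T^{9T/4} ν = ∫_{9T/4}^{9T/4+βh} NN - ∫_T^{T+βh} NN ≥ βh (NN(9T/4) - NN(T + βh))` and `NN t = LL t + O(log t)` (`nn_asym` in BNu.lean), `LL(9T/4) - LL(T) ≥ (5/4) T (log T - log 2π - 1..)/(2π)`. With `∫ max(ν - β, 0) ≤ (1/100) β T`: `ν ≤ β 1_{ν ≥ 1} + max(ν - β, 0)` (`ν` is a nonnegative integer), so `|{t ∈ [T, 9T/4] : ν t ≥ 1}| ≥ (5/4 - 2/100) T`.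
(2) `Bad` = `{ν < 1}` (measure `≤ T/50`) union the sets `Bad₀ - j h`, `0 ≤ j ≤ ⌈β⌉` (`Bad₀` from `zm_good` with `ε₀ ≤ 1/(100 (β+2))`: choose `ε₀` AFTER `β`; note `nu_bound` does not depend on `δ`), total `≤ T/10`.
(3) For good `t`: some zero of `ζ` has ordinate `γ ∈ (t, t + βh]` (`NN` jumps: `nn_sum`/`zset` in GN.lean: a zero `ρ` of `xi` with `t < Im ρ ≤ t + βh`; `xi ρ = 0` gives `ζ ρ = 0`, `0 < Re ρ < 1`, and `1 - conj ρ` is also a zero: functional equation, library `MP_00e05b_nt`: `xi_one_sub`, `xi_conj` or similar). At `t' = t + jh` with `|γ - t'| ≤ h` good: `ζ(s)M(s) = 0` at `s = ρ` is impossible if `Re s ≥ 1/2 + W/L` (`|ζM - 1| ≤ 1/4`); so `Re ρ < 1/2 + W/L`, the same for `1 - conj ρ`: `|Re ρ - 1/2| < W/L`. So `|ρ - ps 0 t| ≤ (W + 2πβ)/L < r/L`.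
(4) `ps (r/L) t` has real part `≥ 1/2 + W/L`, `≤ 2`: `|ζM - 1| ≤ 1/4`.
-/

namespace Pool.Agent.Lib.MP_2a816b_nt.SG

open Complex Set Filter Topology MeasureTheory
open scoped ContDiff
open Pool.Agent.Lib.MP_ec260d_ntB (MM)

open Pool.Agent.Lib.MP_00e05b_nt (xi mx xi_one_sub xi_zero_re)
open Pool.Agent.Lib.MP_ec260d_nt (xi_conj xi_zero_iff mx_ne_zero_iff)
open Pool.Agent.Lib.MP_ec260d_ntB (NN hT hT_pos hT_mul hT_small nu_bound zm_good nn_sum zset)

private theorem ZeroNear_mono : Monotone NN := fun a b h => by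
  unfold NN
  exact_mod_cast Pool.Agent.Lib.MP_ec260d_nt.zeroCount_mono h

private theorem ZeroNear_int {T S u : ℝ} (hu : 0 ≤ u) :
    u * (NN S - NN (T + u)) ≤ ∫ t in T..S, (NN (t + u) - NN t) := by
  have hI : ∀ a b : ℝ, IntervalIntegrable NN volume a b :=
    fun a b => ZeroNear_mono.intervalIntegrable
  have hm2 : Monotone (fun t : ℝ => NN (t + u)) := fun a b h => ZeroNear_mono (by linarith)
  have hI2 : IntervalIntegrable (fun t : ℝ => NN (t + u)) volume T S := hm2.intervalIntegrable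
  rw [intervalIntegral.integral_sub hI2 (hI T S), intervalIntegral.integral_comp_add_right NN u]
  have e1 := intervalIntegral.integral_add_adjacent_intervals (hI T (T + u)) (hI (T + u) (S + u))
  have e2 := intervalIntegral.integral_add_adjacent_intervals (hI T S) (hI S (S + u))
  have e3 : u * NN S ≤ ∫ t in S..(S + u), NN t := by
    calc u * NN S = ∫ _t in S..(S + u), NN S := by
          rw [intervalIntegral.integral_const, smul_eq_mul]; ring
      _ ≤ ∫ t in S..(S + u), NN t :=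
          intervalIntegral.integral_mono_on (by linarith) intervalIntegrable_const (hI _ _)
            (fun t ht => ZeroNear_mono ht.1)
  have e4 : ∫ t in T..(T + u), NN t ≤ u * NN (T + u) := by
    calc ∫ t in T..(T + u), NN t ≤ ∫ _t in T..(T + u), NN (T + u) :=
          intervalIntegral.integral_mono_on (by linarith) (hI _ _) intervalIntegrable_const
            (fun t ht => ZeroNear_mono ht.2)
      _ = u * NN (T + u) := by
          rw [intervalIntegral.integral_const, smul_eq_mul]; ring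
  have e5 : u * (NN S - NN (T + u)) = u * NN S - u * NN (T + u) := by ring
  rw [e5]
  linarith

private theorem ZeroNear_low : ∃ C : ℝ, 0 ≤ C ∧ ∀ T b : ℝ, 2 ≤ T → T ≤ b → b ≤ 4 * T →
    (b - T) / (2 * Real.pi) * Real.log T - C * T ≤ NN b - NN T := by
  obtain ⟨c, C, hC, hr⟩ := Pool.Agent.Lib.MP_ec260d_nt.rvm
  have hπ := Real.pi_gt_three
  refine ⟨|c| + 5 * C, by positivity, fun T b hT hTb hb => ?_⟩
  have hT0 : 0 < T := by linarith
  have hb0 : 0 < b := by linarith
  have h1 := (abs_le.1 (hr b (by linarith))).1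
  have h2 := (abs_le.1 (hr T (by linarith))).2
  have hN : ∀ t : ℝ, NN t = Pool.Agent.Lib.MP_ec260d_nt.NZ t := fun t => by
    unfold NN
    exact Pool.Agent.Lib.MP_ec260d_nt.zeroCount_eq t
  rw [hN, hN]
  have hsq : ∀ x : ℝ, 1 ≤ x → x ^ ((1 : ℝ) / 2) ≤ x := by
    intro x hx
    have := Real.rpow_le_rpow_of_exponent_le hx (by norm_num : (1 : ℝ) / 2 ≤ 1)
    rwa [Real.rpow_one] at this
  have h3 : C * b ^ ((1 : ℝ) / 2) ≤ C * (4 * T) :=
    mul_le_mul_of_nonneg_left ((hsq b (by linarith)).trans hb) hC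
  have h4 : C * T ^ ((1 : ℝ) / 2) ≤ C * T := mul_le_mul_of_nonneg_left (hsq T (by linarith)) hC
  have h5 : b / (2 * Real.pi) * Real.log T ≤ b / (2 * Real.pi) * Real.log b :=
    mul_le_mul_of_nonneg_left (Real.log_le_log hT0 hTb) (by positivity)
  have h6 : (b - T) / (2 * Real.pi) * c ≤ |c| * T := by
    have h7 : (b - T) / (2 * Real.pi) ≤ T := by
      rw [div_le_iff₀ (by positivity)]
      nlinarith
    have h8 : 0 ≤ (b - T) / (2 * Real.pi) := div_nonneg (by linarith) (by positivity)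
    calc (b - T) / (2 * Real.pi) * c ≤ (b - T) / (2 * Real.pi) * |c| :=
          mul_le_mul_of_nonneg_left (le_abs_self c) h8
      _ ≤ T * |c| := mul_le_mul_of_nonneg_right h7 (abs_nonneg c)
      _ = |c| * T := mul_comm _ _
  have e1 : (b - T) / (2 * Real.pi) * Real.log T =
      b / (2 * Real.pi) * Real.log T - T / (2 * Real.pi) * Real.log T := by ring
  have e2 : (b - T) / (2 * Real.pi) * c = b / (2 * Real.pi) * c - T / (2 * Real.pi) * c := by ring
  have e3 : b / (2 * Real.pi) * (Real.log b - c) =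
      b / (2 * Real.pi) * Real.log b - b / (2 * Real.pi) * c := by ring
  have e4 : T / (2 * Real.pi) * (Real.log T - c) =
      T / (2 * Real.pi) * Real.log T - T / (2 * Real.pi) * c := by ring
  rw [e3] at h1
  rw [e4] at h2
  rw [e1]
  rw [e2] at h6
  have e5 : (|c| + 5 * C) * T = |c| * T + 5 * (C * T) := by ring
  rw [e5]
  linarith

/-- few heights have no zero above them -/
private theorem ZeroNear_few (β : ℝ) (hβ : 1 ≤ β) (T₁ : ℝ)
    (hν : ∀ T : ℝ, T₁ ≤ T →
      ∫ t in T..(9 / 4 * T), max (NN (t + β * hT T) - NN t - β) 0 ≤ 1 / 100 * β * T) :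
    ∃ T₀ : ℝ, 2 ≤ T₀ ∧ ∀ T : ℝ, T₀ ≤ T → ∃ E : Set ℝ, MeasurableSet E ∧
      volume E ≤ ENNReal.ofReal (T / 40) ∧
      ∀ t ∈ Icc T (9 / 4 * T), t ∉ E → 1 ≤ NN (t + β * hT T) - NN t := by
  obtain ⟨C, hC, hlow⟩ := ZeroNear_low
  have hpi := Real.pi_pos
  have hβ0 : 0 < β := by linarith
  obtain ⟨T₂, hT₂, hs⟩ := hT_small (min (1 / β) (1 / (400 * (C + 1)))) (by positivity)
  refine ⟨max T₁ (max T₂ (1000 * β)), hT₂.trans ((le_max_left _ _).trans (le_max_right _ _)),
    fun T hTT => ?_⟩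
  have g1 : T₁ ≤ T := (le_max_left _ _).trans hTT
  have g2 : T₂ ≤ T := ((le_max_left _ _).trans (le_max_right _ _)).trans hTT
  have g3 : 1000 * β ≤ T := ((le_max_right _ _).trans (le_max_right _ _)).trans hTT
  have hT2 : 2 ≤ T := hT₂.trans g2
  have hT0 : 0 < T := by linarith
  have hl0 : 0 < Real.log T := Real.log_pos (by linarith)
  have hh0 := hT_pos hT2
  have hhm := hT_mul hT2
  have hh := hs T g2
  set u : ℝ := β * hT T with hu
  have hu0 : 0 ≤ u := by positivity
  have hu1 : u ≤ 1 := by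
    have h1 : hT T ≤ 1 / β := hh.trans (min_le_left _ _)
    calc u ≤ β * (1 / β) := mul_le_mul_of_nonneg_left h1 hβ0.le
      _ = 1 := by field_simp
  have hCh : 2 * C * hT T ≤ 1 / 200 := by
    have h1 : hT T ≤ 1 / (400 * (C + 1)) := hh.trans (min_le_right _ _)
    have h2 : 2 * C * hT T ≤ 2 * C * (1 / (400 * (C + 1))) :=
      mul_le_mul_of_nonneg_left h1 (by positivity)
    refine h2.trans ?_
    rw [mul_one_div, div_le_div_iff₀ (by positivity) (by norm_num)]
    nlinarith
  have hν' := hν T g1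
  -- lower bound for the mean value
  have m1 := ZeroNear_int (T := T) (S := 9 / 4 * T) hu0
  have m2 := hlow (T + u) (9 / 4 * T) (by linarith) (by linarith) (by linarith)
  have m3 : (5 / 4 * T - u) / (2 * Real.pi) * Real.log T - 2 * C * T ≤ NN (9 / 4 * T) - NN (T + u) := by
    have a1 : (5 / 4 * T - u) / (2 * Real.pi) * Real.log T ≤
        (9 / 4 * T - (T + u)) / (2 * Real.pi) * Real.log (T + u) := by
      have a2 : (9 / 4 * T - (T + u)) = 5 / 4 * T - u := by ring
      rw [a2]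
      exact mul_le_mul_of_nonneg_left (Real.log_le_log hT0 (by linarith))
        (div_nonneg (by linarith) (by positivity))
    have a3 : C * (T + u) ≤ 2 * C * T := by nlinarith
    linarith
  have m4 : β * (5 / 4 * T - u) - β * (1 / 200) * T ≤ u * (NN (9 / 4 * T) - NN (T + u)) := by
    have a1 := mul_le_mul_of_nonneg_left m3 hu0
    have a2 : u * ((5 / 4 * T - u) / (2 * Real.pi) * Real.log T - 2 * C * T) =
        β * (hT T * Real.log T) * ((5 / 4 * T - u) / (2 * Real.pi)) - β * (2 * C * hT T) * T := by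
      rw [hu]
      ring
    rw [a2, hhm] at a1
    have a3 : β * (2 * Real.pi) * ((5 / 4 * T - u) / (2 * Real.pi)) = β * (5 / 4 * T - u) := by
      field_simp
    rw [a3] at a1
    have a4 : β * (2 * C * hT T) * T ≤ β * (1 / 200) * T :=
      mul_le_mul_of_nonneg_right (mul_le_mul_of_nonneg_left hCh hβ0.le) hT0.le
    linarith
  have m5 : β * T * (5 / 4 - 1 / 100) ≤ ∫ t in T..(9 / 4 * T), (NN (t + u) - NN t) := by
    refine le_trans ?_ (m4.trans m1)
    have a5 : β * u ≤ β * (1 / 1000 * T) := mul_le_mul_of_nonneg_left (by linarith) hβ0.le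
    have a6 : 0 < β * T := by positivity
    nlinarith
  -- the exceptional set
  have hTS : T ≤ 9 / 4 * T := by linarith
  have hI : ∀ a b : ℝ, IntervalIntegrable NN volume a b :=
    fun a b => ZeroNear_mono.intervalIntegrable
  have hm2 : Monotone (fun t : ℝ => NN (t + u)) := fun a b h => ZeroNear_mono (by linarith)
  have hI3 : IntervalIntegrable (fun t : ℝ => NN (t + u) - NN t) volume T (9 / 4 * T) :=
    hm2.intervalIntegrable.sub (hI _ _)
  have hfi : IntervalIntegrable (fun t : ℝ => NN (t + u) - NN t - β) volume T (9 / 4 * T) :=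
    hI3.sub intervalIntegrable_const
  have hfp : IntervalIntegrable (fun t : ℝ => max (NN (t + u) - NN t - β) 0) volume T
      (9 / 4 * T) := by
    rw [intervalIntegrable_iff_integrableOn_Ioc_of_le hTS] at hfi ⊢
    exact Integrable.pos_part hfi
  set E : Set ℝ := Ioc T (9 / 4 * T) ∩ {t : ℝ | NN (t + u) - NN t < 1} with hE
  have hEm : MeasurableSet E := by
    refine measurableSet_Ioc.inter ?_
    exact measurableSet_lt (hm2.measurable.sub ZeroNear_mono.measurable) measurable_const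
  have hzero : ∀ t : ℝ, NN (t + u) - NN t < 1 → NN (t + u) - NN t = 0 := by
    intro t ht
    have h1 := ZeroNear_mono (show t ≤ t + u by linarith)
    unfold NN at ht h1 ⊢
    have h2 : Pool.Agent.Lib.MP_ec260d_nt.zeroCount (t + u) <
        Pool.Agent.Lib.MP_ec260d_nt.zeroCount t + 1 := by
      have h3 : ((Pool.Agent.Lib.MP_ec260d_nt.zeroCount (t + u) : ℕ) : ℝ) <
          ((Pool.Agent.Lib.MP_ec260d_nt.zeroCount t + 1 : ℕ) : ℝ) := by
        push_cast
        linarith
      exact_mod_cast h3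
    have h4 : Pool.Agent.Lib.MP_ec260d_nt.zeroCount t ≤
        Pool.Agent.Lib.MP_ec260d_nt.zeroCount (t + u) := by exact_mod_cast h1
    have h5 : Pool.Agent.Lib.MP_ec260d_nt.zeroCount (t + u) =
        Pool.Agent.Lib.MP_ec260d_nt.zeroCount t := by omega
    rw [h5, sub_self]
  have hfinE : volume E ≠ ⊤ := by
    refine ne_top_of_le_ne_top ?_ (measure_mono inter_subset_left)
    rw [Real.volume_Ioc]
    exact ENNReal.ofReal_ne_top
  have hkey : β * (volume E).toReal ≤ β * (T / 40) := by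
    have b1 : ∫ t in T..(9 / 4 * T), E.indicator (fun _ => β) t = β * (volume E).toReal := by
      rw [intervalIntegral.integral_of_le hTS, integral_indicator hEm, integral_const,
        Measure.restrict_restrict hEm, inter_eq_self_of_subset_left (inter_subset_left : E ⊆ _),
        smul_eq_mul, mul_comm]
      show β * ((volume.restrict E) univ).toReal = β * (volume E).toReal
      rw [Measure.restrict_apply_univ]
    have hind : IntervalIntegrable (E.indicator (fun _ : ℝ => β)) volume T (9 / 4 * T) := by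
      rw [intervalIntegrable_iff_integrableOn_Ioc_of_le hTS]
      exact (integrable_const β).indicator hEm
    have b2 : ∫ t in T..(9 / 4 * T), E.indicator (fun _ => β) t ≤
        ∫ t in T..(9 / 4 * T), (max (NN (t + u) - NN t - β) 0 - (NN (t + u) - NN t - β)) := by
      refine intervalIntegral.integral_mono_on hTS hind (hfp.sub hfi) fun t ht => ?_
      by_cases h : t ∈ E
      · rw [Set.indicator_of_mem h, hzero t h.2]
        have : 0 ≤ max (0 - β) 0 := le_max_right _ _
        linarith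
      · rw [Set.indicator_of_notMem h]
        have := le_max_left (NN (t + u) - NN t - β) 0
        linarith
    rw [intervalIntegral.integral_sub hfp hfi,
      intervalIntegral.integral_sub hI3 intervalIntegrable_const, intervalIntegral.integral_const,
      smul_eq_mul, b1] at b2
    have b3 : 0 < β * T := by positivity
    nlinarith
  refine ⟨E ∪ {T}, hEm.union (measurableSet_singleton T), ?_, fun t ht hnot => ?_⟩
  · have b4 : (volume E).toReal ≤ T / 40 := le_of_mul_le_mul_left hkey hβ0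
    calc volume (E ∪ {T}) ≤ volume E + volume ({T} : Set ℝ) := measure_union_le _ _
      _ = volume E := by rw [Real.volume_singleton, add_zero]
      _ = ENNReal.ofReal (volume E).toReal := (ENNReal.ofReal_toReal hfinE).symm
      _ ≤ ENNReal.ofReal (T / 40) := ENNReal.ofReal_le_ofReal b4
  · by_contra hcon
    have h1 : t ≠ T := fun h => hnot (Or.inr h)
    exact hnot (Or.inl ⟨⟨lt_of_le_of_ne ht.1 h1.symm, ht.2⟩, not_le.1 hcon⟩)

/-- there is a zero in the interval -/
private theorem ZeroNear_ex {t u : ℝ} (ht : 0 < t) (hu : 0 ≤ u) (h : 1 ≤ NN (t + u) - NN t) :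
    ∃ ρ : ℂ, xi ρ = 0 ∧ t < ρ.im ∧ ρ.im ≤ t + u := by
  obtain ⟨Z, hZ⟩ := zset t (t + u)
  have h1 := nn_sum ht (show t ≤ t + u by linarith) Z
    (fun ρ hρ h3 h4 => (hZ ρ).2 ⟨hρ, h3.le, h4⟩)
  rw [h1] at h
  obtain ⟨ρ, hρ, hne⟩ := Finset.exists_ne_zero_of_sum_ne_zero (s := Z)
    (f := fun ρ => (mx ρ : ℝ) * (if t < ρ.im ∧ ρ.im ≤ t + u then 1 else 0)) (by linarith)
  have h2 := (hZ ρ).1 hρ
  by_cases h3 : t < ρ.im ∧ ρ.im ≤ t + u
  · exact ⟨ρ, h2.1, h3.1, h3.2⟩
  · simp only [if_neg h3, mul_zero] at hne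
    exact absurd rfl hne

theorem zero_near : ∃ δ₁ : ℝ, 0 < δ₁ ∧ ∀ δ : ℝ, 0 < δ → δ ≤ δ₁ → ∃ r T₀ : ℝ, 1 ≤ r ∧ 2 ≤ T₀ ∧ ∀ T : ℝ, T₀ ≤ T →
    ∃ Bad : Set ℝ, MeasurableSet Bad ∧ volume Bad ≤ ENNReal.ofReal (T / 10) ∧ ∀ t ∈ Icc T (9 / 4 * T), t ∉ Bad →
      (∃ ρ : ℂ, riemannZeta ρ = 0 ∧ ‖ρ - ps 0 t‖ < r / Real.log T) ∧
        3 / 4 ≤ ‖riemannZeta (ps (r / Real.log T) t) * MM δ T (ps (r / Real.log T) t)‖ := by
  classical
  have hpi := Real.pi_pos
  obtain ⟨β, hβ1, hβ⟩ := nu_bound (1 / 100) (by norm_num)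
  obtain ⟨T₁, hT₁, hν⟩ := hβ β le_rfl
  obtain ⟨T₂, hT₂, hfew⟩ := ZeroNear_few β hβ1 T₁ hν
  have hβ0 : 0 < β := by linarith
  obtain ⟨δ₁, hδ₁, H⟩ := zm_good (1 / (100 * (β + 2))) (by positivity)
  refine ⟨δ₁, hδ₁, fun δ hδ hδ' => ?_⟩
  obtain ⟨W, hW, H⟩ := H δ hδ hδ'
  obtain ⟨T₃, hT₃, H⟩ := H W le_rfl
  obtain ⟨T₄, hT₄, H4⟩ := hT_small (min (1 / β) (2 * Real.pi / (W + 2 * Real.pi * β))) (by positivity)
  refine ⟨W + 2 * Real.pi * β, max T₂ (max T₃ (max T₄ 8)), ?_, hT₂.trans (le_max_left _ _),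
    fun T hTT => ?_⟩
  · have : 0 < 2 * Real.pi * β := by positivity
    linarith
  have g2 : T₂ ≤ T := (le_max_left _ _).trans hTT
  have g3 : T₃ ≤ T := ((le_max_left _ _).trans (le_max_right _ _)).trans hTT
  have g4 : T₄ ≤ T := ((le_max_left _ _).trans ((le_max_right _ _).trans (le_max_right _ _))).trans hTT
  have g5 : 8 ≤ T := ((le_max_right _ _).trans ((le_max_right _ _).trans (le_max_right _ _))).trans hTT
  have hT2 : 2 ≤ T := by linarith
  have hT0 : 0 < T := by linarith
  have hl0 : 0 < Real.log T := Real.log_pos (by linarith)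
  have hh0 := hT_pos hT2
  have hhm := hT_mul hT2
  have hh := H4 T g4
  obtain ⟨E, hEm, hEv, hE⟩ := hfew T g2
  obtain ⟨B₀, hB₀m, hB₀v, hB₀⟩ := H T g3
  set l := Real.log T with hl
  set h := hT T with hhd
  have hβh : β * h ≤ 1 := by
    have h1 : h ≤ 1 / β := hh.trans (min_le_left _ _)
    calc β * h ≤ β * (1 / β) := mul_le_mul_of_nonneg_left h1 hβ0.le
      _ = 1 := by field_simp
  have hβl : β * h = 2 * Real.pi * β / l := by
    rw [eq_div_iff hl0.ne', mul_assoc, hhm]
    ring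
  have hrl : (W + 2 * Real.pi * β) / l ≤ 1 := by
    have h1 : h ≤ 2 * Real.pi / (W + 2 * Real.pi * β) := hh.trans (min_le_right _ _)
    have h2 : 0 < W + 2 * Real.pi * β := by positivity
    rw [le_div_iff₀ h2] at h1
    rw [div_le_one hl0]
    have h3 : h * (W + 2 * Real.pi * β) ≤ h * l := by rw [hhm]; exact h1
    exact le_of_mul_le_mul_left h3 hh0
  have hWl : W / l ≤ (W + 2 * Real.pi * β) / l := by
    apply div_le_div_of_nonneg_right _ hl0.le
    have : 0 < 2 * Real.pi * β := by positivity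
    linarith
  set N : ℕ := ⌈β⌉₊ with hN
  have hN1 : (N : ℝ) < β + 1 := Nat.ceil_lt_add_one hβ0.le
  refine ⟨E ∪ ⋃ j ∈ Finset.range (N + 1), (fun t : ℝ => t + j * h) ⁻¹' B₀, ?_, ?_, ?_⟩
  · refine hEm.union (Finset.measurableSet_biUnion _ fun j _ => ?_)
    exact (measurable_id.add_const _) hB₀m
  · have v1 : volume (⋃ j ∈ Finset.range (N + 1), (fun t : ℝ => t + j * h) ⁻¹' B₀) ≤
        ENNReal.ofReal (T / 100) := by
      refine (measure_biUnion_finset_le _ _).trans ?_
      have v2 : ∀ j ∈ Finset.range (N + 1), volume ((fun t : ℝ => t + j * h) ⁻¹' B₀) ≤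
          ENNReal.ofReal (1 / (100 * (β + 2)) * T) := by
        intro j _
        rw [measure_preimage_add_right]
        exact hB₀v
      refine (Finset.sum_le_sum v2).trans ?_
      rw [Finset.sum_const, Finset.card_range, ← ENNReal.ofReal_nsmul]
      apply ENNReal.ofReal_le_ofReal
      rw [nsmul_eq_mul]
      push_cast
      have v3 : ((N : ℝ) + 1) * (1 / (100 * (β + 2)) * T) ≤
          (β + 2) * (1 / (100 * (β + 2)) * T) :=
        mul_le_mul_of_nonneg_right (by linarith) (by positivity)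
      refine v3.trans (le_of_eq ?_)
      field_simp
    calc volume (E ∪ ⋃ j ∈ Finset.range (N + 1), (fun t : ℝ => t + j * h) ⁻¹' B₀) ≤
          volume E + volume (⋃ j ∈ Finset.range (N + 1), (fun t : ℝ => t + j * h) ⁻¹' B₀) :=
          measure_union_le _ _
      _ ≤ ENNReal.ofReal (T / 40) + ENNReal.ofReal (T / 100) := add_le_add hEv v1
      _ = ENNReal.ofReal (T / 40 + T / 100) :=
          (ENNReal.ofReal_add (by linarith) (by linarith)).symm
      _ ≤ ENNReal.ofReal (T / 10) := ENNReal.ofReal_le_ofReal (by linarith)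
  · intro t ht hnot
    have nE : t ∉ E := fun h' => hnot (Or.inl h')
    have nB : ∀ j : ℕ, j ≤ N → t + j * h ∉ B₀ := by
      intro j hj h'
      refine hnot (Or.inr ?_)
      rw [Set.mem_iUnion₂]
      exact ⟨j, Finset.mem_range.2 (by omega), h'⟩
    have ht0 : 0 < t := hT0.trans_le ht.1
    constructor
    · obtain ⟨ρ, hρ, hρ1, hρ2⟩ := ZeroNear_ex ht0 (by positivity) (hE t ht nE)
      have him : 0 < ρ.im := ht0.trans hρ1
      obtain ⟨hre0, hre1⟩ := xi_zero_re hρ
      set j : ℕ := ⌊(ρ.im - t) / h⌋₊ with hj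
      have hj0 : 0 ≤ (ρ.im - t) / h := div_nonneg (by linarith) hh0.le
      have hj1 : (j : ℝ) ≤ (ρ.im - t) / h := Nat.floor_le hj0
      have hj2 : (ρ.im - t) / h < j + 1 := Nat.lt_floor_add_one _
      rw [le_div_iff₀ hh0] at hj1
      rw [div_lt_iff₀ hh0] at hj2
      have hjβ : (j : ℝ) ≤ β := by
        have : (j : ℝ) * h ≤ β * h := by linarith
        exact le_of_mul_le_mul_right this hh0
      have hjN : j ≤ N := by
        have h1 : (j : ℝ) ≤ (N : ℝ) := hjβ.trans (Nat.le_ceil β)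
        exact_mod_cast h1
      have hjh : 0 ≤ (j : ℝ) * h := by positivity
      have hgood := (hB₀ (t + j * h) ⟨by linarith [ht.1], by linarith [ht.2]⟩ (nB j hjN)).1
      have habs : ∀ y : ℝ, y = ρ.im → |y - (t + j * h)| ≤ h := by
        intro y hy
        rw [hy, abs_le]
        constructor
        · linarith
        · linarith
      have hno : ∀ s : ℂ, riemannZeta s = 0 → s.im = ρ.im → s.re < 1 → s.re < 1 / 2 + W / l := by
        intro s hs hsi hsr
        by_contra hcon
        have h1 := hgood s (not_lt.1 hcon) (by linarith) (habs _ hsi)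
        rw [hs, zero_mul, zero_sub, norm_neg, norm_one] at h1
        norm_num at h1
      have z1 : riemannZeta ρ = 0 := (xi_zero_iff him).1 hρ
      have r1 := hno ρ z1 rfl hre1
      have hρ' : xi (1 - (starRingEnd ℂ) ρ) = 0 := by
        rw [xi_one_sub, xi_conj, hρ, map_zero]
      have him' : (1 - (starRingEnd ℂ) ρ).im = ρ.im := by simp
      have hre' : (1 - (starRingEnd ℂ) ρ).re = 1 - ρ.re := by simp
      have z2 : riemannZeta (1 - (starRingEnd ℂ) ρ) = 0 :=
        (xi_zero_iff (by rw [him']; exact him)).1 hρ'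
      have r2 := hno _ z2 him' (by rw [hre']; linarith)
      rw [hre'] at r2
      refine ⟨ρ, z1, ?_⟩
      have e1 : (ρ - ps 0 t).re = ρ.re - 1 / 2 := by
        unfold ps
        simp
      have e2 : (ρ - ps 0 t).im = ρ.im - t := by
        unfold ps
        simp
      refine (Complex.norm_le_abs_re_add_abs_im _).trans_lt ?_
      rw [e1, e2, add_div]
      have e3 : |ρ.re - 1 / 2| < W / l := by
        rw [abs_lt]
        constructor
        · linarith
        · linarith
      have e4 : |ρ.im - t| ≤ 2 * Real.pi * β / l := by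
        rw [abs_of_nonneg (by linarith), ← hβl]
        linarith
      linarith
    · have hn := nB 0 (Nat.zero_le _)
      rw [Nat.cast_zero, zero_mul, add_zero] at hn
      have hgood := (hB₀ t ⟨ht.1, by linarith [ht.2]⟩ hn).1
      have e1 : (ps ((W + 2 * Real.pi * β) / l) t).re = 1 / 2 + (W + 2 * Real.pi * β) / l := by
        unfold ps
        simp
      have e2 : (ps ((W + 2 * Real.pi * β) / l) t).im = t := by
        unfold ps
        simp
      have h1 := hgood (ps ((W + 2 * Real.pi * β) / l) t) (by rw [e1]; linarith)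
        (by rw [e1]; linarith) (by rw [e2, sub_self, abs_zero]; exact hh0.le)
      have h2 := norm_sub_norm_le (1 : ℂ) (riemannZeta (ps ((W + 2 * Real.pi * β) / l) t) *
        MM δ T (ps ((W + 2 * Real.pi * β) / l) t))
      rw [norm_sub_rev, norm_one] at h2
      linarith

end Pool.Agent.Lib.MP_2a816b_nt.SG
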