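import Pool.Agent.Lib.MP_ec260d_ntB.IA
import Pool.Agent.Lib.MP_2a816b_nt.SG.WMs
import Pool.Agent.Lib.MP_2a816b_nt.SG.GBd
import Pool.Agent.Lib.MP_2a816b_nt.SG.MMFin
import Pool.Agent.Lib.MP_2a816b_nt.SG.SupMeas
import Pool.Agent.Lib.MP_2a816b_nt.SG.ZeroNear
import Pool.Agent.Lib.MP_2a816b_nt.SG.Contour

/-!
# LEAF Fin (medium / hard, about 250 lines): no spectral gap

Choose in this order: `θ = min (1/8) ((l-1)/7)`; `δ` = minimum of the bounds of `zero_near`, `a_bdd`, `mm_fin θ`; `r` from `zero_near`; `Rr = 40 r`, `c = Rr + 1`; `C₀` from `a_bdd δ c` (`ms T (ζ MM) x ≤ C₀` for `|x| ≤ c/L`; `MS` and `ms` are the same text); `C_s` from `sup_meas Rr`; `A₁ = 1 + C₀`: `∫_T^{5T/2} ‖ζ MM‖ ≤ A₁ T`; `K = max 1 (C_s A₁)`; `η` from `contour r K`; `C₂` from `g_bd`; `C₁` from `w_ms`.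
-/

namespace Pool.Agent.Lib.MP_2a816b_nt.SG

open Complex Set Filter Topology MeasureTheory Metric
open scoped ContDiff
open Pool.Agent.Lib.MP_ec260d_ntB (MM MS)

/-- the primitive of `-Dp` -/
private noncomputable def Qp (T B : ℝ) (φ : ℝ → ℝ) (s : ℂ) : ℂ :=
  ∑ n ∈ Finset.Icc 1 ⌊T ^ B⌋₊,
    (((ArithmeticFunction.vonMangoldt n * φ (Real.log n / Real.log T)) / Real.log n : ℝ) : ℂ) * (n : ℂ) ^ (-s)

private theorem Fin_Q (T B : ℝ) (φ : ℝ → ℝ) (s : ℂ) : HasDerivAt (Qp T B φ) (-Dp T B φ s) s := by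
  unfold Qp Dp
  rw [← Finset.sum_neg_distrib]
  apply HasDerivAt.fun_sum
  intro n hn
  have hn1 : 1 ≤ n := (Finset.mem_Icc.1 hn).1
  have hn0 : (n : ℂ) ≠ 0 := by
    exact_mod_cast (by omega : n ≠ 0)
  have h1 : HasDerivAt (fun s : ℂ => (n : ℂ) ^ (-s)) ((n : ℂ) ^ (-s) * Complex.log n * (-1)) s :=
    (hasDerivAt_neg s).const_cpow (Or.inl hn0)
  refine (h1.const_mul _).congr_deriv ?_
  rcases Nat.eq_or_lt_of_le hn1 with h | h
  · subst h
    simp
  · have hlog : (0 : ℝ) < Real.log n := Real.log_pos (by exact_mod_cast h)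
    have e1 : Complex.log n = ((Real.log n : ℝ) : ℂ) := by
      rw [← Complex.natCast_log]
    have e2 : (((ArithmeticFunction.vonMangoldt n * φ (Real.log n / Real.log T)) / Real.log n : ℝ) : ℂ) *
        ((Real.log n : ℝ) : ℂ) = ((ArithmeticFunction.vonMangoldt n * φ (Real.log n / Real.log T) : ℝ) : ℂ) := by
      rw [← Complex.ofReal_mul]
      congr 1
      field_simp
    rw [e1, ← e2]
    ring

private theorem Fin_im (x t : ℝ) : (ps x t).im = t := by
  simp [ps]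

private theorem Fin_ne {s : ℂ} (h : 0 < s.im) : s ≠ 1 := by
  rintro rfl
  simp at h

private theorem Fin_zeta_an {s : ℂ} (h : s ≠ 1) : AnalyticAt ℂ riemannZeta s := by
  have h1 : DifferentiableOn ℂ riemannZeta {s : ℂ | s ≠ 1} := fun s hs =>
    (differentiableAt_riemannZeta hs).differentiableWithinAt
  exact h1.analyticAt (isOpen_ne.mem_nhds h)

private theorem Fin_Mp (R : Finset ℕ) (m : ℕ → ℂ) (hR : ∀ r ∈ R, 1 ≤ r) : Differentiable ℂ (Mp R m) := by
  unfold Mp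
  refine Differentiable.fun_sum fun r hr => ?_
  have h0 : (r : ℂ) ≠ 0 := by
    have := hR r hr
    exact_mod_cast (by omega : r ≠ 0)
  exact (differentiable_neg.const_cpow (Or.inl h0)).const_mul _

private theorem Fin_Dp (T B : ℝ) (φ : ℝ → ℝ) : Differentiable ℂ (Dp T B φ) := by
  unfold Dp
  refine Differentiable.fun_sum fun r hr => ?_
  have h0 : (r : ℂ) ≠ 0 := by
    have := (Finset.mem_Icc.1 hr).1
    exact_mod_cast (by omega : r ≠ 0)
  exact (differentiable_neg.const_cpow (Or.inl h0)).const_mul _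

private theorem Fin_GG {D M : ℂ → ℂ} (hD : Differentiable ℂ D) (hM : Differentiable ℂ M) {s : ℂ} (h : s ≠ 1) :
    DifferentiableAt ℂ (GG D M) s := by
  unfold GG
  have h1 := (Fin_zeta_an h).differentiableAt
  have h2 := (Fin_zeta_an h).deriv.differentiableAt
  exact (h2.mul (hM s)).add (((hD s).mul h1).mul (hM s))

/-- from the mean square to the mean -/
private theorem Fin_mean {T C : ℝ} (hT : 2 ≤ T) {F : ℂ → ℂ} (hF : ∀ s : ℂ, T / 2 ≤ s.im → s.im ≤ 3 * T → DifferentiableAt ℂ F s)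
    {x : ℝ} (h : ms T F x ≤ C) : ∫ t in T..(5 / 2 * T), ‖F (ps x t)‖ ≤ (1 + C) * T := by
  have hT0 : 0 < T := by linarith
  have hc : ContinuousOn (fun t : ℝ => F (ps x t)) (Icc (T / 2) (3 * T)) := by
    intro t ht
    have h1 : ContinuousAt F (ps x t) := (hF _ (by rw [Fin_im]; exact ht.1) (by rw [Fin_im]; exact ht.2)).continuousAt
    have h2 : ContinuousAt (fun t : ℝ => ps x t) t := by
      unfold ps
      fun_prop
    exact (ContinuousAt.comp (f := fun t : ℝ => ps x t) (g := F) h1 h2).continuousWithinAt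
  have hi2 : IntervalIntegrable (fun t : ℝ => ‖F (ps x t)‖ ^ 2) volume (T / 2) (3 * T) := by
    apply ContinuousOn.intervalIntegrable
    rw [uIcc_of_le (by linarith)]
    exact hc.norm.pow 2
  have hsub : Icc T (5 / 2 * T) ⊆ Icc (T / 2) (3 * T) := Icc_subset_Icc (by linarith) (by linarith)
  have hi1 : IntervalIntegrable (fun t : ℝ => ‖F (ps x t)‖) volume T (5 / 2 * T) := by
    apply ContinuousOn.intervalIntegrable
    rw [uIcc_of_le (by linarith)]
    exact (hc.mono hsub).norm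
  have hi2' : IntervalIntegrable (fun t : ℝ => ‖F (ps x t)‖ ^ 2) volume T (5 / 2 * T) := by
    apply ContinuousOn.intervalIntegrable
    rw [uIcc_of_le (by linarith)]
    exact (hc.mono hsub).norm.pow 2
  have h1 : ∫ t in T..(5 / 2 * T), ‖F (ps x t)‖ ≤ ∫ t in T..(5 / 2 * T), (1 / 2 + 1 / 2 * ‖F (ps x t)‖ ^ 2) := by
    refine intervalIntegral.integral_mono_on (by linarith) hi1 ?_ fun t _ => ?_
    · exact (intervalIntegrable_const).add (hi2'.const_mul _)
    · nlinarith [sq_nonneg (‖F (ps x t)‖ - 1)]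
  rw [intervalIntegral.integral_add intervalIntegrable_const (hi2'.const_mul _), intervalIntegral.integral_const,
    intervalIntegral.integral_const_mul, smul_eq_mul] at h1
  have h2 : ∫ t in T..(5 / 2 * T), ‖F (ps x t)‖ ^ 2 ≤ ∫ t in (T / 2)..(3 * T), ‖F (ps x t)‖ ^ 2 :=
    intervalIntegral.integral_mono_interval (by linarith) (by linarith) (by linarith)
      (Filter.Eventually.of_forall fun t => by positivity) hi2
  have h3 : ∫ t in (T / 2)..(3 * T), ‖F (ps x t)‖ ^ 2 = T * ms T F x := by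
    unfold ms ps
    rw [← mul_assoc, mul_one_div_cancel hT0.ne', one_mul]
  have h4 : T * ms T F x ≤ T * C := mul_le_mul_of_nonneg_left h hT0.le
  have h5 : 0 ≤ ms T F x := by
    unfold ms
    have : 0 ≤ ∫ t in (T / 2)..(3 * T), ‖F (((1 / 2 + x : ℝ) : ℂ) + t * I)‖ ^ 2 :=
      intervalIntegral.integral_nonneg (by linarith) fun t _ => by positivity
    positivity
  nlinarith

/-- a point outside of three small sets -/
private theorem Fin_pick {T : ℝ} (hT : 10 ≤ T) {B1 B2 B3 : Set ℝ} (h1 : volume B1 ≤ ENNReal.ofReal (T / 10))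
    (h2 : volume B2 ≤ ENNReal.ofReal (T / 10)) (h3 : volume B3 ≤ ENNReal.ofReal (T / 10)) :
    ∃ t ∈ Icc (T + 1) (9 / 4 * T), t ∉ B1 ∧ t ∉ B2 ∧ t ∉ B3 := by
  by_contra hcon
  push Not at hcon
  have hsub : Icc (T + 1) (9 / 4 * T) ⊆ B1 ∪ (B2 ∪ B3) := by
    intro t ht
    by_cases a1 : t ∈ B1
    · exact Or.inl a1
    · by_cases a2 : t ∈ B2
      · exact Or.inr (Or.inl a2)
      · exact Or.inr (Or.inr (hcon t ht a1 a2))
  have hv : volume (Icc (T + 1) (9 / 4 * T)) ≤ ENNReal.ofReal (T / 10) + (ENNReal.ofReal (T / 10) + ENNReal.ofReal (T / 10)) :=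
    (measure_mono hsub).trans ((measure_union_le _ _).trans (add_le_add h1 ((measure_union_le _ _).trans (add_le_add h2 h3))))
  rw [Real.volume_Icc, ← ENNReal.ofReal_add (by linarith) (by linarith), ← ENNReal.ofReal_add (by linarith) (by linarith),
    ENNReal.ofReal_le_ofReal_iff (by linarith)] at hv
  linarith

theorem no_gap {b l : ℝ} (hb : 1 ≤ b) (hl : 1 < l) :
    ∃ c : ℝ, 0 < c ∧ ∀ᶠ T : ℝ in atTop, c ≤ ∫ α in b..(b + l), PV.RR α T := by
  -- constants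
  set θ : ℝ := min (1 / 8) ((l - 1) / 7) with hθd
  have hθ : 0 < θ := lt_min (by norm_num) (by linarith)
  have hθ8 : θ ≤ 1 / 8 := min_le_left _ _
  have hθl : 1 + 7 * θ ≤ l := by
    have : θ ≤ (l - 1) / 7 := min_le_right _ _
    linarith
  obtain ⟨δa, hδa, Ha⟩ := Pool.Agent.Lib.MP_ec260d_ntB.a_bdd
  obtain ⟨δz, hδz, Hz⟩ := zero_near
  obtain ⟨δm, hδm, Hm⟩ := mm_fin θ hθ
  set δ : ℝ := min δa (min δz δm) with hδd
  have hδ : 0 < δ := lt_min hδa (lt_min hδz hδm)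
  obtain ⟨r, Tz, hr, hTz, Hz⟩ := Hz δ hδ ((min_le_right _ _).trans (min_le_left _ _))
  obtain ⟨Tm, hTm, Hm⟩ := Hm δ hδ ((min_le_right _ _).trans (min_le_right _ _))
  have hr0 : 0 < r := by linarith
  set c : ℝ := 40 * r + 1 with hc
  have hc0 : 0 ≤ c := by positivity
  obtain ⟨C₀, Ta, hC₀, hTa, Ha⟩ := Ha δ hδ (min_le_left _ _) c hc0
  obtain ⟨Cs, Ts, hCs, hTs, Hs⟩ := sup_meas (40 * r) (by positivity)
  obtain ⟨C₂, Tg, hC₂, hTg, Hg⟩ := g_bd b θ hb hθ hθ8
  obtain ⟨C₁, Tw, hC₁, hTw, Hw⟩ := w_ms b l θ c hb hθ hθ8 hθl hc0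
  set A₁ : ℝ := 1 + C₀ with hA₁
  have hA₁0 : 0 < A₁ := by positivity
  set K : ℝ := max 1 (Cs * A₁) with hK
  obtain ⟨η, hη, Hc⟩ := contour r K hr0 (le_max_left _ _)
  set S₀ : ℝ := Real.sqrt C₀ with hS₀
  have hS₀0 : 0 ≤ S₀ := Real.sqrt_nonneg _
  set q : ℝ := η / (2 * (Cs * C₂ * S₀ + 1)) with hq
  have hq0 : 0 < q := by positivity
  set ε₀ : ℝ := q ^ 2 / (C₁ + 1) with hε₀
  have hε₀0 : 0 < ε₀ := by positivity
  have hsq : Real.sqrt (C₁ * ε₀) ≤ q := by
    rw [Real.sqrt_le_left hq0.le, hε₀]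
    have h1 : C₁ * (q ^ 2 / (C₁ + 1)) = q ^ 2 * (C₁ / (C₁ + 1)) := by ring
    rw [h1]
    have h2 : C₁ / (C₁ + 1) ≤ 1 := by
      rw [div_le_one (by positivity)]
      linarith
    have h3 : 0 ≤ q ^ 2 := by positivity
    nlinarith
  refine ⟨ε₀, hε₀0, ?_⟩
  filter_upwards [eventually_ge_atTop (10 : ℝ), eventually_ge_atTop Tz, eventually_ge_atTop Tm, eventually_ge_atTop Ta,
    eventually_ge_atTop Ts, eventually_ge_atTop Tg, eventually_ge_atTop Tw,
    Real.tendsto_log_atTop.eventually_ge_atTop (8 * c + 1),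
    Real.tendsto_log_atTop.eventually_ge_atTop (2 * (Cs * (C₂ * S₀ + 3)) / η)] with T hT10 hT1 hT2 hT3 hT4 hT5 hT6 hL1 hL2
  by_contra hcon
  rw [not_le] at hcon
  have hT0 : 0 < T := by linarith
  set L : ℝ := Real.log T with hL
  have hL0 : 1 ≤ L := by linarith
  have hLp : 0 < L := by linarith
  have hcL : c / L ≤ 1 / 8 := by
    rw [div_le_iff₀ hLp]
    linarith
  obtain ⟨R, m, hR, hMM⟩ := Hm T hT2
  have hMMf : MM δ T = Mp R m := funext hMM
  set D : ℂ → ℂ := Dp T (b + 2) (cut (b + θ) θ) with hD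
  have hDd : Differentiable ℂ D := Fin_Dp _ _ _
  have hMd : Differentiable ℂ (Mp R m) := Fin_Mp R m fun r hr => (hR r hr).1
  -- the mean of `ζ M`
  have hzM : ∀ x : ℝ, |x| ≤ c / L → ms T (fun s => riemannZeta s * Mp R m s) x ≤ C₀ := by
    intro x hx
    have h1 := Ha T hT3 x hx
    rw [hMMf] at h1
    exact h1
  have hzMd : ∀ s : ℂ, T / 2 ≤ s.im → s.im ≤ 3 * T → DifferentiableAt ℂ (fun s => riemannZeta s * Mp R m s) s := by
    intro s hs _
    exact (differentiableAt_riemannZeta (Fin_ne (by linarith))).mul (hMd s)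
  have hGd : ∀ s : ℂ, T / 2 ≤ s.im → s.im ≤ 3 * T → DifferentiableAt ℂ (GG D (Mp R m)) s := by
    intro s hs _
    exact Fin_GG hDd hMd (Fin_ne (by linarith))
  obtain ⟨B1, -, hB1, HB1⟩ := Hs T hT4 (fun s => riemannZeta s * Mp R m s) hzMd A₁ hA₁0
    (fun x hx => Fin_mean (by linarith) hzMd (hzM x (by rw [hc]; exact hx)))
  -- the mean of `GG`
  set A₂ : ℝ := C₂ * (q * L + 1) * S₀ + 3 with hA₂
  have hA₂0 : 0 < A₂ := by positivity
  have hmW : ∀ x : ℝ, |x| ≤ c / L → Real.sqrt (ms T (Dp T (b + 2) (Wf b θ)) x) ≤ q * L + 1 := by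
    intro x hx
    have h1 := Hw T hT6 x hx
    have h2 : ms T (Dp T (b + 2) (Wf b θ)) x ≤ (q * L + 1) ^ 2 := by
      have h3 : C₁ * L ^ 2 * (∫ α in b..(b + l), PV.RR α T) ≤ C₁ * L ^ 2 * ε₀ :=
        mul_le_mul_of_nonneg_left hcon.le (by positivity)
      have h4 : C₁ * ε₀ ≤ q ^ 2 := by
        have h5 := Real.sqrt_le_left hq0.le |>.1 hsq
        exact h5
      have h6 : C₁ * L ^ 2 * ε₀ ≤ q ^ 2 * L ^ 2 := by
        calc C₁ * L ^ 2 * ε₀ = (C₁ * ε₀) * L ^ 2 := by ring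
          _ ≤ q ^ 2 * L ^ 2 := mul_le_mul_of_nonneg_right h4 (by positivity)
      have h7 : 0 ≤ q * L := by positivity
      nlinarith
    calc Real.sqrt (ms T (Dp T (b + 2) (Wf b θ)) x) ≤ Real.sqrt ((q * L + 1) ^ 2) := Real.sqrt_le_sqrt h2
      _ = q * L + 1 := Real.sqrt_sq (by positivity)
  have hGm : ∀ x : ℝ, |x| ≤ c / L → ∫ t in T..(5 / 2 * T), ‖GG D (Mp R m) (ps x t)‖ ≤ A₂ * T := by
    intro x hx
    have h1 := Hg T hT5 R m hR x (hx.trans hcL)
    have h2 := hmW x hx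
    have h3 : Real.sqrt (ms T (fun s => riemannZeta s * Mp R m s) x) ≤ S₀ := Real.sqrt_le_sqrt (hzM x hx)
    refine h1.trans ?_
    have h4 : C₂ * T * Real.sqrt (ms T (Dp T (b + 2) (Wf b θ)) x) *
        Real.sqrt (ms T (fun s => riemannZeta s * Mp R m s) x) ≤ C₂ * T * (q * L + 1) * S₀ := by
      gcongr
    have h5 : A₂ * T = C₂ * T * (q * L + 1) * S₀ + 3 * T := by
      rw [hA₂]
      ring
    rw [h5]
    linarith
  obtain ⟨B2, -, hB2, HB2⟩ := Hs T hT4 (GG D (Mp R m)) hGd A₂ hA₂0 (fun x hx => hGm x (by rw [hc]; exact hx))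
  obtain ⟨B3, -, hB3, HB3⟩ := Hz T hT1
  obtain ⟨t, ht, hn1, hn2, hn3⟩ := Fin_pick hT10 hB1 hB2 hB3
  have htT : T + 1 ≤ t := ht.1
  obtain ⟨⟨ρ, hρ0, hρ⟩, hpt⟩ := HB3 t ⟨by linarith, ht.2⟩ hn3
  have hs1 := HB1 t ht hn1
  have hs2 := HB2 t ht hn2
  -- the functions
  have hLC : (L : ℂ) ≠ 0 := by exact_mod_cast hLp.ne'
  have hnorm : ∀ z : ℂ, ‖ps 0 t + z / L - ps 0 t‖ = ‖z‖ / L := by
    intro z
    rw [add_sub_cancel_left, norm_div, Complex.norm_real, Real.norm_eq_abs, abs_of_pos hLp]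
  have hball : ∀ z ∈ closedBall (0 : ℂ) (40 * r), ‖ps 0 t + z / L - ps 0 t‖ ≤ 40 * r / L := by
    intro z hz
    rw [hnorm]
    rw [mem_closedBall, dist_zero_right] at hz
    exact div_le_div_of_nonneg_right hz hLp.le
  have h40 : 40 * r / L ≤ 1 / 8 := by
    refine le_trans ?_ hcL
    rw [hc]
    exact div_le_div_of_nonneg_right (by linarith) hLp.le
  have him : ∀ z ∈ closedBall (0 : ℂ) (40 * r), ps 0 t + z / L ≠ 1 := by
    intro z hz
    apply Fin_ne
    have h1 := Complex.abs_im_le_norm (ps 0 t + z / L - ps 0 t)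
    have h2 := (h1.trans (hball z hz)).trans h40
    rw [Complex.sub_im, Fin_im, abs_le] at h2
    linarith [h2.1]
  have hinner : ∀ z : ℂ, HasDerivAt (fun z : ℂ => ps 0 t + z / L) (1 / (L : ℂ)) z := by
    intro z
    exact ((hasDerivAt_id z).div_const _).const_add _
  set f : ℂ → ℂ := fun z => riemannZeta (ps 0 t + z / L) with hf
  set mm : ℂ → ℂ := fun z => Mp R m (ps 0 t + z / L) with hmm
  set d : ℂ → ℂ := fun z => D (ps 0 t + z / L) / L with hd
  set P : ℂ → ℂ := fun z => cexp (-Qp T (b + 2) (cut (b + θ) θ) (ps 0 t + z / L)) with hP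
  have hfd : ∀ z ∈ closedBall (0 : ℂ) (40 * r), HasDerivAt f (deriv riemannZeta (ps 0 t + z / L) * (1 / (L : ℂ))) z := by
    intro z hz
    have h1 : HasDerivAt riemannZeta (deriv riemannZeta (ps 0 t + z / L)) (ps 0 t + z / L) :=
      (differentiableAt_riemannZeta (him z hz)).hasDerivAt
    exact h1.comp z (hinner z)
  have c1 : ∀ z ∈ closedBall (0 : ℂ) (40 * r), AnalyticAt ℂ f z ∧ AnalyticAt ℂ mm z := by
    intro z hz
    refine ⟨?_, ?_⟩
    · have h1 : AnalyticAt ℂ (fun z : ℂ => ps 0 t + z / L) z :=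
        (show Differentiable ℂ (fun z : ℂ => ps 0 t + z / L) from fun z => (hinner z).differentiableAt).analyticAt z
      exact AnalyticAt.fun_comp (g := riemannZeta) (f := fun z : ℂ => ps 0 t + z / L) (Fin_zeta_an (him z hz)) h1
    · have h1 : Differentiable ℂ mm := hMd.comp (fun z => (hinner z).differentiableAt)
      exact h1.analyticAt z
  have c2 : ∀ z ∈ closedBall (0 : ℂ) (40 * r), HasDerivAt P (d z * P z) z ∧ P z ≠ 0 := by
    intro z _
    refine ⟨?_, Complex.exp_ne_zero _⟩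
    have h0 : HasDerivAt (fun z : ℂ => Qp T (b + 2) (cut (b + θ) θ) (ps 0 t + z / L))
        (-D (ps 0 t + z / L) * (1 / (L : ℂ))) z :=
      HasDerivAt.comp (h₂ := Qp T (b + 2) (cut (b + θ) θ)) (h := fun z : ℂ => ps 0 t + z / L) z
        (Fin_Q T (b + 2) (cut (b + θ) θ) (ps 0 t + z / L)) (hinner z)
    have h1 := h0.fun_neg
    refine h1.cexp.congr_deriv ?_
    rw [hd, hP]
    ring
  have c3 : ∀ z ∈ closedBall (0 : ℂ) (40 * r), ‖f z * mm z‖ ≤ K := by
    intro z hz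
    have h1 := hs1 _ (hball z hz)
    exact h1.trans (le_max_right _ _)
  have c4 : 1 / 2 ≤ ‖f r * mm r‖ := by
    have e1 : ps 0 t + (r : ℂ) / L = ps (r / L) t := by
      unfold ps
      push_cast
      ring
    rw [hf, hmm]
    simp only [e1]
    rw [hMMf] at hpt
    linarith
  have c5 : f (L * (ρ - ps 0 t)) = 0 := by
    rw [hf]
    have e1 : ps 0 t + L * (ρ - ps 0 t) / L = ρ := by
      field_simp
      ring
    simp only [e1]
    exact hρ0
  have c6 : ‖(L : ℂ) * (ρ - ps 0 t)‖ < r := by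
    rw [norm_mul, Complex.norm_real, Real.norm_eq_abs, abs_of_pos hLp]
    rwa [lt_div_iff₀ hLp, mul_comm] at hρ
  obtain ⟨z, hz, hbig⟩ := Hc f mm d P (L * (ρ - ps 0 t)) c1 c2 c3 c4 c5 c6
  -- the conclusion
  have hz40 : z ∈ closedBall (0 : ℂ) (40 * r) := closedBall_subset_closedBall (by linarith) hz
  have e1 : deriv f z * mm z + d z * f z * mm z = GG D (Mp R m) (ps 0 t + z / L) / L := by
    rw [(hfd z hz40).deriv, hf, hmm, hd]
    unfold GG
    field_simp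
  rw [e1, norm_div, Complex.norm_real, Real.norm_eq_abs, abs_of_pos hLp] at hbig
  have h1 := hs2 _ (hball z hz40)
  have h2 : η * L < ‖GG D (Mp R m) (ps 0 t + z / L)‖ := by
    rwa [lt_div_iff₀ hLp] at hbig
  have h3 : η * L < Cs * A₂ := lt_of_lt_of_le h2 h1
  have h4 : Cs * A₂ = Cs * C₂ * S₀ * (q * L) + Cs * (C₂ * S₀ + 3) := by
    rw [hA₂]
    ring
  have h5 : Cs * C₂ * S₀ * (q * L) ≤ η / 2 * L := by
    have h6 : Cs * C₂ * S₀ * q ≤ η / 2 := by
      rw [hq]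
      have h7 : 0 ≤ Cs * C₂ * S₀ := by positivity
      rw [mul_div_assoc', div_le_iff₀ (by positivity)]
      nlinarith
    calc Cs * C₂ * S₀ * (q * L) = (Cs * C₂ * S₀ * q) * L := by ring
      _ ≤ η / 2 * L := mul_le_mul_of_nonneg_right h6 hLp.le
  have h6 : Cs * (C₂ * S₀ + 3) ≤ η / 2 * L := by
    have h7 : 2 * (Cs * (C₂ * S₀ + 3)) ≤ L * η := (div_le_iff₀ hη).1 hL2
    linarith
  linarith

end Pool.Agent.Lib.MP_2a816b_nt.SG
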