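import Pool.Agent.Lib.MP_2a816b_nt.SG.Zsm

/-!
# LEAF GAp: `GG` is a finite sum up to a tiny error
-/

namespace Pool.Agent.Lib.MP_2a816b_nt.SG

open Complex Set Filter Topology MeasureTheory
open scoped ContDiff

/-- derivative of a smooth Dirichlet polynomial -/
theorem GAp_hasDeriv (T B : ℝ) (φ : ℝ → ℝ) (s : ℂ) :
    HasDerivAt (Zp T B φ)
      (-∑ n ∈ Finset.Icc 1 ⌊T ^ B⌋₊,
        ((Real.log n * φ (Real.log n / Real.log T) : ℝ) : ℂ) * (n : ℂ) ^ (-s)) s := by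
  have h : HasDerivAt (fun w : ℂ => ∑ n ∈ Finset.Icc 1 ⌊T ^ B⌋₊,
      ((φ (Real.log n / Real.log T) : ℝ) : ℂ) * (n : ℂ) ^ (-w))
      (∑ n ∈ Finset.Icc 1 ⌊T ^ B⌋₊, ((φ (Real.log n / Real.log T) : ℝ) : ℂ) *
        ((n : ℂ) ^ (-s) * Complex.log n * (-1))) s := by
    refine HasDerivAt.fun_sum fun n hn => ?_
    have hn0 : (n : ℂ) ≠ 0 := by
      have : 1 ≤ n := (Finset.mem_Icc.1 hn).1
      exact_mod_cast (by omega : n ≠ 0)
    exact ((hasDerivAt_neg s).const_cpow (Or.inl hn0)).const_mul _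
  have e : (∑ n ∈ Finset.Icc 1 ⌊T ^ B⌋₊, ((φ (Real.log n / Real.log T) : ℝ) : ℂ) *
        ((n : ℂ) ^ (-s) * Complex.log n * (-1))) =
      -∑ n ∈ Finset.Icc 1 ⌊T ^ B⌋₊,
        ((Real.log n * φ (Real.log n / Real.log T) : ℝ) : ℂ) * (n : ℂ) ^ (-s) := by
    rw [← Finset.sum_neg_distrib]
    refine Finset.sum_congr rfl fun n _ => ?_
    rw [← Complex.natCast_log]
    push_cast
    ring
  rw [e] at h
  exact h

/-- Cauchy's estimate for `ζ` minus a Dirichlet polynomial -/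
theorem GAp_deriv_bound {T B C : ℝ} (φ : ℝ → ℝ) {s : ℂ} (hs : 1 / 8 < s.im)
    (hC : ∀ w : ℂ, ‖w - s‖ ≤ 1 / 8 → ‖riemannZeta w - Zp T B φ w‖ ≤ C) :
    ‖deriv riemannZeta s + ∑ n ∈ Finset.Icc 1 ⌊T ^ B⌋₊,
        ((Real.log n * φ (Real.log n / Real.log T) : ℝ) : ℂ) * (n : ℂ) ^ (-s)‖ ≤ 8 * C := by
  have hne : ∀ w : ℂ, ‖w - s‖ ≤ 1 / 8 → w ≠ 1 := by
    rintro w hw rfl
    have h1 := Complex.abs_im_le_norm (1 - s)
    rw [Complex.sub_im, Complex.one_im, zero_sub, abs_neg] at h1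
    have h2 := le_abs_self s.im
    linarith
  have hd : ∀ w : ℂ, ‖w - s‖ ≤ 1 / 8 → HasDerivAt (fun w => riemannZeta w - Zp T B φ w)
      (deriv riemannZeta w - (-∑ n ∈ Finset.Icc 1 ⌊T ^ B⌋₊,
        ((Real.log n * φ (Real.log n / Real.log T) : ℝ) : ℂ) * (n : ℂ) ^ (-w))) w := fun w hw =>
    (differentiableAt_riemannZeta (hne w hw)).hasDerivAt.sub (GAp_hasDeriv T B φ w)
  have h8 : (0 : ℝ) < 1 / 8 := by norm_num
  have hdc : DiffContOnCl ℂ (fun w => riemannZeta w - Zp T B φ w) (Metric.ball s (1 / 8)) := by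
    refine DifferentiableOn.diffContOnCl ?_
    rw [closure_ball s h8.ne']
    intro w hw
    exact (hd w (by simpa [dist_eq_norm] using hw)).differentiableAt.differentiableWithinAt
  have h1 := Complex.norm_deriv_le_of_forall_mem_sphere_norm_le h8 hdc
    (fun w hw => hC w (by
      have : dist w s = 1 / 8 := hw
      rw [dist_eq_norm] at this
      exact this.le))
  rw [(hd s (by rw [sub_self, norm_zero]; norm_num)).deriv, sub_neg_eq_add] at h1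
  calc _ ≤ C / (1 / 8) := h1
    _ = 8 * C := by ring

theorem GAp_norm_cpow {n : ℕ} (hn : 1 ≤ n) {s : ℂ} (hs : 0 ≤ s.re) : ‖(n : ℂ) ^ (-s)‖ ≤ 1 := by
  rw [Complex.norm_natCast_cpow_of_pos (by omega), Complex.neg_re]
  exact Real.rpow_le_one_of_one_le_of_nonpos (by exact_mod_cast hn) (by linarith)

/-- the algebraic identity -/
theorem GAp_id {T b θ : ℝ} {R : Finset ℕ} {m : ℕ → ℂ} (hR : ∀ r ∈ R, 1 ≤ r) (s : ℂ) :
    GG (Dp T (b + 2) (cut (b + θ) θ)) (Mp R m) s - G1 T b θ R m s =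
      (∑ r ∈ R, m r * (r : ℂ) ^ (-s) * (deriv riemannZeta s + ∑ n ∈ Finset.Icc 1 ⌊T ^ (b + 2)⌋₊,
        ((Real.log n * cut (b + 1 + 4 * θ) θ (Real.log r / Real.log T + Real.log n / Real.log T) :
          ℝ) : ℂ) * (n : ℂ) ^ (-s))) +
      ∑ r ∈ R, ∑ k ∈ Finset.Icc 1 ⌊T ^ (b + 2)⌋₊, m r *
        ((ArithmeticFunction.vonMangoldt k * cut (b + θ) θ (Real.log k / Real.log T) : ℝ) : ℂ) *
        ((r : ℂ) ^ (-s) * (k : ℂ) ^ (-s)) * (riemannZeta s - Zp T (b + 2)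
          (fun y => cut (b + 1 + 4 * θ) θ (Real.log (r * k) / Real.log T + y)) s) := by
  unfold GG G1 Mp Dp Zp
  rw [Finset.mul_sum, Finset.mul_sum, ← Finset.sum_add_distrib, ← Finset.sum_add_distrib,
    ← Finset.sum_sub_distrib]
  refine Finset.sum_congr rfl fun r hr => ?_
  have hr1 : 1 ≤ r := hR r hr
  have hr0 : (r : ℝ) ≠ 0 := by exact_mod_cast (by omega : r ≠ 0)
  have hA : (∑ k ∈ Finset.Icc 1 ⌊T ^ (b + 2)⌋₊, ∑ n ∈ Finset.Icc 1 ⌊T ^ (b + 2)⌋₊,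
      ((ArithmeticFunction.vonMangoldt k * cut (b + θ) θ (Real.log k / Real.log T) *
        cut (b + 1 + 4 * θ) θ (Real.log (r * k * n) / Real.log T) : ℝ) : ℂ) *
          ((r * k * n : ℕ) : ℂ) ^ (-s)) =
      ∑ k ∈ Finset.Icc 1 ⌊T ^ (b + 2)⌋₊,
        ((ArithmeticFunction.vonMangoldt k * cut (b + θ) θ (Real.log k / Real.log T) : ℝ) : ℂ) *
        ((r : ℂ) ^ (-s) * (k : ℂ) ^ (-s)) * ∑ n ∈ Finset.Icc 1 ⌊T ^ (b + 2)⌋₊,
          ((cut (b + 1 + 4 * θ) θ (Real.log (r * k) / Real.log T + Real.log n / Real.log T) : ℝ) :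
            ℂ) * (n : ℂ) ^ (-s) := by
    refine Finset.sum_congr rfl fun k hk => ?_
    rw [Finset.mul_sum]
    refine Finset.sum_congr rfl fun n hn => ?_
    have hk1 : 1 ≤ k := (Finset.mem_Icc.1 hk).1
    have hn1 : 1 ≤ n := (Finset.mem_Icc.1 hn).1
    have hk0 : (k : ℝ) ≠ 0 := by exact_mod_cast (by omega : k ≠ 0)
    have hn0 : (n : ℝ) ≠ 0 := by exact_mod_cast (by omega : n ≠ 0)
    rw [Real.log_mul (mul_ne_zero hr0 hk0) hn0, add_div]
    have e : ((r * k * n : ℕ) : ℂ) ^ (-s) = (r : ℂ) ^ (-s) * (k : ℂ) ^ (-s) * (n : ℂ) ^ (-s) := by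
      rw [Nat.cast_mul, Complex.natCast_mul_natCast_cpow (r * k) n, Nat.cast_mul,
        Complex.natCast_mul_natCast_cpow r k]
    rw [e]
    push_cast
    ring
  have hB : (∑ n ∈ Finset.Icc 1 ⌊T ^ (b + 2)⌋₊,
      ((Real.log n * cut (b + 1 + 4 * θ) θ (Real.log (r * n) / Real.log T) : ℝ) : ℂ) *
        ((r * n : ℕ) : ℂ) ^ (-s)) =
      (r : ℂ) ^ (-s) * ∑ n ∈ Finset.Icc 1 ⌊T ^ (b + 2)⌋₊,
        ((Real.log n * cut (b + 1 + 4 * θ) θ (Real.log r / Real.log T + Real.log n / Real.log T) :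
          ℝ) : ℂ) * (n : ℂ) ^ (-s) := by
    rw [Finset.mul_sum]
    refine Finset.sum_congr rfl fun n hn => ?_
    have hn1 : 1 ≤ n := (Finset.mem_Icc.1 hn).1
    have hn0 : (n : ℝ) ≠ 0 := by exact_mod_cast (by omega : n ≠ 0)
    rw [Real.log_mul hr0 hn0, add_div, Nat.cast_mul, Complex.natCast_mul_natCast_cpow]
    ring
  rw [hA, hB]
  simp only [mul_sub, Finset.sum_sub_distrib]
  have hC : ∀ c : ℂ, (∑ k ∈ Finset.Icc 1 ⌊T ^ (b + 2)⌋₊, m r *
      ((ArithmeticFunction.vonMangoldt k * cut (b + θ) θ (Real.log k / Real.log T) : ℝ) : ℂ) *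
        ((r : ℂ) ^ (-s) * (k : ℂ) ^ (-s)) * c) = m r * (r : ℂ) ^ (-s) *
      (∑ k ∈ Finset.Icc 1 ⌊T ^ (b + 2)⌋₊,
      ((ArithmeticFunction.vonMangoldt k * cut (b + θ) θ (Real.log k / Real.log T) : ℝ) : ℂ) *
        (k : ℂ) ^ (-s)) * c := by
    intro c
    rw [Finset.mul_sum, Finset.sum_mul]
    refine Finset.sum_congr rfl fun k _ => ?_
    ring
  have hD : (∑ k ∈ Finset.Icc 1 ⌊T ^ (b + 2)⌋₊, m r *
      ((ArithmeticFunction.vonMangoldt k * cut (b + θ) θ (Real.log k / Real.log T) : ℝ) : ℂ) *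
        ((r : ℂ) ^ (-s) * (k : ℂ) ^ (-s)) * ∑ n ∈ Finset.Icc 1 ⌊T ^ (b + 2)⌋₊,
          ((cut (b + 1 + 4 * θ) θ (Real.log (r * k) / Real.log T + Real.log n / Real.log T) : ℝ) :
            ℂ) * (n : ℂ) ^ (-s)) = m r * ∑ k ∈ Finset.Icc 1 ⌊T ^ (b + 2)⌋₊,
        ((ArithmeticFunction.vonMangoldt k * cut (b + θ) θ (Real.log k / Real.log T) : ℝ) : ℂ) *
        ((r : ℂ) ^ (-s) * (k : ℂ) ^ (-s)) * ∑ n ∈ Finset.Icc 1 ⌊T ^ (b + 2)⌋₊,
          ((cut (b + 1 + 4 * θ) θ (Real.log (r * k) / Real.log T + Real.log n / Real.log T) : ℝ) :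
            ℂ) * (n : ℂ) ^ (-s) := by
    rw [Finset.mul_sum]
    refine Finset.sum_congr rfl fun k _ => ?_
    ring
  rw [hC, hD]
  ring

theorem g_approx (b θ : ℝ) (hb : 1 ≤ b) (hθ : 0 < θ) (hθ8 : θ ≤ 1 / 8) : ∃ T₀ : ℝ, 3 ≤ T₀ ∧ ∀ T : ℝ, T₀ ≤ T →
    ∀ (R : Finset ℕ) (m : ℕ → ℂ), MOk T θ R m → ∀ x t : ℝ, |x| ≤ 1 / 8 → T ≤ t → t ≤ 5 / 2 * T →
      ‖GG (Dp T (b + 2) (cut (b + θ) θ)) (Mp R m) (ps x t) - G1 T b θ R m (ps x t)‖ ≤ 1 / T := by
  obtain ⟨T₀, hT₀, H⟩ := zsm (b + 3 * θ) θ (2 * b + 10) (b + 2) (by linarith) hθ (by linarith)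
  refine ⟨T₀, hT₀, ?_⟩
  intro T hT R m hR x t hx ht1 ht2
  have hT3 : 3 ≤ T := hT₀.trans hT
  have hT0 : 0 < T := by linarith
  have hL : 0 < Real.log T := Real.log_pos (by linarith)
  have hre : (ps x t).re = 1 / 2 + x := by simp [ps]
  have him : (ps x t).im = t := by simp [ps]
  obtain ⟨hx1, hx2⟩ := abs_le.1 hx
  have hκ : b + 3 * θ + 1 + θ = b + 1 + 4 * θ := by ring
  rw [hκ] at H
  set s : ℂ := ps x t with hs
  set N : ℕ := ⌊T ^ (b + 2)⌋₊ with hN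
  set ε : ℝ := T ^ (-(2 * b + 10)) with hε
  have hε0 : 0 ≤ ε := Real.rpow_nonneg hT0.le _
  have hNT : (N : ℝ) ≤ T ^ (b + 2) := Nat.floor_le (Real.rpow_nonneg hT0.le _)
  have hsre : 0 ≤ s.re := by rw [hre]; linarith
  -- logarithms
  have hlog : ∀ r ∈ R, 0 ≤ Real.log r / Real.log T ∧ Real.log r / Real.log T ≤ θ := by
    intro r hr
    obtain ⟨h1, h2, -⟩ := hR r hr
    have h1' : (1 : ℝ) ≤ r := by exact_mod_cast h1
    refine ⟨div_nonneg (Real.log_nonneg h1') hL.le, ?_⟩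
    rw [div_le_iff₀ hL, ← Real.log_rpow hT0]
    exact Real.log_le_log (by linarith) h2
  -- the two kinds of terms
  have hB1 : ∀ r ∈ R, ‖m r * (r : ℂ) ^ (-s) * (deriv riemannZeta s +
      ∑ n ∈ Finset.Icc 1 N, ((Real.log n * cut (b + 1 + 4 * θ) θ
        (Real.log r / Real.log T + Real.log n / Real.log T) : ℝ) : ℂ) * (n : ℂ) ^ (-s))‖ ≤
      8 * ε := by
    intro r hr
    obtain ⟨h1, h2, h3⟩ := hR r hr
    obtain ⟨h4, h5⟩ := hlog r hr
    have h6 : ‖deriv riemannZeta s + ∑ n ∈ Finset.Icc 1 N, ((Real.log n *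
        cut (b + 1 + 4 * θ) θ (Real.log r / Real.log T + Real.log n / Real.log T) : ℝ) : ℂ) *
          (n : ℂ) ^ (-s)‖ ≤ 8 * ε := by
      refine GAp_deriv_bound (T := T) (B := b + 2)
        (fun y => cut (b + 1 + 4 * θ) θ (Real.log r / Real.log T + y)) (by rw [him]; linarith) ?_
      intro w hw
      have hw1 := Complex.abs_re_le_norm (w - s)
      have hw2 := Complex.abs_im_le_norm (w - s)
      rw [Complex.sub_re, hre] at hw1
      rw [Complex.sub_im, him] at hw2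
      obtain ⟨a1, a2⟩ := abs_le.1 (hw1.trans hw)
      obtain ⟨a3, a4⟩ := abs_le.1 (hw2.trans hw)
      exact H T hT _ h4 (by linarith) w (by linarith) (by linarith) (by linarith) (by linarith)
    rw [norm_mul, norm_mul]
    calc ‖m r‖ * ‖(r : ℂ) ^ (-s)‖ * _ ≤ 1 * 1 * (8 * ε) := by
          refine mul_le_mul (mul_le_mul h3 (GAp_norm_cpow h1 hsre) (norm_nonneg _) zero_le_one) h6
            (norm_nonneg _) (by norm_num)
      _ = 8 * ε := by ring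
  have hB2 : ∀ r ∈ R, ∀ k ∈ Finset.Icc 1 N, ‖m r *
        ((ArithmeticFunction.vonMangoldt k * cut (b + θ) θ (Real.log k / Real.log T) : ℝ) : ℂ) *
        ((r : ℂ) ^ (-s) * (k : ℂ) ^ (-s)) * (riemannZeta s - Zp T (b + 2)
          (fun y => cut (b + 1 + 4 * θ) θ (Real.log (r * k) / Real.log T + y)) s)‖ ≤
      T ^ (b + 2) * ε := by
    intro r hr k hk
    obtain ⟨h1, h2, h3⟩ := hR r hr
    obtain ⟨h4, h5⟩ := hlog r hr
    obtain ⟨hk1, hk2⟩ := Finset.mem_Icc.1 hk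
    have hr1' : (1 : ℝ) ≤ r := by exact_mod_cast h1
    have hk1' : (1 : ℝ) ≤ k := by exact_mod_cast hk1
    have hkT : (k : ℝ) ≤ T ^ (b + 2) := (Nat.cast_le.2 hk2).trans hNT
    have hΛ : ArithmeticFunction.vonMangoldt k ≤ T ^ (b + 2) := by
      refine ArithmeticFunction.vonMangoldt_le_log.trans ?_
      refine (Real.log_le_sub_one_of_pos (by linarith)).trans ?_
      linarith
    have hpos : 0 ≤ T ^ (b + 2) * ε := mul_nonneg (Real.rpow_nonneg hT0.le _) hε0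
    by_cases hc : cut (b + θ) θ (Real.log k / Real.log T) = 0
    · rw [hc, mul_zero]
      simpa using hpos
    · have hlt : Real.log k / Real.log T < b + 2 * θ := by
        by_contra hcon
        push Not at hcon
        exact hc (cut_zero hθ (by linarith))
      have hlk : Real.log (r * k) / Real.log T = Real.log r / Real.log T + Real.log k / Real.log T := by
        rw [Real.log_mul (by linarith) (by linarith), add_div]
      have hlk0 : 0 ≤ Real.log k / Real.log T := div_nonneg (Real.log_nonneg hk1') hL.le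
      have hz := H T hT (Real.log (r * k) / Real.log T) (by rw [hlk]; linarith)
        (by rw [hlk]; linarith) s (by rw [hre]; linarith) (by rw [hre]; linarith)
        (by rw [him]; linarith) (by rw [him]; linarith)
      rw [norm_mul, norm_mul, norm_mul, norm_mul]
      have hn1 : ‖((ArithmeticFunction.vonMangoldt k *
          cut (b + θ) θ (Real.log k / Real.log T) : ℝ) : ℂ)‖ ≤ T ^ (b + 2) := by
        rw [Complex.norm_real, Real.norm_eq_abs, abs_mul,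
          abs_of_nonneg ArithmeticFunction.vonMangoldt_nonneg, abs_of_nonneg (cut_nonneg _ _ _)]
        calc _ ≤ T ^ (b + 2) * 1 := mul_le_mul hΛ (cut_le_one _ _ _) (cut_nonneg _ _ _)
              (Real.rpow_nonneg hT0.le _)
          _ = _ := mul_one _
      have hn2 : ‖(r : ℂ) ^ (-s)‖ * ‖(k : ℂ) ^ (-s)‖ ≤ 1 := by
        calc _ ≤ 1 * 1 := mul_le_mul (GAp_norm_cpow h1 hsre) (GAp_norm_cpow hk1 hsre)
              (norm_nonneg _) zero_le_one
          _ = 1 := by norm_num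
      calc _ ≤ 1 * T ^ (b + 2) * 1 * ε := by
            refine mul_le_mul (mul_le_mul (mul_le_mul h3 hn1 (norm_nonneg _) zero_le_one) hn2
              (by positivity) (by positivity)) hz (norm_nonneg _) (by positivity)
        _ = _ := by ring
  -- the number of `r`
  have hcard : (R.card : ℝ) ≤ T := by
    have h1 : R ⊆ Finset.Icc 1 ⌊T ^ θ⌋₊ := by
      intro r hr
      obtain ⟨h1, h2, -⟩ := hR r hr
      exact Finset.mem_Icc.2 ⟨h1, Nat.le_floor h2⟩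
    have h2 := Finset.card_le_card h1
    rw [Nat.card_Icc, Nat.add_sub_cancel] at h2
    calc (R.card : ℝ) ≤ (⌊T ^ θ⌋₊ : ℝ) := by exact_mod_cast h2
      _ ≤ T ^ θ := Nat.floor_le (Real.rpow_nonneg hT0.le _)
      _ ≤ T ^ (1 : ℝ) := Real.rpow_le_rpow_of_exponent_le (by linarith) (by linarith)
      _ = T := Real.rpow_one T
  rw [GAp_id (fun r hr => (hR r hr).1) s]
  have hS1 := norm_sum_le_of_le R hB1
  have hS2 := norm_sum_le_of_le R (fun r hr => norm_sum_le_of_le (Finset.Icc 1 N) (hB2 r hr))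
  rw [Finset.sum_const, nsmul_eq_mul] at hS1
  simp only [Finset.sum_const, Nat.card_Icc, Nat.add_sub_cancel, nsmul_eq_mul] at hS2
  have e1 : T * (8 * ε) ≤ 8 * T ^ (-5 : ℝ) := by
    have h1 : T * ε = T ^ (1 + (-(2 * b + 10))) := by
      rw [Real.rpow_add hT0, Real.rpow_one]
    have h2 : T ^ (1 + (-(2 * b + 10))) ≤ T ^ (-5 : ℝ) :=
      Real.rpow_le_rpow_of_exponent_le (by linarith) (by linarith)
    calc T * (8 * ε) = 8 * (T * ε) := by ring
      _ ≤ _ := by rw [h1]; linarith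
  have e2 : T * (T ^ (b + 2) * (T ^ (b + 2) * ε)) = T ^ (-5 : ℝ) := by
    rw [hε, ← Real.rpow_add hT0, ← Real.rpow_add hT0]
    nth_rewrite 1 [← Real.rpow_one T]
    rw [← Real.rpow_add hT0]
    congr 1
    ring
  have e3 : 9 * T ^ (-5 : ℝ) ≤ 1 / T := by
    have h1 : T ^ (-5 : ℝ) = 1 / T ^ 5 := by
      rw [Real.rpow_neg hT0.le, one_div]
      norm_cast
    rw [h1, mul_one_div, div_le_div_iff₀ (by positivity) hT0]
    have h2 : (9 : ℝ) ≤ T ^ 4 := by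
      calc (9 : ℝ) ≤ 3 ^ 4 := by norm_num
        _ ≤ T ^ 4 := pow_le_pow_left₀ (by norm_num) hT3 4
    nlinarith
  calc _ ≤ (R.card : ℝ) * (8 * ε) + (R.card : ℝ) * ((N : ℝ) * (T ^ (b + 2) * ε)) :=
        (norm_add_le _ _).trans (add_le_add hS1 hS2)
    _ ≤ T * (8 * ε) + T * (T ^ (b + 2) * (T ^ (b + 2) * ε)) := by
        gcongr
    _ ≤ 8 * T ^ (-5 : ℝ) + T ^ (-5 : ℝ) := by rw [e2]; linarith
    _ = 9 * T ^ (-5 : ℝ) := by ring
    _ ≤ 1 / T := e3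

end Pool.Agent.Lib.MP_2a816b_nt.SG
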