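import Pool.Agent.Lib.MP_2a816b_nt.SG.Unif
import Pool.Agent.Lib.MP_2a816b_nt.LM.Rate

/-!
# Means of the normalised variance over windows of exponents: all windows of length `> 1`, with a constant tending to `1`
-/

namespace Pool.Agent.Lib.MP_2a816b_nt.SG

open Complex Set Filter Topology MeasureTheory
open Pool.Agent.Lib.MP_2a816b_nt.PV (RR)

private theorem Means_int {T b l : ℝ} (hT : 2 ≤ T) (hl : 0 < l) : IntervalIntegrable (fun α => RR α T) volume b (b + l) :=
  (PV.star_avg hT (by linarith)).1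

/-- the weighted mean over a window of length `> 1` -/
private theorem Means_pos {b l : ℝ} (hb : 1 ≤ b) (hl : 1 < l) :
    ∃ c : ℝ, 0 < c ∧ ∀ᶠ T : ℝ in atTop, c ≤ (2 / l ^ 2) * ∫ α in b..(b + l), (b + l - α) * RR α T := by
  set l' : ℝ := (1 + l) / 2 with hl'
  have h1 : 1 < l' := by rw [hl']; linarith
  have h2 : l' < l := by rw [hl']; linarith
  obtain ⟨c, hc, H⟩ := no_gap hb h1
  refine ⟨(2 / l ^ 2) * ((l - l') * c), by have := sub_pos.2 h2; positivity, ?_⟩
  filter_upwards [H, eventually_ge_atTop (2 : ℝ)] with T hT hT2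
  refine mul_le_mul_of_nonneg_left ?_ (by positivity)
  have hi := Means_int (T := T) (b := b) hT2 (by linarith : 0 < l)
  have hi' := Means_int (T := T) (b := b) hT2 (by linarith : 0 < l')
  have hw : IntervalIntegrable (fun α => (b + l - α) * RR α T) volume b (b + l) :=
    hi.continuousOn_mul (by fun_prop)
  have hw' : IntervalIntegrable (fun α => (b + l - α) * RR α T) volume b (b + l') :=
    hi'.continuousOn_mul (by fun_prop)
  calc (l - l') * c ≤ (l - l') * ∫ α in b..(b + l'), RR α T := mul_le_mul_of_nonneg_left hT (by linarith)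
    _ = ∫ α in b..(b + l'), (l - l') * RR α T := by rw [intervalIntegral.integral_const_mul]
    _ ≤ ∫ α in b..(b + l'), (b + l - α) * RR α T := by
        refine intervalIntegral.integral_mono_on (by linarith) (hi'.const_mul _) hw' fun α hα => ?_
        exact mul_le_mul_of_nonneg_right (by linarith [hα.2]) (PV.RR_nonneg hT2 α)
    _ ≤ ∫ α in b..(b + l), (b + l - α) * RR α T := by
        refine intervalIntegral.integral_mono_interval le_rfl (by linarith) (by linarith) ?_ hw
        refine (ae_restrict_mem measurableSet_Ioc).mono fun α hα => ?_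
        exact mul_nonneg (by linarith [hα.2]) (PV.RR_nonneg hT2 α)

theorem means {b : ℝ} (hb : 1 ≤ b) :
    ∃ C : ℝ, ∀ l : ℝ, 1 < l → ∃ m : ℝ, 0 < m ∧ 1 - C / l ≤ m ∧
      ∀ᶠ T : ℝ in atTop, m ≤ (2 / l ^ 2) * ∫ α in b..(b + l), (b + l - α) * RR α T := by
  obtain ⟨C, -, H⟩ := LM.lower_rate hb
  refine ⟨C, fun l hl => ?_⟩
  obtain ⟨c, hc, Hc⟩ := Means_pos hb hl
  refine ⟨max c (1 - C / l), lt_max_of_lt_left hc, le_max_right _ _, ?_⟩
  filter_upwards [Hc, H l hl.le] with T h1 h2
  exact max_le h1 h2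

end Pool.Agent.Lib.MP_2a816b_nt.SG
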