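import Pool.Agent.Lib.MP_2a816b_nt.SG.Cut

/-!
# Smooth sums of `n^(-s)` over `n ≥ T^(1+ε)` are tiny

`L = log T`, `G(y) = ψ(log y / L) y^(-z)`, smooth, supported in `[T^(1+ε), T^B]`.
* Derivatives: `G_{ψ,z}' = (1/L) G_{ψ', z+1} - z G_{ψ, z+1}`.
* So `2 π i m ∫ e(-m y) G_{ψ,z} = (1/L) ∫ e(-m y) G_{ψ',z+1} - z ∫ e(-m y) G_{ψ,z+1}`, by induction the integral for `m ≠ 0` is at most
  `(1 + |z| + n)^n S T^B T^(-(1+ε)(σ+n)) |m|^(-n)`, and for `m = 0` (with `z - 1` in place of `z`) at most `(L |z - 1|)^(-n) S T^B`.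
* Poisson summation.
-/

namespace Pool.Agent.Lib.MP_2a816b_nt.SG

open Complex Set Filter Topology MeasureTheory
open scoped ContDiff

/-- the summand as a function on the real line -/
noncomputable def PsnG (L : ℝ) (ψ : ℝ → ℝ) (z : ℂ) (y : ℝ) : ℂ :=
  if 0 < y then ((ψ (Real.log y / L) : ℝ) : ℂ) * (y : ℂ) ^ (-z) else 0

/-- smooth and supported in `[a, B]` -/
structure PsnAdm (a B : ℝ) (ψ : ℝ → ℝ) : Prop where
  smooth : ContDiff ℝ ∞ ψ
  zero : ∀ y, y ≤ a ∨ B ≤ y → ψ y = 0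

theorem PsnAdm.der {a B : ℝ} {ψ : ℝ → ℝ} (h : PsnAdm a B ψ) : PsnAdm a B (deriv ψ) := by
  have hs := (contDiff_infty_iff_deriv.mp h.smooth).2
  refine ⟨hs, fun y hy => ?_⟩
  have hcl : IsClosed {x : ℝ | deriv ψ x = 0} := isClosed_eq hs.continuous continuous_const
  rcases hy with hy | hy
  · have h1 : Iio a ⊆ {x : ℝ | deriv ψ x = 0} := fun x hx => by
      have : ψ =ᶠ[𝓝 x] fun _ => 0 := by
        filter_upwards [Iio_mem_nhds hx] with w hw using h.zero w (Or.inl (le_of_lt hw))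
      show deriv ψ x = 0
      rw [this.deriv_eq]; simp
    have h2 := hcl.closure_subset_iff.mpr h1
    rw [closure_Iio] at h2
    exact h2 hy
  · have h1 : Ioi B ⊆ {x : ℝ | deriv ψ x = 0} := fun x hx => by
      have : ψ =ᶠ[𝓝 x] fun _ => 0 := by
        filter_upwards [Ioi_mem_nhds hx] with w hw using h.zero w (Or.inr (le_of_lt hw))
      show deriv ψ x = 0
      rw [this.deriv_eq]; simp
    have h2 := hcl.closure_subset_iff.mpr h1
    rw [closure_Ioi] at h2
    exact h2 hy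

section
variable {a B T : ℝ} {ψ : ℝ → ℝ}

theorem psnG_zero (hT : 1 < T) (h : PsnAdm a B ψ) (z : ℂ) {y : ℝ} (hy : y ≤ T ^ a ∨ T ^ B ≤ y) :
    PsnG (Real.log T) ψ z y = 0 := by
  unfold PsnG
  split_ifs with h0
  · have hL : 0 < Real.log T := Real.log_pos hT
    have : ψ (Real.log y / Real.log T) = 0 := by
      apply h.zero
      rcases hy with hy | hy
      · left
        rw [div_le_iff₀ hL, ← Real.log_rpow (by linarith)]
        exact Real.log_le_log h0 hy
      · right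
        rw [le_div_iff₀ hL, ← Real.log_rpow (by linarith)]
        exact Real.log_le_log (Real.rpow_pos_of_pos (by linarith) _) hy
    rw [this]; simp
  · rfl

theorem psnG_hasDeriv (ha : 0 ≤ a) (hT : 1 < T) (h : PsnAdm a B ψ) (z : ℂ) (y : ℝ) :
    HasDerivAt (PsnG (Real.log T) ψ z)
      (((1 / Real.log T : ℝ) : ℂ) * PsnG (Real.log T) (deriv ψ) (z + 1) y -
        z * PsnG (Real.log T) ψ (z + 1) y) y := by
  have hL : 0 < Real.log T := Real.log_pos hT
  have hone : (1 : ℝ) ≤ T ^ a := Real.one_le_rpow hT.le ha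
  rcases lt_or_ge 0 y with hy | hy
  · have h1 : HasDerivAt (fun y => Real.log y / Real.log T) (y⁻¹ / Real.log T) y :=
      (Real.hasDerivAt_log hy.ne').div_const _
    have hd := ((contDiff_infty_iff_deriv.mp h.smooth).1 (Real.log y / Real.log T)).hasDerivAt
    have h2 := HasDerivAt.comp y hd h1
    have h3 := h2.ofReal_comp
    have h4 : HasDerivAt (fun y : ℝ => (y : ℂ) ^ (-z)) ((-z) * (y : ℂ) ^ (-z - 1)) y := by
      have := ((hasDerivAt_id (y : ℂ)).cpow_const (c := -z) (Or.inl (by simpa using hy))).comp_ofReal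
      simpa using this
    have h5 := h3.mul h4
    refine (h5.congr_deriv ?_).congr_of_eventuallyEq ?_
    · simp only [PsnG, if_pos hy, Function.comp_apply]
      have e1 : (y : ℂ) ^ (-(z + 1)) = (y : ℂ) ^ (-z) * (y : ℂ)⁻¹ := by
        rw [neg_add, ← sub_eq_add_neg, cpow_sub _ _ (ofReal_ne_zero.mpr hy.ne'), cpow_one,
          div_eq_mul_inv]
      have e2 : (y : ℂ) ^ (-z - 1) = (y : ℂ) ^ (-z) * (y : ℂ)⁻¹ := by
        rw [cpow_sub _ _ (ofReal_ne_zero.mpr hy.ne'), cpow_one, div_eq_mul_inv]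
      rw [e1, e2]
      push_cast
      ring
    · filter_upwards [Ioi_mem_nhds hy] with w hw
      have hw' : 0 < w := hw
      simp [PsnG, hw']
  · have h6 : PsnG (Real.log T) ψ z =ᶠ[𝓝 y] fun _ => 0 := by
      filter_upwards [Iio_mem_nhds (show y < 1 by linarith)] with w hw
      have hw' : w < 1 := hw
      exact psnG_zero hT h z (Or.inl (by linarith))
    have h7 : (((1 / Real.log T : ℝ) : ℂ) * PsnG (Real.log T) (deriv ψ) (z + 1) y -
        z * PsnG (Real.log T) ψ (z + 1) y) = 0 := by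
      simp [PsnG, not_lt.mpr hy]
    rw [h7]
    exact (hasDerivAt_const y (0 : ℂ)).congr_of_eventuallyEq h6

theorem psnG_cont (ha : 0 ≤ a) (hT : 1 < T) (h : PsnAdm a B ψ) (z : ℂ) :
    Continuous (PsnG (Real.log T) ψ z) :=
  continuous_iff_continuousAt.mpr fun y => (psnG_hasDeriv ha hT h z y).continuousAt

theorem psnG_supp (hT : 1 < T) (h : PsnAdm a B ψ) (z : ℂ) :
    HasCompactSupport (PsnG (Real.log T) ψ z) :=
  HasCompactSupport.intro (isCompact_Icc (a := T ^ a) (b := T ^ B)) fun y hy => by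
    apply psnG_zero hT h z
    by_contra hc
    push Not at hc
    exact hy ⟨hc.1.le, hc.2.le⟩

/-- the additive character -/
noncomputable def PsnE (m y : ℝ) : ℂ := cexp (((-2 * Real.pi * y * m : ℝ) : ℂ) * I)

theorem psnE_norm (m y : ℝ) : ‖PsnE m y‖ = 1 := Complex.norm_exp_ofReal_mul_I _

theorem psnE_hasDeriv (m y : ℝ) : HasDerivAt (PsnE m) (-(2 * Real.pi * m * I) * PsnE m y) y := by
  have h1 : HasDerivAt (fun y : ℝ => -2 * Real.pi * y * m) (-2 * Real.pi * m) y := by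
    have := ((hasDerivAt_id y).const_mul (-2 * Real.pi)).mul_const m
    simpa using this
  have h2 := (h1.ofReal_comp.mul_const I).cexp
  refine h2.congr_deriv ?_
  unfold PsnE
  push_cast
  ring

theorem psnE_cont (m : ℝ) : Continuous (PsnE m) :=
  continuous_iff_continuousAt.mpr fun y => (psnE_hasDeriv m y).continuousAt

theorem psn_integrable (ha : 0 ≤ a) (hT : 1 < T) (h : PsnAdm a B ψ) (z : ℂ) (m : ℝ) :
    Integrable (fun y => PsnE m y * PsnG (Real.log T) ψ z y) :=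
  ((psnE_cont m).mul (psnG_cont ha hT h z)).integrable_of_hasCompactSupport
    (psnG_supp hT h z).mul_left

/-- integration by parts -/
theorem psn_step (ha : 0 ≤ a) (hT : 1 < T) (h : PsnAdm a B ψ) (z : ℂ) (m : ℝ) :
    (2 * Real.pi * m * I) * (∫ y, PsnE m y * PsnG (Real.log T) ψ z y) =
      ((1 / Real.log T : ℝ) : ℂ) * (∫ y, PsnE m y * PsnG (Real.log T) (deriv ψ) (z + 1) y) -
        z * ∫ y, PsnE m y * PsnG (Real.log T) ψ (z + 1) y := by
  have i0 := psn_integrable ha hT h z m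
  have i1 := psn_integrable ha hT h.der (z + 1) m
  have i2 := psn_integrable ha hT h (z + 1) m
  have hd : ∀ y, HasDerivAt (fun y => PsnE m y * PsnG (Real.log T) ψ z y)
      (-(2 * Real.pi * m * I) * (PsnE m y * PsnG (Real.log T) ψ z y) +
        (((1 / Real.log T : ℝ) : ℂ) * (PsnE m y * PsnG (Real.log T) (deriv ψ) (z + 1) y) -
          z * (PsnE m y * PsnG (Real.log T) ψ (z + 1) y))) y := fun y => by
    refine ((psnE_hasDeriv m y).mul (psnG_hasDeriv ha hT h z y)).congr_deriv ?_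
    ring
  have hz := integral_eq_zero_of_hasDerivAt_of_integrable hd
    ((i0.const_mul _).add ((i1.const_mul _).sub (i2.const_mul _))) i0
  have j12 : Integrable (fun y => ((1 / Real.log T : ℝ) : ℂ) * (PsnE m y * PsnG (Real.log T) (deriv ψ) (z + 1) y) -
      z * (PsnE m y * PsnG (Real.log T) ψ (z + 1) y)) := (i1.const_mul _).sub (i2.const_mul _)
  rw [integral_add (i0.const_mul _) j12, integral_sub (i1.const_mul _) (i2.const_mul _), integral_const_mul,
    integral_const_mul, integral_const_mul] at hz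
  linear_combination -hz

/-- the trivial bound -/
theorem psn_triv (hT : 1 < T) (h : PsnAdm a B ψ) (z : ℂ) (hz : 0 ≤ z.re) (m : ℝ) {S : ℝ}
    (hS : ∀ y, |ψ y| ≤ S) :
    ‖∫ y, PsnE m y * PsnG (Real.log T) ψ z y‖ ≤ S * T ^ B * T ^ (-(a * z.re)) := by
  have hT0 : 0 < T := by linarith
  have hS0 : 0 ≤ S := (abs_nonneg _).trans (hS 0)
  have h1 : ∫ y in Icc 0 (T ^ B), PsnE m y * PsnG (Real.log T) ψ z y =
      ∫ y, PsnE m y * PsnG (Real.log T) ψ z y := by
    apply setIntegral_eq_integral_of_forall_compl_eq_zero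
    intro y hy
    have : PsnG (Real.log T) ψ z y = 0 := by
      by_cases h0 : 0 ≤ y
      · apply psnG_zero hT h z
        right
        by_contra hc
        exact hy ⟨h0, (not_le.mp hc).le⟩
      · unfold PsnG
        rw [if_neg (by linarith)]
    rw [this, mul_zero]
  rw [← h1]
  have h2 : ∀ y ∈ Icc 0 (T ^ B), ‖PsnE m y * PsnG (Real.log T) ψ z y‖ ≤ S * T ^ (-(a * z.re)) := fun y _ => by
    rw [norm_mul, psnE_norm, one_mul]
    by_cases hy : y ≤ T ^ a
    · rw [psnG_zero hT h z (Or.inl hy), norm_zero]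
      exact mul_nonneg hS0 (Real.rpow_nonneg hT0.le _)
    · push Not at hy
      have hTa : 0 < T ^ a := Real.rpow_pos_of_pos hT0 _
      have hy0 : 0 < y := hTa.trans hy
      unfold PsnG
      rw [if_pos hy0, norm_mul, Complex.norm_real, Complex.norm_cpow_eq_rpow_re_of_pos hy0, neg_re]
      refine mul_le_mul (hS _) ?_ (Real.rpow_nonneg hy0.le _) hS0
      calc y ^ (-z.re) ≤ (T ^ a) ^ (-z.re) := Real.rpow_le_rpow_of_nonpos hTa hy.le (by linarith)
        _ = T ^ (-(a * z.re)) := by rw [← Real.rpow_mul hT0.le]; congr 1; ring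
  have h3 := norm_setIntegral_le_of_norm_le_const (μ := volume) (s := Icc (0 : ℝ) (T ^ B))
    (by simp) h2
  refine h3.trans (le_of_eq ?_)
  rw [Measure.real, Real.volume_Icc, sub_zero, ENNReal.toReal_ofReal (Real.rpow_nonneg hT0.le _)]
  ring

theorem psn_four (ha : 0 ≤ a) (hT : 3 ≤ T) (m : ℤ) (hm : m ≠ 0) (n : ℕ) : ∀ (ψ : ℝ → ℝ) (z : ℂ) (S : ℝ),
    PsnAdm a B ψ → (∀ i : ℕ, i ≤ n → ∀ y, |iteratedDeriv i ψ y| ≤ S) → 0 ≤ z.re →
    ‖∫ y, PsnE m y * PsnG (Real.log T) ψ z y‖ ≤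
      (1 + ‖z‖ + n) ^ n * (S * T ^ B * T ^ (-(a * (z.re + n)))) / |(m : ℝ)| ^ n := by
  have hT1 : 1 < T := by linarith
  have hT0 : 0 < T := by linarith
  have hm1 : 1 ≤ |(m : ℝ)| := by
    rw [← Int.cast_abs]; exact_mod_cast Int.one_le_abs hm
  have hL1 : 1 ≤ Real.log T := by
    have h3 : Real.exp 1 ≤ T := by linarith [Real.exp_one_lt_d9]
    have := Real.log_le_log (Real.exp_pos 1) h3
    rwa [Real.log_exp] at this
  induction n with
  | zero =>
    intro ψ z S hψ hS hz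
    have := psn_triv hT1 hψ z hz m (S := S) (fun y => by simpa using hS 0 le_rfl y)
    simpa using this
  | succ n ih =>
    intro ψ z S hψ hS hz
    have hS0 : 0 ≤ S := (abs_nonneg _).trans (hS 0 (Nat.zero_le _) 0)
    have hz1 : (0 : ℝ) ≤ (z + 1).re := by rw [add_re, one_re]; linarith
    have b1 := ih (deriv ψ) (z + 1) S hψ.der (fun i hi y => by
      rw [← iteratedDeriv_succ']; exact hS (i + 1) (by omega) y) hz1
    have b2 := ih ψ (z + 1) S hψ (fun i hi y => hS i (by omega) y) hz1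
    have hst := psn_step ha hT1 hψ z (m : ℝ)
    set X : ℝ := (1 + ‖z + 1‖ + n) ^ n * (S * T ^ B * T ^ (-(a * ((z + 1).re + n)))) / |(m : ℝ)| ^ n with hX
    set I0 := ∫ y, PsnE m y * PsnG (Real.log T) ψ z y with hI0
    have hX0 : 0 ≤ X := (norm_nonneg _).trans b1
    have h1 : 2 * Real.pi * |(m : ℝ)| * ‖I0‖ ≤ (1 + ‖z‖) * X := by
      have e1 : ‖(2 * Real.pi * (m : ℝ) * I : ℂ) * I0‖ = 2 * Real.pi * |(m : ℝ)| * ‖I0‖ := by
        rw [norm_mul, norm_mul, norm_mul, norm_mul, Complex.norm_I, mul_one, Complex.norm_real,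
          Complex.norm_real, Real.norm_eq_abs, Real.norm_eq_abs, abs_of_pos Real.pi_pos]
        norm_num
      rw [← e1, hst]
      refine (norm_sub_le _ _).trans ?_
      rw [norm_mul, norm_mul, Complex.norm_real, Real.norm_eq_abs]
      have h2 : |1 / Real.log T| ≤ 1 := by
        rw [abs_of_pos (by positivity)]
        exact (div_le_one (by linarith)).mpr hL1
      calc _ ≤ 1 * X + ‖z‖ * X := add_le_add (mul_le_mul h2 b1 (norm_nonneg _) zero_le_one)
            (mul_le_mul_of_nonneg_left b2 (norm_nonneg _))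
        _ = (1 + ‖z‖) * X := by ring
    have h2 : |(m : ℝ)| * ‖I0‖ ≤ (1 + ‖z‖) * X := by
      refine le_trans ?_ h1
      have : 0 ≤ |(m : ℝ)| * ‖I0‖ := by positivity
      have hpi : (1 : ℝ) ≤ 2 * Real.pi := by linarith [Real.pi_gt_three]
      nlinarith
    have h3 : X ≤ (1 + ‖z‖ + (n + 1 : ℕ)) ^ n * (S * T ^ B * T ^ (-(a * (z.re + (n + 1 : ℕ))))) / |(m : ℝ)| ^ n := by
      rw [hX]
      have e2 : (z + 1).re + n = z.re + (n + 1 : ℕ) := by rw [add_re, one_re]; push_cast; ring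
      rw [e2]
      have hb : 1 + ‖z + 1‖ + n ≤ 1 + ‖z‖ + (n + 1 : ℕ) := by
        have := norm_add_le z 1
        rw [norm_one] at this
        push_cast
        linarith
      refine div_le_div_of_nonneg_right (mul_le_mul_of_nonneg_right
        (pow_le_pow_left₀ (by positivity) hb n) ?_) (by positivity)
      exact mul_nonneg (mul_nonneg hS0 (Real.rpow_nonneg hT0.le _)) (Real.rpow_nonneg hT0.le _)
    have h4 : 1 + ‖z‖ ≤ 1 + ‖z‖ + (n + 1 : ℕ) := by
      have : (0 : ℝ) ≤ (n + 1 : ℕ) := by positivity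
      linarith
    have h5 : |(m : ℝ)| * ‖I0‖ ≤ (1 + ‖z‖ + (n + 1 : ℕ)) *
        ((1 + ‖z‖ + (n + 1 : ℕ)) ^ n * (S * T ^ B * T ^ (-(a * (z.re + (n + 1 : ℕ))))) / |(m : ℝ)| ^ n) :=
      h2.trans (mul_le_mul h4 h3 hX0 (by positivity))
    have hm0 : 0 < |(m : ℝ)| := by linarith
    rw [le_div_iff₀ (by positivity), pow_succ (|(m : ℝ)|)]
    have h6 : (1 + ‖z‖ + (n + 1 : ℕ)) *
        ((1 + ‖z‖ + (n + 1 : ℕ)) ^ n * (S * T ^ B * T ^ (-(a * (z.re + (n + 1 : ℕ))))) / |(m : ℝ)| ^ n) *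
        |(m : ℝ)| ^ n = (1 + ‖z‖ + (n + 1 : ℕ)) ^ (n + 1) * (S * T ^ B * T ^ (-(a * (z.re + (n + 1 : ℕ))))) := by
      field_simp
      ring
    calc ‖I0‖ * (|(m : ℝ)| ^ n * |(m : ℝ)|) = |(m : ℝ)| * ‖I0‖ * |(m : ℝ)| ^ n := by ring
      _ ≤ _ := mul_le_mul_of_nonneg_right h5 (by positivity)
      _ = _ := h6

theorem psn_zeromode (ha : 0 ≤ a) (hT : 1 < T) (z : ℂ) (hz : 0 ≤ z.re) (hz1 : z ≠ 1) (n : ℕ) :
    ∀ (ψ : ℝ → ℝ) (S : ℝ), PsnAdm a B ψ → (∀ i : ℕ, i ≤ n → ∀ y, |iteratedDeriv i ψ y| ≤ S) →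
    ‖∫ y, PsnE 0 y * PsnG (Real.log T) ψ z y‖ ≤
      (1 / (Real.log T * ‖z - 1‖)) ^ n * (S * T ^ B * T ^ (-(a * z.re))) := by
  have hL : 0 < Real.log T := Real.log_pos hT
  have hz0 : 0 < ‖z - 1‖ := norm_pos_iff.mpr (sub_ne_zero.mpr hz1)
  induction n with
  | zero =>
    intro ψ S hψ hS
    have := psn_triv hT hψ z hz 0 (S := S) (fun y => by simpa using hS 0 le_rfl y)
    simpa using this
  | succ n ih =>
    intro ψ S hψ hS
    have b1 := ih (deriv ψ) S hψ.der (fun i hi y => by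
      rw [← iteratedDeriv_succ']; exact hS (i + 1) (by omega) y)
    have hst := psn_step ha hT hψ (z - 1) 0
    rw [sub_add_cancel] at hst
    have e0 : (2 * Real.pi * ((0 : ℝ) : ℂ) * I : ℂ) * (∫ y, PsnE 0 y * PsnG (Real.log T) ψ (z - 1) y) = 0 := by
      simp
    rw [e0] at hst
    have h1 : (z - 1) * (∫ y, PsnE 0 y * PsnG (Real.log T) ψ z y) =
        ((1 / Real.log T : ℝ) : ℂ) * ∫ y, PsnE 0 y * PsnG (Real.log T) (deriv ψ) z y := by
      linear_combination hst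
    have h2 : ‖z - 1‖ * ‖∫ y, PsnE 0 y * PsnG (Real.log T) ψ z y‖ =
        (1 / Real.log T) * ‖∫ y, PsnE 0 y * PsnG (Real.log T) (deriv ψ) z y‖ := by
      rw [← norm_mul, h1, norm_mul, Complex.norm_real, Real.norm_eq_abs, abs_of_pos (by positivity)]
    have h3 : ‖∫ y, PsnE 0 y * PsnG (Real.log T) ψ z y‖ =
        (1 / (Real.log T * ‖z - 1‖)) * ‖∫ y, PsnE 0 y * PsnG (Real.log T) (deriv ψ) z y‖ := by
      field_simp
      field_simp at h2
      linarith
    rw [h3, pow_succ', mul_assoc]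
    exact mul_le_mul_of_nonneg_left b1 (by positivity)

end

theorem psn (ε B A : ℝ) (hε : 0 < ε) (hB : 1 + ε < B) : ∃ (k : ℕ) (C : ℝ), 0 ≤ C ∧
    ∀ (φ : ℝ → ℝ) (S T : ℝ) (s : ℂ), ContDiff ℝ ∞ φ → (∀ y, y ≤ 1 + ε ∨ B ≤ y → φ y = 0) →
      (∀ i : ℕ, i ≤ k → ∀ y, |iteratedDeriv i φ y| ≤ S) → 3 ≤ T → 0 ≤ s.re → s.re ≤ 1 →
        T / 8 ≤ s.im → s.im ≤ 8 * T → ‖Zp T B φ s‖ ≤ C * S * T ^ (-A) := by
  have hsum : Summable fun n : ℤ => 1 / (n : ℝ) ^ 2 := Real.summable_one_div_int_pow.mpr (by norm_num)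
  set κ : ℝ := ∑' n : ℤ, 1 / (n : ℝ) ^ 2 with hκ
  have hκ0 : 0 ≤ κ := tsum_nonneg fun n => by positivity
  set k : ℕ := 2 + ⌈|A + B| / ε⌉₊ + ⌈|A + B|⌉₊ with hk
  have hk2 : 2 ≤ k := by omega
  have hkε : A + B ≤ ε * k := by
    have h1 : |A + B| / ε ≤ (k : ℝ) := (Nat.le_ceil _).trans (by exact_mod_cast (by omega : ⌈|A + B| / ε⌉₊ ≤ k))
    have h2 := (div_le_iff₀ hε).mp h1
    linarith [le_abs_self (A + B)]
  have hkA : A + B ≤ k := by
    have h1 : |A + B| ≤ (k : ℝ) := (Nat.le_ceil _).trans (by exact_mod_cast (by omega : ⌈|A + B|⌉₊ ≤ k))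
    linarith [le_abs_self (A + B)]
  refine ⟨k, 8 ^ k + κ * (k + 10) ^ k, by positivity, fun φ S T s hφ hφ0 hS hT hs0 hs1 hi1 hi2 => ?_⟩
  have hadm : PsnAdm (1 + ε) B φ := ⟨hφ, hφ0⟩
  have ha : 0 ≤ 1 + ε := by linarith
  have hT1 : 1 < T := by linarith
  have hT0 : 0 < T := by linarith
  have hS0 : 0 ≤ S := (abs_nonneg _).trans (hS 0 (Nat.zero_le _) 0)
  have hL1 : 1 ≤ Real.log T := by
    have h3 : Real.exp 1 ≤ T := by linarith [Real.exp_one_lt_d9]
    have := Real.log_le_log (Real.exp_pos 1) h3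
    rwa [Real.log_exp] at this
  set g : ℝ → ℂ := PsnG (Real.log T) φ s with hg
  have hfour : ∀ m : ℤ, FourierTransform.fourier g (m : ℝ) = ∫ y, PsnE m y * PsnG (Real.log T) φ s y := fun m => by
    rw [Real.fourier_real_eq_integral_exp_smul]
    rfl
  -- the bounds
  have hk0 : (0 : ℝ) ≤ k := Nat.cast_nonneg k
  have hnorm : ‖s‖ ≤ 1 + 8 * T := by
    have := Complex.norm_le_abs_re_add_abs_im s
    rw [abs_of_nonneg hs0, abs_of_nonneg (by linarith)] at this
    linarith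
  have hbm : ∀ m : ℤ, m ≠ 0 → ‖FourierTransform.fourier g (m : ℝ)‖ ≤
      ((k + 10) ^ k * S * T ^ (-A)) * (1 / (m : ℝ) ^ 2) := fun m hm => by
    rw [hfour m]
    refine (psn_four ha hT m hm k φ s S hadm hS hs0).trans ?_
    have hm1 : 1 ≤ |(m : ℝ)| := by
      rw [← Int.cast_abs]; exact_mod_cast Int.one_le_abs hm
    have h1 : (1 + ‖s‖ + k) ^ k ≤ (k + 10) ^ k * T ^ k := by
      rw [← mul_pow]
      refine pow_le_pow_left₀ (by positivity) ?_ k
      nlinarith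
    have h2 : T ^ k * (T ^ B * T ^ (-((1 + ε) * (s.re + k)))) ≤ T ^ (-A) := by
      rw [← Real.rpow_natCast T k, ← Real.rpow_add hT0, ← Real.rpow_add hT0]
      refine Real.rpow_le_rpow_of_exponent_le hT1.le ?_
      nlinarith [mul_nonneg ha hs0]
    have h3 : (m : ℝ) ^ 2 ≤ |(m : ℝ)| ^ k := by
      rw [← sq_abs]
      exact pow_le_pow_right₀ hm1 hk2
    have hm2 : 0 < (m : ℝ) ^ 2 := by positivity
    have hTB : 0 ≤ T ^ B * T ^ (-((1 + ε) * (s.re + k))) :=
      mul_nonneg (Real.rpow_nonneg hT0.le _) (Real.rpow_nonneg hT0.le _)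
    have h4 : (1 + ‖s‖ + k) ^ k * (S * T ^ B * T ^ (-((1 + ε) * (s.re + k)))) ≤
        (k + 10) ^ k * S * T ^ (-A) := by
      calc (1 + ‖s‖ + k) ^ k * (S * T ^ B * T ^ (-((1 + ε) * (s.re + k))))
          = (1 + ‖s‖ + k) ^ k * S * (T ^ B * T ^ (-((1 + ε) * (s.re + k)))) := by ring
        _ ≤ ((k + 10) ^ k * T ^ k) * S * (T ^ B * T ^ (-((1 + ε) * (s.re + k)))) := by
            gcongr
        _ = (k + 10) ^ k * S * (T ^ k * (T ^ B * T ^ (-((1 + ε) * (s.re + k))))) := by ring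
        _ ≤ (k + 10) ^ k * S * T ^ (-A) := mul_le_mul_of_nonneg_left h2 (by positivity)
    have hR0 : 0 ≤ (k + 10) ^ k * S * T ^ (-A) :=
      mul_nonneg (by positivity) (Real.rpow_nonneg hT0.le _)
    calc _ ≤ (k + 10) ^ k * S * T ^ (-A) / |(m : ℝ)| ^ k := div_le_div_of_nonneg_right h4 (by positivity)
      _ ≤ (k + 10) ^ k * S * T ^ (-A) / (m : ℝ) ^ 2 := div_le_div_of_nonneg_left hR0 hm2 h3
      _ = _ := by ring
  have hb0 : ‖FourierTransform.fourier g ((0 : ℤ) : ℝ)‖ ≤ 8 ^ k * S * T ^ (-A) := by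
    rw [hfour 0, Int.cast_zero]
    have him : T / 8 ≤ ‖s - 1‖ := by
      have := Complex.abs_im_le_norm (s - 1)
      rw [sub_im, one_im, sub_zero] at this
      exact (hi1.trans (le_abs_self _)).trans this
    have hne : s ≠ 1 := by
      rintro rfl
      rw [one_im] at hi1
      linarith
    refine (psn_zeromode ha hT1 s hs0 hne k φ S hadm hS).trans ?_
    have h1 : 1 / (Real.log T * ‖s - 1‖) ≤ 8 * T⁻¹ := by
      rw [div_le_iff₀ (by nlinarith)]
      have h2 : T / 8 ≤ Real.log T * ‖s - 1‖ := by nlinarith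
      calc (1 : ℝ) = 8 * T⁻¹ * (T / 8) := by field_simp
        _ ≤ _ := mul_le_mul_of_nonneg_left h2 (by positivity)
    have h0 : 0 ≤ 1 / (Real.log T * ‖s - 1‖) := by
      have : 0 ≤ Real.log T * ‖s - 1‖ := by nlinarith
      positivity
    have h2 : (1 / (Real.log T * ‖s - 1‖)) ^ k ≤ 8 ^ k * T ^ (-(k : ℝ)) := by
      rw [Real.rpow_neg hT0.le, Real.rpow_natCast, ← inv_pow, ← mul_pow]
      exact pow_le_pow_left₀ h0 h1 k
    have h3 : T ^ (-(k : ℝ)) * (T ^ B * T ^ (-((1 + ε) * s.re))) ≤ T ^ (-A) := by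
      rw [← Real.rpow_add hT0, ← Real.rpow_add hT0]
      refine Real.rpow_le_rpow_of_exponent_le hT1.le ?_
      nlinarith [mul_nonneg ha hs0]
    have hTB : 0 ≤ T ^ B * T ^ (-((1 + ε) * s.re)) :=
      mul_nonneg (Real.rpow_nonneg hT0.le _) (Real.rpow_nonneg hT0.le _)
    calc (1 / (Real.log T * ‖s - 1‖)) ^ k * (S * T ^ B * T ^ (-((1 + ε) * s.re)))
        = (1 / (Real.log T * ‖s - 1‖)) ^ k * S * (T ^ B * T ^ (-((1 + ε) * s.re))) := by ring
      _ ≤ (8 ^ k * T ^ (-(k : ℝ))) * S * (T ^ B * T ^ (-((1 + ε) * s.re))) := by gcongr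
      _ = 8 ^ k * S * (T ^ (-(k : ℝ)) * (T ^ B * T ^ (-((1 + ε) * s.re)))) := by ring
      _ ≤ 8 ^ k * S * T ^ (-A) := mul_le_mul_of_nonneg_left h3 (by positivity)
  set Z0 : ℝ := 8 ^ k * S * T ^ (-A) with hZ0
  set K : ℝ := (k + 10) ^ k * S * T ^ (-A) with hK
  have hb : ∀ m : ℤ, ‖FourierTransform.fourier g (m : ℝ)‖ ≤
      (if m = 0 then Z0 else 0) + K * (1 / (m : ℝ) ^ 2) := fun m => by
    by_cases hm : m = 0
    · subst hm
      rw [if_pos rfl]
      simpa using hb0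
    · rw [if_neg hm, zero_add]
      exact hbm m hm
  have hbs : HasSum (fun m : ℤ => (if m = 0 then Z0 else 0) + K * (1 / (m : ℝ) ^ 2)) (Z0 + K * κ) :=
    (hasSum_ite_eq (0 : ℤ) Z0).add (hsum.hasSum.mul_left K)
  have hO : g =O[cocompact ℝ] fun x : ℝ => |x| ^ (-(2 : ℝ)) := by
    have h1 : g =ᶠ[cocompact ℝ] fun _ => (0 : ℂ) := by
      have := hasCompactSupport_iff_eventuallyEq.mp (psnG_supp hT1 hadm s)
      rw [Filter.coclosedCompact_eq_cocompact] at this
      exact this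
    exact h1.trans_isBigO (Asymptotics.isBigO_zero _ _)
  have hP := Real.tsum_eq_tsum_fourier_of_rpow_decay_of_summable (psnG_cont ha hT1 hadm s) one_lt_two hO
    (Summable.of_norm_bounded hbs.summable hb) 0
  have hle : ‖∑' n : ℤ, g (0 + n)‖ ≤ Z0 + K * κ := by
    rw [hP]
    refine tsum_of_norm_bounded hbs fun m => ?_
    rw [norm_mul, fourier_apply, Circle.norm_coe, mul_one]
    exact hb m
  have hsumZ : ∑' n : ℤ, g (0 + n) = Zp T B φ s := by
    have h1 : ∑' n : ℤ, g (0 + n) = ∑' n : ℕ, g (0 + ((n : ℤ) : ℝ)) := by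
      refine (Function.Injective.tsum_eq (f := fun n : ℤ => g (0 + n)) Nat.cast_injective ?_).symm
      intro n hn
      rw [Function.mem_support] at hn
      by_contra hc
      have hneg : n < 0 := by
        by_contra h0
        exact hc ⟨n.toNat, Int.toNat_of_nonneg (not_lt.mp h0)⟩
      apply hn
      have : ((n : ℤ) : ℝ) < 0 := by exact_mod_cast hneg
      rw [hg, zero_add]
      unfold PsnG
      rw [if_neg (by linarith)]
    rw [h1, tsum_eq_sum (s := Finset.Icc 1 ⌊T ^ B⌋₊)]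
    · unfold Zp
      refine Finset.sum_congr rfl fun n hn => ?_
      have hn1 : (0 : ℝ) < n := by
        exact_mod_cast (Finset.mem_Icc.mp hn).1
      rw [hg, zero_add, Int.cast_natCast]
      unfold PsnG
      rw [if_pos hn1, Complex.ofReal_natCast]
    · intro n hn
      rw [hg, zero_add, Int.cast_natCast]
      by_cases h0 : n = 0
      · subst h0
        unfold PsnG
        simp
      · apply psnG_zero hT1 hadm s
        right
        have hlt : ⌊T ^ B⌋₊ < n := by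
          by_contra hc
          exact hn (Finset.mem_Icc.mpr ⟨Nat.one_le_iff_ne_zero.mpr h0, not_lt.mp hc⟩)
        exact ((Nat.floor_lt (Real.rpow_nonneg hT0.le _)).mp hlt).le
  rw [← hsumZ]
  refine hle.trans (le_of_eq ?_)
  rw [hZ0, hK]
  ring

end Pool.Agent.Lib.MP_2a816b_nt.SG
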