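import Pool.Agent.Lib.MP_2a816b_nt.SG.Fin

/-!
# No spectral gap, uniformly in the position of the window
-/

namespace Pool.Agent.Lib.MP_2a816b_nt.SG

open Complex Set Filter Topology MeasureTheory

theorem no_gap_unif (A : ℝ) {l : ℝ} (hl : 1 < l) : ∃ c T₀ : ℝ, 0 < c ∧ ∀ T b : ℝ, T₀ ≤ T → 1 ≤ b → b ≤ A →
    c ≤ ∫ α in b..(b + l), PV.RR α T := by
  set h : ℝ := (l - 1) / 2 with hh
  have hh0 : 0 < h := by rw [hh]; linarith
  set l' : ℝ := (1 + l) / 2 with hl'
  have hl'1 : 1 < l' := by rw [hl']; linarith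
  have hb : ∀ i : ℕ, (1 : ℝ) ≤ 1 + i * h := fun i => by
    have : 0 ≤ (i : ℝ) * h := by positivity
    linarith
  choose c hc hcT using fun i : ℕ => no_gap (hb i) hl'1
  set N : ℕ := ⌈(A - 1) / h⌉₊ + 1 with hN
  have hne : (Finset.range N).Nonempty := ⟨0, by rw [Finset.mem_range, hN]; omega⟩
  have hall : ∀ᶠ T : ℝ in atTop, ∀ i ∈ Finset.range N, c i ≤ ∫ α in (1 + i * h)..(1 + i * h + l'), PV.RR α T :=
    (Finset.eventually_all _).2 fun i _ => hcT i
  obtain ⟨T₁, hT₁⟩ := eventually_atTop.1 hall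
  refine ⟨(Finset.range N).inf' hne c, max T₁ 2, ?_, ?_⟩
  · rw [Finset.lt_inf'_iff]
    exact fun i _ => hc i
  · intro T b hT hb1 hbA
    have hT1 : T₁ ≤ T := (le_max_left _ _).trans hT
    have hT2 : 2 ≤ T := (le_max_right _ _).trans hT
    set i : ℕ := ⌈(b - 1) / h⌉₊ with hi
    have hi0 : 0 ≤ (b - 1) / h := div_nonneg (by linarith) hh0.le
    have hi1 : (b - 1) / h ≤ i := Nat.le_ceil _
    have hi2 : (i : ℝ) < (b - 1) / h + 1 := Nat.ceil_lt_add_one hi0
    rw [div_le_iff₀ hh0] at hi1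
    have hi3 : (i : ℝ) * h < b - 1 + h := by
      have := mul_lt_mul_of_pos_right hi2 hh0
      rwa [add_mul, div_mul_cancel₀ _ hh0.ne', one_mul] at this
    have hiN : i ∈ Finset.range N := by
      rw [Finset.mem_range, hN, Nat.lt_succ_iff]
      exact Nat.ceil_le_ceil (div_le_div_of_nonneg_right (by linarith) hh0.le)
    have h1 := hT₁ T hT1 i hiN
    have h2 : ∫ α in (1 + i * h)..(1 + i * h + l'), PV.RR α T ≤ ∫ α in b..(b + l), PV.RR α T := by
      refine intervalIntegral.integral_mono_interval (by linarith) (by linarith) ?_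
        (Filter.Eventually.of_forall fun α => PV.RR_nonneg hT2 α) (PV.star_avg hT2 (by linarith)).1
      rw [hl']
      have e1 : h + (1 + l) / 2 = l := by rw [hh]; ring
      linarith
    exact ((Finset.inf'_le _ hiN).trans h1).trans h2

end Pool.Agent.Lib.MP_2a816b_nt.SG
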