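import Pool.Agent.Lib.MP_2a816b_nt.SG.Cut
import Pool.Agent.Lib.MP_ec260d_ntD.F.FZ

/-!
# LEAF ZLong: zeta is a very long smooth sum

For every `A` there is `B` with `ζ(s) = ∑_{n ≤ T^B} cut (B-1) 1 (log n / L) n^(-s) + O(T^(-A))` for `1/4 ≤ Re s ≤ 3/4`, `T/4 ≤ Im s ≤ 4T`.
Proof: `ζ(s) = ∑_{n ≤ N} n^(-s) + (N + 1)^(1-s)/(s - 1) + O(|s| N^(-σ)/σ)` (`zeta_sum` of MP_ec260d_ntD/F/FZ), average over `N < T^w ≤ N + 1`
with the weight `-χ'(w)`, `χ = cut (B-1) 1`, of total mass `1` on `[B-1, B]`: `∑_n χ(log n / L) n^(-s) = ∫ (-χ'(w)) ∑_{n < T^w} n^(-s) dw`;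
the error is at most `C T · T^(-(B-1)/4)`; the pole term `∫ χ'(w) T^(w(1-s))/(1-s) dw` is small by `k` integrations by parts:
`≤ C_k T^B (1/(L |1-s|))^k`, `k ≥ A + B + 1`.
-/

namespace Pool.Agent.Lib.MP_2a816b_nt.SG

open Complex Set Filter Topology MeasureTheory
open scoped ContDiff

private lemma ZLong_int {f : ℝ → ℝ} (hf : Continuous f) (hs : HasCompactSupport f) {g : ℝ → ℂ} (hg : Continuous g) :
    Integrable (fun w : ℝ => (f w : ℂ) * g w) := by
  refine Continuous.integrable_of_hasCompactSupport ((Complex.continuous_ofReal.comp hf).mul hg) ?_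
  have h1 : HasCompactSupport fun w : ℝ => (f w : ℂ) := hs.comp_left (g := fun x : ℝ => (x : ℂ)) Complex.ofReal_zero
  exact h1.mul_right

/-- repeated integration by parts -/
private lemma ZLong_ibp (z : ℂ) : ∀ (k : ℕ) (f : ℝ → ℝ), ContDiff ℝ ∞ f → HasCompactSupport f →
    ‖z‖ ^ k * ‖∫ w : ℝ, (f w : ℂ) * cexp (z * w)‖ ≤ ∫ w : ℝ, |iteratedDeriv k f w| * Real.exp (z.re * w) := by
  intro k
  induction k with
  | zero =>
    intro f hf hs
    rw [pow_zero, one_mul]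
    refine (norm_integral_le_integral_norm _).trans (le_of_eq ?_)
    refine integral_congr_ae (Eventually.of_forall fun w => ?_)
    show ‖(f w : ℂ) * cexp (z * w)‖ = |iteratedDeriv 0 f w| * Real.exp (z.re * w)
    rw [norm_mul, Complex.norm_real, Complex.norm_exp, iteratedDeriv_zero, Real.norm_eq_abs]
    congr 2
    simp
  | succ k ih =>
    intro f hf hs
    have hd := contDiff_infty_iff_deriv.1 hf
    have hc : Continuous fun w : ℝ => cexp (z * w) := by fun_prop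
    have h1 : ∫ w : ℝ, (f w : ℂ) * (z * cexp (z * w)) = -∫ w : ℝ, ((deriv f w : ℝ) : ℂ) * cexp (z * w) := by
      refine integral_mul_deriv_eq_deriv_mul_of_integrable (u := fun w : ℝ => (f w : ℂ))
        (v := fun w : ℝ => cexp (z * w)) (u' := fun w => ((deriv f w : ℝ) : ℂ))
        (v' := fun w : ℝ => z * cexp (z * w)) ?_ ?_ ?_ ?_ ?_
      · intro w _
        exact (hd.1 w).hasDerivAt.ofReal_comp
      · intro w _
        have h2 : HasDerivAt (fun w : ℝ => z * (w : ℂ)) (z * 1) w :=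
          ((hasDerivAt_id w).ofReal_comp).const_mul z
        have h3 := h2.cexp
        rw [mul_one, mul_comm] at h3
        exact h3
      · exact ZLong_int hf.continuous hs (continuous_const.mul hc)
      · exact ZLong_int hd.2.continuous hs.deriv hc
      · exact ZLong_int hf.continuous hs hc
    have h2 : ∫ w : ℝ, (f w : ℂ) * (z * cexp (z * w)) = z * ∫ w : ℝ, (f w : ℂ) * cexp (z * w) := by
      rw [← integral_const_mul]
      refine integral_congr_ae (Eventually.of_forall fun w => ?_)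
      show (f w : ℂ) * (z * cexp (z * w)) = z * ((f w : ℂ) * cexp (z * w))
      ring
    have h3 : ‖z‖ * ‖∫ w : ℝ, (f w : ℂ) * cexp (z * w)‖ = ‖∫ w : ℝ, ((deriv f w : ℝ) : ℂ) * cexp (z * w)‖ := by
      rw [← norm_mul, ← h2, h1, norm_neg]
    rw [pow_succ, mul_assoc, h3, iteratedDeriv_succ']
    exact ih (deriv f) hd.2 hs.deriv

/-- the sum over `n < X` -/
private lemma ZLong_near {X : ℝ} (hX : 2 ≤ X) {s : ℂ} (h1 : 1 / 4 ≤ s.re) (h2 : s.re ≤ 3 / 4) :
    ‖riemannZeta s - ∑ n ∈ Finset.Icc 1 (⌈X⌉₊ - 1), (n : ℂ) ^ (-s) - (X : ℂ) ^ (1 - s) / (s - 1)‖ ≤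
      (8 * ‖s‖ + 2) * X ^ (-(1 / 4 : ℝ)) := by
  obtain ⟨N, hN⟩ : ∃ N : ℕ, N = ⌈X⌉₊ - 1 := ⟨_, rfl⟩
  rw [← hN]
  have hX0 : 0 < X := by linarith
  have hc0 : 2 ≤ ⌈X⌉₊ := by
    have := Nat.le_ceil X
    have h3 : (2 : ℝ) ≤ (⌈X⌉₊ : ℝ) := hX.trans this
    exact_mod_cast h3
  have hN1 : 1 ≤ N := by omega
  have hNX : (N : ℝ) < X := by
    have h3 : N < ⌈X⌉₊ := by omega
    exact Nat.lt_ceil.1 h3
  have hXN : X ≤ (N : ℝ) + 1 := by
    have h3 : ⌈X⌉₊ = N + 1 := by omega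
    have h4 := Nat.le_ceil X
    rw [h3] at h4
    push_cast at h4
    exact h4
  have hN0 : (0 : ℝ) < N := by exact_mod_cast hN1
  have hσ : 0 < s.re := by linarith
  have hs1 : s ≠ 1 := by
    intro h
    rw [h, Complex.one_re] at h2
    linarith
  have hsn : s - 1 ≠ 0 := sub_ne_zero.2 hs1
  have h3 := Pool.Agent.Lib.MP_ec260d_ntD.zeta_sum s hσ hs1 N hN1
  -- the difference of the pole terms
  have h4 : ‖((N : ℂ) + 1) ^ (1 - s) / (s - 1) - (X : ℂ) ^ (1 - s) / (s - 1)‖ ≤ X ^ (-s.re) := by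
    have h5 : ∫ x : ℝ in X..((N : ℝ) + 1), (x : ℂ) ^ (-s) =
        (((((N : ℝ) + 1 : ℝ)) : ℂ) ^ (-s + 1) - (X : ℂ) ^ (-s + 1)) / (-s + 1) := by
      refine integral_cpow (Or.inl ?_)
      rw [Complex.neg_re]
      linarith
    have h6 : ((N : ℂ) + 1) ^ (1 - s) / (s - 1) - (X : ℂ) ^ (1 - s) / (s - 1) =
        -∫ x : ℝ in X..((N : ℝ) + 1), (x : ℂ) ^ (-s) := by
      rw [h5]
      have h7 : (((((N : ℝ) + 1 : ℝ)) : ℂ)) = (N : ℂ) + 1 := by push_cast; rfl
      rw [h7, show -s + 1 = 1 - s by ring, ← sub_div, show s - 1 = -(1 - s) by ring, div_neg]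
    rw [h6, norm_neg]
    have h8 : ∀ x ∈ Set.uIoc X ((N : ℝ) + 1), ‖(x : ℂ) ^ (-s)‖ ≤ X ^ (-s.re) := by
      intro x hx
      rw [Set.uIoc_of_le hXN] at hx
      have hx0 : 0 < x := hX0.trans hx.1
      rw [Complex.norm_cpow_eq_rpow_re_of_pos hx0, Complex.neg_re]
      exact Real.rpow_le_rpow_of_nonpos hX0 hx.1.le (by linarith)
    refine (intervalIntegral.norm_integral_le_of_norm_le_const h8).trans ?_
    have h9 : |(N : ℝ) + 1 - X| ≤ 1 := by
      rw [abs_le]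
      constructor <;> linarith
    calc X ^ (-s.re) * |(N : ℝ) + 1 - X| ≤ X ^ (-s.re) * 1 :=
          mul_le_mul_of_nonneg_left h9 (Real.rpow_nonneg hX0.le _)
      _ = X ^ (-s.re) := mul_one _
  have h5 : X ^ (-s.re) ≤ X ^ (-(1 / 4 : ℝ)) :=
    Real.rpow_le_rpow_of_exponent_le (by linarith) (by linarith)
  have h6 : (N : ℝ) ^ (-s.re) ≤ 2 * X ^ (-(1 / 4 : ℝ)) := by
    have h7 : X / 2 ≤ N := by linarith
    have h8 : (N : ℝ) ^ (-s.re) ≤ (X / 2) ^ (-s.re) :=
      Real.rpow_le_rpow_of_nonpos (by linarith) h7 (by linarith)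
    have h9 : (X / 2) ^ (-s.re) = X ^ (-s.re) * 2 ^ s.re := by
      rw [Real.div_rpow hX0.le (by norm_num), Real.rpow_neg (by norm_num : (0 : ℝ) ≤ 2), div_inv_eq_mul]
    have h10 : (2 : ℝ) ^ s.re ≤ 2 := by
      calc (2 : ℝ) ^ s.re ≤ (2 : ℝ) ^ (1 : ℝ) := Real.rpow_le_rpow_of_exponent_le (by norm_num) (by linarith)
        _ = 2 := Real.rpow_one 2
    rw [h9] at h8
    calc (N : ℝ) ^ (-s.re) ≤ X ^ (-s.re) * 2 ^ s.re := h8
      _ ≤ X ^ (-(1 / 4 : ℝ)) * 2 := mul_le_mul h5 h10 (by positivity) (by positivity)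
      _ = 2 * X ^ (-(1 / 4 : ℝ)) := by ring
  have h7 : ‖s‖ / s.re * (N : ℝ) ^ (-s.re) ≤ (8 * ‖s‖) * X ^ (-(1 / 4 : ℝ)) := by
    have h8 : ‖s‖ / s.re ≤ 4 * ‖s‖ := by
      rw [div_le_iff₀ hσ]
      nlinarith [norm_nonneg s]
    calc ‖s‖ / s.re * (N : ℝ) ^ (-s.re) ≤ (4 * ‖s‖) * (2 * X ^ (-(1 / 4 : ℝ))) :=
          mul_le_mul h8 h6 (by positivity) (by positivity)
      _ = (8 * ‖s‖) * X ^ (-(1 / 4 : ℝ)) := by ring
  have h8 : riemannZeta s - ∑ n ∈ Finset.Icc 1 N, (n : ℂ) ^ (-s) - (X : ℂ) ^ (1 - s) / (s - 1) =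
      (riemannZeta s - ∑ n ∈ Finset.Icc 1 N, (n : ℂ) ^ (-s) - ((N : ℂ) + 1) ^ (1 - s) / (s - 1)) +
        (((N : ℂ) + 1) ^ (1 - s) / (s - 1) - (X : ℂ) ^ (1 - s) / (s - 1)) := by ring
  rw [h8]
  refine (norm_add_le _ _).trans ((add_le_add (h3.trans h7) (h4.trans h5)).trans ?_)
  have h9 : 0 ≤ X ^ (-(1 / 4 : ℝ)) := by positivity
  nlinarith

/-- `B₀` is a lower bound wanted for `B` -/
theorem z_long (A B₀ : ℝ) : ∃ B T₀ : ℝ, B₀ ≤ B ∧ 3 ≤ B ∧ 3 ≤ T₀ ∧ ∀ T : ℝ, T₀ ≤ T → ∀ s : ℂ,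
    1 / 4 ≤ s.re → s.re ≤ 3 / 4 → T / 4 ≤ s.im → s.im ≤ 4 * T →
      ‖riemannZeta s - Zp T B (cut (B - 1) 1) s‖ ≤ T ^ (-A) := by
  obtain ⟨B, hB⟩ : ∃ B : ℝ, B = max (max B₀ 3) (4 * A + 9) := ⟨_, rfl⟩
  have hB0 : B₀ ≤ B := by rw [hB]; exact (le_max_left _ _).trans (le_max_left _ _)
  have hB3 : 3 ≤ B := by rw [hB]; exact (le_max_right _ _).trans (le_max_left _ _)
  have hBA : 4 * A + 9 ≤ B := by rw [hB]; exact le_max_right _ _
  obtain ⟨k, hk⟩ : ∃ k : ℕ, B + A + 2 ≤ k := ⟨⌈B + A + 2⌉₊, Nat.le_ceil _⟩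
  obtain ⟨χ, hχ⟩ : ∃ χ : ℝ → ℝ, χ = cut (B - 1) 1 := ⟨_, rfl⟩
  have hχs : ContDiff ℝ ∞ χ := by rw [hχ]; exact cut_smooth _ _
  have hχ1 : ∀ w, w ≤ B - 1 → χ w = 1 := fun w hw => by rw [hχ]; exact cut_one one_pos hw
  have hχ0 : ∀ w, B ≤ w → χ w = 0 := fun w hw => by rw [hχ]; exact cut_zero one_pos (by linarith)
  have hds := (contDiff_infty_iff_deriv.1 hχs)
  obtain ⟨f, hf⟩ : ∃ f : ℝ → ℝ, f = fun w => -deriv χ w := ⟨_, rfl⟩
  have hfs : ContDiff ℝ ∞ f := by rw [hf]; exact hds.2.neg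
  have hfc : Continuous f := hfs.continuous
  have hf0 : ∀ w, w < B - 1 → f w = 0 := by
    intro w hw
    have h1 : χ =ᶠ[𝓝 w] fun _ => (1 : ℝ) := by
      filter_upwards [Iio_mem_nhds hw] with y hy
      exact hχ1 y (le_of_lt hy)
    rw [hf]
    show -deriv χ w = 0
    rw [h1.deriv_eq, deriv_const, neg_zero]
  have hf1 : ∀ w, B < w → f w = 0 := by
    intro w hw
    have h1 : χ =ᶠ[𝓝 w] fun _ => (0 : ℝ) := by
      filter_upwards [Ioi_mem_nhds hw] with y hy
      exact hχ0 y (le_of_lt hy)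
    rw [hf]
    show -deriv χ w = 0
    rw [h1.deriv_eq, deriv_const, neg_zero]
  have hfcs : HasCompactSupport f := by
    refine HasCompactSupport.intro (K := Icc (B - 1) B) isCompact_Icc fun w hw => ?_
    by_cases h : w < B - 1
    · exact hf0 w h
    · refine hf1 w ?_
      by_contra h2
      exact hw ⟨not_lt.1 h, not_lt.1 h2⟩
  have hFTC : ∀ u, u ≤ B → ∫ w in u..B, f w = χ u := by
    intro u hu
    have h1 : ∫ w in u..B, deriv χ w = χ B - χ u :=
      intervalIntegral.integral_deriv_eq_sub (fun w _ => hds.1 w) (hds.2.continuous.intervalIntegrable _ _)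
    rw [hf, intervalIntegral.integral_neg, h1, hχ0 B le_rfl]
    ring
  -- constants
  obtain ⟨D, hD⟩ : ∃ D : ℝ, D = ∫ w, |iteratedDeriv k f w| := ⟨_, rfl⟩
  obtain ⟨E, hE⟩ : ∃ E : ℝ, E = ∫ w in Ioc 0 B, |f w| := ⟨_, rfl⟩
  have hD0 : 0 ≤ D := by rw [hD]; exact integral_nonneg fun w => abs_nonneg _
  have hE0 : 0 ≤ E := by rw [hE]; exact integral_nonneg fun w => abs_nonneg _
  refine ⟨B, max 3 (42 * E + 4 ^ k * D), hB0, hB3, le_max_left _ _, fun T hT s hs1 hs2 hs3 hs4 => ?_⟩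
  have hT3 : 3 ≤ T := (le_max_left _ _).trans hT
  have hTE : 42 * E + 4 ^ k * D ≤ T := (le_max_right _ _).trans hT
  have hT0 : 0 < T := by linarith
  have hT1 : 1 ≤ T := by linarith
  obtain ⟨L, hL⟩ : ∃ L : ℝ, L = Real.log T := ⟨_, rfl⟩
  have hL1 : 1 ≤ L := by
    rw [hL, Real.le_log_iff_exp_le hT0]
    linarith [Real.exp_one_lt_d9]
  have hL0 : 0 < L := by linarith
  have hB00 : (0 : ℝ) ≤ B := by linarith
  have hpow : ∀ w : ℝ, T ^ w = Real.exp (L * w) := fun w => by rw [Real.rpow_def_of_pos hT0, hL]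
  have hsne : s - 1 ≠ 0 := by
    intro h
    have h2 := congrArg Complex.re h
    rw [Complex.sub_re, Complex.one_re, Complex.zero_re] at h2
    linarith
  -- the weights
  have hw : ∀ n ∈ Finset.Icc 1 ⌊T ^ B⌋₊, 0 ≤ Real.log n / L ∧ Real.log n / L ≤ B := by
    intro n hn
    rw [Finset.mem_Icc] at hn
    have hn1 : (1 : ℝ) ≤ n := by exact_mod_cast hn.1
    have hn2 : (n : ℝ) ≤ T ^ B := (Nat.le_floor_iff (by positivity)).1 hn.2
    refine ⟨div_nonneg (Real.log_nonneg hn1) hL0.le, ?_⟩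
    rw [div_le_iff₀ hL0, hL]
    calc Real.log n ≤ Real.log (T ^ B) := Real.log_le_log (by linarith) hn2
      _ = B * Real.log T := Real.log_rpow hT0 B
  have hweight : ∀ n ∈ Finset.Icc 1 ⌊T ^ B⌋₊, ((χ (Real.log n / L) : ℝ) : ℂ) =
      ∫ w in Ioc 0 B, (((Ioi (Real.log n / L)).indicator f w : ℝ) : ℂ) := by
    intro n hn
    obtain ⟨h1, h2⟩ := hw n hn
    rw [integral_complex_ofReal, setIntegral_indicator measurableSet_Ioi]
    have h3 : Ioc 0 B ∩ Ioi (Real.log n / L) = Ioc (Real.log n / L) B := by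
      ext w
      simp only [mem_inter_iff, mem_Ioc, mem_Ioi]
      constructor
      · rintro ⟨⟨_, h4⟩, h5⟩
        exact ⟨h5, h4⟩
      · rintro ⟨h4, h5⟩
        exact ⟨⟨lt_of_le_of_lt h1 h4, h5⟩, h4⟩
    rw [h3, ← intervalIntegral.integral_of_le h2, hFTC _ h2]
  have hind : ∀ u : ℝ, Integrable (fun w => (((Ioi u).indicator f w : ℝ) : ℂ)) (volume.restrict (Ioc 0 B)) := by
    intro u
    have h1 : Integrable f (volume.restrict (Ioc 0 B)) :=
      (hfc.continuousOn.integrableOn_compact (μ := volume) (isCompact_Icc (a := (0 : ℝ)) (b := B))).mono_set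
        Ioc_subset_Icc_self
    exact (h1.indicator measurableSet_Ioi).ofReal
  have hfint : Integrable (fun w => (f w : ℂ)) (volume.restrict (Ioc 0 B)) := by
    have h1 : Integrable f (volume.restrict (Ioc 0 B)) :=
      (hfc.continuousOn.integrableOn_compact (μ := volume) (isCompact_Icc (a := (0 : ℝ)) (b := B))).mono_set
        Ioc_subset_Icc_self
    exact h1.ofReal
  have hZ : Zp T B χ s = ∫ w in Ioc 0 B, ∑ n ∈ Finset.Icc 1 ⌊T ^ B⌋₊,
      (((Ioi (Real.log n / L)).indicator f w : ℝ) : ℂ) * (n : ℂ) ^ (-s) := by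
    rw [integral_finsetSum _ fun n _ => (hind _).mul_const _]
    unfold Zp
    rw [← hL]
    refine Finset.sum_congr rfl fun n hn => ?_
    rw [hweight n hn, integral_mul_const]
  have hz : riemannZeta s = ∫ w in Ioc 0 B, (f w : ℂ) * riemannZeta s := by
    rw [integral_mul_const, integral_complex_ofReal, ← intervalIntegral.integral_of_le hB00, hFTC 0 hB00, hχ1 0 (by linarith),
      Complex.ofReal_one, one_mul]
  -- the pole term
  obtain ⟨z, hzdef⟩ : ∃ z : ℂ, z = (L : ℂ) * (1 - s) := ⟨_, rfl⟩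
  have hM : ∫ w in Ioc 0 B, (f w : ℂ) * (cexp (z * w) / (s - 1)) = (∫ w : ℝ, (f w : ℂ) * cexp (z * w)) / (s - 1) := by
    rw [← integral_div]
    have h1 : ∫ w in Ioc 0 B, (f w : ℂ) * (cexp (z * w) / (s - 1)) = ∫ w : ℝ, (f w : ℂ) * (cexp (z * w) / (s - 1)) := by
      refine setIntegral_eq_integral_of_forall_compl_eq_zero fun w hw => ?_
      have h2 : f w = 0 := by
        by_cases h : w < B - 1
        · exact hf0 w h
        · refine hf1 w ?_
          by_contra h2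
          exact hw ⟨by linarith [not_lt.1 h], not_lt.1 h2⟩
      rw [h2, Complex.ofReal_zero, zero_mul]
    rw [h1]
    refine integral_congr_ae (Eventually.of_forall fun w => ?_)
    show (f w : ℂ) * (cexp (z * w) / (s - 1)) = (f w : ℂ) * cexp (z * w) / (s - 1)
    rw [mul_div_assoc]
  have hMb : ‖(∫ w : ℝ, (f w : ℂ) * cexp (z * w)) / (s - 1)‖ ≤ 4 ^ k * D * T ^ (-A - 1) := by
    have h1 := ZLong_ibp z k f hfs hfcs
    have hzn : T / 4 ≤ ‖z‖ := by
      rw [hzdef, norm_mul, Complex.norm_real, Real.norm_eq_abs, abs_of_pos hL0]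
      have h2 : |(1 - s).im| ≤ ‖1 - s‖ := Complex.abs_im_le_norm _
      have h3 : (1 - s).im = -s.im := by simp
      rw [h3, abs_neg, abs_of_nonneg (by linarith)] at h2
      nlinarith [norm_nonneg (1 - s)]
    have hsn : 1 / 4 ≤ ‖s - 1‖ := by
      have h2 : |(s - 1).re| ≤ ‖s - 1‖ := Complex.abs_re_le_norm _
      rw [Complex.sub_re, Complex.one_re, abs_of_nonpos (by linarith)] at h2
      linarith
    have hsT : 3 / 4 ≤ ‖s - 1‖ := by
      have h2 : |(s - 1).im| ≤ ‖s - 1‖ := Complex.abs_im_le_norm _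
      have h3 : (s - 1).im = s.im := by simp
      rw [h3, abs_of_nonneg (by linarith)] at h2
      linarith
    have hre : z.re = L * (1 - s.re) := by
      rw [hzdef]
      simp
    have h2 : ∫ w : ℝ, |iteratedDeriv k f w| * Real.exp (z.re * w) ≤ D * T ^ (B * (3 / 4)) := by
      rw [hD, ← integral_mul_const]
      have hkc : Continuous (iteratedDeriv k f) := hfs.continuous_iteratedDeriv k (by exact_mod_cast le_top)
      have hkz : ∀ w, w ∉ Icc (B - 1) B → iteratedDeriv k f w = 0 := by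
        intro w hw
        have h3 : f =ᶠ[𝓝 w] fun _ => (0 : ℝ) := by
          filter_upwards [isClosed_Icc.isOpen_compl.mem_nhds hw] with y hy
          by_cases h : y < B - 1
          · exact hf0 y h
          · refine hf1 y ?_
            by_contra h2
            exact hy ⟨not_lt.1 h, not_lt.1 h2⟩
        rw [h3.iteratedDeriv_eq k]
        simp
      have hkcs : HasCompactSupport (iteratedDeriv k f) :=
        HasCompactSupport.intro (K := Icc (B - 1) B) isCompact_Icc hkz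
      have hki : Integrable fun w => |iteratedDeriv k f w| := (hkc.integrable_of_hasCompactSupport hkcs).abs
      refine integral_mono_of_nonneg (Eventually.of_forall fun w => by positivity) (hki.mul_const _)
        (Eventually.of_forall fun w => ?_)
      show |iteratedDeriv k f w| * Real.exp (z.re * w) ≤ |iteratedDeriv k f w| * T ^ (B * (3 / 4))
      by_cases h3 : w ≤ B
      · refine mul_le_mul_of_nonneg_left ?_ (abs_nonneg _)
        rw [hpow, hre, Real.exp_le_exp]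
        by_cases h4 : 0 ≤ w
        · have h5 : (1 - s.re) * w ≤ B * (3 / 4) := by nlinarith
          calc L * (1 - s.re) * w = L * ((1 - s.re) * w) := by ring
            _ ≤ L * (B * (3 / 4)) := mul_le_mul_of_nonneg_left h5 hL0.le
        · have h5 : (1 - s.re) * w ≤ 0 := mul_nonpos_of_nonneg_of_nonpos (by linarith) (not_le.1 h4).le
          calc L * (1 - s.re) * w = L * ((1 - s.re) * w) := by ring
            _ ≤ L * (B * (3 / 4)) := mul_le_mul_of_nonneg_left (by linarith) hL0.le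
      · rw [hkz w (fun h => h3 h.2), abs_zero, zero_mul, zero_mul]
    have h3 : (T / 4) ^ k * ‖∫ w : ℝ, (f w : ℂ) * cexp (z * w)‖ ≤ D * T ^ (B * (3 / 4)) := by
      refine (mul_le_mul_of_nonneg_right (pow_le_pow_left₀ (by positivity) hzn k) (norm_nonneg _)).trans (h1.trans h2)
    rw [norm_div, div_le_iff₀ (by linarith)]
    have h4 : ‖∫ w : ℝ, (f w : ℂ) * cexp (z * w)‖ ≤ D * T ^ (B * (3 / 4)) / (T / 4) ^ k := by
      rw [le_div_iff₀ (by positivity), mul_comm]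
      exact h3
    refine h4.trans ?_
    have h5 : D * T ^ (B * (3 / 4)) / (T / 4) ^ k = 4 ^ k * D * T ^ (B * (3 / 4) - k) := by
      rw [Real.rpow_sub hT0, Real.rpow_natCast, div_pow]
      field_simp
    rw [h5]
    have h6 : T ^ (B * (3 / 4) - k) ≤ T ^ (-A - 1) * ‖s - 1‖ := by
      have h7 : T ^ (B * (3 / 4) - k) ≤ T ^ (-A - 1 - 1) :=
        Real.rpow_le_rpow_of_exponent_le hT1 (by linarith)
      have h8 : T ^ (-A - 1 - 1) = T ^ (-A - 1) / T := by
        rw [Real.rpow_sub hT0 (-A - 1), Real.rpow_one]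
      rw [h8] at h7
      refine h7.trans ?_
      rw [div_eq_mul_inv]
      refine mul_le_mul_of_nonneg_left ?_ (by positivity)
      have h9 : T⁻¹ ≤ 1 / 3 := by
        rw [one_div]
        exact inv_anti₀ (by norm_num) hT3
      linarith
    calc 4 ^ k * D * T ^ (B * (3 / 4) - k) ≤ 4 ^ k * D * (T ^ (-A - 1) * ‖s - 1‖) :=
          mul_le_mul_of_nonneg_left h6 (by positivity)
      _ = 4 ^ k * D * T ^ (-A - 1) * ‖s - 1‖ := by ring
  -- the error
  have hpt : ∀ w ∈ Ioc 0 B, ‖(f w : ℂ) * riemannZeta s - (∑ n ∈ Finset.Icc 1 ⌊T ^ B⌋₊,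
      (((Ioi (Real.log n / L)).indicator f w : ℝ) : ℂ) * (n : ℂ) ^ (-s)) - (f w : ℂ) * (cexp (z * w) / (s - 1))‖ ≤
        |f w| * (42 * T ^ (-A - 1)) := by
    intro w hw0
    by_cases hwB : w < B - 1
    · have h1 := hf0 w hwB
      have h2 : ∑ n ∈ Finset.Icc 1 ⌊T ^ B⌋₊,
          (((Ioi (Real.log n / L)).indicator f w : ℝ) : ℂ) * (n : ℂ) ^ (-s) = 0 := by
        refine Finset.sum_eq_zero fun n _ => ?_
        have h3 : (Ioi (Real.log n / L)).indicator f w = 0 := by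
          unfold Set.indicator
          split_ifs
          · exact h1
          · rfl
        rw [h3, Complex.ofReal_zero, zero_mul]
      rw [h2, h1, Complex.ofReal_zero, zero_mul, zero_mul, sub_zero, sub_zero, norm_zero, abs_zero, zero_mul]
    · have hwB := not_lt.1 hwB
      obtain ⟨X, hX⟩ : ∃ X : ℝ, X = T ^ w := ⟨_, rfl⟩
      have hX0 : 0 < X := by rw [hX]; positivity
      have hX2 : 2 ≤ X := by
        rw [hX]
        calc (2 : ℝ) ≤ T := by linarith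
          _ = T ^ (1 : ℝ) := (Real.rpow_one T).symm
          _ ≤ T ^ w := Real.rpow_le_rpow_of_exponent_le hT1 (by linarith)
      have hsum : ∑ n ∈ Finset.Icc 1 ⌊T ^ B⌋₊,
          (((Ioi (Real.log n / L)).indicator f w : ℝ) : ℂ) * (n : ℂ) ^ (-s) =
          (f w : ℂ) * ∑ n ∈ Finset.Icc 1 (⌈X⌉₊ - 1), (n : ℂ) ^ (-s) := by
        rw [Finset.mul_sum]
        symm
        have hsub : Finset.Icc 1 (⌈X⌉₊ - 1) ⊆ Finset.Icc 1 ⌊T ^ B⌋₊ := by
          intro n hn
          rw [Finset.mem_Icc] at hn ⊢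
          refine ⟨hn.1, (Nat.le_floor_iff (by positivity)).2 ?_⟩
          have h1 : (n : ℝ) < X := Nat.lt_ceil.1 (by omega)
          refine h1.le.trans ?_
          rw [hX]
          exact Real.rpow_le_rpow_of_exponent_le hT1 hw0.2
        have hiff : ∀ n : ℕ, 1 ≤ n → (Real.log n / L < w ↔ (n : ℝ) < X) := by
          intro n hn
          have hn0 : (0 : ℝ) < n := by exact_mod_cast hn
          rw [div_lt_iff₀ hL0, hX, Real.lt_rpow_iff_log_lt hn0 hT0, ← hL]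
        rw [← Finset.sum_subset hsub]
        · refine Finset.sum_congr rfl fun n hn => ?_
          rw [Finset.mem_Icc] at hn
          have h1 : (n : ℝ) < X := Nat.lt_ceil.1 (by omega)
          rw [Set.indicator_of_mem (show w ∈ Ioi (Real.log n / L) from (hiff n hn.1).2 h1)]
        · intro n hn hn2
          rw [Finset.mem_Icc] at hn
          rw [Set.indicator_of_notMem, Complex.ofReal_zero, zero_mul]
          intro h1
          have h2 : n < ⌈X⌉₊ := Nat.lt_ceil.2 ((hiff n hn.1).1 h1)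
          exact hn2 (Finset.mem_Icc.2 ⟨hn.1, by omega⟩)
      have hexp : (X : ℂ) ^ (1 - s) = cexp (z * w) := by
        rw [Complex.cpow_def_of_ne_zero (by exact_mod_cast hX0.ne'), ← Complex.ofReal_log hX0.le, hX,
          Real.log_rpow hT0, ← hL, hzdef]
        congr 1
        push_cast
        ring
      rw [hsum, ← hexp]
      have h1 : (f w : ℂ) * riemannZeta s - (f w : ℂ) * (∑ n ∈ Finset.Icc 1 (⌈X⌉₊ - 1), (n : ℂ) ^ (-s)) -
          (f w : ℂ) * ((X : ℂ) ^ (1 - s) / (s - 1)) = (f w : ℂ) * (riemannZeta s -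
            ∑ n ∈ Finset.Icc 1 (⌈X⌉₊ - 1), (n : ℂ) ^ (-s) - (X : ℂ) ^ (1 - s) / (s - 1)) := by ring
      rw [h1, norm_mul, Complex.norm_real, Real.norm_eq_abs]
      refine mul_le_mul_of_nonneg_left ((ZLong_near hX2 hs1 hs2).trans ?_) (abs_nonneg _)
      have hsn : ‖s‖ ≤ 5 * T := by
        have h2 := Complex.norm_le_abs_re_add_abs_im s
        rw [abs_of_nonneg (by linarith : 0 ≤ s.re), abs_of_nonneg (by linarith : 0 ≤ s.im)] at h2
        linarith
      have h2 : X ^ (-(1 / 4 : ℝ)) ≤ T ^ (-A - 1) / T := by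
        have h3 : X ^ (-(1 / 4 : ℝ)) = T ^ (w * (-(1 / 4 : ℝ))) := by
          rw [hX, ← Real.rpow_mul hT0.le]
        have h4 : T ^ (-A - 1) / T = T ^ (-A - 1 - 1) := by
          rw [Real.rpow_sub hT0 (-A - 1), Real.rpow_one]
        rw [h3, h4]
        exact Real.rpow_le_rpow_of_exponent_le hT1 (by linarith)
      have h5 : 8 * ‖s‖ + 2 ≤ 42 * T := by linarith
      calc (8 * ‖s‖ + 2) * X ^ (-(1 / 4 : ℝ)) ≤ (42 * T) * (T ^ (-A - 1) / T) :=
            mul_le_mul h5 h2 (by positivity) (by positivity)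
        _ = 42 * T ^ (-A - 1) := by field_simp
  have hsumint : Integrable (fun w => ∑ n ∈ Finset.Icc 1 ⌊T ^ B⌋₊,
      (((Ioi (Real.log n / L)).indicator f w : ℝ) : ℂ) * (n : ℂ) ^ (-s)) (volume.restrict (Ioc 0 B)) :=
    integrable_finsetSum _ fun n _ => (hind _).mul_const _
  have hpoleint : Integrable (fun w : ℝ => (f w : ℂ) * (cexp (z * w) / (s - 1))) (volume.restrict (Ioc 0 B)) := by
    have h1 : Continuous fun w : ℝ => (f w : ℂ) * (cexp (z * w) / (s - 1)) :=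
      (Complex.continuous_ofReal.comp hfc).mul (by fun_prop)
    exact (h1.continuousOn.integrableOn_compact (μ := volume) (isCompact_Icc (a := (0 : ℝ)) (b := B))).mono_set
      Ioc_subset_Icc_self
  have hsplit : riemannZeta s - Zp T B χ s = (∫ w in Ioc 0 B, ((f w : ℂ) * riemannZeta s -
      (∑ n ∈ Finset.Icc 1 ⌊T ^ B⌋₊, (((Ioi (Real.log n / L)).indicator f w : ℝ) : ℂ) * (n : ℂ) ^ (-s)) -
        (f w : ℂ) * (cexp (z * w) / (s - 1)))) + (∫ w : ℝ, (f w : ℂ) * cexp (z * w)) / (s - 1) := by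
    have hi := (hfint.mul_const (riemannZeta s)).sub hsumint
    have e1 : ∫ w in Ioc 0 B, ((f w : ℂ) * riemannZeta s -
        (∑ n ∈ Finset.Icc 1 ⌊T ^ B⌋₊, (((Ioi (Real.log n / L)).indicator f w : ℝ) : ℂ) * (n : ℂ) ^ (-s)) -
          (f w : ℂ) * (cexp (z * w) / (s - 1))) = (∫ w in Ioc 0 B, ((f w : ℂ) * riemannZeta s -
      (∑ n ∈ Finset.Icc 1 ⌊T ^ B⌋₊, (((Ioi (Real.log n / L)).indicator f w : ℝ) : ℂ) * (n : ℂ) ^ (-s)))) -
        ∫ w in Ioc 0 B, (f w : ℂ) * (cexp (z * w) / (s - 1)) := integral_sub hi hpoleint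
    have e2 : ∫ w in Ioc 0 B, ((f w : ℂ) * riemannZeta s -
        (∑ n ∈ Finset.Icc 1 ⌊T ^ B⌋₊, (((Ioi (Real.log n / L)).indicator f w : ℝ) : ℂ) * (n : ℂ) ^ (-s))) =
        (∫ w in Ioc 0 B, (f w : ℂ) * riemannZeta s) - ∫ w in Ioc 0 B,
          (∑ n ∈ Finset.Icc 1 ⌊T ^ B⌋₊, (((Ioi (Real.log n / L)).indicator f w : ℝ) : ℂ) * (n : ℂ) ^ (-s)) :=
      integral_sub (hfint.mul_const _) hsumint
    rw [e1, e2, hM, ← hZ, ← hz]
    ring
  have habs : Integrable (fun w => |f w|) (volume.restrict (Ioc 0 B)) :=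
    (hfc.abs.continuousOn.integrableOn_compact (μ := volume) (isCompact_Icc (a := (0 : ℝ)) (b := B))).mono_set
      Ioc_subset_Icc_self
  have herr : ‖∫ w in Ioc 0 B, ((f w : ℂ) * riemannZeta s -
      (∑ n ∈ Finset.Icc 1 ⌊T ^ B⌋₊, (((Ioi (Real.log n / L)).indicator f w : ℝ) : ℂ) * (n : ℂ) ^ (-s)) -
        (f w : ℂ) * (cexp (z * w) / (s - 1)))‖ ≤ E * (42 * T ^ (-A - 1)) := by
    rw [hE, ← integral_mul_const]
    refine norm_integral_le_of_norm_le (habs.mul_const _) ?_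
    exact (ae_restrict_iff' measurableSet_Ioc).2 (Eventually.of_forall hpt)
  rw [← hχ, hsplit]
  refine (norm_add_le _ _).trans ((add_le_add herr hMb).trans ?_)
  have h1 : T ^ (-A) = T * T ^ (-A - 1) := by
    rw [Real.rpow_sub hT0, Real.rpow_one]
    field_simp
  rw [h1]
  have h2 : 0 ≤ T ^ (-A - 1) := by positivity
  calc E * (42 * T ^ (-A - 1)) + 4 ^ k * D * T ^ (-A - 1) = (42 * E + 4 ^ k * D) * T ^ (-A - 1) := by ring
    _ ≤ T * T ^ (-A - 1) := mul_le_mul_of_nonneg_right hTE h2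

end Pool.Agent.Lib.MP_2a816b_nt.SG
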