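import Pool.Agent.Lib.MP_2a816b_nt.SG.Psn
import Pool.Agent.Lib.MP_2a816b_nt.SG.ZLong

/-!
# LEAF Zsm: zeta is a smooth sum over `n ≤ T^(1+θ)`, uniformly in the cutoff

`φ y = cut (B-1) 1 y - cut (Y+1+θ) θ (y₀ + y)` with `0 ≤ y₀ ≤ Y`: both are `1` for `y ≤ 1 + θ` and `0` for `y ≥ B`, derivatives bounded
independently of `y₀`. Apply `psn θ B (A + 1)` and `z_long (A + 1) B`; `Zp T B' φ` with `B' ≥ Y + 1 + 2θ` does not depend on `B'`.
-/

namespace Pool.Agent.Lib.MP_2a816b_nt.SG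

open Complex Set Filter Topology MeasureTheory
open scoped ContDiff

/-- the derivatives of a cutoff are bounded -/
private lemma Zsm_bdd (a : ℝ) {θ : ℝ} (hθ : 0 < θ) (i : ℕ) : ∃ S : ℝ, 0 ≤ S ∧ ∀ y, |iteratedDeriv i (cut a θ) y| ≤ S := by
  have hc : Continuous (iteratedDeriv i (cut a θ)) := (cut_smooth a θ).continuous_iteratedDeriv i (by exact_mod_cast le_top)
  rcases Nat.eq_zero_or_pos i with hi | hi
  · subst hi
    refine ⟨1, zero_le_one, fun y => ?_⟩
    rw [iteratedDeriv_zero, abs_of_nonneg (cut_nonneg a θ y)]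
    exact cut_le_one a θ y
  · have hcs : HasCompactSupport (iteratedDeriv i (cut a θ)) := by
      refine HasCompactSupport.intro (K := Icc a (a + θ)) isCompact_Icc fun w hw => ?_
      have h1 : ∃ c : ℝ, cut a θ =ᶠ[𝓝 w] fun _ => c := by
        by_cases h : w < a
        · refine ⟨1, ?_⟩
          filter_upwards [Iio_mem_nhds h] with y hy
          exact cut_one hθ (le_of_lt hy)
        · have h2 : a + θ < w := by
            by_contra h2
            exact hw ⟨not_lt.1 h, not_lt.1 h2⟩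
          refine ⟨0, ?_⟩
          filter_upwards [Ioi_mem_nhds h2] with y hy
          exact cut_zero hθ (le_of_lt hy)
      obtain ⟨c, hc⟩ := h1
      rw [hc.iteratedDeriv_eq i, iteratedDeriv_const]
      rw [if_neg (by omega)]
    obtain ⟨S, hS⟩ := hc.bounded_above_of_compact_support hcs
    exact ⟨S, (norm_nonneg _).trans (hS 0), hS⟩

private lemma Zsm_bdd_all (a : ℝ) {θ : ℝ} (hθ : 0 < θ) (k : ℕ) :
    ∃ S : ℝ, 0 ≤ S ∧ ∀ i, i ≤ k → ∀ y, |iteratedDeriv i (cut a θ) y| ≤ S := by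
  induction k with
  | zero =>
    obtain ⟨S, h0, hS⟩ := Zsm_bdd a hθ 0
    refine ⟨S, h0, fun i hi y => ?_⟩
    have : i = 0 := by omega
    subst this
    exact hS y
  | succ k ih =>
    obtain ⟨S, h0, hS⟩ := ih
    obtain ⟨S', h0', hS'⟩ := Zsm_bdd a hθ (k + 1)
    refine ⟨S + S', by linarith, fun i hi y => ?_⟩
    by_cases h : i ≤ k
    · exact (hS i h y).trans (by linarith)
    · have : i = k + 1 := by omega
      subst this
      exact (hS' y).trans (by linarith)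

theorem zsm (Y θ A B' : ℝ) (hY : 0 ≤ Y) (hθ : 0 < θ) (hB : Y + 1 + 2 * θ ≤ B') : ∃ T₀ : ℝ, 3 ≤ T₀ ∧ ∀ T : ℝ, T₀ ≤ T →
    ∀ y₀ : ℝ, 0 ≤ y₀ → y₀ ≤ Y → ∀ s : ℂ, 1 / 4 ≤ s.re → s.re ≤ 3 / 4 → T / 4 ≤ s.im → s.im ≤ 4 * T →
      ‖riemannZeta s - Zp T B' (fun y => cut (Y + 1 + θ) θ (y₀ + y)) s‖ ≤ T ^ (-A) := by
  obtain ⟨B, T₁, hB1, hB3, hT13, hz⟩ := z_long (A + 1) (B' + 1)
  obtain ⟨k, C, hC0, hpsn⟩ := psn θ B (A + 1) hθ (by linarith)
  obtain ⟨S₁, hS10, hS1⟩ := Zsm_bdd_all (B - 1) one_pos k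
  obtain ⟨S₂, hS20, hS2⟩ := Zsm_bdd_all (Y + 1 + θ) hθ k
  refine ⟨max T₁ (1 + C * (S₁ + S₂)), hT13.trans (le_max_left _ _), fun T hT y₀ hy0 hy1 s hs1 hs2 hs3 hs4 => ?_⟩
  have hTT : T₁ ≤ T := (le_max_left _ _).trans hT
  have hTC : 1 + C * (S₁ + S₂) ≤ T := (le_max_right _ _).trans hT
  have hT3 : 3 ≤ T := hT13.trans hTT
  have hT0 : 0 < T := by linarith
  have hT1 : 1 ≤ T := by linarith
  have hL0 : 0 < Real.log T := Real.log_pos (by linarith)
  have h1 := hz T hTT s hs1 hs2 hs3 hs4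
  obtain ⟨ψ, hψ⟩ : ∃ ψ : ℝ → ℝ, ψ = fun y => cut (Y + 1 + θ) θ (y₀ + y) := ⟨_, rfl⟩
  have hψs : ContDiff ℝ ∞ ψ := by
    rw [hψ]
    exact (cut_smooth _ _).comp (by fun_prop)
  have h2 : ‖Zp T B (fun y => cut (B - 1) 1 y - ψ y) s‖ ≤ C * (S₁ + S₂) * T ^ (-(A + 1)) := by
    refine hpsn _ (S₁ + S₂) T s ((cut_smooth _ _).sub hψs) ?_ ?_ hT3 (by linarith) (by linarith) (by linarith)
      (by linarith)
    · intro y hy
      rw [hψ]
      show cut (B - 1) 1 y - cut (Y + 1 + θ) θ (y₀ + y) = 0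
      rcases hy with hy | hy
      · rw [cut_one one_pos (by linarith), cut_one hθ (by linarith), sub_self]
      · rw [cut_zero one_pos (by linarith), cut_zero hθ (by linarith), sub_self]
    · intro i hi y
      have h3 : iteratedDeriv i (fun y => cut (B - 1) 1 y - ψ y) y =
          iteratedDeriv i (cut (B - 1) 1) y - iteratedDeriv i ψ y := by
        refine iteratedDeriv_fun_sub ?_ ?_
        · exact ((cut_smooth _ _).of_le (by exact_mod_cast le_top)).contDiffAt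
        · exact (hψs.of_le (by exact_mod_cast le_top)).contDiffAt
      have h4 : iteratedDeriv i ψ y = iteratedDeriv i (cut (Y + 1 + θ) θ) (y₀ + y) := by
        rw [hψ, iteratedDeriv_comp_const_add]
      rw [h3, h4]
      exact (abs_sub _ _).trans (add_le_add (hS1 i hi y) (hS2 i hi _))
  have h3 : Zp T B ψ s = Zp T B' ψ s := by
    unfold Zp
    symm
    refine Finset.sum_subset (Finset.Icc_subset_Icc le_rfl
      (Nat.floor_le_floor (Real.rpow_le_rpow_of_exponent_le hT1 (by linarith)))) fun n hn hn2 => ?_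
    rw [Finset.mem_Icc] at hn
    have h4 : ⌊T ^ B'⌋₊ < n := by
      by_contra hcon
      exact hn2 (Finset.mem_Icc.2 ⟨hn.1, not_lt.1 hcon⟩)
    have h5 : T ^ B' < n := (Nat.floor_lt (by positivity)).1 h4
    have h6 : B' ≤ Real.log n / Real.log T := by
      rw [le_div_iff₀ hL0, ← Real.log_rpow hT0]
      exact Real.log_le_log (by positivity) h5.le
    have h7 : ψ (Real.log n / Real.log T) = 0 := by
      rw [hψ]
      exact cut_zero hθ (by linarith)
    rw [h7, Complex.ofReal_zero, zero_mul]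
  have h4 : Zp T B (fun y => cut (B - 1) 1 y - ψ y) s = Zp T B (cut (B - 1) 1) s - Zp T B ψ s := by
    unfold Zp
    rw [← Finset.sum_sub_distrib]
    refine Finset.sum_congr rfl fun n _ => ?_
    push_cast
    ring
  rw [← hψ, ← h3]
  have h5 : riemannZeta s - Zp T B ψ s = (riemannZeta s - Zp T B (cut (B - 1) 1) s) +
      Zp T B (fun y => cut (B - 1) 1 y - ψ y) s := by
    rw [h4]
    ring
  rw [h5]
  refine (norm_add_le _ _).trans ((add_le_add h1 h2).trans ?_)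
  have h6 : T ^ (-A) = T * T ^ (-(A + 1)) := by
    rw [show -A = 1 + -(A + 1) by ring, Real.rpow_add hT0, Real.rpow_one]
  rw [h6]
  have h7 : 0 ≤ T ^ (-(A + 1)) := by positivity
  calc T ^ (-(A + 1)) + C * (S₁ + S₂) * T ^ (-(A + 1)) = (1 + C * (S₁ + S₂)) * T ^ (-(A + 1)) := by ring
    _ ≤ T * T ^ (-(A + 1)) := mul_le_mul_of_nonneg_right hTC h7

end Pool.Agent.Lib.MP_2a816b_nt.SG
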